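import Mathlib
import Pool.Agent.MP_1c2b6e_al.Basis

-- part MP_1c2b6e_al.Words
section

/-! Artin's theorem on braid automorphisms of a free group. -/

namespace Pool.Agent.MP_1c2b6e_al

open FreeGroup

variable {m : ℕ}

/-- The product of the generators. -/
def PP (m : ℕ) : FreeGroup (Fin m) := (List.ofFn (of : Fin m → FreeGroup (Fin m))).prod

/-- The Hurwitz move on a tuple at the positions `i`, `j` (used for `j = i + 1`). -/
def hur {G : Type} [Group G] (i j : Fin m) (y : Fin m → G) : Fin m → G :=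
  fun k => if k = i then y i * y j * (y i)⁻¹ else if k = j then y i else y k

/-- The inverse Hurwitz move. -/
def hur' {G : Type} [Group G] (i j : Fin m) (y : Fin m → G) : Fin m → G :=
  fun k => if k = i then y j else if k = j then (y j)⁻¹ * y i * y j else y k

theorem artin_prod_congr {G : Type} [Group G] : ∀ {m : ℕ} {i j : Fin m} (_ : (j : ℕ) = i + 1)
    {f g : Fin m → G} (_ : ∀ k, k ≠ i → k ≠ j → f k = g k) (_ : f i * f j = g i * g j),
    (List.ofFn f).prod = (List.ofFn g).prod
  | 0, i, _, _, _, _, _, _ => i.elim0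
  | m + 1, i, j, h, f, g, h1, h2 => by
    induction j using Fin.cases with
    | zero => simp at h
    | succ j =>
      induction i using Fin.cases with
      | zero =>
        obtain ⟨m, rfl⟩ : ∃ n, m = n + 1 := ⟨m - 1, by have := j.pos; omega⟩
        obtain rfl : j = 0 := Fin.ext (by simpa using h)
        have e : (fun k : Fin m => f k.succ.succ) = fun k => g k.succ.succ :=
          funext fun k => h1 _ (Fin.succ_ne_zero _) fun e =>
            Fin.succ_ne_zero _ (Fin.succ_injective _ e)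
        simp only [List.ofFn_succ, List.prod_cons, ← mul_assoc, h2, e]
      | succ i =>
        have e0 : f 0 = g 0 := h1 0 (Fin.succ_ne_zero _).symm (Fin.succ_ne_zero _).symm
        have e := artin_prod_congr (i := i) (j := j) (by simpa using h)
          (f := fun k => f k.succ) (g := fun k => g k.succ)
          (fun k a b => h1 _ (fun e => a (Fin.succ_injective _ e))
            fun e => b (Fin.succ_injective _ e)) h2
        rw [List.ofFn_succ, List.ofFn_succ, List.prod_cons, List.prod_cons, e0, e]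

theorem artin_ne {i j : Fin m} (h : (j : ℕ) = i + 1) : i ≠ j := fun e => by
  rw [e] at h; omega

theorem artin_map_hur {G H : Type} [Group G] [Group H] (φ : G →* H) (i j : Fin m)
    (y : Fin m → G) (k : Fin m) : φ (hur i j y k) = hur i j (fun l => φ (y l)) k := by
  unfold hur
  split_ifs <;> simp

theorem artin_map_hur' {G H : Type} [Group G] [Group H] (φ : G →* H) (i j : Fin m)
    (y : Fin m → G) (k : Fin m) : φ (hur' i j y k) = hur' i j (fun l => φ (y l)) k := by
  unfold hur'
  split_ifs <;> simp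

theorem artin_hur'_hur {G : Type} [Group G] {i j : Fin m} (h : i ≠ j) (y : Fin m → G) :
    hur' i j (hur i j y) = y := by
  funext k
  by_cases a : k = i
  · subst a; simp [hur, hur', h.symm]
  · by_cases b : k = j
    · subst b; simp [hur, hur', h.symm, mul_assoc]
    · simp [hur, hur', a, b]

theorem artin_hur_hur' {G : Type} [Group G] {i j : Fin m} (h : i ≠ j) (y : Fin m → G) :
    hur i j (hur' i j y) = y := by
  funext k
  by_cases a : k = i
  · subst a; simp [hur, hur', h.symm, mul_assoc]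
  · by_cases b : k = j
    · subst b; simp [hur, hur', h.symm]
    · simp [hur, hur', a, b]

theorem prod_hur {G : Type} [Group G] {i j : Fin m} (h : (j : ℕ) = i + 1) (y : Fin m → G) :
    (List.ofFn (hur i j y)).prod = (List.ofFn y).prod := by
  have hn := artin_ne h
  refine artin_prod_congr h (fun k a b => by simp [hur, a, b]) ?_
  simp [hur, hn.symm]

theorem prod_hur' {G : Type} [Group G] {i j : Fin m} (h : (j : ℕ) = i + 1) (y : Fin m → G) :
    (List.ofFn (hur' i j y)).prod = (List.ofFn y).prod := by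
  have hn := artin_ne h
  refine artin_prod_congr h (fun k a b => by simp [hur', a, b]) ?_
  simp [hur', hn.symm, mul_assoc]

theorem lift_hur_hur' {i j : Fin m} (h : i ≠ j) :
    (lift (hur i j of)).comp (lift (hur' i j of)) = MonoidHom.id (FreeGroup (Fin m)) := by
  ext k
  rw [MonoidHom.comp_apply, lift_apply_of, artin_map_hur']
  simp only [lift_apply_of]
  rw [artin_hur'_hur h]
  rfl

theorem lift_hur'_hur {i j : Fin m} (h : i ≠ j) :
    (lift (hur' i j of)).comp (lift (hur i j of)) = MonoidHom.id (FreeGroup (Fin m)) := by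
  ext k
  rw [MonoidHom.comp_apply, lift_apply_of, artin_map_hur]
  simp only [lift_apply_of]
  rw [artin_hur_hur' h]
  rfl

/-- Artin's generator: `x i ↦ x i * x j * (x i)⁻¹`, `x j ↦ x i`. -/
def sig (i j : Fin m) (h : i ≠ j) : MulAut (FreeGroup (Fin m)) :=
  MonoidHom.toMulEquiv (lift (hur i j of)) (lift (hur' i j of)) (lift_hur'_hur h) (lift_hur_hur' h)

theorem sig_of (i j : Fin m) (h : i ≠ j) (k : Fin m) : sig i j h (of k) = hur i j of k := by
  exact lift_apply_of

theorem sig_inv_of (i j : Fin m) (h : i ≠ j) (k : Fin m) :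
    (sig i j h)⁻¹ (of k) = hur' i j of k := by
  exact lift_apply_of

/-- The group generated by Artin's generators. -/
def Br (m : ℕ) : Subgroup (MulAut (FreeGroup (Fin m))) :=
  Subgroup.closure {β | ∃ (i j : Fin m) (h : i ≠ j), (j : ℕ) = i + 1 ∧ β = sig i j h}

section Words

variable {α : Type} [DecidableEq α]

/-- The word of a conjugate of a generator. -/
def artin_W (a : List (α × Bool) × α) (b : Bool) : List (α × Bool) :=
  a.1 ++ (a.2, b) :: invRev a.1

omit [DecidableEq α] in
theorem artin_mk_W (a : List (α × Bool) × α) :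
    mk (artin_W a true) = mk a.1 * of a.2 * (mk a.1)⁻¹ := by
  rw [inv_mk, of, mul_mk, mul_mk, artin_W, List.append_assoc, List.singleton_append]

omit [DecidableEq α] in
theorem artin_inv_W (a : List (α × Bool) × α) : invRev (artin_W a true) = artin_W a false := by
  simp [artin_W, invRev, Function.comp_def]

theorem artin_red_inv {u : List (α × Bool)} (h : IsReduced u) : IsReduced (invRev u) :=
  IsReduced.of_reduce_eq (by rw [reduce_invRev, h.reduce_eq])

theorem artin_toWord {u : List (α × Bool)} (h : IsReduced u) : (mk u).toWord = u := by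
  rw [toWord_mk, h.reduce_eq]

theorem artin_norm_W {a : List (α × Bool) × α} (h : IsReduced (artin_W a true)) :
    norm (mk (artin_W a true)) = 2 * a.1.length + 1 := by
  rw [FreeGroup.norm, artin_toWord h]
  simp [artin_W]
  omega

theorem artin_norm_conj (u : List (α × Bool)) (c : α) :
    norm (mk u * of c * (mk u)⁻¹) ≤ 2 * u.length + 1 := by
  have h := norm_mk_le (L₁ := artin_W (u, c) true)
  rw [artin_mk_W] at h
  refine h.trans ?_
  simp [artin_W]
  omega

theorem artin_exists_W (c : α) (n : ℕ) : ∀ g : FreeGroup α, norm g = n →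
    ∃ A, IsReduced (artin_W (A, c) true) ∧ mk (artin_W (A, c) true) = g * of c * g⁻¹ := by
  induction n using Nat.strong_induction_on with
  | _ n ih =>
    intro g hg
    have hr : IsReduced g.toWord := isReduced_toWord
    have hm : mk g.toWord = g := mk_toWord
    rw [FreeGroup.norm] at hg
    generalize g.toWord = A at hr hm hg
    subst hm
    rcases List.eq_nil_or_concat A with rfl | ⟨A, ⟨e, b⟩, rfl⟩
    · exact ⟨[], by simp [artin_W], artin_mk_W _⟩
    rw [List.concat_eq_append] at *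
    by_cases hec : e = c
    · subst hec
      obtain ⟨A', h1, h2⟩ := ih _ (lt_of_le_of_lt (norm_mk_le (L₁ := A)) (by simp [← hg])) _ rfl
      refine ⟨A', h1, h2.trans ?_⟩
      rw [← mul_mk]
      cases b
      · have : mk [(e, false)] = (of e)⁻¹ := rfl
        rw [this]; group
      · have : mk [(e, true)] = of e := rfl
        rw [this]; group
    · refine ⟨_, ?_, artin_mk_W _⟩
      have hi := artin_red_inv hr
      have e1 : invRev (A ++ [(e, b)]) = (e, !b) :: invRev A := by simp [invRev]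
      rw [artin_W, e1]
      rw [e1] at hi
      rw [List.append_assoc, List.singleton_append]
      exact List.isChain_append_cons_cons.2 ⟨hr, fun h => absurd h hec,
        List.isChain_cons_cons.2 ⟨fun h => absurd h.symm hec, hi⟩⟩

theorem artin_common {β : Type} : ∀ u v : List β, ∃ p u' v', u = p ++ u' ∧ v = p ++ v' ∧
    ∀ x ∈ u'.head?, ∀ y ∈ v'.head?, x ≠ y
  | [], v => ⟨[], [], v, rfl, rfl, by simp⟩
  | x :: u, [] => ⟨[], x :: u, [], rfl, rfl, by simp⟩
  | x :: u, y :: v => by
    by_cases h : x = y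
    · obtain ⟨p, u', v', h1, h2, h3⟩ := artin_common u v
      exact ⟨x :: p, u', v', by rw [h1]; rfl, by rw [h2, h]; rfl, h3⟩
    · exact ⟨[], x :: u, y :: v, rfl, rfl, by simpa using h⟩

theorem artin_cancel {u v : List (α × Bool)} (hu : IsReduced u) (hv : IsReduced v) :
    ∃ p u' v', u = p ++ u' ∧ v = p ++ v' ∧ ((mk u)⁻¹ * mk v).toWord = invRev u' ++ v' := by
  obtain ⟨p, u', v', rfl, rfl, h⟩ := artin_common u v
  refine ⟨p, u', v', rfl, rfl, ?_⟩
  have e : (mk (p ++ u'))⁻¹ * mk (p ++ v') = mk (invRev u' ++ v') := by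
    rw [← mul_mk, ← mul_mk, ← mul_mk, ← inv_mk]; group
  rw [e]
  refine artin_toWord (List.isChain_append.2
    ⟨artin_red_inv (List.IsChain.right_of_append hu),
      List.IsChain.right_of_append hv, fun x hx y hy hxy => ?_⟩)
  cases u' with
  | nil => simp at hx
  | cons z u' =>
    have hz := h z rfl y hy
    obtain rfl : (z.1, !z.2) = x := by simpa [invRev] using hx
    obtain ⟨z1, z2⟩ := z
    obtain ⟨y1, y2⟩ := y
    obtain rfl : z1 = y1 := hxy
    cases z2 <;> cases y2 <;> simp_all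

/-- Neither Hurwitz move shortens the pair. -/
def artin_R (a b : List (α × Bool) × α) : Prop :=
  ¬ a.1 ++ [(a.2, false)] <+: b.1 ++ [(b.2, true)] ∧
    ¬ b.1 ++ [(b.2, true)] <+: a.1 ++ [(a.2, false)]

theorem artin_R_of {a b : List (α × Bool) × α} (ha : IsReduced (artin_W a true))
    (hb : IsReduced (artin_W b true))
    (h1 : norm (mk (artin_W b true)) ≤
      norm (mk (artin_W a true) * mk (artin_W b true) * (mk (artin_W a true))⁻¹))
    (h2 : norm (mk (artin_W a true)) ≤
      norm ((mk (artin_W b true))⁻¹ * mk (artin_W a true) * mk (artin_W b true))) :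
    artin_R a b := by
  obtain ⟨A, c⟩ := a
  obtain ⟨B, d⟩ := b
  rw [artin_norm_W hb] at h1
  rw [artin_norm_W ha] at h2
  simp only [artin_mk_W] at h1 h2
  refine ⟨fun h => ?_, fun h => ?_⟩
  · rcases List.prefix_concat_iff.1 h with h | ⟨B', rfl⟩
    · simpa using congrArg List.getLast? h
    · have h3 := artin_norm_conj (A ++ B') d
      have e0 : mk [(c, false)] = (of c)⁻¹ := rfl
      have e : mk A * of c * (mk A)⁻¹ * (mk (A ++ [(c, false)] ++ B') * of d *
          (mk (A ++ [(c, false)] ++ B'))⁻¹) * (mk A * of c * (mk A)⁻¹)⁻¹ =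
          mk (A ++ B') * of d * (mk (A ++ B'))⁻¹ := by
        simp only [← mul_mk, e0]; group
      rw [e] at h1
      simp at h1 h3
      omega
  · rcases List.prefix_concat_iff.1 h with h | ⟨A', rfl⟩
    · simpa using congrArg List.getLast? h
    · have h3 := artin_norm_conj (B ++ A') c
      have e0 : mk [(d, true)] = of d := rfl
      have e : (mk B * of d * (mk B)⁻¹)⁻¹ * (mk (B ++ [(d, true)] ++ A') * of c *
          (mk (B ++ [(d, true)] ++ A'))⁻¹) * (mk B * of d * (mk B)⁻¹) =
          mk (B ++ A') * of c * (mk (B ++ A'))⁻¹ := by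
        simp only [← mul_mk, e0]; group
      rw [e] at h2
      simp at h2 h3
      omega

theorem artin_long : ∀ (l : List (List (α × Bool) × α)) (a : List (α × Bool) × α),
    (∀ x ∈ a :: l, IsReduced (artin_W x true)) → List.IsChain artin_R (a :: l) →
    a.1 ++ [(a.2, true)] <+: ((a :: l).map fun x => mk (artin_W x true)).prod.toWord ∧
      ∀ x ∈ a :: l, l.length + 1 + 2 * x.1.length ≤
        ((a :: l).map fun x => mk (artin_W x true)).prod.toWord.length
  | [], a, hr, _ => by
    have h := artin_toWord (hr a List.mem_cons_self)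
    simp only [List.map_cons, List.map_nil, List.prod_cons, List.prod_nil, mul_one, h]
    refine ⟨⟨invRev a.1, by simp [artin_W]⟩, fun x hx => ?_⟩
    obtain rfl : x = a := by simpa using hx
    simp [artin_W]
    omega
  | b :: l, a, hr, hc => by
    obtain ⟨⟨R1, R2⟩, hc⟩ := List.isChain_cons_cons.1 hc
    obtain ⟨⟨T, hT⟩, ih⟩ := artin_long l b (fun x hx => hr x (List.mem_cons_of_mem _ hx)) hc
    have ha := artin_red_inv (hr a List.mem_cons_self)
    rw [List.map_cons, List.prod_cons]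
    generalize (List.map (fun x => mk (artin_W x true)) (b :: l)).prod = P at hT ih ⊢
    obtain ⟨p, u', v', e1, e2, e3⟩ := artin_cancel ha (isReduced_toWord (x := P))
    rw [← inv_mk, inv_inv, mk_toWord] at e3
    rw [artin_inv_W] at e1
    have pu : p <+: artin_W a false := ⟨u', e1.symm⟩
    have pv : p <+: P.toWord := ⟨v', e2.symm⟩
    have qu : a.1 ++ [(a.2, false)] <+: artin_W a false := ⟨invRev a.1, by simp [artin_W]⟩
    have qv : b.1 ++ [(b.2, true)] <+: P.toWord := ⟨T, hT⟩
    have hp : p.length ≤ a.1.length ∧ p.length ≤ b.1.length := by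
      by_contra hcon
      rcases le_total a.1.length b.1.length with h | h
      · refine R1 (List.prefix_of_prefix_length_le
          ((List.prefix_of_prefix_length_le qu pu ?_).trans pv) qv ?_) <;> simp <;> omega
      · refine R2 (List.prefix_of_prefix_length_le
          ((List.prefix_of_prefix_length_le qv pv ?_).trans pu) qu ?_) <;> simp <;> omega
    obtain ⟨A', hA⟩ : p <+: a.1 :=
      List.prefix_of_prefix_length_le pu ⟨(a.2, false) :: invRev a.1, rfl⟩ hp.1
    have e4 : u' = A' ++ (a.2, false) :: invRev a.1 := by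
      have : p ++ u' = p ++ (A' ++ (a.2, false) :: invRev a.1) := by
        rw [← e1, ← List.append_assoc, hA]; rfl
      exact List.append_cancel_left this
    have e5 : invRev u' = a.1 ++ (a.2, true) :: invRev A' := by
      rw [e4]; simp [invRev, Function.comp_def]
    have l1 := congrArg List.length hA
    have l2 := congrArg List.length e2
    have l3 := ih b List.mem_cons_self
    rw [e3, e5]
    refine ⟨⟨invRev A' ++ v', by simp⟩, fun x hx => ?_⟩
    simp only [List.length_append, List.length_cons, invRev_length] at l1 l2 l3 ⊢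
    rcases List.mem_cons.1 hx with rfl | hx
    · omega
    · have := ih x hx
      omega

theorem artin_pos (l : List α) : (l.map of).prod.toWord = l.map fun a => (a, true) := by
  have h1 : (l.map of).prod = mk (l.map fun a => (a, true)) := by
    induction l with
    | nil => rfl
    | cons a l ih => rw [List.map_cons, List.prod_cons, ih, of, mul_mk]; rfl
  rw [h1]
  refine artin_toWord ?_
  rw [FreeGroup.IsReduced, List.isChain_map]
  exact List.isChain_iff_getElem.2 fun _ _ _ => rfl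

end Words

/-- If no Hurwitz move shortens a tuple of conjugates of generators with product `PP m`, the tuple
is the basis. Plan: write `y i = A i * of (c i) * (A i)⁻¹` with the word
`A i ++ [(c i, true)] ++ invRev (A i)` reduced (take `A i` of minimal norm). The two inequalities
say that `A i ++ [(c i, false)]` is not a prefix of `A (i+1) ++ [(c (i+1), true)]` and
`A (i+1) ++ [(c (i+1), true)]` is not a prefix of `A i ++ [(c i, false)]`. By descending
induction (best on a list of pairs `(A i, c i)`) the reduced word of `y i * ... * y (m-1)` starts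
with `A i ++ [(c i, true)]` and its length `L i` satisfies `L i ≥ (m - i) + 2 * |A k|` for all
`k ≥ i`: indeed `L i = 2 * |A i| + 1 + L (i+1) - 2 * c` where `c ≤ min |A i| |A (i+1)|` is the length
of the common prefix. The total product has norm `≤ m`, so all `A i` are empty; then compare the
positive (hence reduced) words. -/
theorem hur_min (y : Fin m → FreeGroup (Fin m)) (hy : ∀ i, ∃ c, IsConj (of c) (y i))
    (hP : (List.ofFn y).prod = PP m)
    (hmin : ∀ i j : Fin m, (j : ℕ) = i + 1 →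
      norm (y j) ≤ norm (y i * y j * (y i)⁻¹) ∧ norm (y i) ≤ norm ((y j)⁻¹ * y i * y j)) :
    y = of := by
  have ex : ∀ i, ∃ a : List (Fin m × Bool) × Fin m,
      IsReduced (artin_W a true) ∧ mk (artin_W a true) = y i := fun i => by
    obtain ⟨c, hc⟩ := hy i
    obtain ⟨g, hg⟩ := isConj_iff.1 hc
    obtain ⟨A, h1, h2⟩ := artin_exists_W c _ g rfl
    exact ⟨(A, c), h1, h2.trans hg⟩
  choose a a1 a2 using ex
  have hPP : (PP m).toWord = (List.ofFn id).map fun c : Fin m => (c, true) := by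
    rw [← artin_pos, List.map_ofFn]; rfl
  have hy' : (List.ofFn a).map (fun x => mk (artin_W x true)) = List.ofFn y := by
    rw [List.map_ofFn]; exact congrArg List.ofFn (funext a2)
  have hch : List.IsChain artin_R (List.ofFn a) := by
    rw [List.isChain_iff_getElem]
    intro k hk
    rw [List.length_ofFn] at hk
    rw [List.getElem_ofFn, List.getElem_ofFn]
    have h := hmin ⟨k, by omega⟩ ⟨k + 1, hk⟩ rfl
    rw [← a2, ← a2] at h
    exact artin_R_of (a1 _) (a1 _) h.1 h.2
  have hnil : ∀ i, (a i).1 = [] := fun i => by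
    have hi : a i ∈ List.ofFn a := List.mem_ofFn.2 ⟨i, rfl⟩
    have hl : (List.ofFn a).length = m := List.length_ofFn
    have hr : ∀ x ∈ List.ofFn a, IsReduced (artin_W x true) := fun x hx => by
      obtain ⟨k, rfl⟩ := List.mem_ofFn.1 hx
      exact a1 k
    generalize List.ofFn a = l at hy' hch hi hl hr
    cases l with
    | nil => simp at hi
    | cons b l =>
      have h := (artin_long l b hr hch).2 _ hi
      rw [hy', hP, hPP] at h
      simp only [List.length_cons, List.length_map, List.length_ofFn] at h hl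
      exact List.length_eq_zero_iff.1 (by omega)
  have hy2 : ∀ i, y i = of (a i).2 := fun i => by
    rw [← a2, artin_W, hnil]; rfl
  have h3 : (List.ofFn fun i => (a i).2).map of = List.ofFn y := by
    rw [List.map_ofFn]; exact congrArg List.ofFn (funext fun i => (hy2 i).symm)
  have h4 := artin_pos (List.ofFn fun i => (a i).2)
  rw [h3, hP, hPP] at h4
  have h5 := List.ofFn_injective
    (List.map_injective_iff.2 (fun x y e => congrArg Prod.fst e) h4)
  funext i
  rw [hy2, ← congrFun h5 i]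
  rfl

/-- **Artin's theorem.** Hint: strong induction on `∑ i, norm (y i)`; if `hur i j y = β ∘ of` then
`y = (β * (sig i j h)⁻¹) ∘ of`. -/
theorem artin (y : Fin m → FreeGroup (Fin m)) (hy : ∀ i, ∃ c, IsConj (of c) (y i))
    (hP : (List.ofFn y).prod = PP m) : ∃ β ∈ Br m, ∀ i, β (of i) = y i := by
  induction hn : ∑ i, norm (y i) using Nat.strong_induction_on generalizing y with
  | _ n ih =>
    subst hn
    by_cases hmin : ∀ i j : Fin m, (j : ℕ) = i + 1 →
        norm (y j) ≤ norm (y i * y j * (y i)⁻¹) ∧ norm (y i) ≤ norm ((y j)⁻¹ * y i * y j)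
    · exact ⟨1, one_mem _, fun i => by rw [hur_min y hy hP hmin]; rfl⟩
    push Not at hmin
    obtain ⟨i, j, h, hlt⟩ := hmin
    have hn := artin_ne h
    have hs : sig i j hn ∈ Br m := Subgroup.subset_closure ⟨i, j, hn, h, rfl⟩
    have key : ∀ z : Fin m → FreeGroup (Fin m), (∀ k, norm (z (Equiv.swap i j k)) ≤ norm (y k)) →
        (∃ k, norm (z (Equiv.swap i j k)) < norm (y k)) →
        ∑ k, norm (z k) < ∑ k, norm (y k) := fun z h1 ⟨k, h2⟩ => by
      rw [← Equiv.sum_comp (Equiv.swap i j)]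
      exact Finset.sum_lt_sum (fun k _ => h1 k) ⟨k, Finset.mem_univ _, h2⟩
    by_cases h1 : norm (y i * y j * (y i)⁻¹) < norm (y j)
    · have c1 : ∀ k, norm (hur i j y (Equiv.swap i j k)) ≤ norm (y k) := fun k => by
        by_cases a : k = i
        · subst a; simp [hur, hn.symm]
        · by_cases b : k = j
          · subst b; simpa [hur] using h1.le
          · simp [hur, a, b, Equiv.swap_apply_of_ne_of_ne a b]
      have c2 : ∀ k, ∃ c, IsConj (of c) (hur i j y k) := fun k => by
        unfold hur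
        split_ifs
        · obtain ⟨c, hc⟩ := hy j
          exact ⟨c, hc.trans (isConj_iff.2 ⟨y i, rfl⟩)⟩
        · exact hy i
        · exact hy k
      obtain ⟨β, b1, b2⟩ := ih _ (key (hur i j y) c1 ⟨j, by simpa [hur] using h1⟩)
        (hur i j y) c2 ((prod_hur h y).trans hP) rfl
      refine ⟨β * (sig i j hn)⁻¹, mul_mem b1 (inv_mem hs), fun k => ?_⟩
      have := artin_map_hur' β.toMonoidHom i j of k
      simp only [MulEquiv.coe_toMonoidHom, b2] at this
      rw [MulAut.mul_apply, sig_inv_of, this, artin_hur'_hur hn]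
    · have h2 := hlt (not_lt.1 h1)
      have c1 : ∀ k, norm (hur' i j y (Equiv.swap i j k)) ≤ norm (y k) := fun k => by
        by_cases a : k = i
        · subst a; simpa [hur', hn.symm] using h2.le
        · by_cases b : k = j
          · subst b; simp [hur']
          · simp [hur', a, b, Equiv.swap_apply_of_ne_of_ne a b]
      have c2 : ∀ k, ∃ c, IsConj (of c) (hur' i j y k) := fun k => by
        unfold hur'
        split_ifs
        · exact hy j
        · obtain ⟨c, hc⟩ := hy i
          exact ⟨c, hc.trans (isConj_iff.2 ⟨(y j)⁻¹, by rw [inv_inv]⟩)⟩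
        · exact hy k
      obtain ⟨β, b1, b2⟩ := ih _ (key (hur' i j y) c1 ⟨i, by simpa [hur', hn.symm] using h2⟩)
        (hur' i j y) c2 ((prod_hur' h y).trans hP) rfl
      refine ⟨β * sig i j hn, mul_mem b1 hs, fun k => ?_⟩
      have := artin_map_hur β.toMonoidHom i j of k
      simp only [MulEquiv.coe_toMonoidHom, b2] at this
      rw [MulAut.mul_apply, sig_of, this, artin_hur_hur' hn]

end Pool.Agent.MP_1c2b6e_al

/-! Combing: the pure braid automorphisms that become trivial when the first generator is killed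
form a free group. -/

namespace Pool.Agent.MP_1c2b6e_al

open FreeGroup

variable {r : ℕ}

/-- Pure braid automorphisms. -/
def Good {m : ℕ} (β : MulAut (FreeGroup (Fin m))) : Prop :=
  β (PP m) = PP m ∧ ∀ i, IsConj (of i) (β (of i))

theorem Good.one {m : ℕ} : Good (1 : MulAut (FreeGroup (Fin m))) := by
  exact ⟨rfl, fun i => IsConj.refl _⟩

theorem Good.mul {m : ℕ} {α β : MulAut (FreeGroup (Fin m))} (ha : Good α) (hb : Good β) :
    Good (α * β) := by
  refine ⟨by rw [MulAut.mul_apply, hb.1, ha.1], fun i => ?_⟩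
  exact (ha.2 i).trans (α.toMonoidHom.map_isConj (hb.2 i))

theorem Good.inv {m : ℕ} {α : MulAut (FreeGroup (Fin m))} (ha : Good α) : Good α⁻¹ := by
  refine ⟨?_, fun i => ?_⟩
  · conv_lhs => rw [← ha.1]
    exact MulAut.inv_apply_self _ _ _
  · have h := (α⁻¹ : MulAut _).toMonoidHom.map_isConj (ha.2 i)
    have e : (α⁻¹ : MulAut _).toMonoidHom (α (of i)) = of i := MulAut.inv_apply_self _ _ _
    rw [e] at h
    exact h.symm

theorem Good.mem_Br {m : ℕ} {α : MulAut (FreeGroup (Fin m))} (ha : Good α) : α ∈ Br m := by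
  obtain ⟨β, hβ, h⟩ := artin (fun i => α (of i)) (fun i => ⟨i, ha.2 i⟩) (by
    rw [← ha.1, PP, map_list_prod, List.map_ofFn]; rfl)
  have : β = α := MulEquiv.toMonoidHom_injective (FreeGroup.ext_hom _ _ h)
  exact this ▸ hβ

theorem eq_of_isConj_of {m : ℕ} {i j : Fin m}
    (h : IsConj (of i : FreeGroup (Fin m)) (of j)) : i = j := by
  by_contra hne
  have h1 := (lift fun k : Fin m => if k = i then Multiplicative.ofAdd (1 : ℤ) else 1).map_isConj h
  rw [isConj_iff_eq, lift_apply_of, lift_apply_of, if_pos rfl, if_neg (Ne.symm hne)] at h1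
  exact absurd h1 (by decide)

/-- Kill the first generator. -/
def q0 (r : ℕ) : FreeGroup (Fin (r + 1)) →* FreeGroup (Fin r) := lift (Fin.cons 1 of)

/-- Shift the generators. -/
def i0 (r : ℕ) : FreeGroup (Fin r) →* FreeGroup (Fin (r + 1)) := lift fun i => of i.succ

theorem comba_i0 (i : Fin r) : i0 r (of i) = of i.succ := lift_apply_of

theorem comba_q0z : q0 r (of 0) = 1 := lift_apply_of

theorem comba_q0s (i : Fin r) : q0 r (of i.succ) = of i := lift_apply_of

theorem q0_i0 (w : FreeGroup (Fin r)) : q0 r (i0 r w) = w := by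
  have : (q0 r).comp (i0 r) = MonoidHom.id _ := FreeGroup.ext_hom _ _ fun i => by
    rw [MonoidHom.comp_apply, comba_i0, comba_q0s, MonoidHom.id_apply]
  exact DFunLike.congr_fun this w

theorem PP_succ (r : ℕ) : PP (r + 1) = of 0 * i0 r (PP r) := by
  rw [PP, PP, List.ofFn_succ, List.prod_cons, map_list_prod, List.map_ofFn]
  congr 3

/-- Extension of an endomorphism. -/
def comba_e (φ : FreeGroup (Fin r) →* FreeGroup (Fin r)) :
    FreeGroup (Fin (r + 1)) →* FreeGroup (Fin (r + 1)) :=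
  lift (Fin.cons (of 0) fun i => i0 r (φ (of i)))

theorem comba_e0 (φ : FreeGroup (Fin r) →* FreeGroup (Fin r)) : comba_e φ (of 0) = of 0 :=
  lift_apply_of

theorem comba_ei (φ : FreeGroup (Fin r) →* FreeGroup (Fin r)) (w : FreeGroup (Fin r)) :
    comba_e φ (i0 r w) = i0 r (φ w) := by
  have : (comba_e φ).comp (i0 r) = (i0 r).comp φ := FreeGroup.ext_hom _ _ fun i => by
    rw [MonoidHom.comp_apply, comba_i0, MonoidHom.comp_apply]
    exact lift_apply_of
  exact DFunLike.congr_fun this w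

theorem comba_ext {G : Type} [Group G] {f g : FreeGroup (Fin (r + 1)) →* G}
    (h0 : f (of 0) = g (of 0)) (h1 : ∀ i : Fin r, f (i0 r (of i)) = g (i0 r (of i))) : f = g :=
  FreeGroup.ext_hom _ _ fun i => Fin.cases h0 (fun j => by rw [← comba_i0]; exact h1 j) i

/-- Extension of an automorphism. -/
def comba_s (β : MulAut (FreeGroup (Fin r))) : MulAut (FreeGroup (Fin (r + 1))) :=
  MonoidHom.toMulEquiv (comba_e β.toMonoidHom) (comba_e β.symm.toMonoidHom)
    (comba_ext (by simp [comba_e0]) fun i => by simp [comba_ei])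
    (comba_ext (by simp [comba_e0]) fun i => by simp [comba_ei])

theorem comba_s0 (β : MulAut (FreeGroup (Fin r))) : comba_s β (of 0) = of 0 :=
  comba_e0 β.toMonoidHom

theorem comba_si (β : MulAut (FreeGroup (Fin r))) (w : FreeGroup (Fin r)) :
    comba_s β (i0 r w) = i0 r (β w) := comba_ei _ w

/-- Extension of an automorphism fixing the new first generator. -/
theorem exists_s0 (r : ℕ) : ∃ s : MulAut (FreeGroup (Fin r)) →* MulAut (FreeGroup (Fin (r + 1))),
    ∀ β, s β (of 0) = of 0 ∧ ∀ w, s β (i0 r w) = i0 r (β w) := by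
  refine ⟨MonoidHom.mk' comba_s fun α β => MulEquiv.toMonoidHom_injective (comba_ext ?_ fun i => ?_),
    fun β => ⟨comba_s0 β, comba_si β⟩⟩
  · show comba_s (α * β) (of 0) = comba_s α (comba_s β (of 0))
    rw [comba_s0, comba_s0, comba_s0]
  · show comba_s (α * β) _ = comba_s α (comba_s β _)
    rw [comba_si, comba_si, comba_si, MulAut.mul_apply]

theorem comba_q {β : MulAut (FreeGroup (Fin (r + 1)))} (hβ : Good β) (x : FreeGroup (Fin (r + 1))) :
    q0 r (β x) = q0 r (β (i0 r (q0 r x))) := by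
  have : (q0 r).comp β.toMonoidHom = (((q0 r).comp β.toMonoidHom).comp (i0 r)).comp (q0 r) := by
    refine comba_ext ?_ fun i => ?_
    · have h := (q0 r).map_isConj (hβ.2 0)
      rw [comba_q0z, isConj_one_right] at h
      show q0 r (β (of 0)) = q0 r (β (i0 r (q0 r (of 0))))
      rw [h, comba_q0z, _root_.map_one, _root_.map_one, _root_.map_one]
    · show q0 r (β _) = q0 r (β (i0 r (q0 r _)))
      rw [q0_i0]
  exact DFunLike.congr_fun this x

/-- Forgetting the first generator. -/
theorem exists_rho0 {β : MulAut (FreeGroup (Fin (r + 1)))} (hβ : Good β) :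
    ∃ β' : MulAut (FreeGroup (Fin r)), Good β' ∧ ∀ x, q0 r (β x) = β' (q0 r x) := by
  let β' : MulAut (FreeGroup (Fin r)) := MonoidHom.toMulEquiv
    (((q0 r).comp β.toMonoidHom).comp (i0 r))
    (((q0 r).comp (β⁻¹ : MulAut _).toMonoidHom).comp (i0 r))
    (MonoidHom.ext fun w => by
      show q0 r ((β⁻¹ : MulAut _) (i0 r (q0 r (β (i0 r w))))) = w
      rw [← comba_q hβ.inv, MulAut.inv_apply_self, q0_i0])
    (MonoidHom.ext fun w => by
      show q0 r (β (i0 r (q0 r ((β⁻¹ : MulAut _) (i0 r w))))) = w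
      rw [← comba_q hβ, MulAut.apply_inv_self, q0_i0])
  have h : ∀ x, q0 r (β x) = β' (q0 r x) := comba_q hβ
  have hP : q0 r (PP (r + 1)) = PP r := by
    rw [PP_succ, _root_.map_mul, comba_q0z, one_mul, q0_i0]
  refine ⟨β', ⟨by rw [← hP, ← h, hβ.1], fun i => ?_⟩, h⟩
  have h1 := (q0 r).map_isConj (hβ.2 i.succ)
  rwa [h, comba_q0s] at h1

/-- Two strands. Hint: every element of `Br 2` is `conj (PP 2 ^ k)` or `conj (PP 2 ^ k) * σ`. -/
theorem good_two {β : MulAut (FreeGroup (Fin 2))} (hβ : Good β) :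
    ∃ k : ℤ, β = MulAut.conj (PP 2 ^ k) := by
  have h01 : (0 : Fin 2) ≠ 1 := by decide
  have hP : PP 2 = of 0 * of 1 := by simp [PP, List.ofFn_succ]
  have s0 : sig 0 1 h01 (of 0) = of 0 * of 1 * (of 0)⁻¹ := by rw [sig_of]; simp [hur]
  have s1 : sig 0 1 h01 (of 1) = of 0 := by rw [sig_of]; simp [hur]
  have sq : sig 0 1 h01 ^ (2 : ℤ) = MulAut.conj (PP 2) := by
    rw [zpow_two]
    refine MulEquiv.toMonoidHom_injective (FreeGroup.ext_hom _ _ fun i => ?_)
    show sig 0 1 h01 (sig 0 1 h01 (of i)) = MulAut.conj (PP 2) (of i)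
    rw [MulAut.conj_apply, hP]
    fin_cases i
    · show sig 0 1 h01 (sig 0 1 h01 (of 0)) = _ * of 0 * _
      rw [s0, _root_.map_mul, _root_.map_mul, _root_.map_inv, s0, s1]; group
    · show sig 0 1 h01 (sig 0 1 h01 (of 1)) = _ * of 1 * _
      rw [s1, s0]; group
  have hle : Br 2 ≤ Subgroup.zpowers (sig 0 1 h01) := by
    refine (Subgroup.closure_le _).2 ?_
    rintro _ ⟨i, j, h, hij, rfl⟩
    have hi : i = 0 := Fin.ext (by have := j.2; simp only [Fin.val_zero]; omega)
    have hj : j = 1 := Fin.ext (by have := j.2; simp only [Fin.val_one]; omega)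
    subst hi hj
    exact Subgroup.mem_zpowers _
  obtain ⟨n, hn⟩ := Subgroup.mem_zpowers_iff.1 (hle hβ.mem_Br)
  obtain ⟨k, rfl | rfl⟩ := Int.even_or_odd' n
  · exact ⟨k, by rw [← hn, zpow_mul, sq, map_zpow]⟩
  · exfalso
    have h1 := hβ.2 1
    rw [← hn, zpow_add_one, zpow_mul, sq, ← map_zpow, MulAut.mul_apply, s1, MulAut.conj_apply] at h1
    exact h01 (eq_of_isConj_of ((isConj_iff.2 ⟨_, rfl⟩).trans h1.symm))

end Pool.Agent.MP_1c2b6e_al

/-! The combing theorem. -/

namespace Pool.Agent.MP_1c2b6e_al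

open FreeGroup

/-- The generators, indexed by natural numbers. -/
def comb_X (m j : ℕ) : FreeGroup (Fin m) := if h : j < m then of ⟨j, h⟩ else 1

theorem comb_X_val {m : ℕ} (i : Fin m) : comb_X m i = of i := by
  simp [comb_X, i.2]

theorem comb_X_lt {m j : ℕ} (h : j < m) : comb_X m j = of ⟨j, h⟩ := dif_pos h

/-- Artin's generators, indexed by natural numbers. -/
def comb_sg (m k : ℕ) : MulAut (FreeGroup (Fin m)) :=
  if h : k + 1 < m then sig ⟨k, by omega⟩ ⟨k + 1, h⟩ (by simp [Fin.ext_iff]) else 1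

theorem comb_ext {m : ℕ} {α β : MulAut (FreeGroup (Fin m))}
    (h : ∀ j, j < m → α (comb_X m j) = β (comb_X m j)) : α = β := by
  have : α.toMonoidHom = β.toMonoidHom := by
    refine FreeGroup.ext_hom _ _ fun i => ?_
    have := h i i.2
    rwa [comb_X_val] at this
  exact MulEquiv.ext fun x => DFunLike.congr_fun this x

theorem comb_sg_X {m k : ℕ} (h : k + 1 < m) (j : ℕ) : comb_sg m k (comb_X m j) =
    if j = k then comb_X m k * comb_X m (k + 1) * (comb_X m k)⁻¹
    else if j = k + 1 then comb_X m k else comb_X m j := by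
  by_cases hj : j < m
  · rw [comb_sg, dif_pos h, comb_X_lt hj, sig_of, comb_X_lt h, comb_X_lt (by omega : k < m)]
    simp [hur, Fin.ext_iff]
  · rw [if_neg (by omega), if_neg (by omega), comb_X, dif_neg hj, _root_.map_one]

theorem comb_sg_self {m k : ℕ} (h : k + 1 < m) : comb_sg m k (comb_X m k) =
    comb_X m k * comb_X m (k + 1) * (comb_X m k)⁻¹ := by
  rw [comb_sg_X h, if_pos rfl]

theorem comb_sg_succ {m k : ℕ} (h : k + 1 < m) : comb_sg m k (comb_X m (k + 1)) = comb_X m k := by
  rw [comb_sg_X h, if_neg (by omega), if_pos rfl]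

theorem comb_sg_ne {m k j : ℕ} (h1 : j ≠ k) (h2 : j ≠ k + 1) :
    comb_sg m k (comb_X m j) = comb_X m j := by
  by_cases h : k + 1 < m
  · rw [comb_sg_X h, if_neg h1, if_neg h2]
  · rw [comb_sg, dif_neg h]
    rfl

theorem comb_sg_mem (m k : ℕ) : comb_sg m k ∈ Br m := by
  unfold comb_sg
  split_ifs with h
  · exact Subgroup.subset_closure ⟨_, _, _, rfl, rfl⟩
  · exact one_mem _

theorem comb_sig_eq {m : ℕ} {i j : Fin m} (h : i ≠ j) (hj : (j : ℕ) = i + 1) :
    sig i j h = comb_sg m i := by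
  have h1 : (i : ℕ) + 1 < m := hj ▸ j.2
  obtain rfl : j = ⟨i + 1, h1⟩ := Fin.ext hj
  rw [comb_sg, dif_pos h1]

theorem comb_sg_PP (m k : ℕ) : comb_sg m k (PP m) = PP m := by
  unfold comb_sg
  split_ifs with h
  · rw [PP, map_list_prod, List.map_ofFn]
    rw [← prod_hur (i := ⟨k, by omega⟩) (j := ⟨k + 1, h⟩) rfl (of : Fin m → FreeGroup (Fin m))]
    congr 2
    funext i
    exact sig_of _ _ _ i
  · rfl

theorem comb_braid {m k : ℕ} (h : k + 2 < m) :
    comb_sg m k * comb_sg m (k + 1) * comb_sg m k =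
      comb_sg m (k + 1) * comb_sg m k * comb_sg m (k + 1) := by
  have a1 := comb_sg_self (m := m) (k := k) (by omega)
  have a2 := comb_sg_succ (m := m) (k := k) (by omega)
  have a3 := comb_sg_ne (m := m) (k := k) (j := k + 1 + 1) (by omega) (by omega)
  have b1 := comb_sg_ne (m := m) (k := k + 1) (j := k) (by omega) (by omega)
  have b2 := comb_sg_self (m := m) (k := k + 1) (by omega)
  have b3 := comb_sg_succ (m := m) (k := k + 1) (by omega)
  refine comb_ext fun j _ => ?_
  simp only [MulAut.mul_apply]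
  by_cases h1 : j = k
  · subst h1
    simp only [_root_.map_mul, _root_.map_inv, a1, a2, a3, b1, b2]
    group
  by_cases h2 : j = k + 1
  · subst h2
    simp only [_root_.map_mul, _root_.map_inv, a1, a2, a3, b1, b2, b3]
  by_cases h3 : j = k + 1 + 1
  · subst h3
    simp only [a2, a3, b1, b3]
  · simp only [comb_sg_ne h1 h2, comb_sg_ne h2 h3]

theorem comb_far {m i j : ℕ} (h : i + 1 < j) :
    comb_sg m i * comb_sg m j = comb_sg m j * comb_sg m i := by
  by_cases hj : j + 1 < m
  swap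
  · have : comb_sg m j = 1 := dif_neg hj
    rw [this, one_mul, mul_one]
  have a1 := comb_sg_self (m := m) (k := i) (by omega)
  have a2 := comb_sg_succ (m := m) (k := i) (by omega)
  have a3 := comb_sg_ne (m := m) (k := i) (j := j) (by omega) (by omega)
  have a4 := comb_sg_ne (m := m) (k := i) (j := j + 1) (by omega) (by omega)
  have b1 := comb_sg_ne (m := m) (k := j) (j := i) (by omega) (by omega)
  have b2 := comb_sg_ne (m := m) (k := j) (j := i + 1) (by omega) (by omega)
  have b3 := comb_sg_self (m := m) (k := j) hj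
  have b4 := comb_sg_succ (m := m) (k := j) hj
  refine comb_ext fun l _ => ?_
  simp only [MulAut.mul_apply]
  by_cases h1 : l = i
  · subst h1
    simp only [_root_.map_mul, _root_.map_inv, a1, b1, b2]
  by_cases h2 : l = i + 1
  · subst h2
    simp only [a2, b1, b2]
  by_cases h3 : l = j
  · subst h3
    simp only [_root_.map_mul, _root_.map_inv, a3, a4, b3]
  by_cases h4 : l = j + 1
  · subst h4
    simp only [a3, a4, b4]
  · simp only [comb_sg_ne h1 h2, comb_sg_ne h3 h4]

/-- The product of the first `k` generators of the braid group. -/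
def comb_tau (m : ℕ) : ℕ → MulAut (FreeGroup (Fin m))
  | 0 => 1
  | k + 1 => comb_tau m k * comb_sg m k

theorem comb_tau_succ (m k : ℕ) : comb_tau m (k + 1) = comb_tau m k * comb_sg m k := rfl

theorem comb_sg_tau_gt {m j : ℕ} : ∀ {k : ℕ}, k < j →
    comb_sg m j * comb_tau m k = comb_tau m k * comb_sg m j
  | 0, _ => by simp [comb_tau]
  | k + 1, h => by
    rw [comb_tau_succ, ← mul_assoc, comb_sg_tau_gt (by omega), mul_assoc, mul_assoc,
      comb_far h]

theorem comb_sg_tau_lt {m j k : ℕ} (h : j + 1 < k) (hk : k < m) :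
    comb_sg m (j + 1) * comb_tau m k = comb_tau m k * comb_sg m j := by
  induction k with
  | zero => omega
  | succ k ih =>
    rcases Nat.lt_or_ge (j + 1) k with h1 | h1
    · rw [comb_tau_succ, ← mul_assoc, ih h1 (by omega), mul_assoc, mul_assoc, comb_far h1]
    · obtain rfl : k = j + 1 := by omega
      have hb := comb_braid (m := m) (k := j) (by omega)
      have hc := comb_sg_tau_gt (m := m) (j := j + 1) (k := j) (by omega)
      rw [comb_tau_succ, comb_tau_succ]
      calc comb_sg m (j + 1) * (comb_tau m j * comb_sg m j * comb_sg m (j + 1))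
          = (comb_sg m (j + 1) * comb_tau m j) * comb_sg m j * comb_sg m (j + 1) := by group
        _ = comb_tau m j * (comb_sg m (j + 1) * comb_sg m j * comb_sg m (j + 1)) := by
          rw [hc]; group
        _ = _ := by rw [← hb]; group

theorem comb_tau_PP (m : ℕ) : ∀ k, comb_tau m k (PP m) = PP m
  | 0 => rfl
  | k + 1 => by rw [comb_tau_succ, MulAut.mul_apply, comb_sg_PP, comb_tau_PP m k]

theorem comb_tau_self {m : ℕ} : ∀ {k : ℕ}, k < m → comb_tau m k (comb_X m k) = comb_X m 0
  | 0, _ => rfl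
  | k + 1, h => by rw [comb_tau_succ, MulAut.mul_apply, comb_sg_succ h, comb_tau_self (by omega)]

theorem comb_tau_gt {m j : ℕ} : ∀ {k : ℕ}, k < j → comb_tau m k (comb_X m j) = comb_X m j
  | 0, _ => rfl
  | k + 1, h => by
    rw [comb_tau_succ, MulAut.mul_apply, comb_sg_ne (by omega) (by omega), comb_tau_gt (by omega)]

theorem comb_tau_conj {m : ℕ} (i : ℕ) : ∀ {k : ℕ}, k < m →
    ∃ j, IsConj (comb_X m i) (comb_tau m k (comb_X m j))
  | 0, _ => ⟨i, IsConj.refl _⟩
  | k + 1, h => by
    obtain ⟨j, hj⟩ := comb_tau_conj i (by omega : k < m)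
    by_cases h1 : j = k
    · subst h1
      exact ⟨j + 1, by rwa [comb_tau_succ, MulAut.mul_apply, comb_sg_succ h]⟩
    by_cases h2 : j = k + 1
    · refine ⟨k, hj.trans ?_⟩
      rw [comb_tau_succ, MulAut.mul_apply, comb_sg_self h, h2, _root_.map_mul, _root_.map_mul, _root_.map_inv]
      exact isConj_iff.2 ⟨_, rfl⟩
    · exact ⟨j, by rwa [comb_tau_succ, MulAut.mul_apply, comb_sg_ne h1 h2]⟩

/-- The generators of the free group of point pushes. -/
def comb_A (m k : ℕ) : MulAut (FreeGroup (Fin m)) :=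
  comb_tau m k * (comb_sg m k * comb_sg m k) * (comb_tau m k)⁻¹

theorem comb_A_tau (m k : ℕ) (x : FreeGroup (Fin m)) :
    comb_A m k (comb_tau m k x) = comb_tau m k (comb_sg m k (comb_sg m k x)) := by
  have : comb_A m k * comb_tau m k = comb_tau m k * comb_sg m k * comb_sg m k := by
    rw [comb_A]; group
  exact DFunLike.congr_fun this x

theorem comb_sq_self {m k : ℕ} (h : k + 1 < m) : comb_sg m k (comb_sg m k (comb_X m k)) =
    (comb_X m k * comb_X m (k + 1)) * comb_X m k * (comb_X m k * comb_X m (k + 1))⁻¹ := by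
  simp only [comb_sg_self h, comb_sg_succ h, _root_.map_mul, _root_.map_inv]
  group

theorem comb_sq_succ {m k : ℕ} (h : k + 1 < m) : comb_sg m k (comb_sg m k (comb_X m (k + 1))) =
    comb_X m k * comb_X m (k + 1) * (comb_X m k)⁻¹ := by
  rw [comb_sg_succ h, comb_sg_self h]

theorem comb_A_good {m k : ℕ} (h : k + 1 < m) : Good (comb_A m k) := by
  refine ⟨?_, fun i => ?_⟩
  · conv_lhs => rw [← comb_tau_PP m k]
    rw [comb_A_tau, comb_sg_PP, comb_sg_PP, comb_tau_PP]
  · obtain ⟨j, hj⟩ := comb_tau_conj (m := m) i (by omega : k < m)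
    rw [comb_X_val] at hj
    have h1 : IsConj (comb_A m k (of i)) (comb_A m k (comb_tau m k (comb_X m j))) :=
      (comb_A m k).toMonoidHom.map_isConj hj
    refine hj.trans (IsConj.trans ?_ h1.symm)
    rw [comb_A_tau]
    refine (comb_tau m k).toMonoidHom.map_isConj ?_
    by_cases h1 : j = k
    · rw [h1, comb_sq_self h]
      exact isConj_iff.2 ⟨_, rfl⟩
    by_cases h2 : j = k + 1
    · rw [h2, comb_sq_succ h]
      exact isConj_iff.2 ⟨_, rfl⟩
    · rw [comb_sg_ne h1 h2, comb_sg_ne h1 h2]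

theorem comb_conj_A {m i j : ℕ} (hj : j + 2 < m) (hi : i + 1 < m) :
    comb_sg m (j + 1) * comb_A m i * (comb_sg m (j + 1))⁻¹ =
      if i = j then (comb_A m j)⁻¹ * comb_A m (j + 1) * comb_A m j
      else if i = j + 1 then comb_A m j else comb_A m i := by
  have hb := comb_braid hj
  have hc := comb_sg_tau_gt (m := m) (j := j + 1) (k := j) (by omega)
  split_ifs with h1 h2
  · subst h1
    simp only [comb_A, comb_tau_succ]
    set a := comb_sg m i
    set b := comb_sg m (i + 1)
    set t := comb_tau m i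
    have e1 : b * t = t * b := hc
    have e2 : b * a * b⁻¹ = a⁻¹ * b * a := by
      calc b * a * b⁻¹ = a⁻¹ * (a * b * a) * b⁻¹ := by group
        _ = a⁻¹ * b * a := by rw [hb]; group
    calc b * (t * (a * a) * t⁻¹) * b⁻¹ = (b * t) * (a * a) * (b * t)⁻¹ := by group
      _ = t * ((b * a * b⁻¹) * (b * a * b⁻¹)) * t⁻¹ := by rw [e1]; group
      _ = _ := by rw [e2]; group
  · subst h2
    simp only [comb_A, comb_tau_succ]
    set a := comb_sg m j
    set b := comb_sg m (j + 1)
    set t := comb_tau m j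
    have e1 : b * t = t * b := hc
    have e2 : b * a * b * (b * a)⁻¹ = a := by rw [← hb]; group
    calc b * (t * a * (b * b) * (t * a)⁻¹) * b⁻¹
        = (b * t) * a * (b * b) * ((b * t) * a)⁻¹ := by group
      _ = t * ((b * a * b * (b * a)⁻¹) * (b * a * b * (b * a)⁻¹)) * t⁻¹ := by rw [e1]; group
      _ = _ := by rw [e2]
  · simp only [comb_A]
    set a := comb_sg m i
    set b := comb_sg m (j + 1)
    set t := comb_tau m i
    rcases Nat.lt_or_ge i j with h3 | h3
    · have e1 : b * t = t * b := comb_sg_tau_gt (by omega)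
      have e2 : b * a * b⁻¹ = a := by
        have : a * b = b * a := comb_far (by omega)
        rw [← this]; group
      calc b * (t * (a * a) * t⁻¹) * b⁻¹ = (b * t) * (a * a) * (b * t)⁻¹ := by group
        _ = t * ((b * a * b⁻¹) * (b * a * b⁻¹)) * t⁻¹ := by rw [e1]; group
        _ = _ := by rw [e2]
    · set c := comb_sg m j
      have e1 : b * t = t * c := comb_sg_tau_lt (by omega) (by omega)
      have e2 : c * a * c⁻¹ = a := by
        have : c * a = a * c := comb_far (by omega)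
        rw [this]; group
      calc b * (t * (a * a) * t⁻¹) * b⁻¹ = (b * t) * (a * a) * (b * t)⁻¹ := by group
        _ = t * ((c * a * c⁻¹) * (c * a * c⁻¹)) * t⁻¹ := by rw [e1]; group
        _ = _ := by rw [e2]

theorem comb_q0_zero (r : ℕ) : q0 r (comb_X (r + 1) 0) = 1 := by
  rw [comb_X_lt (Nat.succ_pos r)]
  simp [q0]

theorem comb_i0_X (r j : ℕ) : i0 r (comb_X r j) = comb_X (r + 1) (j + 1) := by
  by_cases h : j < r
  · rw [comb_X_lt h, comb_X_lt (Nat.succ_lt_succ h)]
    simp [i0]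
  · rw [comb_X, dif_neg h, comb_X, dif_neg (by omega), _root_.map_one]

theorem comb_X_zero (r : ℕ) : comb_X (r + 1) 0 = of 0 := comb_X_lt (Nat.succ_pos r)

/-- The properties of a point push. -/
def comb_Q (r : ℕ) (α : MulAut (FreeGroup (Fin (r + 1)))) (w : FreeGroup (Fin r)) : Prop :=
  Good α ∧ (∀ x, q0 r (α x) = q0 r x) ∧ ∃ g, α (of 0) = g * of 0 * g⁻¹ ∧ q0 r g = w⁻¹

theorem comb_Q_one (r : ℕ) : comb_Q r 1 1 :=
  ⟨Good.one, fun _ => rfl, 1, by simp, by simp⟩

theorem comb_Q_mul {r : ℕ} {α β : MulAut (FreeGroup (Fin (r + 1)))} {u v : FreeGroup (Fin r)}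
    (ha : comb_Q r α u) (hb : comb_Q r β v) : comb_Q r (α * β) (u * v) := by
  obtain ⟨a1, a2, g, a3, a4⟩ := ha
  obtain ⟨b1, b2, g', b3, b4⟩ := hb
  refine ⟨a1.mul b1, fun x => by rw [MulAut.mul_apply, a2, b2], α g' * g, ?_, ?_⟩
  · rw [MulAut.mul_apply, b3, _root_.map_mul, _root_.map_mul, _root_.map_inv, a3]
    group
  · rw [_root_.map_mul, a2, a4, b4, mul_inv_rev]

theorem comb_Q_inv {r : ℕ} {α : MulAut (FreeGroup (Fin (r + 1)))} {u : FreeGroup (Fin r)}
    (ha : comb_Q r α u) : comb_Q r α⁻¹ u⁻¹ := by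
  obtain ⟨a1, a2, g, a3, a4⟩ := ha
  have h : ∀ x, q0 r (α⁻¹ x) = q0 r x := fun x => by
    rw [← a2, MulAut.apply_inv_self]
  refine ⟨a1.inv, h, (α⁻¹ g)⁻¹, ?_, by rw [_root_.map_inv, h, a4]⟩
  have := congrArg (α⁻¹ : MulAut _) a3
  rw [MulAut.inv_apply_self, _root_.map_mul, _root_.map_mul, _root_.map_inv] at this
  conv_rhs => rw [this]
  group

theorem comb_Q_A {r k : ℕ} (h : k < r) : comb_Q r (comb_A (r + 1) k) (comb_X r k)⁻¹ := by
  have h1 : k + 1 < r + 1 := Nat.succ_lt_succ h
  have t1 := comb_tau_self (m := r + 1) (k := k) (by omega)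
  have t2 := comb_tau_gt (m := r + 1) (k := k) (j := k + 1) (by omega)
  refine ⟨comb_A_good h1, fun x => ?_, of 0 * comb_X (r + 1) (k + 1), ?_, ?_⟩
  · obtain ⟨y, rfl⟩ := (comb_tau (r + 1) k).surjective x
    rw [comb_A_tau]
    have : ((q0 r).comp (comb_tau (r + 1) k).toMonoidHom).comp
        (comb_sg (r + 1) k * comb_sg (r + 1) k).toMonoidHom =
        (q0 r).comp (comb_tau (r + 1) k).toMonoidHom := by
      refine FreeGroup.ext_hom _ _ fun i => ?_
      change q0 r (comb_tau (r + 1) k (comb_sg (r + 1) k (comb_sg (r + 1) k (of i)))) =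
        q0 r (comb_tau (r + 1) k (of i))
      rw [← comb_X_val]
      by_cases h2 : (i : ℕ) = k
      · rw [h2, comb_sq_self h1]
        simp only [_root_.map_mul, _root_.map_inv, t1, comb_q0_zero]
        group
      by_cases h3 : (i : ℕ) = k + 1
      · rw [h3, comb_sq_succ h1]
        simp only [_root_.map_mul, _root_.map_inv, t1, comb_q0_zero]
        group
      · rw [comb_sg_ne h2 h3, comb_sg_ne h2 h3]
    exact DFunLike.congr_fun this y
  · rw [← comb_X_zero]
    conv_lhs => rw [← t1]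
    rw [comb_A_tau, comb_sq_self h1]
    simp only [_root_.map_mul, _root_.map_inv, t1, t2]
  · rw [_root_.map_mul, ← comb_X_zero, comb_q0_zero, ← comb_i0_X, q0_i0, one_mul, inv_inv]

/-- The point pushing homomorphism. -/
def comb_Push (r : ℕ) : FreeGroup (Fin r) →* MulAut (FreeGroup (Fin (r + 1))) :=
  lift fun k : Fin r => (comb_A (r + 1) k)⁻¹

theorem comb_Push_X {r k : ℕ} (h : k < r) : comb_Push r (comb_X r k) = (comb_A (r + 1) k)⁻¹ := by
  rw [comb_X_lt h, comb_Push, lift_apply_of]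

theorem comb_Q_Push (r : ℕ) (w : FreeGroup (Fin r)) : comb_Q r (comb_Push r w) w := by
  induction w using FreeGroup.induction_on with
  | C1 => rw [_root_.map_one]; exact comb_Q_one r
  | of i =>
    have := comb_Q_inv (comb_Q_A i.2)
    rwa [inv_inv, ← comb_Push_X i.2, comb_X_val] at this
  | inv_of i h => rw [_root_.map_inv]; exact comb_Q_inv h
  | mul u v hu hv => rw [_root_.map_mul]; exact comb_Q_mul hu hv

section
variable {r : ℕ} {s : MulAut (FreeGroup (Fin r)) →* MulAut (FreeGroup (Fin (r + 1)))}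
  (hs : ∀ β, s β (of 0) = of 0 ∧ ∀ w, s β (i0 r w) = i0 r (β w))
include hs

theorem comb_s_sg (j : ℕ) : s (comb_sg r j) = comb_sg (r + 1) (j + 1) := by
  by_cases h : j + 1 < r
  swap
  · rw [comb_sg, dif_neg h, comb_sg, dif_neg (by omega), _root_.map_one]
  refine comb_ext fun l _ => ?_
  cases l with
  | zero => rw [comb_sg_ne (by omega) (by omega), comb_X_zero, (hs _).1]
  | succ l =>
    rw [comb_sg_X (Nat.succ_lt_succ h), ← comb_i0_X r l, (hs _).2, comb_sg_X h]
    by_cases h1 : l = j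
    · simp only [h1, if_true, _root_.map_mul, _root_.map_inv, comb_i0_X]
    by_cases h2 : l = j + 1
    · rw [if_neg h1, if_pos h2, if_neg (by omega), if_pos (by omega), comb_i0_X]
    · rw [if_neg h1, if_neg h2, if_neg (by omega), if_neg (by omega)]

theorem comb_conj_Push {β : MulAut (FreeGroup (Fin r))} (hβ : β ∈ Br r) (w : FreeGroup (Fin r)) :
    s β * comb_Push r w * (s β)⁻¹ = comb_Push r (β w) := by
  induction hβ using Subgroup.closure_induction generalizing w with
  | mem β h =>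
    obtain ⟨i, j, hij, hj, rfl⟩ := h
    have h1 : (i : ℕ) + 1 < r := hj ▸ j.2
    rw [comb_sig_eq hij hj, comb_s_sg hs]
    have : (MulAut.conj (comb_sg (r + 1) (i + 1))).toMonoidHom.comp (comb_Push r) =
        (comb_Push r).comp (comb_sg r i).toMonoidHom := by
      refine FreeGroup.ext_hom _ _ fun l => ?_
      change comb_sg (r + 1) (i + 1) * comb_Push r (of l) * (comb_sg (r + 1) (i + 1))⁻¹ =
        comb_Push r (comb_sg r i (of l))
      have hc := comb_conj_A (m := r + 1) (i := l) (j := i) (by omega) (by omega)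
      have hc' : comb_sg (r + 1) (i + 1) * (comb_A (r + 1) l)⁻¹ * (comb_sg (r + 1) (i + 1))⁻¹ =
          (comb_sg (r + 1) (i + 1) * comb_A (r + 1) l * (comb_sg (r + 1) (i + 1))⁻¹)⁻¹ := by group
      rw [← comb_X_val, comb_Push_X l.2, hc', hc, comb_sg_X h1]
      split_ifs with h2 h3
      · simp only [_root_.map_mul, _root_.map_inv, comb_Push_X i.2, comb_Push_X h1]
        group
      · rw [comb_Push_X i.2]
      · rw [comb_Push_X l.2]
    exact DFunLike.congr_fun this w
  | one => simp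
  | mul α β _ _ ha hb =>
    rw [MulAut.mul_apply, ← ha, ← hb, _root_.map_mul]
    group
  | inv α _ ha =>
    have := ha (α⁻¹ w)
    rw [MulAut.apply_inv_self] at this
    rw [← this, _root_.map_inv]
    group

theorem comb_normal_form {γ : MulAut (FreeGroup (Fin (r + 1)))} (hγ : γ ∈ Br (r + 1)) :
    ∃ w, ∃ β ∈ Br r, ∃ k ≤ r, γ = comb_Push r w * s β * comb_tau (r + 1) k := by
  have push : ∀ w v, ∀ β ∈ Br r, comb_Push r w * s β * comb_Push r v =
      comb_Push r (w * β v) * s β := by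
    intro w v β hβ
    rw [_root_.map_mul, ← comb_conj_Push hs hβ]
    group
  induction hγ using Subgroup.closure_induction_right with
  | one => exact ⟨1, 1, one_mem _, 0, Nat.zero_le _, by simp [comb_tau]⟩
  | mul_right γ _ y hy ih =>
    obtain ⟨w, β, hβ, k, hk, rfl⟩ := ih
    obtain ⟨i, j, hij, hj, rfl⟩ := hy
    have h1 : (i : ℕ) + 1 < r + 1 := hj ▸ j.2
    rw [comb_sig_eq hij hj]
    generalize (i : ℕ) = l at h1
    rcases Nat.lt_trichotomy l k with h | rfl | h
    · rcases Nat.lt_or_ge (l + 1) k with h2 | h2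
      · refine ⟨w, β * comb_sg r l, mul_mem hβ (comb_sg_mem _ _), k, hk, ?_⟩
        rw [_root_.map_mul, comb_s_sg hs, mul_assoc, ← comb_sg_tau_lt h2 (by omega)]
        group
      · obtain rfl : k = l + 1 := by omega
        refine ⟨w * β (comb_X r l)⁻¹, β, hβ, l, by omega, ?_⟩
        rw [← push _ _ _ hβ, _root_.map_inv, comb_Push_X (by omega), comb_tau_succ, comb_A]
        simp only [inv_inv, mul_assoc, inv_mul_cancel, mul_one]
    · exact ⟨w, β, hβ, l + 1, by omega, by rw [comb_tau_succ]; group⟩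
    · obtain ⟨l, rfl⟩ : ∃ l', l = l' + 1 := ⟨l - 1, by omega⟩
      refine ⟨w, β * comb_sg r l, mul_mem hβ (comb_sg_mem _ _), k, hk, ?_⟩
      rw [_root_.map_mul, comb_s_sg hs, mul_assoc, ← comb_sg_tau_gt h]
      group
  | mul_inv_cancel γ _ y hy ih =>
    obtain ⟨w, β, hβ, k, hk, rfl⟩ := ih
    obtain ⟨i, j, hij, hj, rfl⟩ := hy
    have h1 : (i : ℕ) + 1 < r + 1 := hj ▸ j.2
    rw [comb_sig_eq hij hj]
    generalize (i : ℕ) = l at h1
    rcases Nat.lt_trichotomy l k with h | rfl | h
    · rcases Nat.lt_or_ge (l + 1) k with h2 | h2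
      · refine ⟨w, β * (comb_sg r l)⁻¹, mul_mem hβ (inv_mem (comb_sg_mem _ _)), k, hk, ?_⟩
        have e := comb_sg_tau_lt (m := r + 1) h2 (by omega)
        have e' : comb_tau (r + 1) k * (comb_sg (r + 1) l)⁻¹ =
            (comb_sg (r + 1) (l + 1))⁻¹ * comb_tau (r + 1) k := by
          rw [mul_inv_eq_iff_eq_mul, mul_assoc, ← e]; group
        rw [_root_.map_mul, _root_.map_inv, comb_s_sg hs, mul_assoc, e']
        group
      · obtain rfl : k = l + 1 := by omega
        exact ⟨w, β, hβ, l, by omega, by rw [comb_tau_succ]; group⟩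
    · refine ⟨w * β (comb_X r l), β, hβ, l + 1, by omega, ?_⟩
      rw [← push _ _ _ hβ, comb_Push_X (by omega), comb_tau_succ, comb_A]
      group
    · obtain ⟨l, rfl⟩ : ∃ l', l = l' + 1 := ⟨l - 1, by omega⟩
      refine ⟨w, β * (comb_sg r l)⁻¹, mul_mem hβ (inv_mem (comb_sg_mem _ _)), k, hk, ?_⟩
      have e := comb_sg_tau_gt (m := r + 1) h
      have e' : comb_tau (r + 1) k * (comb_sg (r + 1) (l + 1))⁻¹ =
          (comb_sg (r + 1) (l + 1))⁻¹ * comb_tau (r + 1) k := by
        rw [mul_inv_eq_iff_eq_mul, mul_assoc, ← e]; group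
      rw [_root_.map_mul, _root_.map_inv, comb_s_sg hs, mul_assoc, e']
      group

end

/-- **Combing.** Plan. Write `σ k = sig k.castSucc k.succ` for `k : Fin r` (acting on
`Fin (r+1)`), `τ k = σ 0 * ... * σ (k-1)` for `k ≤ r` (explicitly: `x j ↦ x 0 * x (j+1) * (x 0)⁻¹`
for `j < k`, `x k ↦ x 0`, `x j ↦ x j` for `j > k`), `A k = τ k * (σ k)^2 * (τ k)⁻¹`; then
`A k (x 0) = (x 0 * x (k+1)) * x 0 * (x 0 * x (k+1))⁻¹`. Put `Push = lift fun k => (A k)⁻¹`.
Relations (it is convenient to index `σ` by natural numbers, `σ k = 1` for `k ≥ r`):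
braid relation, far commutation, `τ (k+1) = τ k * σ k`, `σ (j+1) * τ k = τ k * σ j` for
`j + 1 < k`, `σ j * τ k = τ k * σ j` for `j > k`, and hence `σ (j+1) * A i * (σ (j+1))⁻¹` equals
`A i` if `i ≠ j, j+1`, `A j` if `i = j+1`, `(A j)⁻¹ * A (j+1) * A j` if `i = j`; that is
`s β * Push w * (s β)⁻¹ = Push (β w)` for `β ∈ Br r` (`s (σ j) = σ (j+1)`). The set of all
`Push w * s β * τ k` (`β ∈ Br r`, `k ≤ r`) contains `1` and is closed under right multiplication
by every `σ j` and its inverse, so it contains `Br (r+1)`. For a good element `k = 0`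
(`eq_of_isConj_of`), and `q0 ∘ β = q0` forces `β = 1`. -/
theorem comb (r : ℕ) : ∃ Push : FreeGroup (Fin r) →* MulAut (FreeGroup (Fin (r + 1))),
    (∀ w, Good (Push w) ∧ (∀ x, q0 r (Push w x) = q0 r x) ∧
      ∃ g, Push w (of 0) = g * of 0 * g⁻¹ ∧ q0 r g = w⁻¹) ∧
    ∀ β, Good β → (∀ x, q0 r (β x) = q0 r x) → ∃ w, β = Push w := by
  obtain ⟨s, hs⟩ := exists_s0 r
  refine ⟨comb_Push r, comb_Q_Push r, fun β hβ hq => ?_⟩
  obtain ⟨w, β', -, k, hk, rfl⟩ := comb_normal_form hs hβ.mem_Br
  obtain ⟨hg, hq', -⟩ := comb_Q_Push r w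
  have hk' : k < r + 1 := Nat.lt_succ_of_le hk
  have h0 : k = 0 := by
    have h1 := hβ.2 ⟨k, hk'⟩
    conv at h1 => rhs; rw [← comb_X_lt hk']
    rw [MulAut.mul_apply, MulAut.mul_apply, comb_tau_self hk', comb_X_zero, (hs _).1] at h1
    exact congrArg Fin.val (eq_of_isConj_of (h1.trans (hg.2 0).symm))
  subst h0
  have h1 : β' = 1 := by
    refine MulEquiv.ext fun v => ?_
    have := hq (i0 r v)
    rw [comb_tau, mul_one, MulAut.mul_apply, hq', (hs _).2, q0_i0, q0_i0] at this
    exact this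
  exact ⟨w, by rw [h1, _root_.map_one, comb_tau, mul_one, mul_one]⟩

end Pool.Agent.MP_1c2b6e_al

/-! Residual finiteness of free groups and separability of the conjugacy classes of the
generators and of their product. -/

namespace Pool.Agent.MP_1c2b6e_al

open FreeGroup

variable {m : ℕ}

/-- A word moves the end of a path of positions to its start. -/
theorem sep_walk {α Y : Type} (P : α → Equiv.Perm Y) (L : List (α × Bool)) (p : ℕ → Y)
    (h : ∀ (k : ℕ) (hk : k < L.length),
      (cond L[k].2 (P L[k].1) (P L[k].1)⁻¹) (p (k + 1)) = p k) :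
    lift P (mk L) (p L.length) = p 0 := by
  induction L generalizing p with
  | nil => rfl
  | cons x L ih =>
    have h1 := ih (fun k => p (k + 1)) fun k hk => h (k + 1) (Nat.succ_lt_succ hk)
    have h0 := h 0 (Nat.succ_pos _)
    rw [lift_mk] at h1 ⊢
    rw [List.map_cons, List.prod_cons, Equiv.Perm.mul_apply, List.length_cons, h1]
    exact h0

/-- A fixed point free permutation covering a given one. -/
def sep_tw {X : Type} [DecidableEq X] (σ : Equiv.Perm X) : Equiv.Perm (X × ZMod 2) where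
  toFun x := (σ x.1, x.2 + if σ x.1 = x.1 then 1 else 0)
  invFun x := (σ.symm x.1, x.2 - if x.1 = σ.symm x.1 then 1 else 0)
  left_inv x := by simp
  right_inv x := by simp

theorem sep_tw_ne {X : Type} [DecidableEq X] (σ : Equiv.Perm X) (x : X × ZMod 2) :
    sep_tw σ x ≠ x := by
  intro h
  have h1 : σ x.1 = x.1 := congrArg Prod.fst h
  have h2 : (x.2 + if σ x.1 = x.1 then 1 else 0) = x.2 := congrArg Prod.snd h
  rw [if_pos h1] at h2
  exact one_ne_zero (add_eq_left.1 h2)

theorem sep_tw_apply {X : Type} [DecidableEq X] {σ : Equiv.Perm X} {a b : X} (h : σ a = b)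
    (hab : b ≠ a) : sep_tw σ (a, 0) = (b, 0) := by
  change (σ a, (0 : ZMod 2) + if σ a = a then 1 else 0) = _
  rw [h, if_neg hab, add_zero]

/-- The permutation representation read off from a word. -/
theorem sep_rep {α : Type} (L : List (α × Bool)) (N : ℕ) (hN : 2 ≤ N) (hL : L.length ≤ N)
    (H : ∀ (k k' : ℕ) (hk : k < L.length) (hk' : k' < L.length), (k + 1) % N = k' →
      L[k].1 = L[k'].1 → L[k].2 = L[k'].2) :
    ∃ P : α → Equiv.Perm (ZMod N × ZMod 2), (∀ y x, P y x ≠ x) ∧
      lift P (mk L) ((L.length : ZMod N), 0) = (0, 0) := by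
  classical
  have : Fact (1 < N) := ⟨hN⟩
  have c0 : ∀ k k' : ℕ, k < L.length → k' < L.length → (k : ZMod N) = k' → k = k' := by
    intro k k' hk hk' e
    rwa [ZMod.natCast_eq_natCast_iff', Nat.mod_eq_of_lt (hk.trans_le hL),
      Nat.mod_eq_of_lt (hk'.trans_le hL)] at e
  have c1 : ∀ k k' : ℕ, k < L.length → k' < L.length → ((k + 1 : ℕ) : ZMod N) = (k' + 1 : ℕ) →
      k = k' := by
    intro k k' hk hk' e
    rw [Nat.cast_succ, Nat.cast_succ, add_left_inj] at e
    exact c0 k k' hk hk' e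
  have c2 : ∀ (k k' : ℕ) (hk : k < L.length) (hk' : k' < L.length),
      ((k + 1 : ℕ) : ZMod N) = k' → L[k].1 = L[k'].1 → L[k].2 = L[k'].2 := by
    intro k k' hk hk' e
    rw [ZMod.natCast_eq_natCast_iff', Nat.mod_eq_of_lt (hk'.trans_le hL)] at e
    exact H k k' hk hk' e
  have inj : ∀ (y : α) (s : Bool), Function.Injective fun k : {k : Fin L.length // L[k.val].1 = y} =>
      (if L[k.1.val].2 = s then ((k.1.val + 1 : ℕ) : ZMod N) else (k.1.val : ZMod N)) := by
    rintro y s ⟨⟨k, hk⟩, e⟩ ⟨⟨k', hk'⟩, e'⟩ h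
    simp only at h e e'
    refine Subtype.ext (Fin.ext ?_)
    by_cases a : L[k].2 = s <;> by_cases b : L[k'].2 = s
    · rw [if_pos a, if_pos b] at h
      exact c1 k k' hk hk' h
    · rw [if_pos a, if_neg b] at h
      exact absurd ((c2 k k' hk hk' h (e.trans e'.symm)).symm.trans a) b
    · rw [if_neg a, if_pos b] at h
      exact absurd ((c2 k' k hk' hk h.symm (e'.trans e.symm)).symm.trans b) a
    · rw [if_neg a, if_neg b] at h
      exact c0 k k' hk hk' h
  choose σ hσ using fun y => Equiv.Perm.exists_extending_pair _ _ (inj y true) (inj y false)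
  refine ⟨fun y => sep_tw (σ y), fun y x => sep_tw_ne _ x, ?_⟩
  have := sep_walk (fun y => sep_tw (σ y)) L (fun k => ((k : ZMod N), 0)) fun k hk => ?_
  · simpa only [Nat.cast_zero] using this
  · have h1 := hσ L[k].1 ⟨⟨k, hk⟩, rfl⟩
    have ne : ((k + 1 : ℕ) : ZMod N) ≠ k := by
      rw [Nat.cast_succ]
      exact fun e => one_ne_zero (add_eq_left.1 e)
    simp only at h1
    cases hs : L[k].2
    · rw [hs, if_neg (by decide), if_pos rfl] at h1
      rw [cond_false, Equiv.Perm.inv_eq_iff_eq, sep_tw_apply h1 ne]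
    · rw [hs, if_pos rfl, if_neg (by decide)] at h1
      rw [cond_true, sep_tw_apply h1 ne.symm]

/-- Hint: for a reduced word `w` of length `L` extend the partial injections of `Fin (L+1)` read
off from `w` to permutations; `w` moves `L` to `0`. -/
theorem eq_one_of_fin {w : FreeGroup (Fin m)}
    (h : ∀ (Q : Type) [Group Q] [Finite Q] (f : FreeGroup (Fin m) →* Q), f w = 1) : w = 1 := by
  have hr : IsReduced w.toWord := isReduced_toWord
  obtain ⟨P, -, hP⟩ := sep_rep w.toWord (w.toWord.length + 2) (by omega) (by omega) (by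
    intro k k' hk hk' e
    rw [Nat.mod_eq_of_lt (by omega)] at e
    subst e
    exact List.isChain_iff_getElem.1 hr k hk')
  rw [mk_toWord, h _ (lift P)] at hP
  have h1 : ((w.toWord.length : ℕ) : ZMod (w.toWord.length + 2)) = 0 := congrArg Prod.fst hP
  rw [ZMod.natCast_eq_zero_iff] at h1
  have h2 : w.toWord.length = 0 := Nat.eq_zero_of_dvd_of_lt h1 (by omega)
  exact toWord_eq_nil_iff.1 (List.length_eq_zero_iff.1 h2)

theorem sep_fix {α Y : Type} {P : α → Equiv.Perm Y} (hP : ∀ y x, P y x ≠ x) {a : α}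
    {w : FreeGroup α} {x : Y} (hx : lift P w x = x) : ¬IsConj (lift P (of a)) (lift P w) := by
  intro h
  obtain ⟨c, hc⟩ := isConj_iff.1 h
  rw [← hc, lift_apply_of, Equiv.Perm.mul_apply, Equiv.Perm.mul_apply,
    ← Equiv.Perm.eq_inv_iff_eq] at hx
  exact hP _ _ hx

theorem sep_cyc {L : List (Fin m × Bool)} (hL : IsCyclicallyReduced L) {a : Fin m}
    (h : ∀ (Q : Type) [Group Q] [Finite Q] (f : FreeGroup (Fin m) →* Q),
      IsConj (f (of a)) (f (mk L))) : mk L = of a := by
  rcases L with _ | ⟨x, _ | ⟨x', L⟩⟩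
  · obtain ⟨P, h1, h2⟩ := sep_rep ([] : List (Fin m × Bool)) 2 le_rfl (Nat.zero_le _)
      fun k _ hk => absurd hk (Nat.not_lt_zero _)
    exact absurd (h _ (lift P)) (sep_fix h1 h2)
  · have h1 := isConj_iff_eq.1 (h (Multiplicative (ZMod 3))
      (lift fun y => Multiplicative.ofAdd (if y = a then 1 else 0)))
    obtain ⟨b, s⟩ := x
    rw [lift_apply_of, lift_mk, if_pos rfl] at h1
    by_cases e : b = a
    · subst e
      cases s
      · simp only [List.map_cons, List.map_nil, List.prod_cons, List.prod_nil, cond_false, if_true]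
          at h1
        exact absurd h1 (by decide)
      · rfl
    · simp only [List.map_cons, List.map_nil, List.prod_cons, List.prod_nil, if_neg e] at h1
      cases s <;> exact absurd h1 (by decide)
  · generalize hM : x :: x' :: L = M at hL h
    have h2 : 2 ≤ M.length := by rw [← hM]; simp
    have : NeZero M.length := ⟨by omega⟩
    obtain ⟨P, h1, h3⟩ := sep_rep M M.length h2 le_rfl (by
      intro k k' hk hk' e
      by_cases c : k + 1 < M.length
      · rw [Nat.mod_eq_of_lt c] at e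
        subst e
        exact List.isChain_iff_getElem.1 hL.1 k hk'
      · have e1 : k + 1 = M.length := by omega
        rw [e1, Nat.mod_self] at e
        subst e
        refine hL.2 _ ?_ _ ?_
        · rw [List.getLast?_eq_getElem?, Option.mem_def, List.getElem?_eq_some_iff]
          exact ⟨by omega, by congr 1; omega⟩
        · rw [List.head?_eq_getElem?, Option.mem_def, List.getElem?_eq_some_iff]
          exact ⟨hk', rfl⟩)
    rw [ZMod.natCast_self] at h3
    exact absurd (h _ (lift P)) (sep_fix h1 h3)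

/-- Hint: replace `w` by a cyclically reduced conjugate (`FreeGroup.reduceCyclically`). Lengths `0`
and `1`: map to `Multiplicative (ZMod 3)`. Length `L ≥ 2`: extend the partial injections of
`ZMod L` read off from the cyclic word to permutations `P y`, and let `y` act on
`ZMod L × ZMod 2` by `(k, z) ↦ (P y k, z + if P y k = k then 1 else 0)`. Then `w` has a fixed
point and `of a` has none. -/
theorem isConj_of_fin {w : FreeGroup (Fin m)} {a : Fin m}
    (h : ∀ (Q : Type) [Group Q] [Finite Q] (f : FreeGroup (Fin m) →* Q), IsConj (f (of a)) (f w)) :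
    IsConj (of a) w := by
  have hc : IsConj (mk (reduceCyclically w.toWord)) w := by
    refine isConj_iff.2 ⟨mk (reduceCyclically.conjugator w.toWord), ?_⟩
    rw [inv_mk, mul_mk, mul_mk, reduceCyclically.conj_conjugator_reduceCyclically, mk_toWord]
  rw [← sep_cyc (reduceCyclically.isCyclicallyReduced (isReduced_toWord (x := w)))
    fun Q _ _ f => (h Q f).trans (f.map_isConj hc).symm]
  exact hc

/-- Hint: there is an automorphism sending `of 0` to `PP (m+1)`. -/
theorem isConj_PP_of_fin {w : FreeGroup (Fin (m + 1))}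
    (h : ∀ (Q : Type) [Group Q] [Finite Q] (f : FreeGroup (Fin (m + 1)) →* Q),
      IsConj (f (PP (m + 1))) (f w)) : IsConj (PP (m + 1)) w := by
  obtain ⟨T, hT⟩ : ∃ T : FreeGroup (Fin (m + 1)),
      T = (List.ofFn fun i : Fin m => of i.succ).prod := ⟨_, rfl⟩
  have e0 : PP (m + 1) = of 0 * T := by rw [PP, List.ofFn_succ, List.prod_cons, hT]
  have e1 : ∀ z, lift (Fin.cons z fun i : Fin m => of i.succ : Fin (m + 1) → FreeGroup (Fin (m + 1)))
      T = T := fun z => by
    rw [hT, map_list_prod, List.map_ofFn]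
    simp only [Function.comp_def, lift_apply_of, Fin.cons_succ]
  obtain ⟨φ, hφ⟩ : ∃ φ : FreeGroup (Fin (m + 1)) →* FreeGroup (Fin (m + 1)),
      φ = lift (Fin.cons (of 0 * T) fun i : Fin m => of i.succ) := ⟨_, rfl⟩
  obtain ⟨ψ, hψ⟩ : ∃ ψ : FreeGroup (Fin (m + 1)) →* FreeGroup (Fin (m + 1)),
      ψ = lift (Fin.cons (of 0 * T⁻¹) fun i : Fin m => of i.succ) := ⟨_, rfl⟩
  have a0 : φ (of 0) = of 0 * T := by rw [hφ, lift_apply_of, Fin.cons_zero]
  have b0 : ψ (of 0) = of 0 * T⁻¹ := by rw [hψ, lift_apply_of, Fin.cons_zero]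
  have a1 : φ T = T := hφ ▸ e1 _
  have b1 : ψ T = T := hψ ▸ e1 _
  have c : φ.comp ψ = MonoidHom.id _ := by
    refine FreeGroup.ext_hom _ _ fun i => ?_
    rw [MonoidHom.comp_apply, MonoidHom.id_apply]
    refine Fin.cases ?_ (fun i => ?_) i
    · rw [b0, φ.map_mul, φ.map_inv, a0, a1, mul_inv_cancel_right]
    · rw [hψ, lift_apply_of, Fin.cons_succ, hφ, lift_apply_of, Fin.cons_succ]
  have d : IsConj (of 0) (ψ w) := isConj_of_fin fun Q _ _ f => by
    have := h Q (f.comp ψ)
    rwa [MonoidHom.comp_apply, MonoidHom.comp_apply, e0, ψ.map_mul, b0, b1,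
      inv_mul_cancel_right] at this
  have := φ.map_isConj d
  rwa [a0, ← e0, ← MonoidHom.comp_apply, c, MonoidHom.id_apply] at this

end Pool.Agent.MP_1c2b6e_al

end

-- part MP_1c2b6e_al.Disc
section

/-! The pure part of `Σ` and its approximation by braid automorphisms. -/

namespace Pool.Agent.MP_1c2b6e_al

open Classical

variable {G : Type} [Group G] [TopologicalSpace G] [IsTopologicalGroup G] [CompactSpace G]
  [TotallyDisconnectedSpace G] {n r : ℕ}

/-- `ψ` maps the discretification onto itself. -/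
def Disc (l : Fin n → G) (ψ : MulAut G) : Prop :=
  (Subgroup.closure (Set.range l)).map ψ.toMonoidHom = Subgroup.closure (Set.range l)

omit [TopologicalSpace G] [IsTopologicalGroup G] [CompactSpace G] [TotallyDisconnectedSpace G] in
theorem disca_mul {l : Fin n → G} {φ ψ : MulAut G} (ha : Disc l φ) (hb : Disc l ψ) :
    Disc l (φ * ψ) := by
  have : (φ * ψ).toMonoidHom = φ.toMonoidHom.comp ψ.toMonoidHom := rfl
  unfold Disc at *
  rw [this, ← Subgroup.map_map, hb, ha]

omit [TopologicalSpace G] [IsTopologicalGroup G] [CompactSpace G] [TotallyDisconnectedSpace G] in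
theorem disca_inv {l : Fin n → G} {φ : MulAut G} (ha : Disc l φ) : Disc l φ⁻¹ := by
  have : (φ⁻¹).toMonoidHom.comp φ.toMonoidHom = MonoidHom.id G :=
    MonoidHom.ext fun x => φ.symm_apply_apply x
  unfold Disc at *
  conv_lhs => rw [← ha, Subgroup.map_map, this, Subgroup.map_id]

omit [TopologicalSpace G] [IsTopologicalGroup G] [CompactSpace G] [TotallyDisconnectedSpace G] in
theorem disca_of_gen {l : Fin n → G} {φ : MulAut G}
    (h1 : ∀ i, φ (l i) ∈ Subgroup.closure (Set.range l))
    (h2 : ∀ i, ∃ x ∈ Subgroup.closure (Set.range l), φ x = l i) : Disc l φ := by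
  refine le_antisymm ?_ ((Subgroup.closure_le _).2 ?_)
  · rw [Subgroup.map_le_iff_le_comap, Subgroup.closure_le]
    rintro _ ⟨i, rfl⟩
    exact h1 i
  · rintro _ ⟨i, rfl⟩
    exact h2 i

/-- The pure elements of the preimage of `Σ`. -/
def Sig (l : Fin n → G) : Subgroup (MulAut G) where
  carrier := {φ | Pure l φ 1 ∧ ∀ N : OpenNormalSubgroup G,
    ∃ ψ, Pure l ψ 1 ∧ Disc l ψ ∧ ∀ g, pr N (φ g) = pr N (ψ g)}
  one_mem' := ⟨Pure.one l, fun _ => ⟨1, Pure.one l, Subgroup.map_id _, fun _ => rfl⟩⟩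
  mul_mem' := fun {φ φ'} ha hb => ⟨by simpa using ha.1.mul hb.1, fun N => by
    obtain ⟨ψ, h1, h2, h3⟩ := ha.2 N
    obtain ⟨ψ', h4, h5, h6⟩ := hb.2 (pre φ.toMonoidHom ha.1.1 N)
    exact ⟨ψ * ψ', by simpa using h1.mul h4, disca_mul h2 h5, fun g =>
      ((pr_pre φ.toMonoidHom ha.1.1 N).1 (h6 g)).trans (h3 (ψ' g))⟩⟩
  inv_mem' := fun {φ} ha => ⟨by simpa using ha.1.inv, fun N => by
    obtain ⟨ψ, h1, h2, h3⟩ := ha.2 (pre (φ⁻¹).toMonoidHom ha.1.inv.1 N)
    refine ⟨ψ⁻¹, by simpa using h1.inv, disca_inv h2, fun g => ?_⟩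
    have h4 := (pr_pre (φ⁻¹).toMonoidHom ha.1.inv.1 N).1 (h3 (ψ⁻¹ g))
    simpa using h4.symm⟩

theorem conj_mem_Sig {l : Fin n → G} (hl : IsBasis l) (g : G) : MulAut.conj g ∈ Sig l := by
  refine ⟨Pure.conj l g, fun N => ?_⟩
  obtain ⟨x, hx, e⟩ := hl.exists_disc N g
  have h : ∀ i, l i ∈ Subgroup.closure (Set.range l) := fun i => Subgroup.subset_closure ⟨i, rfl⟩
  refine ⟨MulAut.conj x, Pure.conj l x, disca_of_gen
    (fun i => mul_mem (mul_mem hx (h i)) (inv_mem hx))
    (fun i => ⟨x⁻¹ * l i * x, mul_mem (mul_mem (inv_mem hx) (h i)) hx, by simp [mul_assoc]⟩),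
    fun y => ?_⟩
  simp only [MulAut.conj_apply, map_mul, map_inv, e]

/-- `Sig l` is closed. Hint: `exists_conj_of_pr`. -/
theorem mem_Sig_of_pr {l : Fin n → G} {φ : MulAut G} (hc : Continuous φ)
    (h : ∀ N : OpenNormalSubgroup G, ∃ ψ ∈ Sig l, ∀ g, pr N (φ g) = pr N (ψ g)) : φ ∈ Sig l := by
  refine ⟨⟨hc, fun i => exists_conj_of_pr fun N => ?_⟩, fun N => ?_⟩
  · obtain ⟨ψ, h1, h2⟩ := h N
    obtain ⟨α, e⟩ := h1.1.2 i
    exact ⟨α, by rw [h2, e]⟩
  · obtain ⟨ψ, h1, h2⟩ := h N
    obtain ⟨ψ', h3, h4, h5⟩ := h1.2 N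
    exact ⟨ψ', h3, h4, fun g => (h2 g).trans (h5 g)⟩

/-- The characters `l s ↦ 1`, `l j ↦ -1`. -/
theorem disca_ch {l : Fin n → G} (hl : IsBasis l) (m : ℕ) [NeZero m] (s j : Fin n) :
    ∃ f : G → ZMod m, IsCh ⊤ f ∧
      ∀ i, f (l i) = (if i = s then 1 else 0) - (if i = j then 1 else 0) :=
  hl.exists_ch _ (by simp [Finset.sum_sub_distrib])

omit [IsTopologicalGroup G] [CompactSpace G] [TotallyDisconnectedSpace G] in
/-- On the discretification these characters come from one integer. -/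
theorem disca_int {l : Fin n → G} (s j : Fin n) {x : G}
    (hx : x ∈ Subgroup.closure (Set.range l)) : ∃ k : ℤ, ∀ (m : ℕ) (f : G → ZMod m), IsCh ⊤ f →
      (∀ i, f (l i) = (if i = s then 1 else 0) - (if i = j then 1 else 0)) → f x = k := by
  have h1 : ∀ (m : ℕ) (f : G → ZMod m), IsCh ⊤ f → f 1 = 0 := fun m f hf => by
    have := hf.1 1 trivial 1 trivial
    rw [mul_one] at this
    exact left_eq_add.1 this
  induction hx using Subgroup.closure_induction with
  | mem x hx =>
    obtain ⟨i, rfl⟩ := hx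
    exact ⟨(if i = s then 1 else 0) - (if i = j then 1 else 0), fun m f _ h => by
      rw [h i]
      push_cast
      rfl⟩
  | one => exact ⟨0, fun m f hf _ => by rw [h1 m f hf, Int.cast_zero]⟩
  | mul x y _ _ hx hy =>
    obtain ⟨k, hk⟩ := hx
    obtain ⟨k', hk'⟩ := hy
    exact ⟨k + k', fun m f hf h => by
      rw [hf.1 x trivial y trivial, hk m f hf h, hk' m f hf h, Int.cast_add]⟩
  | inv x _ hx =>
    obtain ⟨k, hk⟩ := hx
    refine ⟨-k, fun m f hf h => ?_⟩
    have := hf.1 x trivial x⁻¹ trivial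
    rw [mul_inv_cancel, h1 m f hf, hk m f hf h] at this
    rw [Int.cast_neg]
    exact eq_neg_of_add_eq_zero_right this.symm

/-- The character of a discrete element is `±1`. Hint: `φ (l 0)` lies in the abstract group
generated by the `l i`, on which the characters `l (σ 0) ↦ 1`, `l j ↦ -1` mod `m` are given by one
integer independent of `m` (closure induction: for `x` in the closure there is `k : ℤ` with
`f x = k` for all `m` and all such `f`); use `zhat_ext`, `int_unit`. -/
theorem HasChar.disc {l : Fin n → G} (hl : IsBasis l) (hn : 2 ≤ n) {ψ : MulAut G} {a : Zhatˣ}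
    (ha : HasChar l ψ a) (hd : Disc l ψ) : a = 1 ∨ a = -1 := by
  obtain ⟨-, σ, h⟩ := ha
  obtain ⟨α, y, hy, e⟩ := h ⟨0, by omega⟩
  rw [isPow_iff] at hy
  have : Nontrivial (Fin n) := Fin.nontrivial_iff_two_le.2 hn
  obtain ⟨j, hj⟩ := exists_ne (σ ⟨0, by omega⟩)
  have hx : ψ (l ⟨0, by omega⟩) ∈ Subgroup.closure (Set.range l) := by
    rw [← hd]
    exact ⟨_, Subgroup.subset_closure ⟨_, rfl⟩, rfl⟩
  obtain ⟨k, hk⟩ := disca_int (σ ⟨0, by omega⟩) j hx
  have h2 : (a : Zhat) = (k : Zhat) := zhat_ext fun m _ => by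
    obtain ⟨f, hf, h3⟩ := disca_ch hl m (σ ⟨0, by omega⟩) j
    have h4 := hk m f hf h3
    rw [e, hf.conj trivial trivial, hy, hf.map_pw trivial, h3, if_pos rfl, if_neg hj.symm] at h4
    rw [map_intCast, ← h4]
    ring
  rcases int_unit h2 with rfl | rfl
  · exact Or.inl (Units.ext (by simpa using h2))
  · exact Or.inr (Units.ext (by simpa using h2))

/-- Hint for `←`: `Pure.unique`-type argument with `conj_pw_inj`; an approximant modulo the common
kernel of the characters mod `3` has trivial permutation and character `1`. -/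
theorem mem_Sig_iff {l : Fin n → G} (hl : IsBasis l) (hn : 3 ≤ n) {φ : MulAut G} :
    φ ∈ Sig l ↔ φ ∈ closS l ⊓ plusS l ∧ ∃ a, Pure l φ a := by
  refine ⟨fun h => ⟨⟨⟨⟨1, h.1.hasChar⟩, fun N => ?_⟩, h.1.hasChar⟩, 1, h.1⟩, ?_⟩
  · obtain ⟨ψ, h1, h2, h3⟩ := h.2 N
    exact ⟨ψ, ⟨⟨1, h1.hasChar⟩, h2⟩, fun g => (pr_eq_iff N _ _).1 (h3 g)⟩
  rintro ⟨⟨h1, -, σ, h2⟩, a, h3⟩
  have ha : a = 1 := by
    obtain ⟨α, y, hy, e⟩ := h2 ⟨0, by omega⟩
    obtain ⟨β, e'⟩ := h3.2 ⟨0, by omega⟩
    rw [isPow_iff] at hy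
    rw [e', hy] at e
    exact Units.ext (hl.conj_pw_inj hn e).2
  subst ha
  refine ⟨h3, fun N => ?_⟩
  choose f hf hv using fun p : Fin n × Fin n => disca_ch hl 3 p.1 p.2
  choose K hK1 hK2 using fun p => (hf p).eq_of_pr
  obtain ⟨M, hM⟩ := exists_le_finite (fun o : Option (Fin n × Fin n) => o.elim N K)
  obtain ⟨ψ, ⟨⟨b, hb⟩, hd⟩, h4⟩ := h1.2 M
  have h5 : ∀ g, pr M (φ g) = pr M (ψ g) := fun g => (pr_eq_iff M _ _).2 (h4 g)
  have hb' := HasChar.disc hl (by omega) hb hd
  obtain ⟨hc, τ, h6⟩ := hb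
  have h7 : ∀ i k, k ≠ i → k ≠ τ i → (1 : ZMod 3) = res 3 (b : Zhat) * if τ i = i then 1 else 0 := by
    intro i k e1 e2
    obtain ⟨α, y, hy, e⟩ := h6 i
    obtain ⟨β, e'⟩ := h3.2 i
    rw [isPow_iff] at hy
    have h8 := hK2 (i, k) _ trivial _ (pr_mono (hM (some (i, k))) (h5 (l i)))
    rw [e, e', hy, (hf _).conj trivial trivial, (hf _).conj trivial trivial,
      (hf _).map_pw trivial, (hf _).map_pw trivial, hv, hv] at h8
    simpa [e1.symm, e2.symm] using h8
  have h8 : ∀ i, τ i = i ∧ res 3 (b : Zhat) = 1 := fun i => by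
    obtain ⟨k, e1, e2⟩ := Fin.exists_ne_and_ne_of_two_lt i (τ i) (by omega)
    have h9 := h7 i k e1 e2
    by_cases e : τ i = i
    · exact ⟨e, by simpa [e] using h9.symm⟩
    · rw [if_neg e, mul_zero] at h9
      exact absurd h9 (by decide)
  have h9 : b = 1 := hb'.resolve_right fun e => by
    have := (h8 ⟨0, by omega⟩).2
    rw [e, Units.val_neg, Units.val_one, map_neg, map_one] at this
    exact absurd this (by decide)
  subst h9
  refine ⟨ψ, ⟨hc, fun i => ?_⟩, hd, fun g => pr_mono (hM none) (h5 g)⟩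
  obtain ⟨α, y, hy, e⟩ := h6 i
  rw [isPow_iff, (h8 i).1] at hy
  exact ⟨α, by rw [e, hy]⟩

/-- Adjacent transpositions are realised by Hurwitz moves. -/
theorem disca_swap {l : Fin n → G} (hl : IsBasis l) {i j : Fin n} (hij : (j : ℕ) = i + 1) :
    ∃ δ ∈ closS l ⊓ plusS l, ∀ k, ∃ α, δ (l k) = α * l (Equiv.swap i j k) * α⁻¹ := by
  have hne : j ≠ i := fun e => by
    rw [e] at hij
    omega
  obtain ⟨f, hf, h1⟩ := hl.lift G (hur i j l) (by rw [prod_hur hij, hl.prod])
  obtain ⟨g, hg, h2⟩ := hl.lift G (hur' i j l) (by rw [prod_hur' hij, hl.prod])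
  have h : ∀ k, l k ∈ Subgroup.closure (Set.range l) := fun k => Subgroup.subset_closure ⟨k, rfl⟩
  have h3 : ∀ k, f (g (l k)) = l k := fun k => by
    rw [h2, hur']
    split_ifs with e1 e2
    · simp [h1, hur, hne, e1]
    · simp [h1, hur, hne, e2, mul_assoc]
    · simp [h1, hur, e1, e2]
  have h4 : ∀ k, g (f (l k)) = l k := fun k => by
    rw [h1, hur]
    split_ifs with e1 e2
    · simp [h2, hur', hne, e1, mul_assoc]
    · simp [h2, hur', e2]
    · simp [h2, hur', e1, e2]
  obtain ⟨φ, hc, h5⟩ := hl.exists_aut f g hf hg h3 h4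
  have h6 : ∀ k, ∃ α, φ (l k) = α * l (Equiv.swap i j k) * α⁻¹ := fun k => by
    rw [h5, h1, hur]
    split_ifs with e1 e2
    · exact ⟨l i, by rw [e1, Equiv.swap_apply_left]⟩
    · exact ⟨1, by simp [e2]⟩
    · exact ⟨1, by simp [Equiv.swap_apply_of_ne_of_ne e1 e2]⟩
  have h7 : HasChar l φ 1 := ⟨hc, Equiv.swap i j, fun k => by
    obtain ⟨α, e⟩ := h6 k
    exact ⟨α, _, isPow_iff.2 (pw_one _).symm, e⟩⟩
  have h8 : Disc l φ := by
    refine disca_of_gen (fun k => ?_) (fun k => ⟨g (l k), ?_, by rw [h5, h3]⟩)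
    · rw [h5, h1, hur]
      split_ifs
      exacts [mul_mem (mul_mem (h i) (h j)) (inv_mem (h i)), h i, h k]
    · rw [h2, hur']
      split_ifs
      exacts [h j, mul_mem (mul_mem (inv_mem (h j)) (h i)) (h j), h k]
  exact ⟨φ, ⟨⟨⟨1, h7⟩, fun N => ⟨φ, ⟨⟨1, h7⟩, h8⟩, fun x => by simp⟩⟩, h7⟩, h6⟩

/-- Every permutation of the punctures is realised by a discrete element with character `1`.
Hint: adjacent transpositions by `hl.lift` with `hur`, `hur'` (`prod_hur`, `exists_aut`);
`Equiv.Perm.mclosure_swap_castSucc_succ` or an induction. -/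
theorem exists_perm {l : Fin n → G} (hl : IsBasis l) (σ : Equiv.Perm (Fin n)) :
    ∃ δ ∈ closS l ⊓ plusS l, ∀ i, ∃ α, δ (l i) = α * l (σ i) * α⁻¹ := by
  have h1 : ∃ δ ∈ closS l ⊓ plusS l, ∀ i, ∃ α,
      δ (l i) = α * l ((1 : Equiv.Perm (Fin n)) i) * α⁻¹ :=
    ⟨1, one_mem _, fun i => ⟨1, by simp⟩⟩
  rcases n with _ | m
  · rwa [Subsingleton.elim σ 1]
  have h2 : σ ∈ Submonoid.closure (Set.range fun i : Fin m => Equiv.swap i.castSucc i.succ) := by
    rw [Equiv.Perm.mclosure_swap_castSucc_succ]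
    trivial
  induction h2 using Submonoid.closure_induction with
  | mem x hx =>
    obtain ⟨i, rfl⟩ := hx
    exact disca_swap hl (by simp)
  | one => exact h1
  | mul x y _ _ hx hy =>
    obtain ⟨δ, h3, h4⟩ := hx
    obtain ⟨δ', h5, h6⟩ := hy
    refine ⟨δ * δ', mul_mem h3 h5, fun i => ?_⟩
    obtain ⟨β, e2⟩ := h6 i
    obtain ⟨α, e1⟩ := h4 (y i)
    refine ⟨δ β * α, ?_⟩
    rw [MulAut.mul_apply, e2, map_mul, map_mul, map_inv, e1, Equiv.Perm.mul_apply]
    group

end Pool.Agent.MP_1c2b6e_al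

/-! Approximation by braid automorphisms. -/

namespace Pool.Agent.MP_1c2b6e_al

open Classical

variable {G : Type} [Group G] [TopologicalSpace G] [IsTopologicalGroup G] [CompactSpace G]
  [TotallyDisconnectedSpace G] {r : ℕ}

variable {l : Fin (r + 1) → G}

/-- The map from the discrete free group on the first `r` generators. -/
def jj (l : Fin (r + 1) → G) : FreeGroup (Fin r) →* G := FreeGroup.lift fun i => l i.castSucc

theorem disc_map_PP {Q : Type} [Group Q] (f : FreeGroup (Fin r) →* Q) :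
    f (PP r) = (List.ofFn fun i => f (FreeGroup.of i)).prod := by
  rw [PP, map_list_prod, List.map_ofFn]
  rfl

theorem disc_prod_snoc {Q : Type} [Group Q] (f : FreeGroup (Fin r) →* Q) :
    (List.ofFn (Fin.snoc (α := fun _ => Q) (fun i => f (FreeGroup.of i)) (f (PP r))⁻¹)).prod = 1 := by
  rw [List.ofFn_succ_last, List.prod_append]
  simp only [Fin.snoc_castSucc, Fin.snoc_last, List.prod_cons, List.prod_nil, mul_one]
  rw [← disc_map_PP, mul_inv_cancel]

omit [TopologicalSpace G] [IsTopologicalGroup G] [CompactSpace G] [TotallyDisconnectedSpace G] in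
theorem disc_jj_of (l : Fin (r + 1) → G) (i : Fin r) : jj l (FreeGroup.of i) = l i.castSucc := by
  simp [jj]

theorem jj_PP (hl : IsBasis l) : jj l (PP r) = (l (Fin.last r))⁻¹ := by
  have h := hl.prod
  rw [List.ofFn_succ_last, List.prod_append] at h
  simp only [List.prod_cons, List.prod_nil, mul_one] at h
  rw [disc_map_PP]
  simp only [disc_jj_of]
  exact eq_inv_of_mul_eq_one_left h

theorem disc_exists_jj (hl : IsBasis l) (i : Fin (r + 1)) : ∃ w, jj l w = l i := by
  refine Fin.lastCases ?_ (fun i => ⟨_, disc_jj_of l i⟩) i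
  exact ⟨(PP r)⁻¹, by rw [map_inv, jj_PP hl, inv_inv]⟩

theorem jj_range (hl : IsBasis l) : (jj l).range = Subgroup.closure (Set.range l) := by
  apply le_antisymm
  · rintro _ ⟨w, rfl⟩
    induction w using FreeGroup.induction_on with
    | C1 => rw [map_one]; exact one_mem _
    | of i => rw [disc_jj_of]; exact Subgroup.subset_closure ⟨_, rfl⟩
    | inv_of i ih => rw [map_inv]; exact inv_mem ih
    | mul x y hx hy => rw [map_mul]; exact mul_mem hx hy
  · rw [Subgroup.closure_le]
    rintro _ ⟨i, rfl⟩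
    exact disc_exists_jj hl i

/-- Every homomorphism from the free group to a finite group extends. -/
theorem exists_ext_fin (hl : IsBasis l) {Q : Type} [Group Q] [Finite Q]
    (f : FreeGroup (Fin r) →* Q) :
    ∃ h : G →* Q, IsOpen (h.ker : Set G) ∧ ∀ w, h (jj l w) = f w := by
  obtain ⟨h, ho, hh⟩ := hl.lift_fin _ (disc_prod_snoc f)
  have e : h.comp (jj l) = f := by
    refine FreeGroup.ext_hom _ _ fun i => ?_
    rw [MonoidHom.comp_apply, disc_jj_of, hh, Fin.snoc_castSucc]
  exact ⟨h, ho, fun w => DFunLike.congr_fun e w⟩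

theorem jj_injective (hl : IsBasis l) : Function.Injective (jj l) := by
  refine (injective_iff_map_eq_one _).2 fun w hw => eq_one_of_fin fun Q _ _ f => ?_
  obtain ⟨h, -, hh⟩ := exists_ext_fin hl f
  rw [← hh, hw, map_one]

theorem exists_jj_pr (hl : IsBasis l) (N : OpenNormalSubgroup G) (g : G) :
    ∃ w, pr N (jj l w) = pr N g := by
  obtain ⟨x, hx, e⟩ := hl.exists_disc N g
  rw [← jj_range hl] at hx
  obtain ⟨w, rfl⟩ := hx
  exact ⟨w, e⟩

/-- Continuous endomorphisms are determined by their values on the discrete free group. -/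
theorem disc_ext (hl : IsBasis l) {f g : G →* G} (hf : Continuous f) (hg : Continuous g)
    (h : ∀ w, f (jj l w) = g (jj l w)) (x : G) : f x = g x := by
  refine eq_of_pr fun N => hl.pr_ext N hf hg (fun i => ?_) x
  obtain ⟨w, hw⟩ := disc_exists_jj hl i
  rw [← hw, h]

theorem disc_exists_end (hl : IsBasis l) (β : MulAut (FreeGroup (Fin r))) :
    ∃ E : G →* G, Continuous E ∧ ∀ w, E (jj l w) = jj l (β w) := by
  obtain ⟨h, ho, hh⟩ := hl.lift G _ (disc_prod_snoc ((jj l).comp β.toMonoidHom))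
  have e : h.comp (jj l) = (jj l).comp β.toMonoidHom := by
    refine FreeGroup.ext_hom _ _ fun i => ?_
    rw [MonoidHom.comp_apply, disc_jj_of, hh, Fin.snoc_castSucc]
  exact ⟨h, ho, fun w => DFunLike.congr_fun e w⟩

/-- Automorphisms of the discrete free group extend. -/
theorem exists_ext (hl : IsBasis l) : ∃ X : MulAut (FreeGroup (Fin r)) →* MulAut G,
    ∀ β, Continuous (X β) ∧ ∀ w, X β (jj l w) = jj l (β w) := by
  choose E hE hEw using disc_exists_end hl
  have h1 : ∀ β : MulAut (FreeGroup (Fin r)), (E β⁻¹).comp (E β) = MonoidHom.id G := fun β =>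
    MonoidHom.ext (disc_ext hl ((hE _).comp (hE _)) continuous_id fun w => by
      rw [MonoidHom.comp_apply, hEw, hEw, MulAut.inv_apply_self, MonoidHom.id_apply])
  have h2 : ∀ β : MulAut (FreeGroup (Fin r)), (E β).comp (E β⁻¹) = MonoidHom.id G := fun β => by
    simpa using h1 β⁻¹
  refine ⟨MonoidHom.mk' (fun β => MonoidHom.toMulEquiv (E β) (E β⁻¹) (h1 β) (h2 β)) ?_,
    fun β => ⟨hE β, hEw β⟩⟩
  intro α β
  refine MulEquiv.ext fun x => ?_
  exact disc_ext hl (g := (E α).comp (E β)) (hE _) ((hE _).comp (hE _))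
    (fun w => by rw [MonoidHom.comp_apply, hEw, hEw, hEw, MulAut.mul_apply]) x

theorem mem_Sig_of_good (hl : IsBasis l) {β : MulAut (FreeGroup (Fin r))} (hβ : Good β)
    {ψ : MulAut G} (hc : Continuous ψ) (h : ∀ w, ψ (jj l w) = jj l (β w)) :
    ψ ∈ Sig l ∧ ψ (l (Fin.last r)) = l (Fin.last r) := by
  have hlast : ψ (l (Fin.last r)) = l (Fin.last r) := by
    apply inv_injective
    rw [← map_inv, ← jj_PP hl, h, hβ.1]
  have hp : Pure l ψ 1 := by
    refine ⟨hc, fun i => ?_⟩
    rw [Units.val_one, pw_one]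
    refine Fin.lastCases ⟨1, by rw [hlast, one_mul, inv_one, mul_one]⟩ (fun i => ?_) i
    obtain ⟨c, hc⟩ := isConj_iff.1 (hβ.2 i)
    exact ⟨jj l c, by rw [← disc_jj_of l i, h, ← hc, map_mul, map_mul, map_inv]⟩
  have hd : Disc l ψ := by
    rw [Disc, ← jj_range hl]
    apply le_antisymm
    · rintro _ ⟨_, ⟨w, rfl⟩, rfl⟩
      exact ⟨β w, (h w).symm⟩
    · rintro _ ⟨w, rfl⟩
      refine ⟨jj l (β⁻¹ w), ⟨_, rfl⟩, ?_⟩
      change ψ _ = _
      rw [h, MulAut.apply_inv_self]
  exact ⟨⟨hp, fun N => ⟨ψ, hp, hd, fun _ => rfl⟩⟩, hlast⟩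

/-- A discrete pure element comes from an automorphism of the free group preserving the
conjugacy classes of the generators and of their product (`isConj_of_fin`, `isConj_PP_of_fin`). -/
theorem exists_disc_aut (hl : IsBasis l) (hr : 1 ≤ r) {ψ : MulAut G} (hψ : Pure l ψ 1)
    (hd : Disc l ψ) : ∃ α : MulAut (FreeGroup (Fin r)), (∀ w, ψ (jj l w) = jj l (α w)) ∧
      (∀ i, IsConj (FreeGroup.of i) (α (FreeGroup.of i))) ∧ IsConj (PP r) (α (PP r)) := by
  rw [Disc, ← jj_range hl] at hd
  have ha : ∀ w, ∃ w', jj l w' = ψ (jj l w) := fun w => hd.le ⟨jj l w, ⟨w, rfl⟩, rfl⟩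
  have hb : ∀ w, ∃ w', ψ (jj l w') = jj l w := fun w => by
    obtain ⟨_, ⟨w', rfl⟩, e⟩ := hd.ge ⟨w, rfl⟩
    exact ⟨w', e⟩
  choose a ha using ha
  choose b hb using hb
  have hi := jj_injective hl
  let α : MulAut (FreeGroup (Fin r)) :=
    { toFun := a
      invFun := b
      left_inv := fun w => hi (ψ.injective (by rw [hb, ha]))
      right_inv := fun w => hi (by rw [ha, hb])
      map_mul' := fun x y => hi (by rw [map_mul, ha, ha, ha, map_mul, map_mul]) }
  have hα : ∀ w, ψ (jj l w) = jj l (α w) := fun w => (ha w).symm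
  have hc : ∀ i, IsConj (l i) (ψ (l i)) := fun i => by
    obtain ⟨c, hc⟩ := hψ.2 i
    rw [Units.val_one, pw_one] at hc
    exact isConj_iff.2 ⟨c, hc.symm⟩
  refine ⟨α, hα, fun i => isConj_of_fin fun Q _ _ f => ?_, ?_⟩
  · obtain ⟨h, -, hh⟩ := exists_ext_fin hl f
    rw [← hh, ← hh, ← hα, disc_jj_of]
    exact h.map_isConj (hc _)
  · obtain ⟨m, rfl⟩ : ∃ m, r = m + 1 := ⟨r - 1, by omega⟩
    refine isConj_PP_of_fin fun Q _ _ f => ?_
    obtain ⟨h, -, hh⟩ := exists_ext_fin hl f
    rw [← hh, ← hh, ← hα, jj_PP hl]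
    refine h.map_isConj ?_
    obtain ⟨c, e⟩ := isConj_iff.1 (hc (Fin.last _))
    refine isConj_iff.2 ⟨c, ?_⟩
    rw [map_inv, ← e]
    group

/-- Elements of `Sig l` fixing the last generator are limits of pure braid automorphisms.
Hint: approximate modulo `N ⊓ M` with `M` from `cent_fin` for the last generator; if
`α (PP r) = g * PP r * g⁻¹` then `jj g` is congruent mod `N` to a power of the last generator, and
`β = conj (PP r ^ k * g⁻¹) * α` with `k : ℤ` suitable works. -/
theorem approx_good (hl : IsBasis l) (hr : 1 ≤ r) {φ : MulAut G} (hφ : φ ∈ Sig l)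
    (hlast : φ (l (Fin.last r)) = l (Fin.last r)) (N : OpenNormalSubgroup G) :
    ∃ β, Good β ∧ ∀ w, pr N (φ (jj l w)) = pr N (jj l (β w)) := by
  obtain ⟨M, hM⟩ := hl.cent_fin (by omega) (Fin.last r) N
  obtain ⟨K, hK⟩ := exists_le_finite (fun b : Bool => if b then N else M)
  have hKN : K ≤ N := hK true
  have hKM : K ≤ M := hK false
  obtain ⟨ψ, hp, hd, hψ⟩ := hφ.2 K
  obtain ⟨α, hα, h1, h2⟩ := exists_disc_aut hl hr hp hd
  obtain ⟨g, hg⟩ := isConj_iff.1 h2
  have e1 : ψ (l (Fin.last r)) = jj l g * l (Fin.last r) * (jj l g)⁻¹ := by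
    apply inv_injective
    rw [← map_inv, ← jj_PP hl, hα, ← hg, map_mul, map_mul, map_inv, jj_PP hl]
    group
  have e2 : pr M (jj l g * l (Fin.last r)) = pr M (l (Fin.last r) * jj l g) := by
    have := pr_mono hKM (hψ (l (Fin.last r)))
    rw [hlast, e1] at this
    rw [map_mul (pr M) (l (Fin.last r)), this, ← map_mul, inv_mul_cancel_right]
  obtain ⟨k, hk⟩ := hM _ e2
  have e3 : pr N (jj l ((PP r ^ k)⁻¹ * g⁻¹)) = 1 := by
    rw [map_mul, map_inv, map_inv, map_pow, jj_PP hl, inv_pow, inv_inv, map_mul, map_inv, hk,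
      mul_inv_cancel]
  refine ⟨MulAut.conj ((PP r ^ k)⁻¹ * g⁻¹) * α, ⟨?_, fun i => ?_⟩, fun w => ?_⟩
  · rw [MulAut.mul_apply, MulAut.conj_apply, ← hg]
    group
  · exact (h1 i).trans (isConj_iff.2 ⟨_, rfl⟩)
  · rw [pr_mono hKN (hψ _), hα, MulAut.mul_apply, MulAut.conj_apply, map_mul (jj l), map_mul (jj l),
      map_inv (jj l), map_mul (pr N), map_mul (pr N), map_inv (pr N), e3, one_mul, inv_one, mul_one]

/-- For the tripod the pure part of `Σ` consists of inner automorphisms. Hint: reduce to `φ` fixing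
the last generator; `approx_good`, `good_two`, `exists_cluster`, `pr_ext`, `eq_of_pr`. -/
theorem Sig_three {l : Fin 3 → G} (hl : IsBasis l) {φ : MulAut G} (hφ : φ ∈ Sig l) :
    ∃ g, φ = MulAut.conj g := by
  obtain ⟨a, ha⟩ := hφ.1.2 (Fin.last 2)
  rw [Units.val_one, pw_one] at ha
  have h1 : MulAut.conj a⁻¹ * φ ∈ Sig l := mul_mem (conj_mem_Sig hl _) hφ
  have h2 : (MulAut.conj a⁻¹ * φ) (l (Fin.last 2)) = l (Fin.last 2) := by
    rw [MulAut.mul_apply, MulAut.conj_apply, ha]
    group
  have h3 : ∀ N : OpenNormalSubgroup G, ∃ x : G, ∀ w,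
      pr N ((MulAut.conj a⁻¹ * φ) (jj l w)) = pr N (x * jj l w * x⁻¹) := fun N => by
    obtain ⟨β, hβ, h⟩ := approx_good hl (by norm_num) h1 h2 N
    obtain ⟨k, rfl⟩ := good_two hβ
    exact ⟨jj l (PP 2 ^ k), fun w => by
      rw [h, MulAut.conj_apply, map_mul (jj l), map_mul (jj l), map_inv (jj l)]⟩
  choose x hx using h3
  obtain ⟨y, hy⟩ := exists_cluster (ι := Unit) fun N _ => x N
  have h4 : ∀ w, (MulAut.conj a⁻¹ * φ) (jj l w) = MulAut.conj (y ()) (jj l w) := fun w => by
    refine eq_of_pr fun N => ?_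
    obtain ⟨M, hM, e⟩ := hy N N
    rw [pr_mono hM (hx M w), MulAut.conj_apply, map_mul, map_mul, map_inv, e (), map_mul, map_mul,
      map_inv]
  have h5 : MulAut.conj a⁻¹ * φ = MulAut.conj (y ()) :=
    MulEquiv.ext (disc_ext hl (f := (MulAut.conj a⁻¹ * φ).toMonoidHom)
      (g := (MulAut.conj (y ())).toMonoidHom) h1.1.1 (continuous_conj_aut _) h4)
  refine ⟨a * y (), ?_⟩
  rw [map_mul, ← h5, ← mul_assoc, ← map_mul, mul_inv_cancel, map_one, one_mul]

end Pool.Agent.MP_1c2b6e_al

/-! Forgetting the first puncture. -/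

namespace Pool.Agent.MP_1c2b6e_al

open Classical

variable {G : Type} [Group G] [TopologicalSpace G] [IsTopologicalGroup G] [CompactSpace G]
  [TotallyDisconnectedSpace G] {H : Type} [Group H] [TopologicalSpace H] [IsTopologicalGroup H]
  [CompactSpace H] [TotallyDisconnectedSpace H] {r : ℕ} {l : Fin (r + 2) → G}
  {l' : Fin (r + 1) → H}

/-- The map killing `l 0` and its section. -/
structure Fg (l : Fin (r + 2) → G) (l' : Fin (r + 1) → H) (q : G →* H) (ι : H →* G) : Prop where
  cq : Continuous q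
  cι : Continuous ι
  qz : q (l 0) = 1
  qs : ∀ i, q (l i.succ) = l' i
  qι : ∀ x, q (ι x) = x
  qj : ∀ w, q (jj l w) = jj l' (q0 r w)
  ιj : ∀ w, ι (jj l' w) = jj l (i0 r w)

theorem exists_fg (hl : IsBasis l) (hl' : IsBasis l') : ∃ q ι, Fg l l' q ι := by
  obtain ⟨q, cq, hq⟩ := hl.lift H (Fin.cons 1 l') (by
    rw [List.ofFn_succ]
    simpa using hl'.prod)
  let y : Fin (r + 1) → G :=
    Fin.snoc (α := fun _ => G) (fun i : Fin r => l i.succ.castSucc) (l (Fin.last (r + 1)) * l 0)
  have hy : (List.ofFn y).prod = 1 := by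
    have h1 := hl.prod
    rw [List.ofFn_succ, List.prod_cons, List.ofFn_succ', List.prod_concat] at h1
    rw [List.ofFn_succ', List.prod_concat]
    simp only [y, Fin.snoc_castSucc, Fin.snoc_last]
    rw [← mul_assoc]
    exact mul_eq_one_comm.1 h1
  obtain ⟨ι, cι, hι⟩ := hl'.lift G y hy
  have qz : q (l 0) = 1 := hq 0
  have qs : ∀ i, q (l i.succ) = l' i := fun i => hq i.succ
  have ιc : ∀ i : Fin r, ι (l' i.castSucc) = l i.succ.castSucc := fun i => by
    rw [hι]
    simp only [y, Fin.snoc_castSucc]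
  refine ⟨q, ι, cq, cι, qz, qs, fun x => ?_, fun w => ?_, fun w => ?_⟩
  · have := hl'.ext (f := q.comp ι) (g := MonoidHom.id H) (cq.comp cι) continuous_id (fun i => by
      rw [MonoidHom.comp_apply, MonoidHom.id_apply]
      induction i using Fin.lastCases with
      | last =>
        rw [hι]
        simp only [y, Fin.snoc_last]
        rw [map_mul, qz, mul_one, ← Fin.succ_last, qs]
      | cast i => rw [ιc, ← Fin.succ_castSucc, qs])
    exact DFunLike.congr_fun this x
  · have : q.comp (jj l) = (jj l').comp (q0 r) := by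
      refine FreeGroup.ext_hom _ _ fun i => ?_
      induction i using Fin.cases with
      | zero => simpa [jj, q0] using qz
      | succ i =>
        simp only [jj, q0, MonoidHom.comp_apply, FreeGroup.lift_apply_of, Fin.cons_succ]
        rw [← Fin.succ_castSucc, qs]
    exact DFunLike.congr_fun this w
  · have : ι.comp (jj l') = (jj l).comp (i0 r) := by
      refine FreeGroup.ext_hom _ _ fun i => ?_
      simp only [jj, i0, MonoidHom.comp_apply, FreeGroup.lift_apply_of]
      exact ιc i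
    exact DFunLike.congr_fun this w

variable {q : G →* H} {ι : H →* G}

theorem forgetA_hom (hF : Fg l l' q ι) (hl : IsBasis l) (hl' : IsBasis l') {φ : MulAut G}
    {a : Zhatˣ} (hφ : Pure l φ a) :
    ∃ f : H →* H, Continuous f ∧ ∀ g, q (φ g) = f (q g) := by
  have h0 : q (φ (l 0)) = 1 := by
    obtain ⟨α, h⟩ := hφ.2 0
    rw [h, map_mul, map_mul, map_pw q hF.cq, hF.qz, one_pw, map_inv]
    group
  obtain ⟨f, cf, hf⟩ := hl'.lift H (fun i => q (φ (l i.succ))) (by
    have h1 := congrArg (q.comp φ.toMonoidHom) hl.prod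
    rw [map_list_prod, map_one, List.map_ofFn, List.ofFn_succ, List.prod_cons] at h1
    have h2 : ((q.comp φ.toMonoidHom) ∘ l) 0 = 1 := h0
    rw [h2, one_mul] at h1
    exact h1)
  refine ⟨f, cf, fun g => ?_⟩
  have := hl.ext (f := q.comp φ.toMonoidHom) (g := f.comp q) (hF.cq.comp hφ.1) (cf.comp hF.cq)
    (fun i => by
      induction i using Fin.cases with
      | zero =>
        change q (φ (l 0)) = f (q (l 0))
        rw [h0, hF.qz, map_one]
      | succ i =>
        change q (φ (l i.succ)) = f (q (l i.succ))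
        rw [hF.qs, hf])
  exact DFunLike.congr_fun this g

/-- Hint: lift `i ↦ q (φ (l i.succ))`; the same for `φ⁻¹`; `exists_aut`. -/
theorem Fg.exists_rho (hF : Fg l l' q ι) (hl : IsBasis l) (hl' : IsBasis l') {φ : MulAut G}
    {a : Zhatˣ} (hφ : Pure l φ a) : ∃ φ', Pure l' φ' a ∧ ∀ g, q (φ g) = φ' (q g) := by
  obtain ⟨f, cf, hf⟩ := forgetA_hom hF hl hl' hφ
  obtain ⟨g, cg, hg⟩ := forgetA_hom hF hl hl' hφ.inv
  obtain ⟨φ', c, h⟩ := hl'.exists_aut f g cf cg
    (fun i => by rw [← hF.qs, ← hg, ← hf, MulAut.apply_inv_self])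
    (fun i => by rw [← hF.qs, ← hf, ← hg, MulAut.inv_apply_self])
  refine ⟨φ', ⟨c, fun i => ?_⟩, fun x => by rw [h, hf]⟩
  obtain ⟨α, hα⟩ := hφ.2 i.succ
  refine ⟨q α, ?_⟩
  rw [h, ← hF.qs, ← hf, hα, map_mul, map_mul, map_inv, map_pw q hF.cq]

theorem Fg.rho_mem (hF : Fg l l' q ι) (hl : IsBasis l) (hl' : IsBasis l') {φ : MulAut G}
    (hφ : φ ∈ Sig l) {φ' : MulAut H} (hφ' : Pure l' φ' 1) (h : ∀ g, q (φ g) = φ' (q g)) :
    φ' ∈ Sig l' := by
  refine ⟨hφ', fun N => ?_⟩
  obtain ⟨ψ, p, d, e⟩ := hφ.2 (pre q hF.cq N)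
  obtain ⟨ψ', p', e'⟩ := hF.exists_rho hl hl' p
  have hq : (Subgroup.closure (Set.range l)).map q = Subgroup.closure (Set.range l') := by
    rw [← jj_range hl, ← jj_range hl']
    ext x
    constructor
    · rintro ⟨_, ⟨w, rfl⟩, rfl⟩
      exact ⟨_, (hF.qj w).symm⟩
    · rintro ⟨w, rfl⟩
      exact ⟨_, ⟨i0 r w, rfl⟩, by rw [hF.qj, q0_i0]⟩
  refine ⟨ψ', p', ?_, fun x => ?_⟩
  · have e2 : ψ'.toMonoidHom.comp q = q.comp ψ.toMonoidHom :=
      MonoidHom.ext fun g => (e' g).symm
    unfold Disc at d ⊢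
    rw [← hq, Subgroup.map_map, e2, ← Subgroup.map_map, d]
  · rw [← hF.qι x, ← h, ← e']
    exact (pr_pre q hF.cq N).1 (e _)

/-- Hint: write `φ' = conj α * φ₁` with `φ₁` fixing the last generator. For every `M` take a good
`β M` from `approx_good`, extend `s (β M)` (`exists_s0`, `exists_ext`, `mem_Sig_of_good`), and take
a cluster point (`exists_cluster_aut`, `mem_Sig_of_pr`); multiply by `conj (ι α)`. -/
theorem Fg.exists_lift (hF : Fg l l' q ι) (hl : IsBasis l) (hl' : IsBasis l') (hr : 1 ≤ r)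
    {φ' : MulAut H} (hφ' : φ' ∈ Sig l') : ∃ φ ∈ Sig l, ∀ g, q (φ g) = φ' (q g) := by
  obtain ⟨α, hα⟩ := hφ'.1.2 (Fin.last r)
  rw [Units.val_one, pw_one] at hα
  obtain ⟨φ₁, hφ₁⟩ : ∃ φ₁ : MulAut H, φ₁ = (MulAut.conj α)⁻¹ * φ' := ⟨_, rfl⟩
  have m1 : φ₁ ∈ Sig l' := hφ₁ ▸ mul_mem (inv_mem (conj_mem_Sig hl' α)) hφ'
  have c1 : Continuous φ₁ := m1.1.1
  have f1 : φ₁ (l' (Fin.last r)) = l' (Fin.last r) := by
    rw [hφ₁, MulAut.mul_apply, hα, MulAut.conj_inv_apply]
    group
  choose β hβ hβ' using approx_good hl' hr m1 f1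
  obtain ⟨s, hs⟩ := exists_s0 r
  obtain ⟨X, hX⟩ := exists_ext hl
  have gs : ∀ M, Good (s (β M)) := fun M => by
    refine ⟨?_, fun i => ?_⟩
    · rw [PP_succ, map_mul, (hs _).1, (hs _).2, (hβ M).1]
    · induction i using Fin.cases with
      | zero => rw [(hs _).1]
      | succ i =>
        have e : (FreeGroup.of i.succ : FreeGroup (Fin (r + 1))) = i0 r (FreeGroup.of i) := by
          simp [i0]
        rw [e, (hs _).2]
        exact (i0 r).map_isConj ((hβ M).2 i)
  have q0s : ∀ M w, q0 r (s (β M) w) = β M (q0 r w) := fun M w => by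
    have : (q0 r).comp (s (β M)).toMonoidHom = (β M).toMonoidHom.comp (q0 r) := by
      refine FreeGroup.ext_hom _ _ fun i => ?_
      change q0 r (s (β M) (FreeGroup.of i)) = β M (q0 r (FreeGroup.of i))
      induction i using Fin.cases with
      | zero => rw [(hs _).1]; simp [q0]
      | succ i =>
        have e : (FreeGroup.of i.succ : FreeGroup (Fin (r + 1))) = i0 r (FreeGroup.of i) := by
          simp [i0]
        rw [e, (hs _).2, q0_i0, q0_i0]
    exact DFunLike.congr_fun this w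
  obtain ⟨φ, cφ, hφ⟩ := hl.exists_cluster_aut (fun M : OpenNormalSubgroup H => X (s (β M)))
    (fun M => (hX _).1)
  have mφ : φ ∈ Sig l := mem_Sig_of_pr cφ fun N => by
    obtain ⟨M', -, h⟩ := hφ N (Classical.arbitrary _)
    exact ⟨_, (mem_Sig_of_good hl (gs M') (hX _).1 (hX _).2).1, fun g => (h g).symm⟩
  have key : ∀ g, q (φ g) = φ₁ (q g) := fun g => eq_of_pr fun N => by
    obtain ⟨M', hM, h⟩ := hφ (pre q hF.cq N) N
    rw [← (pr_pre q hF.cq N).1 (h g)]
    have c2 : Continuous (q.comp (X (s (β M'))).toMonoidHom) := hF.cq.comp (hX (s (β M'))).1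
    have c3 : Continuous (φ₁.toMonoidHom.comp q) := c1.comp hF.cq
    obtain ⟨w, hw⟩ := exists_jj_pr hl
      (pre (q.comp (X (s (β M'))).toMonoidHom) c2 N ⊓ pre (φ₁.toMonoidHom.comp q) c3 N) g
    have e1 : pr N (q (X (s (β M')) (jj l w))) = pr N (q (X (s (β M')) g)) :=
      (pr_pre (q.comp (X (s (β M'))).toMonoidHom) c2 N).1 (pr_mono inf_le_left hw)
    have e2 : pr N (φ₁ (q (jj l w))) = pr N (φ₁ (q g)) :=
      (pr_pre (φ₁.toMonoidHom.comp q) c3 N).1 (pr_mono inf_le_right hw)
    rw [← e1, ← e2, (hX _).2, hF.qj, hF.qj, q0s]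
    exact (pr_mono hM (hβ' M' _)).symm
  refine ⟨MulAut.conj (ι α) * φ, mul_mem (conj_mem_Sig hl _) mφ, fun g => ?_⟩
  rw [MulAut.mul_apply, MulAut.conj_apply, map_mul, map_mul, map_inv, hF.qι, key, hφ₁,
    MulAut.mul_apply, MulAut.conj_inv_apply]
  group

end Pool.Agent.MP_1c2b6e_al

/-! Point pushing. -/

namespace Pool.Agent.MP_1c2b6e_al

open Classical

variable {G : Type} [Group G] [TopologicalSpace G] [IsTopologicalGroup G] [CompactSpace G]
  [TotallyDisconnectedSpace G] {H : Type} [Group H] [TopologicalSpace H] [IsTopologicalGroup H]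
  [CompactSpace H] [TotallyDisconnectedSpace H] {r : ℕ} {l : Fin (r + 2) → G}
  {l' : Fin (r + 1) → H} {q : G →* H} {ι : H →* G}

theorem forget_jj {m : ℕ} {l : Fin (m + 1) → G} (hl : IsBasis l) (i : Fin (m + 1)) :
    ∃ w, jj l w = l i := by
  have h : l i ∈ (jj l).range := by
    rw [jj_range hl]
    exact Subgroup.subset_closure ⟨i, rfl⟩
  exact h

omit [TopologicalSpace G] [IsTopologicalGroup G] [CompactSpace G] [TotallyDisconnectedSpace G] in
theorem forget_zero (l : Fin (r + 2) → G) : jj l (FreeGroup.of 0) = l 0 := by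
  simp [jj]

theorem forget_q0_zero (r : ℕ) : q0 r (FreeGroup.of 0) = 1 := by
  simp [q0]

theorem forget_i0 (r : ℕ) (i : Fin r) : i0 r (FreeGroup.of i) = FreeGroup.of i.succ := by
  simp [i0]

/-- Homomorphisms from the free group agree if they agree at `of 0` and on the image of `i0`. -/
theorem forget_ext {Q : Type} [Group Q] {f g : FreeGroup (Fin (r + 1)) →* Q}
    (h0 : f (FreeGroup.of 0) = g (FreeGroup.of 0)) (h : ∀ w, f (i0 r w) = g (i0 r w)) (x) :
    f x = g x := by
  have : f = g := by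
    refine FreeGroup.ext_hom _ _ fun i => ?_
    refine Fin.cases h0 (fun j => ?_) i
    rw [← forget_i0]
    exact h _
  rw [this]

omit [IsTopologicalGroup G] [CompactSpace G] [TotallyDisconnectedSpace G] in
/-- An automorphism preserving `N` respects congruences modulo `N`. -/
theorem forget_char {N : OpenNormalSubgroup G}
    (hN : ∀ ψ : G →* G, Continuous ψ → ∀ g ∈ N, ψ g ∈ N) {φ : MulAut G} (hφ : Continuous φ)
    {a b : G} (h : pr N a = pr N b) : pr N (φ a) = pr N (φ b) := by
  rw [pr_eq_iff] at h ⊢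
  rw [← map_inv, ← map_mul]
  exact hN φ.toMonoidHom hφ _ h

omit [IsTopologicalGroup G] [CompactSpace G] [TotallyDisconnectedSpace G] in
/-- The action on a characteristic quotient. -/
theorem forget_act {F : Type} [Group F] {N : OpenNormalSubgroup G}
    (hN : ∀ ψ : G →* G, Continuous ψ → ∀ g ∈ N, ψ g ∈ N) (Y : F →* MulAut G)
    (hY : ∀ w, Continuous (Y w)) : ∃ Φ : F →* (Function.End (G ⧸ N.toSubgroup))ˣ,
      ∀ w, Φ w = 1 → ∀ g, pr N (Y w g) = pr N g := by
  let Φ₀ : F →* Function.End (G ⧸ N.toSubgroup) :=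
    { toFun := fun w x => QuotientGroup.map N.toSubgroup N.toSubgroup (Y w).toMonoidHom
        (fun g hg => hN (Y w).toMonoidHom (hY w) g hg) x
      map_one' := by
        funext x
        induction x using QuotientGroup.induction_on with
        | H x =>
          change (QuotientGroup.mk (Y 1 x) : G ⧸ N.toSubgroup) = QuotientGroup.mk x
          rw [map_one]
          rfl
      map_mul' := fun a b => by
        funext x
        induction x using QuotientGroup.induction_on with
        | H x =>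
          change (QuotientGroup.mk (Y (a * b) x) : G ⧸ N.toSubgroup) =
            QuotientGroup.mk (Y a (Y b x))
          rw [map_mul]
          rfl }
  refine ⟨Φ₀.toHomUnits, fun w hw g => ?_⟩
  have h1 : Φ₀ w = 1 := by
    have := congrArg Units.val hw
    simpa using this
  exact congrFun h1 (QuotientGroup.mk g)

/-- Finite level form of: the centraliser of `l 0` dies under `q`. Hint: `cent_fin` with the
preimage of `M`. -/
theorem Fg.kappa_fin (hF : Fg l l' q ι) (hl : IsBasis l) (M : OpenNormalSubgroup H) :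
    ∃ N : OpenNormalSubgroup G, ∀ g g', pr N (g * l 0 * g⁻¹) = pr N (g' * l 0 * g'⁻¹) →
      pr M (q g) = pr M (q g') := by
  obtain ⟨N, hN⟩ := hl.cent_fin (by omega) 0 (pre q hF.cq M)
  refine ⟨N, fun g g' h => ?_⟩
  obtain ⟨k, hk⟩ := hN (g'⁻¹ * g) (by
    simp only [map_mul, map_inv] at h ⊢
    calc (pr N g')⁻¹ * pr N g * pr N (l 0)
        = (pr N g')⁻¹ * (pr N g * pr N (l 0) * (pr N g)⁻¹) * pr N g := by group
      _ = _ := by rw [h]; group)
  rw [pr_pre, map_pow, hF.qz, one_pow, map_one, map_mul, map_mul, map_inv, map_inv,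
    inv_mul_eq_one] at hk
  exact hk.symm

/-- Point pushing along any element of `H`. Hint: `comb`; for each `M` take `w` with
`jj l' w⁻¹ ≡ γ mod M`, extend `Push w`, take a cluster point `ψ`; it is pure, so
`ψ (l 0) = g * l 0 * g⁻¹`; use `kappa_fin` to see `q g = γ`. -/
theorem Fg.exists_push (hF : Fg l l' q ι) (hl : IsBasis l) (hl' : IsBasis l') (γ : H) :
    ∃ ψ ∈ Sig l, ψ (l (Fin.last (r + 1))) = l (Fin.last (r + 1)) ∧ (∀ g, q (ψ g) = q g) ∧
      ∃ g, ψ (l 0) = g * l 0 * g⁻¹ ∧ q g = γ := by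
  obtain ⟨Push, hP, -⟩ := comb r
  obtain ⟨X, hX⟩ := exists_ext hl
  choose w hw using fun M : OpenNormalSubgroup H => exists_jj_pr hl' M γ
  have hmem := fun v => mem_Sig_of_good hl (hP v).1 (hX (Push v)).1 (hX (Push v)).2
  have hq : ∀ v g, q (X (Push v) g) = q g := by
    intro v g
    have h := hl.ext (f := q.comp (X (Push v)).toMonoidHom) (g := q) (hF.cq.comp (hX _).1) hF.cq
      fun i => by
        obtain ⟨x, hx⟩ := forget_jj hl i
        change q (X (Push v) (l i)) = q (l i)
        rw [← hx, (hX _).2, hF.qj, hF.qj, (hP v).2.1]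
    exact DFunLike.congr_fun h g
  obtain ⟨ψ, hc, hψ⟩ := hl.exists_cluster_aut (fun M => X (Push (w M)⁻¹)) fun M => (hX _).1
  have hS : ψ ∈ Sig l := by
    refine mem_Sig_of_pr hc fun N => ?_
    obtain ⟨M, -, hM⟩ := hψ N (Classical.arbitrary _)
    exact ⟨_, (hmem _).1, fun g => (hM g).symm⟩
  refine ⟨ψ, hS, eq_of_pr fun N => ?_, fun g => eq_of_pr fun M => ?_, ?_⟩
  · obtain ⟨M, -, hM⟩ := hψ N (Classical.arbitrary _)
    rw [← hM, (hmem _).2]
  · obtain ⟨M', -, hM⟩ := hψ (pre q hF.cq M) M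
    rw [← (pr_pre q hF.cq M).1 (hM g), hq]
  · obtain ⟨g, hg⟩ := hS.1.2 0
    rw [Units.val_one, pw_one] at hg
    refine ⟨g, hg, eq_of_pr fun M => ?_⟩
    obtain ⟨N, hN⟩ := hF.kappa_fin hl M
    obtain ⟨M', hM', hM⟩ := hψ N M
    obtain ⟨g₀, h₀, h₁⟩ := (hP (w M')⁻¹).2.2
    have h2 := hM (l 0)
    rw [hg, ← forget_zero l, (hX _).2, h₀, map_mul (jj l), map_mul (jj l), map_inv (jj l),
      forget_zero] at h2
    rw [← hN _ _ h2, hF.qj, h₁, inv_inv]
    exact pr_mono hM' (hw M')

/-- Injectivity (congruence subgroup property in the fibre direction). Plan: fix a characteristic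
`N`. The map `w ↦ (i ↦ pr N (X (Push w) ·))` is a homomorphism from the free group to the finite
group `Equiv.Perm (G ⧸ N)` (or `MulAut`); extend it to `H` (`exists_ext_fin`), let `K` be the kernel,
`N₁` from `kappa_fin K`, `N₂` characteristic below `N`, `N₁`. Approximate `ψ` by a good `β` modulo
`N₂ ⊓ pre (ι ∘ q) N₂`; with `β'` from `exists_rho0`, `X (s β')` is trivial mod `N₂` (check on the
generators), `β * (s β')⁻¹ = Push w`, so `ψ ≡ X (Push w) mod N₂`; then `jj l' w ∈ K`. -/
theorem Fg.eq_one (hF : Fg l l' q ι) (hl : IsBasis l) (hl' : IsBasis l') {ψ : MulAut G}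
    (hψ : ψ ∈ Sig l) (h1 : ψ (l (Fin.last (r + 1))) = l (Fin.last (r + 1)))
    (h2 : ∀ g, q (ψ g) = q g) {g : G} (h3 : ψ (l 0) = g * l 0 * g⁻¹) (h4 : q g = 1) : ψ = 1 := by
  obtain ⟨Push, hP, hP'⟩ := comb r
  obtain ⟨X, hX⟩ := exists_ext hl
  obtain ⟨s, hs⟩ := exists_s0 r
  ext x
  refine eq_of_pr fun N₀ => ?_
  obtain ⟨N, hN₀, hN⟩ := hl.exists_char N₀
  refine pr_mono hN₀ ?_
  obtain ⟨Φ, hΦ⟩ := forget_act hN (X.comp Push) fun w => (hX _).1
  have : Finite (Function.End (G ⧸ N.toSubgroup)) :=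
    inferInstanceAs (Finite ((G ⧸ N.toSubgroup) → (G ⧸ N.toSubgroup)))
  obtain ⟨h, ho, hh⟩ := exists_ext_fin hl' Φ
  obtain ⟨N₁, hN₁⟩ := hF.kappa_fin hl (kerN h ho)
  obtain ⟨N₂, hN₂, hc₂⟩ := hl.exists_char (N ⊓ N₁)
  have hιq : Continuous (ι.comp q) := hF.cι.comp hF.cq
  obtain ⟨β, hβ, hβψ⟩ := approx_good hl (by omega) hψ h1 (N₂ ⊓ pre (ι.comp q) hιq N₂)
  obtain ⟨β', hβ', hρ⟩ := exists_rho0 hβ
  have e1 : ∀ y, pr N₂ (jj l (s β' y)) = pr N₂ (jj l y) := by
    refine forget_ext (f := ((pr N₂).comp (jj l)).comp (s β').toMonoidHom)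
      (g := (pr N₂).comp (jj l)) ?_ fun v => ?_
    · change pr N₂ (jj l (s β' _)) = pr N₂ (jj l _)
      rw [(hs β').1]
    · change pr N₂ (jj l (s β' _)) = pr N₂ (jj l _)
      have h5 := (pr_pre (ι.comp q) hιq N₂).1 (pr_mono inf_le_right (hβψ (i0 r v)))
      simp only [MonoidHom.comp_apply] at h5
      rw [h2, hF.qj, hF.qj, hρ, q0_i0, hF.ιj, hF.ιj] at h5
      rw [(hs β').2, h5]
  have e2 : ∀ y, q0 r (s β' y) = β' (q0 r y) := by
    refine forget_ext (f := (q0 r).comp (s β').toMonoidHom)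
      (g := β'.toMonoidHom.comp (q0 r)) ?_ fun v => ?_
    · change q0 r (s β' _) = β' (q0 r _)
      rw [(hs β').1, forget_q0_zero, map_one]
    · change q0 r (s β' _) = β' (q0 r _)
      rw [(hs β').2, q0_i0, q0_i0]
  have e3 : Good (s β') := by
    refine ⟨by rw [PP_succ, map_mul, (hs β').1, (hs β').2, hβ'.1], fun i => ?_⟩
    refine Fin.cases ?_ (fun j => ?_) i
    · rw [(hs β').1]
    · rw [← forget_i0, (hs β').2]
      exact (i0 r).map_isConj (hβ'.2 j)
  obtain ⟨w, hw⟩ := hP' (β * (s β')⁻¹) (hβ.mul e3.inv) fun y => by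
    rw [MulAut.mul_apply, hρ, ← e2]
    exact congrArg (q0 r) ((s β').apply_symm_apply y)
  have e4 : β = Push w * s β' := by rw [← hw, inv_mul_cancel_right]
  have e5 : ∀ y, pr N₂ (ψ y) = pr N₂ (X (Push w) y) := by
    refine hl.pr_ext N₂ (f := ψ.toMonoidHom) (g := (X (Push w)).toMonoidHom) hψ.1.1 (hX _).1
      fun i => ?_
    obtain ⟨y, hy⟩ := forget_jj hl i
    change pr N₂ (ψ (l i)) = pr N₂ (X (Push w) (l i))
    rw [← hy, pr_mono inf_le_left (hβψ y), e4, MulAut.mul_apply, ← (hX _).2]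
    exact forget_char hc₂ (hX _).1 (e1 y)
  obtain ⟨g₀, h₀, h₁⟩ := (hP w).2.2
  have e6 := pr_mono (hN₂.trans inf_le_right) (e5 (l 0))
  rw [h3, ← forget_zero l, (hX _).2, h₀, map_mul (jj l), map_mul (jj l), map_inv (jj l),
    forget_zero] at e6
  have e7 := (pr_kerN h ho).1 (hN₁ _ _ e6)
  rw [h4, map_one, hF.qj, h₁, hh, map_inv, eq_comm, inv_eq_one] at e7
  rw [pr_mono (hN₂.trans inf_le_left) (e5 x)]
  exact hΦ w e7 x

end Pool.Agent.MP_1c2b6e_al

end
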