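import Pool.Agent.MP_1c2b6e_al.Mg.Smith
import Pool.Agent.MP_1c2b6e_al.Mg.Disc

-- part MP_1c2b6e_al.Rigid
section

/-! A pure automorphism of prime order `p` in the outer automorphism group whose character has
trivial `p`-component is inner. -/

namespace Pool.Agent.MP_1c2b6e_al

open Classical

variable {G : Type} [Group G] [TopologicalSpace G] [IsTopologicalGroup G] [CompactSpace G]
  [TotallyDisconnectedSpace G]

omit [TopologicalSpace G] [IsTopologicalGroup G] [CompactSpace G] [TotallyDisconnectedSpace G] in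
theorem Nn_succ' (θ : MulAut G) (e : G) (m : ℕ) : Nn θ e (m + 1) = e * θ (Nn θ e m) := by
  induction m with
  | zero => simp [Nn]
  | succ m ih =>
    have h1 : Nn θ e (m + 1 + 1) = Nn θ e (m + 1) * (θ ^ (m + 1)) e := rfl
    have h2 : Nn θ e (m + 1) = Nn θ e m * (θ ^ m) e := rfl
    rw [h1]
    conv_lhs => rw [ih]
    rw [h2, map_mul, pow_succ', MulAut.mul_apply, mul_assoc]

omit [TopologicalSpace G] [IsTopologicalGroup G] [CompactSpace G] [TotallyDisconnectedSpace G] in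
theorem pow_mem_of_stable {θ : MulAut G} {U : Subgroup G} (hst : ∀ u ∈ U, θ u ∈ U) (k : ℕ)
    {u : G} (hu : u ∈ U) : (θ ^ k) u ∈ U := by
  induction k with
  | zero => simpa using hu
  | succ k ih => rw [pow_succ', MulAut.mul_apply]; exact hst _ ih

omit [TopologicalSpace G] [IsTopologicalGroup G] [CompactSpace G] [TotallyDisconnectedSpace G] in
theorem mem_of_map_mem {θ : MulAut G} {p : ℕ} (hp0 : p ≠ 0) (hp : θ ^ p = 1) {U : Subgroup G}
    (hst : ∀ u ∈ U, θ u ∈ U) {u : G} (hu : θ u ∈ U) : u ∈ U := by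
  obtain ⟨k, rfl⟩ := Nat.exists_eq_succ_of_ne_zero hp0
  have h := pow_mem_of_stable hst k hu
  rwa [← MulAut.mul_apply, ← pow_succ, hp, MulAut.one_apply] at h

theorem natCast_dvd_of_eq {e e' : ℕ} (he : 0 < e) {b : Zhat} (h : (e' : Zhat) = e * b) :
    e ∣ e' := by
  have : NeZero e := ⟨he.ne'⟩
  have h1 := congrArg (res e) h
  rw [map_mul, map_natCast, map_natCast, ZMod.natCast_self, zero_mul] at h1
  exact (ZMod.natCast_eq_zero_iff _ _).1 h1

theorem pw_conj' (g x : G) (a : Zhat) : pw (g⁻¹ * x * g) a = g⁻¹ * pw x a * g := by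
  simpa using pw_conj g⁻¹ x a

theorem pow_apply_pw {φ : MulAut G} (hc : Continuous φ) {c : G} {a : Zhat} (h : φ c = pw c a)
    (k : ℕ) : (φ ^ k) c = pw c (a ^ k) := by
  induction k with
  | zero => simp [pw_one]
  | succ k ih => rw [pow_succ', MulAut.mul_apply, ih, map_pw_aut φ hc, h, ← pw_mul, pow_succ']

section cusps

variable {n : ℕ} {l : Fin n → G} {U : Subgroup G} {θ : MulAut G} {p : ℕ}

theorem ram_theta (hU : IsOpen (U : Set G)) (hθ : Continuous θ) (hp0 : p ≠ 0) (hp : θ ^ p = 1)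
    (hst : ∀ u ∈ U, θ u ∈ U) {x α : G} {a : Zhatˣ} (hx : θ x = α * pw x a * α⁻¹) (g : G) :
    ram U x (α⁻¹ * θ g) = ram U x g ∧ θ (cel U x g) = pw (cel U x (α⁻¹ * θ g)) a := by
  have key : ∀ b : Zhat, θ (g⁻¹ * pw x b * g) =
      (α⁻¹ * θ g)⁻¹ * pw x (a * b) * (α⁻¹ * θ g) := by
    intro b
    rw [map_mul, map_mul, map_inv, map_pw_aut θ hθ, hx, pw_conj, ← pw_mul]
    group
  have h1 : ram U x (α⁻¹ * θ g) = ram U x g := by
    apply Nat.dvd_antisymm
    · have h2 : θ (g⁻¹ * pw x (ram U x g : Zhat) * g) ∈ U := by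
        rw [pw_natCast]; exact hst _ (cel_mem x g)
      rw [key, pw_mem_iff hU] at h2
      obtain ⟨b, hb⟩ := h2
      refine natCast_dvd_of_eq (ram_pos hU _ _) (b := b * (a⁻¹ : Zhatˣ)) ?_
      rw [← mul_assoc, ← hb, mul_comm (a : Zhat), mul_assoc, Units.mul_inv, mul_one]
    · have h2 : θ (g⁻¹ * pw x ((a⁻¹ : Zhatˣ) * (ram U x (α⁻¹ * θ g) : Zhat)) * g) ∈ U := by
        rw [key, ← mul_assoc (a : Zhat), Units.mul_inv, one_mul, pw_natCast]
        exact cel_mem x _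
      obtain ⟨b, hb⟩ := (pw_mem_iff hU _ _ _).1 (mem_of_map_mem hp0 hp hst h2)
      refine natCast_dvd_of_eq (ram_pos hU _ _) (b := b * a) ?_
      rw [← mul_assoc, ← hb, mul_comm ((a⁻¹ : Zhatˣ) : Zhat), mul_assoc, Units.inv_mul, mul_one]
  refine ⟨h1, ?_⟩
  rw [pw_cel, h1, mul_comm (ram U x g : Zhat), ← key, pw_natCast]
  rfl

theorem pw_cel_inj (hl : IsBasis l) (hn : 2 ≤ n) (hU : IsOpen (U : Set G)) (i : Fin n) (g : G)
    (a b : Zhat) (h : pw (cel U (l i) g) a = pw (cel U (l i) g) b) : a = b := by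
  rw [pw_cel, pw_cel, mul_left_inj, mul_right_inj] at h
  have h1 := hl.pw_inj hn i h
  have h2 : (ram U (l i) g : Zhat) * (a - b) = 0 := by rw [mul_sub, h1, sub_self]
  exact sub_eq_zero.1 (zhat_eq_zero (ram_pos hU _ _).ne' h2)

theorem Pure.pow_eq_one (hl : IsBasis l) (hn : 3 ≤ n) {φ : MulAut G} {a : Zhatˣ}
    (hφ : Pure l φ a) {g : G} (hp : φ ^ p = MulAut.conj g) : a ^ p = 1 :=
  Pure.unique hl hn (hφ.pow p) (hp ▸ Pure.conj l g)

/-- The permutation of the cusps induced by `θ`. -/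
theorem exists_cusp_perm (hl : IsBasis l) (hn : 3 ≤ n) (hU : IsOpen (U : Set G)) (hp0 : p ≠ 0)
    (hp : θ ^ p = 1) (hst : ∀ u ∈ U, θ u ∈ U) {a : Zhatˣ} (hθ : Pure l θ a) {α : Fin n → G}
    (hα : ∀ i, θ (l i) = α i * pw (l i) a * (α i)⁻¹) :
    ∃ σ : Equiv.Perm (Cusp l U), σ ^ p = 1 ∧
      ∀ i g, σ (cls l U i g) = cls l U i ((α i)⁻¹ * θ g) := by
  let T : Cusp l U → Cusp l U := fun x => cls l U x.1 ((α x.1)⁻¹ * θ (exists_cls x).choose)
  have hT : ∀ i g, T (cls l U i g) = cls l U i ((α i)⁻¹ * θ g) := by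
    intro i g
    obtain ⟨b, u, hu, h⟩ := (cls_eq_iff hU i g _).1 (exists_cls (cls l U i g)).choose_spec
    refine ((cls_eq_iff hU i _ _).2 ⟨a * b, θ u, hst u hu, ?_⟩).symm
    change (α i)⁻¹ * θ (exists_cls (cls l U i g)).choose = _
    rw [h, map_mul, map_mul, map_pw_aut θ hθ.1, hα, pw_conj, ← pw_mul]
    group
  have hTk : ∀ i g k, T^[k] (cls l U i g) = cls l U i (Nn θ (α i)⁻¹ k * (θ ^ k) g) := by
    intro i g k
    induction k with
    | zero => simp [Nn]
    | succ k ih =>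
      rw [Function.iterate_succ_apply', ih, hT, Nn_succ', map_mul, pow_succ', MulAut.mul_apply,
        mul_assoc]
  have hTp : ∀ x, T^[p] x = x := by
    intro x
    obtain ⟨g, hg⟩ := exists_cls x
    rw [hg, hTk, hp, MulAut.one_apply]
    have h1 : (MulAut.conj (α x.1)⁻¹ * θ) (l x.1) = pw (l x.1) a := by
      rw [MulAut.mul_apply, hα, MulAut.conj_apply]; group
    have hc : Continuous (MulAut.conj (α x.1)⁻¹ * θ : MulAut G) :=
      (continuous_conj_aut _).comp hθ.1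
    have h2 := pow_apply_pw hc h1 p
    have h3 : a ^ p = 1 := hθ.pow_eq_one hl hn (g := 1) (by rw [hp, map_one])
    rw [conj_mul_pow, hp, mul_one, ← Units.val_pow_eq_pow_val, h3, Units.val_one, pw_one,
      MulAut.conj_apply, mul_inv_eq_iff_eq_mul] at h2
    obtain ⟨b, hb⟩ := hl.cent (by omega) _ h2
    exact ((cls_eq_iff hU _ _ _).2 ⟨b, 1, one_mem _, by rw [hb, mul_one]⟩).symm
  obtain ⟨k, rfl⟩ := Nat.exists_eq_succ_of_ne_zero hp0
  refine ⟨⟨T, T^[k], fun x => ?_, fun x => ?_⟩, ?_, hT⟩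
  · rw [← Function.iterate_succ_apply, hTp]
  · rw [← Function.iterate_succ_apply' T, hTp]
  · ext x : 1
    rw [Equiv.Perm.coe_pow]
    exact hTp x

/-- Analysis of a cusp fixed by `θ`. -/
theorem fixed_cusp (hl : IsBasis l) (hn : 3 ≤ n) (hU : IsOpen (U : Set G))
    (hp : θ ^ p = 1) (hst : ∀ u ∈ U, θ u ∈ U) {a : Zhatˣ} (hθ : Pure l θ a) {i : Fin n} {α g : G}
    (hα : θ (l i) = α * pw (l i) a * α⁻¹) (hfix : cls l U i g = cls l U i (α⁻¹ * θ g)) :
    ∃ u ∈ U, ∃ b, (MulAut.conj u * θ) (cel U (l i) g) = pw (cel U (l i) g) a ∧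
      Nn θ u p = pw (cel U (l i) g) b := by
  obtain ⟨c, u, hu, h⟩ := (cls_eq_iff hU i _ _).1 hfix
  have h1 : (MulAut.conj u * θ) (g⁻¹ * l i * g) = pw (g⁻¹ * l i * g) a := by
    have h2 : θ g = α * (pw (l i) c * g * u) := by rw [← h]; group
    have h3 : pw (l i) a * pw (l i) c = pw (l i) c * pw (l i) a := by
      rw [← pw_add, ← pw_add, add_comm]
    rw [MulAut.mul_apply, MulAut.conj_apply, map_mul, map_mul, map_inv, hα, h2, pw_conj']
    calc _ = g⁻¹ * (pw (l i) c)⁻¹ * (pw (l i) a * pw (l i) c) * g := by group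
      _ = _ := by rw [h3]; group
  have hc : Continuous (MulAut.conj u * θ : MulAut G) := (continuous_conj_aut _).comp hθ.1
  have h2 := pow_apply_pw hc h1 p
  have h3 : a ^ p = 1 := hθ.pow_eq_one hl hn (g := 1) (by rw [hp, map_one])
  rw [conj_mul_pow, hp, mul_one, ← Units.val_pow_eq_pow_val, h3, Units.val_one, pw_one,
    MulAut.conj_apply] at h2
  obtain ⟨b, hb⟩ := hl.cent (by omega) i (g := g * Nn θ u p * g⁻¹) (by
    calc _ = g * (Nn θ u p * (g⁻¹ * l i * g) * (Nn θ u p)⁻¹) * Nn θ u p * g⁻¹ := by group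
      _ = _ := by rw [h2]; group)
  have h4 : Nn θ u p = g⁻¹ * pw (l i) b * g := by rw [← hb]; group
  obtain ⟨b', hb'⟩ := (pw_mem_iff hU _ _ _).1 (h4 ▸ Nn_mem hst hu p)
  refine ⟨u, hu, b', ?_, by rw [pw_cel, ← hb', h4]⟩
  have h5 : cel U (l i) g = pw (g⁻¹ * l i * g) (ram U (l i) g : Zhat) := by
    rw [pw_conj', pw_natCast]; rfl
  rw [h5, map_pw_aut _ hc, h1, ← pw_mul, ← pw_mul, mul_comm]

/-- A split cusp gives an element of order `p`. -/
theorem split_cusp (hl : IsBasis l) (hn : 3 ≤ n) (hU : IsOpen (U : Set G)) (hp0 : p ≠ 0)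
    (hp : θ ^ p = 1) (hθ : Continuous θ) {c u : G} (hc : c ∈ U) (hu : u ∈ U)
    (hinj : ∀ a b, pw c a = pw c b → a = b) {a b : Zhat}
    (h1 : (MulAut.conj u * θ) c = pw c a) (h2 : Nn θ u p = pw c (p * b)) :
    ∃ e ∈ U, Nn θ e p = 1 ∧ e * θ c * e⁻¹ = pw c a := by
  have hc' : Continuous (MulAut.conj u * θ : MulAut G) := (continuous_conj_aut _).comp hθ
  have h3 := hl.split hn hc' hinj h1 hp0 (b := b) (by rw [conj_mul_pow, hp, mul_one, h2])
  rw [← mul_assoc, ← map_mul, conj_mul_pow, hp, mul_one] at h3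
  refine ⟨pw c (-b) * u, mul_mem (pw_mem (U.isClosed_of_isOpen hU) hc _) hu,
    hl.conj_inj hn (h3.trans (map_one _).symm), ?_⟩
  rw [MulAut.mul_apply, MulAut.conj_apply] at h1
  have h4 : pw c (-b) * pw c a = pw c a * pw c (-b) := by rw [← pw_add, ← pw_add, add_comm]
  calc _ = pw c (-b) * (u * θ c * u⁻¹) * (pw c (-b))⁻¹ := by group
    _ = _ := by rw [h1, h4]; group

end cusps

variable {r : ℕ} {l : Fin (r + 1) → G} {p : ℕ} [Fact p.Prime] {θ : MulAut G} {a : Zhatˣ}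
  {v : Zhat} {U : Subgroup G}

theorem exists_eta {f : G → ZMod p} (hf : IsCh U f) :
    ∃ η : G → ZMod p, (∃ N : OpenNormalSubgroup G, ∀ x y, pr N x = pr N y → η x = η y) ∧
      ∀ w ∈ U, ∀ g, η (w * g) = η g + f w := by
  obtain ⟨u, h1, h2, h3⟩ := exists_retr U
  obtain ⟨N, hN, h4⟩ := hf.eq_of_pr
  refine ⟨fun g => f (u g), ⟨N, fun x y h => h4 _ (h1 x) _ (h3 N hN x y h)⟩, fun w hw g => ?_⟩
  change f (u (w * g)) = _
  rw [h2 w hw, hf.1 w hw _ (h1 g), add_comm]

theorem res_eq_one (hv : res p v ≠ 0) (hav : a * v = v) : res p (a : Zhat) = 1 := by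
  have h := congrArg (res p) hav
  rw [map_mul] at h
  exact mul_right_cancel₀ hv (h.trans (one_mul _).symm)

/-- Every cusp of an open stable subgroup is fixed. -/
theorem all_fixed (hl : IsBasis l) (hr : 2 ≤ r) (hθ : Pure l θ a) (hp : θ ^ p = 1)
    (hv : res p v ≠ 0) (hav : a * v = v) (h0 : θ (l 0) = pw (l 0) a)
    (hU : IsOpen (U : Set G)) (hst : ∀ u ∈ U, θ u ∈ U) (g : G) :
    cls l U 0 g = cls l U 0 (θ g) := by
  have hp0 : p ≠ 0 := (Fact.out : p.Prime).ne_zero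
  have hn : 3 ≤ r + 1 := by omega
  have ha : res p (a : Zhat) = 1 := res_eq_one hv hav
  have := finite_cusp (l := l) hU
  let _ : Fintype (Cusp l U) := Fintype.ofFinite _
  obtain ⟨α, hα0, hα⟩ : ∃ α : Fin (r + 1) → G, α 0 = 1 ∧
      ∀ i, θ (l i) = α i * pw (l i) a * (α i)⁻¹ := by
    choose α hα using hθ.2
    refine ⟨Function.update α 0 1, by simp, fun i => ?_⟩
    by_cases hi : i = 0
    · subst hi; simpa using h0
    · rw [Function.update_of_ne hi]; exact hα i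
  obtain ⟨σ, hσp, hσ⟩ := exists_cusp_perm hl hn hU hp0 hp hst hθ hα
  let C : Cusp l U → Prop := fun x => σ x = x ∧
    ∃ g, x = cls l U x.1 g ∧ θ (pw (cel U (l x.1) g) v) = pw (cel U (l x.1) g) v
  have horb : ∀ f : G → ZMod p, IsCh U f → ∀ k i g,
      ev l U f ((σ ^ k) (cls l U i g)) = f ((θ ^ k) (cel U (l i) g)) := by
    intro f hf k
    induction k with
    | zero => intro i g; simpa using ev_cls hU hf i g
    | succ k ih =>
      intro i g
      rw [pow_succ, Equiv.Perm.mul_apply, hσ, ih, pow_succ, MulAut.mul_apply,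
        (ram_theta hU hθ.1 hp0 hp hst (hα i) g).2,
        map_pw_aut _ (continuous_pow_aut θ hθ.1 k),
        hf.map_pw (pow_mem_of_stable hst k (cel_mem _ _)), ha, one_mul]
  have hcase : ∀ x, σ x = x → ¬C x → ∃ e : G,
      (∀ f : G → ZMod p, IsCh U f → (∀ u ∈ U, ∑ k ∈ Finset.range p, f ((θ ^ k) u) = 0) →
        ev l U f x = 0) ∨
      ((e ∈ U ∧ Nn θ e p = 1 ∧ ∀ u ∈ U, e ≠ u * (θ u)⁻¹) ∧ ∀ f : G → ZMod p, IsCh U f →
        (∀ w ∈ U, e * θ w * e⁻¹ = w → f w = 0) → ev l U f x = 0) := by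
    intro x hx hC
    obtain ⟨g, hg⟩ := exists_cls x
    obtain ⟨u, hu, b, h1, h2⟩ := fixed_cusp hl hn hU hp hst hθ (hα x.1) (g := g)
      (by rw [← hσ, ← hg, hx])
    have hev : ∀ f : G → ZMod p, IsCh U f → ev l U f x = f (cel U (l x.1) g) := by
      intro f hf
      conv_lhs => rw [hg]
      exact ev_cls hU hf _ _
    by_cases hb : res p b = 0
    · obtain ⟨b', rfl⟩ := zhat_dvd hb
      obtain ⟨e, he, h3, h4⟩ := split_cusp hl hn hU hp0 hp hθ.1 (cel_mem _ _) hu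
        (pw_cel_inj hl (by omega) hU _ _) h1 h2
      have h5 : e * θ (pw (cel U (l x.1) g) v) * e⁻¹ = pw (cel U (l x.1) g) v := by
        rw [map_pw_aut θ hθ.1, ← pw_conj, h4, ← pw_mul, hav]
      refine ⟨e, Or.inr ⟨⟨he, h3, fun u' hu' h6 => hC ⟨hx, g * u', ?_, ?_⟩⟩, fun f hf h6 => ?_⟩⟩
      · exact hg.trans ((cls_eq_iff hU _ _ _).2 ⟨0, u', hu', by rw [pw_zero, one_mul]⟩)
      · have h7 := cel_mul hU (l x.1) g 0 hu'
        rw [pw_zero, one_mul] at h7
        rw [h7, pw_conj', map_mul, map_mul, map_inv]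
        conv_rhs => rw [← h5, h6]
        group
      · have h7 := h6 _ (pw_mem (U.isClosed_of_isOpen hU) (cel_mem _ _) v) h5
        rw [hf.map_pw (cel_mem _ _)] at h7
        rw [hev f hf]
        exact (mul_eq_zero.1 h7).resolve_left hv
    · refine ⟨1, Or.inl fun f hf h3 => ?_⟩
      have h4 := hf.map_Nn hst hu p
      rw [h3 u hu, h2, hf.map_pw (cel_mem _ _)] at h4
      rw [hev f hf]
      exact (mul_eq_zero.1 h4).resolve_left hb
  choose! ε hε using hcase
  let S : Set (Cusp l U) := {x | σ x = x ∧ ¬C x ∧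
    (ε x ∈ U ∧ Nn θ (ε x) p = 1 ∧ ∀ u ∈ U, ε x ≠ u * (θ u)⁻¹)}
  have hC0 : C (cls l U 0 1) := by
    refine ⟨by rw [hσ, hα0, map_one, inv_one, one_mul], 1, rfl, ?_⟩
    change θ (pw (cel U (l 0) 1) v) = pw (cel U (l 0) 1) v
    rw [pw_cel, inv_one, one_mul, mul_one, map_pw_aut θ hθ.1, h0, ← pw_mul, mul_left_comm, hav]
  have key := cusp_dual hl hU (fun x => if C x then (1 : ZMod p) else 0) (by
    intro f₀ hf₀
    obtain ⟨η, hη, hη'⟩ := exists_eta hf₀
    obtain ⟨f, hf, h1, h2, h3⟩ := smith1 hl hθ.1 hp hU hst η f₀ hη (fun w hw _ => hη' w hw)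
      (E := ε '' S) (S.toFinite.image _) (by rintro _ ⟨x, hx, rfl⟩; exact hx.2.2)
    have h4 := sum_eq_zero_of_free σ hσp (fun x => if C x then 0 else ev l U f x) (by
      intro x hx
      by_cases hC : C x
      · simp [hC]
      · rw [if_neg hC]
        rcases hε x hx hC with h | h
        · exact h f hf h1
        · exact h.2 f hf (h3 _ ⟨x, ⟨hx, hC, h.1⟩, rfl⟩)) (by
      intro x
      by_cases hC : C x
      · refine Finset.sum_eq_zero fun k _ => if_pos ?_
        rwa [Equiv.Perm.pow_apply_eq_self_of_apply_eq_self hC.1]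
      · obtain ⟨g, hg⟩ := exists_cls x
        rw [← h1 _ (cel_mem (l x.1) g)]
        refine Finset.sum_congr rfl fun k _ => ?_
        rw [if_neg, ← horb f hf, ← hg]
        intro h
        have h5 : (σ ^ k) (σ x) = (σ ^ k) x := by
          rw [← Equiv.Perm.mul_apply, ← pow_succ, pow_succ', Equiv.Perm.mul_apply, h.1]
        rw [Equiv.Perm.pow_apply_eq_self_of_apply_eq_self ((σ ^ k).injective h5)] at h
        exact hC h)
    have h6 := sub_eq_zero.2 ((sum_ev hl hU hf).trans h4.symm)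
    rw [← Finset.sum_sub_distrib] at h6
    refine Eq.trans (Finset.sum_congr rfl fun x _ => ?_) h6
    by_cases hC : C x
    · rw [if_pos hC, if_pos hC, one_mul, sub_zero]
      obtain ⟨-, g, hg, hw⟩ := hC
      have h5 := h2 _ (pw_mem (U.isClosed_of_isOpen hU) (cel_mem _ _) v) hw
      rw [hf.map_pw (cel_mem _ _), hf₀.map_pw (cel_mem _ _)] at h5
      rw [hg, ev_cls hU hf, ev_cls hU hf₀]
      exact (mul_left_cancel₀ hv h5).symm
    · simp [hC]) (cls l U 0 g) (cls l U 0 1)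
  by_cases hC : C (cls l U 0 g)
  · have h1 := hC.1
    rw [hσ, hα0, inv_one, one_mul] at h1
    exact h1.symm
  · change (if C _ then (1 : ZMod p) else 0) = if C (cls l U 0 1) then 1 else 0 at key
    rw [if_neg hC, if_pos hC0] at key
    exact absurd key zero_ne_one

theorem exists_ch_pair {n : ℕ} {l : Fin n → G} (hl : IsBasis l) (m : ℕ) [NeZero m] {i k : Fin n}
    (hik : i ≠ k) : ∃ f : G → ZMod m, IsCh ⊤ f ∧ f (l i) = 1 ∧ f (l k) = -1 ∧
      ∀ j, j ≠ i → j ≠ k → f (l j) = 0 := by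
  obtain ⟨f, hf, h⟩ := hl.exists_ch (m := m)
    (fun j => (if j = i then 1 else 0) - if j = k then 1 else 0) (by
      rw [Finset.sum_sub_distrib]; simp)
  refine ⟨f, hf, by simp [h, hik], by simp [h, hik.symm], fun j h1 h2 => by simp [h, h1, h2]⟩

theorem eq_one_of_order (hl : IsBasis l) (hr : 2 ≤ r) (hθ : Pure l θ a) (hp : θ ^ p = 1)
    (hv : res p v ≠ 0) (hav : a * v = v) (h0 : θ (l 0) = pw (l 0) a) : θ = 1 := by
  have hz : ∀ g, ∃ b, θ g * g⁻¹ = pw (l 0) b := by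
    intro g
    refine exists_pw_of_pr fun N => ?_
    obtain ⟨M, hM, hM'⟩ := hl.exists_char N
    obtain ⟨b, u, hu, h⟩ := (cls_eq_iff M.isOpen' _ _ _).1 (all_fixed hl hr hθ hp hv hav h0
      M.isOpen' (fun u hu => hM' θ.toMonoidHom hθ.1 u hu) g)
    obtain ⟨k, hk⟩ := exists_pr_pw N (l 0) b
    refine ⟨k, ?_⟩
    rw [← hk, h, map_mul, map_mul, map_mul, (pr_eq_one_iff N u).2 (hM hu), map_inv]
    group
  let i1 : Fin (r + 1) := ⟨1, by omega⟩
  let i2 : Fin (r + 1) := ⟨2, by omega⟩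
  have h01 : (0 : Fin (r + 1)) ≠ i1 := by simp [i1, Fin.ext_iff]
  have h02 : (0 : Fin (r + 1)) ≠ i2 := by simp [i2, Fin.ext_iff]
  have h12 : i1 ≠ i2 := by simp [i1, i2, Fin.ext_iff]
  ext g
  obtain ⟨b, hb⟩ := hz g
  obtain ⟨b1, hb1⟩ := hz (l i1)
  obtain ⟨b2, hb2⟩ := hz (l i1 * g)
  have h1 : l i1 * pw (l 0) b * (l i1)⁻¹ = pw (l 0) (-b1 + b2) := by
    rw [pw_add, pw_neg, ← hb, ← hb1, ← hb2, map_mul]; group
  have h2 : -b1 + b2 = b := zhat_ext fun m _ => by
    obtain ⟨f, hf, h3, -⟩ := exists_ch_pair hl m h01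
    have h4 := congrArg f h1
    rw [hf.conj trivial trivial, hf.map_pw trivial, hf.map_pw trivial, h3, mul_one, mul_one] at h4
    exact h4.symm
  rw [h2, mul_inv_eq_iff_eq_mul] at h1
  obtain ⟨c, hc⟩ := hl.cent (by omega) i1 h1.symm
  have h3 : b = 0 := zhat_ext fun m _ => by
    obtain ⟨f, hf, h3, -, h4⟩ := exists_ch_pair hl m h02
    have h5 := congrArg f hc
    rw [hf.map_pw trivial, hf.map_pw trivial, h3, h4 _ h01.symm h12, mul_one, mul_zero] at h5
    rw [h5, map_zero]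
  rw [h3, pw_zero, mul_inv_eq_one] at hb
  exact hb

/-- Normalisation at the generator `l i`. -/
theorem exists_pow_conj {n : ℕ} {l : Fin n → G} (hl : IsBasis l) (hn : 3 ≤ n) {φ : MulAut G}
    (hφ : Pure l φ a) {m : ℕ} {g : G} (hp : φ ^ m = MulAut.conj g) (i : Fin n) :
    ∃ α b, (MulAut.conj α * φ) (l i) = pw (l i) a ∧ Nn φ α m * g = pw (l i) b := by
  obtain ⟨α, hα⟩ := hφ.2 i
  have h1 : (MulAut.conj α⁻¹ * φ) (l i) = pw (l i) a := by
    rw [MulAut.mul_apply, hα, MulAut.conj_apply]; group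
  have hc : Continuous (MulAut.conj α⁻¹ * φ : MulAut G) := (continuous_conj_aut _).comp hφ.1
  have h2 := pow_apply_pw hc h1 m
  rw [conj_mul_pow, hp, ← map_mul, ← Units.val_pow_eq_pow_val, hφ.pow_eq_one hl hn hp,
    Units.val_one, pw_one, MulAut.conj_apply, mul_inv_eq_iff_eq_mul] at h2
  obtain ⟨b, hb⟩ := hl.cent (by omega) _ h2
  exact ⟨α⁻¹, b, h1, hb⟩

theorem rigid (hl : IsBasis l) (hr : 2 ≤ r) {φ : MulAut G} {a : Zhatˣ} (hφ : Pure l φ a)
    {g : G} (hp : φ ^ p = MulAut.conj g) {v : Zhat} (hv : res p v ≠ 0) (hav : a * v = v) :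
    ∃ h, φ = MulAut.conj h := by
  have hp0 : p ≠ 0 := (Fact.out : p.Prime).ne_zero
  have hn : 3 ≤ r + 1 := by omega
  let i1 : Fin (r + 1) := ⟨1, by omega⟩
  let i2 : Fin (r + 1) := ⟨2, by omega⟩
  have h01 : (0 : Fin (r + 1)) ≠ i1 := by simp [i1, Fin.ext_iff]
  have h02 : (0 : Fin (r + 1)) ≠ i2 := by simp [i2, Fin.ext_iff]
  have h12 : i1 ≠ i2 := by simp [i1, i2, Fin.ext_iff]
  obtain ⟨α, b, h1, h2⟩ := exists_pow_conj hl hn hφ hp 0
  obtain ⟨α', b', -, h2'⟩ := exists_pow_conj hl hn hφ hp i1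
  have hb : res p b = 0 := by
    obtain ⟨f, hf, h3, -, h4⟩ := exists_ch_pair hl p h02
    have h5 : ∀ x, f (φ x) = f x := fun x => sub_eq_zero.1 <|
      hl.ch_eq_zero ((hf.comp φ hφ.1 fun _ _ => trivial).sub hf) (fun i => by
        obtain ⟨β, hβ⟩ := hφ.2 i
        rw [hβ, hf.conj trivial trivial, hf.map_pw trivial, res_eq_one hv hav, one_mul,
          sub_self]) x
    have h6 : ∀ k x, f ((φ ^ k) x) = f x := by
      intro k x
      induction k with
      | zero => rfl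
      | succ k ih => rw [pow_succ', MulAut.mul_apply, h5, ih]
    have h7 : ∀ e, f (Nn φ e p * g) = f g := by
      intro e
      rw [hf.1 _ trivial _ trivial, hf.map_Nn (fun _ _ => trivial) trivial]
      simp [h6]
    have h8 := (h7 α).trans (h7 α').symm
    rwa [h2, h2', hf.map_pw trivial, hf.map_pw trivial, h3, h4 _ h01.symm h12, mul_one,
      mul_zero] at h8
  obtain ⟨c, rfl⟩ := zhat_dvd hb
  have hc : Continuous (MulAut.conj α * φ : MulAut G) := (continuous_conj_aut _).comp hφ.1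
  have h3 := hl.split hn hc (fun _ _ => hl.pw_inj (by omega) 0) h1 hp0 (b := c)
    (by rw [conj_mul_pow, hp, ← map_mul, h2])
  have h4 : Pure l (MulAut.conj (pw (l 0) (-c)) * (MulAut.conj α * φ)) a := by
    simpa using (Pure.conj l (pw (l 0) (-c))).mul ((Pure.conj l α).mul hφ)
  have h5 := eq_one_of_order hl hr h4 h3 hv hav (by
    rw [MulAut.mul_apply, h1, MulAut.conj_apply, ← pw_add, add_comm (-c), pw_add, mul_assoc,
      mul_inv_cancel, mul_one])
  rw [← mul_assoc, ← map_mul, mul_eq_one_iff_inv_eq, ← map_inv] at h5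
  exact ⟨_, h5.symm⟩

end Pool.Agent.MP_1c2b6e_al

/-! The orientation is reversed at every odd prime. -/

namespace Pool.Agent.MP_1c2b6e_al

open Classical

theorem res_two_of_four {a : Zhat} (h4 : res 4 a = -1) : res 2 a = 1 := by
  rw [← res_cast (show 2 ∣ 4 by norm_num), h4, map_neg, map_one]
  rfl

theorem even_of_mul_eq {a b : Zhat} (h4 : res 4 a = -1) (h : a * b = b) : res 2 b = 0 := by
  have h1 := congrArg (res 4) h
  rw [map_mul, h4] at h1
  rw [← res_cast (show 2 ∣ 4 by norm_num)]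
  revert h1
  generalize res 4 b = x
  revert x
  decide

theorem exists_half {a : Zhat} (h2 : a ^ 2 = 1) (h4 : res 4 a = -1) :
    ∃ v : Zhat, 1 - a = 2 * v ∧ res 2 v = 1 ∧ v + a * v = 0 ∧ a * (1 - v) = 1 - v := by
  obtain ⟨v, hv⟩ := zhat_dvd (k := 2) (a := 1 - a)
    (by rw [map_sub, map_one, res_two_of_four h4, sub_self])
  rw [Nat.cast_ofNat] at hv
  have h1 : v + a * v = 0 := zhat_eq_zero (k := 2) (by norm_num) (by
    rw [Nat.cast_ofNat]; linear_combination (-(1 + a)) * hv - h2)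
  refine ⟨v, hv, ?_, h1, by linear_combination -hv - h1⟩
  have h3 := congrArg (res 4) hv
  rw [map_sub, map_one, h4, map_mul, map_ofNat] at h3
  rw [← res_cast (show 2 ∣ 4 by norm_num)]
  revert h3
  generalize res 4 v = x
  revert x
  decide

variable {G : Type} [Group G] [TopologicalSpace G] [IsTopologicalGroup G] [CompactSpace G]
  [TotallyDisconnectedSpace G] {l : Fin 3 → G}

/-- Twisted conjugacy under `U`. -/
def twR (θ : MulAut G) (U : Subgroup G) : Setoid G where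
  r a b := ∃ u ∈ U, b = u * a * (θ u)⁻¹
  iseqv := ⟨fun a => ⟨1, one_mem _, by simp⟩,
    fun ⟨u, hu, h⟩ => ⟨u⁻¹, inv_mem hu, by rw [h, map_inv]; group⟩,
    fun ⟨u, hu, h⟩ ⟨w, hw, h'⟩ => ⟨w * u, mul_mem hw hu, by rw [h', h, map_mul]; group⟩⟩

theorem exists_invol (hl : IsBasis l) {θ : MulAut G} (hθ : Continuous θ) (hp : θ ^ 2 = 1)
    {a : Zhatˣ} (ha : a ^ 2 = 1) (h4 : res 4 (a : Zhat) = -1) {U : Subgroup G}
    (hU : IsOpen (U : Set G)) (hst : ∀ u ∈ U, θ u ∈ U) (i : Fin 3) {u : G} (hu : u ∈ U)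
    (h1 : u * θ (l i) * u⁻¹ = pw (l i) a) {m : ℕ} (hm : m ≠ 0) (hmU : l i ^ m ∈ U)
    (hdiv : ∀ b, pw (l i) b ∈ U → ∃ b', b = m * b') :
    ∃ e ∈ U, e * θ e = 1 ∧ e * θ (l i) * e⁻¹ = pw (l i) a := by
  have hc : Continuous (MulAut.conj u * θ : MulAut G) := (continuous_conj_aut _).comp hθ
  have h1' : (MulAut.conj u * θ) (l i) = pw (l i) a := h1
  have h2 := pow_apply_pw hc h1' 2
  rw [conj_mul_pow, hp, mul_one, ← Units.val_pow_eq_pow_val, ha, Units.val_one, pw_one,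
    MulAut.conj_apply, mul_inv_eq_iff_eq_mul] at h2
  obtain ⟨b, hb⟩ := hl.cent (by omega) i h2
  obtain ⟨b', rfl⟩ := hdiv b (hb ▸ Nn_mem hst hu 2)
  have h3 : ∀ c, pw (l i ^ m) c = pw (l i) (m * c) := fun c => by rw [pw_mul, pw_natCast]
  have hinj : ∀ c c', pw (l i ^ m) c = pw (l i ^ m) c' → c = c' := by
    intro c c' h
    rw [h3, h3] at h
    exact sub_eq_zero.1 (zhat_eq_zero hm (by rw [mul_sub, hl.pw_inj (by omega) i h, sub_self]))
  have h5 : (MulAut.conj u * θ) (l i ^ m) = pw (l i ^ m) a := by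
    rw [map_pow, h1', h3, mul_comm, pw_mul, pw_natCast]
  have h6 : (MulAut.conj u * θ) ^ 2 = MulAut.conj (pw (l i ^ m) b') := by
    rw [conj_mul_pow, hp, mul_one, hb, h3]
  obtain ⟨c, rfl⟩ := zhat_dvd (even_of_mul_eq h4
    (hl.mul_eq_of_pow_eq_conj le_rfl hc hinj h5 h6))
  have h7 := hl.split le_rfl hc hinj h5 two_ne_zero h6
  rw [← mul_assoc, ← map_mul, conj_mul_pow, hp, mul_one] at h7
  have h8 := hl.conj_inj le_rfl (h7.trans (map_one _).symm)
  refine ⟨pw (l i ^ m) (-c) * u, mul_mem (pw_mem (U.isClosed_of_isOpen hU) hmU _) hu,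
    by simpa [Nn] using h8, ?_⟩
  have h9 : pw (l i) (m * -c) * pw (l i) a = pw (l i) a * pw (l i) (m * -c) := by
    rw [← pw_add, ← pw_add, add_comm]
  calc _ = pw (l i ^ m) (-c) * (u * θ (l i) * u⁻¹) * (pw (l i ^ m) (-c))⁻¹ := by group
    _ = _ := by rw [h1, h3, h9]; group

theorem dihedral_aux (hl : IsBasis l) {θ : MulAut G} {a : Zhatˣ} (hθ : Pure l θ a)
    (hp : θ ^ 2 = 1) (h4 : res 4 (a : Zhat) = -1) (q : ℕ) [Fact q.Prime] (hq : q ≠ 2)
    (hqa : res q (a : Zhat) = 1) : False := by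
  have hqp : q.Prime := Fact.out
  have h2q : (2 : ZMod q) ≠ 0 := by
    intro h
    have h1 : ((2 : ℕ) : ZMod q) = 0 := by exact_mod_cast h
    exact hq ((Nat.prime_dvd_prime_iff_eq hqp Nat.prime_two).1 ((ZMod.natCast_eq_zero_iff _ _).1 h1))
  have ha : a ^ 2 = 1 := hθ.pow_eq_one hl le_rfl (g := 1) (by rw [hp, map_one])
  obtain ⟨v, hv1, hv2, hv3, hv4⟩ := exists_half (a := (a : Zhat))
    (by rw [← Units.val_pow_eq_pow_val, ha, Units.val_one]) h4
  have hvq : res q (1 - v) = 1 := by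
    have h1 := congrArg (res q) hv1
    rw [map_sub, map_one, hqa, sub_self, map_mul, map_ofNat] at h1
    rw [map_sub, map_one, (mul_eq_zero.1 h1.symm).resolve_left h2q, sub_zero]
  obtain ⟨h, hh, h0, h2, h1⟩ := exists_ch_pair hl q (i := 0) (k := 2) (by decide)
  replace h1 : h (l 1) = 0 := h1 1 (by decide) (by decide)
  have hmul : ∀ x y, h (x * y) = h x + h y := fun x y => hh.1 x trivial y trivial
  have hinv : ∀ x, h x⁻¹ = -h x := fun x => hh.inv trivial
  have hθh : ∀ x, h (θ x) = h x := fun x => sub_eq_zero.1 <|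
    hl.ch_eq_zero ((hh.comp θ hθ.1 fun _ _ => trivial).sub hh) (fun i => by
      obtain ⟨β, hβ⟩ := hθ.2 i
      rw [hβ, hh.conj trivial trivial, hh.map_pw trivial, hqa, one_mul, sub_self]) x
  let U : Subgroup G :=
    { carrier := {g | h g = 0}
      one_mem' := hh.one
      mul_mem' := fun {x y} hx hy => by
        change h (x * y) = 0
        rw [hmul, hx, hy, add_zero]
      inv_mem' := fun {x} hx => by
        change h x⁻¹ = 0
        rw [hinv, hx, neg_zero] }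
  have hU' : ∀ g, g ∈ U ↔ h g = 0 := fun g => Iff.rfl
  have hU : IsOpen (U : Set G) := by
    obtain ⟨N, hN⟩ := hh.2
    exact Subgroup.isOpen_mono (H₁ := N.toSubgroup) (fun u hu => (hN u hu).2) N.isOpen'
  have hst : ∀ u ∈ U, θ u ∈ U := fun u hu => (hθh u).trans hu
  have hp' : θ ^ 2 = MulAut.conj 1 := by rw [hp, map_one]
  -- involutions at the three generators
  have hAB : ∀ i, h (l i) = 1 ∨ h (l i) = -1 →
      ∃ e ∈ U, e * θ e = 1 ∧ e * θ (l i) * e⁻¹ = pw (l i) a := by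
    intro i hi
    obtain ⟨α, hα⟩ := hθ.2 i
    have hsq : h (l i) * h (l i) = 1 := by rcases hi with hi | hi <;> simp [hi]
    refine exists_invol hl hθ.1 hp ha h4 hU hst i (u := l i ^ (h α * h (l i)).val * α⁻¹) ?_ ?_
      hqp.ne_zero ?_ fun b hb => zhat_dvd ?_
    · rw [hU', hmul, hinv, hh.pow trivial, nsmul_eq_mul, ZMod.natCast_zmod_val, mul_assoc, hsq]
      ring
    · have h3 := (commute_pw ((Commute.refl (l i)).pow_left (h α * h (l i)).val) (a : Zhat)).eq
      rw [hα]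
      calc _ = l i ^ (h α * h (l i)).val * pw (l i) a * (l i ^ (h α * h (l i)).val)⁻¹ := by group
        _ = _ := by rw [h3]; group
    · rw [hU', hh.pow trivial, nsmul_eq_mul, ZMod.natCast_self, zero_mul]
    · rw [hU', hh.map_pw trivial] at hb
      rw [← mul_one (res q b), ← hsq, ← mul_assoc, hb, zero_mul]
  obtain ⟨eA, hA⟩ := hAB 0 (Or.inl h0)
  obtain ⟨eB, hB⟩ := hAB 2 (Or.inr h2)
  obtain ⟨eY, hY⟩ : ∃ e ∈ U, e * θ e = 1 ∧ e * θ (l 1) * e⁻¹ = pw (l 1) a := by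
    obtain ⟨α, b, h3, h5⟩ := exists_pow_conj hl le_rfl hθ hp' 1
    refine exists_invol hl hθ.1 hp ha h4 hU hst 1 (u := α) ?_ h3 one_ne_zero
      (by rw [pow_one]; exact h1) fun b _ => ⟨b, by simp⟩
    have h6 := congrArg h h5
    rw [hh.map_pw trivial, h1, mul_zero] at h6
    simp only [Nn, pow_zero, pow_one, MulAut.one_apply, one_mul, mul_one, hmul, hθh] at h6
    rw [← two_mul] at h6
    exact (mul_eq_zero.1 h6).resolve_left h2q
  let e : Bool ⊕ Fin q → G := fun x => match x with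
    | Sum.inl false => eA
    | Sum.inl true => eB
    | Sum.inr k => (l 0 ^ (k : ℕ))⁻¹ * eY * θ (l 0 ^ (k : ℕ))
  have hθθ : ∀ x, θ (θ x) = x := fun x => by rw [← MulAut.mul_apply, ← pow_two, hp]; rfl
  have hpowq : ∀ i (e : G), e * θ (l i) * e⁻¹ = pw (l i) a →
      e * θ (l i ^ q) * e⁻¹ = pw (l i ^ q) a := by
    intro i e he
    rw [map_pow, ← conj_pow, he, ← pw_natCast, ← pw_natCast, ← pw_mul, ← pw_mul, mul_comm]
  have he : ∀ x, e x ∈ U ∧ e x * θ (e x) = 1 ∧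
      e x * θ (cy l q x) * (e x)⁻¹ = pw (cy l q x) a := by
    rintro ((_ | _) | k)
    · exact ⟨hA.1, hA.2.1, hpowq 0 _ hA.2.2⟩
    · exact ⟨hB.1, hB.2.1, hpowq 2 _ hB.2.2⟩
    · refine ⟨?_, ?_, ?_⟩
      · change h ((l 0 ^ (k : ℕ))⁻¹ * eY * θ (l 0 ^ (k : ℕ))) = 0
        rw [hmul, hmul, hinv, hθh, (hU' _).1 hY.1]; ring
      · change (l 0 ^ (k : ℕ))⁻¹ * eY * θ (l 0 ^ (k : ℕ)) *
          θ ((l 0 ^ (k : ℕ))⁻¹ * eY * θ (l 0 ^ (k : ℕ))) = 1
        rw [map_mul, map_mul, map_inv, hθθ]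
        calc _ = (l 0 ^ (k : ℕ))⁻¹ * (eY * θ eY) * l 0 ^ (k : ℕ) := by group
          _ = 1 := by rw [hY.2.1]; group
      · change (l 0 ^ (k : ℕ))⁻¹ * eY * θ (l 0 ^ (k : ℕ)) *
          θ ((l 0 ^ (k : ℕ))⁻¹ * l 1 * l 0 ^ (k : ℕ)) *
          ((l 0 ^ (k : ℕ))⁻¹ * eY * θ (l 0 ^ (k : ℕ)))⁻¹ =
          pw ((l 0 ^ (k : ℕ))⁻¹ * l 1 * l 0 ^ (k : ℕ)) a
        rw [pw_conj', ← hY.2.2, map_mul, map_mul, map_inv]
        group
  have hcy := cy_mem (l := l) hh h0 h1 h2 hU'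
  let e' : Bool ⊕ Fin q → G := fun x => pw (cy l q x) v * e x
  have he' : ∀ x, e' x ∈ U ∧ e' x * θ (e' x) = 1 := by
    intro x
    refine ⟨mul_mem (pw_mem (U.isClosed_of_isOpen hU) (hcy x) _) (he x).1, ?_⟩
    have h3 : e x * θ (pw (cy l q x) v) * (e x)⁻¹ = pw (cy l q x) (a * v) := by
      rw [map_pw_aut θ hθ.1, ← pw_conj, (he x).2.2, pw_mul]
    change pw (cy l q x) v * e x * θ (pw (cy l q x) v * e x) = 1
    rw [map_mul]
    calc _ = pw (cy l q x) v * (e x * θ (pw (cy l q x) v) * (e x)⁻¹) * (e x * θ (e x)) := by group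
      _ = 1 := by rw [h3, (he x).2.1, ← pw_add, hv3, pw_zero, mul_one]
  have hfθ : ∀ f : G → ZMod 2, IsCh U f → ∀ u ∈ U, f (θ u) = f u := by
    intro f hf u hu
    refine sub_eq_zero.1 (cy_gen hl hh h0 h1 h2 hU' ((hf.comp θ hθ.1 hst).sub hf) (fun x => ?_) hu)
    rw [← hf.conj (hst _ (hcy x)) (he x).1, (he x).2.2, hf.map_pw (hcy x), res_two_of_four h4,
      one_mul, sub_self]
  have hfR : ∀ f : G → ZMod 2, IsCh U f → ∀ x ∈ U, ∀ y, twR θ U x y → f x = f y := by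
    rintro f hf x hx _ ⟨u, hu, rfl⟩
    rw [hf.1 _ (mul_mem hu hx) _ (inv_mem (hst u hu)), hf.1 _ hu _ hx, hf.inv (hst u hu),
      hfθ f hf u hu]
    ring
  have hfe : ∀ f : G → ZMod 2, IsCh U f → ∀ x, f (cy l q x) = f (e x) + f (e' x) := by
    intro f hf x
    have h3 : f (e' x) = f (cy l q x) + f (e x) := by
      change f (pw (cy l q x) v * e x) = _
      rw [hf.1 _ (pw_mem (U.isClosed_of_isOpen hU) (hcy x) _) _ (he x).1, hf.map_pw (hcy x), hv2,
        one_mul]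
    rw [h3, add_left_comm, CharTwo.add_self_eq_zero, add_zero]
  have hq3 : 3 ≤ q := by have := hqp.two_le; omega
  have hsep : ∀ x y : Bool ⊕ Fin q, x ≠ y →
      ∃ f : G → ZMod 2, IsCh U f ∧ f (cy l q x) = 1 ∧ f (cy l q y) = 0 := by
    intro x y hxy
    obtain ⟨z, hz1, hz2⟩ : ∃ z, z ≠ x ∧ z ≠ y := by
      by_contra hz
      push Not at hz
      have h3 : (Finset.univ : Finset (Bool ⊕ Fin q)) ⊆ {x, y} := fun z _ => by
        by_cases h : z = x
        · simp [h]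
        · simp [hz z h]
      have h5 := (Finset.card_le_card h3).trans Finset.card_le_two
      simp at h5
      omega
    obtain ⟨f, hf, h3⟩ := cy_surj hl hh h0 h1 h2 hU'
      (fun w => (if w = x then 1 else 0) + if w = z then 1 else 0) (by
        rw [Finset.sum_add_distrib]; simp [CharTwo.add_self_eq_zero])
    exact ⟨f, hf, by simp [h3, hz1.symm], by simp [h3, hxy.symm, hz2.symm]⟩
  have hloop : ∀ x, ¬twR θ U (e x) (e' x) := by
    intro x hx
    obtain ⟨y, hy⟩ : ∃ y, y ≠ x := by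
      by_cases h : x = Sum.inl true
      · exact ⟨Sum.inl false, by simp [h]⟩
      · exact ⟨Sum.inl true, Ne.symm h⟩
    obtain ⟨f, hf, h3, -⟩ := hsep x y hy.symm
    rw [hfe f hf, hfR f hf _ (he x).1 _ hx, CharTwo.add_self_eq_zero] at h3
    exact zero_ne_one h3
  refine graph_core (twR θ U) e e' (by simpa using hqp.odd_of_ne_two hq) (by simpa using hq3)
    hloop ?_ ?_ ?_
  · intro x y hxy hR
    obtain ⟨f, hf, h3, h5⟩ := hsep x y hxy
    rw [hfe f hf] at h3 h5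
    rcases hR with ⟨h6, h7⟩ | ⟨h6, h7⟩
    · rw [hfR f hf _ (he x).1 _ h6, hfR f hf _ (he' x).1 _ h7, h5] at h3
      exact zero_ne_one h3
    · rw [hfR f hf _ (he x).1 _ h6, hfR f hf _ (he' x).1 _ h7, add_comm, h5] at h3
      exact zero_ne_one h3
  · intro w hw
    obtain ⟨hwU, hw2⟩ : w ∈ U ∧ w * θ w = 1 := by
      obtain ⟨x, rfl | rfl⟩ := hw
      · exact ⟨(he x).1, (he x).2.1⟩
      · exact he' x
    have hc : Continuous (MulAut.conj w * θ : MulAut G) := (continuous_conj_aut _).comp hθ.1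
    obtain ⟨f, hf, h3, h5⟩ := smith0 (r := 2) hl hc (U := U)
      (by rw [conj_mul_pow, hp]; simp [Nn, hw2]) hU
      (fun u hu => mul_mem (mul_mem hwU (hst u hu)) (inv_mem hwU))
      (E := (fun y => y * w⁻¹) '' {y | y ∈ Set.range e ∪ Set.range e' ∧ ¬twR θ U w y})
      ((((Set.finite_range e).union (Set.finite_range e')).subset fun _ h => h.1).image _) (by
        rintro _ ⟨y, ⟨hy, hR⟩, rfl⟩
        obtain ⟨hyU, hy2⟩ : y ∈ U ∧ y * θ y = 1 := by
          rcases hy with ⟨x, rfl⟩ | ⟨x, rfl⟩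
          · exact ⟨(he x).1, (he x).2.1⟩
          · exact he' x
        refine ⟨mul_mem hyU (inv_mem hwU), ?_, fun u hu h6 => hR ⟨u, hu, ?_⟩⟩
        · rw [MulAut.mul_apply, MulAut.conj_apply, map_mul, map_inv]
          calc _ = y * θ y * (w * θ w)⁻¹ := by group
            _ = 1 := by rw [hy2, hw2]; group
        · rw [MulAut.mul_apply, MulAut.conj_apply, mul_inv_eq_iff_eq_mul] at h6
          rw [h6]; group)
    have h6 : ∀ y ∈ Set.range e ∪ Set.range e', y ∈ U →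
        f y = f w + if twR θ U w y then 0 else 1 := by
      intro y hy hyU
      have h7 : f y = f w + f (y * w⁻¹) := by
        rw [hf.1 _ hyU _ (inv_mem hwU), hf.inv hwU]; ring
      rw [h7]
      split_ifs with hR
      · obtain ⟨u, hu, rfl⟩ := hR
        rw [← h3 u hu, MulAut.mul_apply, MulAut.conj_apply]
        congr 2
        group
      · rw [h5 _ ⟨y, ⟨hy, hR⟩, rfl⟩]
    have h7 := cy_sum hl hh h0 h1 h2 hU' hf
    rw [← ZMod.natCast_eq_zero_iff_even, Finset.card_filter, Nat.cast_sum, ← h7]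
    refine Finset.sum_congr rfl fun x _ => ?_
    rw [hfe f hf, h6 _ (Or.inl ⟨x, rfl⟩) (he x).1, h6 _ (Or.inr ⟨x, rfl⟩) (he' x).1,
      add_add_add_comm, CharTwo.add_self_eq_zero, zero_add]
    by_cases h8 : twR θ U w (e x) <;> by_cases h9 : twR θ U w (e' x)
    · exact absurd ((twR θ U).trans ((twR θ U).symm h8) h9) (hloop x)
    · simp [h8, h9]
    · simp [h8, h9]
    · simp [h8, h9, CharTwo.add_self_eq_zero]
  · intro w hw
    obtain ⟨s, hs1, hs2⟩ : ∃ s, h s * h s = 1 ∧ s * w * (θ s)⁻¹ = w := by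
      have key : ∀ i (ε : G), h (l i) * h (l i) = 1 → ε * θ (l i) * ε⁻¹ = pw (l i) a →
          (w = ε ∨ w = pw (l i ^ q) v * ε) → ∃ s, h s * h s = 1 ∧ s * w * (θ s)⁻¹ = w := by
        intro i ε h3 h5 h6
        have h7 : ε * θ (pw (l i) (1 - v)) * ε⁻¹ = pw (l i) (1 - v) := by
          rw [map_pw_aut θ hθ.1, ← pw_conj, h5, ← pw_mul, hv4]
        have h8 : pw (l i) (1 - v) * ε * (θ (pw (l i) (1 - v)))⁻¹ = ε := by
          conv_lhs => rw [← h7]
          rw [h7, mul_inv_eq_iff_eq_mul, ← mul_inv_eq_iff_eq_mul.1 h7]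
        refine ⟨pw (l i) (1 - v), by rw [hh.map_pw trivial, hvq, one_mul, h3], ?_⟩
        rcases h6 with rfl | rfl
        · exact h8
        · have h9 : pw (l i) (1 - v) * pw (l i ^ q) v = pw (l i ^ q) v * pw (l i) (1 - v) := by
            rw [← pw_natCast, ← pw_mul, ← pw_add, ← pw_add, add_comm]
          rw [← mul_assoc, h9, mul_assoc, mul_assoc, ← mul_assoc (pw (l i) (1 - v)), h8]
      obtain ⟨_ | _, hw⟩ := hw
      · exact key 0 eA (by rw [h0, one_mul]) hA.2.2 hw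
      · exact key 2 eB (by rw [h2]; ring) hB.2.2 hw
    have hsm : ∀ m : ℕ, s ^ m * w * (θ (s ^ m))⁻¹ = w := by
      intro m
      induction m with
      | zero => simp
      | succ m ih =>
        rw [pow_succ, map_mul]
        calc _ = s ^ m * (s * w * (θ s)⁻¹) * (θ (s ^ m))⁻¹ := by group
          _ = w := by rw [hs2, ih]
    have hall : ∀ t, twR θ U w (t * w * (θ t)⁻¹) := by
      intro t
      refine ⟨t * s ^ (-h t * h s).val, ?_, ?_⟩
      · rw [hU', hmul, hh.pow trivial, nsmul_eq_mul, ZMod.natCast_zmod_val, mul_assoc, hs1]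
        ring
      · conv_lhs => rw [← hsm (-h t * h s).val]
        rw [map_mul]; group
    have hmove : ∀ (y : G) (k k' : ℕ), twR θ U w ((l 0 ^ k)⁻¹ * y * θ (l 0 ^ k)) →
        twR θ U w ((l 0 ^ k')⁻¹ * y * θ (l 0 ^ k')) := by
      rintro y k k' ⟨u, -, hu⟩
      have h3 := hall ((l 0 ^ k')⁻¹ * l 0 ^ k * u)
      have h5 : y = l 0 ^ k * (u * w * (θ u)⁻¹) * (θ (l 0 ^ k))⁻¹ := by rw [← hu]; group
      rw [h5]
      rw [map_mul, map_mul, map_inv] at h3
      convert h3 using 1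
      group
    have he'r : ∀ k : Fin q, e' (Sum.inr k) =
        (l 0 ^ (k : ℕ))⁻¹ * (pw (l 1) v * eY) * θ (l 0 ^ (k : ℕ)) := by
      intro k
      change pw ((l 0 ^ (k : ℕ))⁻¹ * l 1 * l 0 ^ (k : ℕ)) v *
        ((l 0 ^ (k : ℕ))⁻¹ * eY * θ (l 0 ^ (k : ℕ))) = _
      rw [pw_conj']; group
    intro k k'
    refine ⟨hmove eY k k', ?_⟩
    rw [he'r, he'r]
    exact hmove _ k k'

theorem dihedral (hl : IsBasis l) {φ : MulAut G} {a : Zhatˣ} (hφ : Pure l φ a) {g : G}
    (hp : φ ^ 2 = MulAut.conj g) (h4 : res 4 (a : Zhat) = -1) (q : ℕ) [Fact q.Prime]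
    (hq : q ≠ 2) : res q (a : Zhat) ≠ 1 := by
  intro hqa
  obtain ⟨α, b, h1, h2⟩ := exists_pow_conj hl le_rfl hφ hp 0
  have hc : Continuous (MulAut.conj α * φ : MulAut G) := (continuous_conj_aut _).comp hφ.1
  have h3 : (MulAut.conj α * φ) ^ 2 = MulAut.conj (pw (l 0) b) := by
    rw [conj_mul_pow, hp, ← map_mul, h2]
  have hinj : ∀ c c', pw (l 0) c = pw (l 0) c' → c = c' := fun _ _ => hl.pw_inj (by omega) 0
  obtain ⟨c, rfl⟩ := zhat_dvd (even_of_mul_eq h4 (hl.mul_eq_of_pow_eq_conj le_rfl hc hinj h1 h3))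
  refine dihedral_aux hl ?_ (hl.split le_rfl hc hinj h1 two_ne_zero h3) h4 q hq hqa
  simpa using (Pure.conj l (pw (l 0) (-c))).mul ((Pure.conj l α).mul hφ)

end Pool.Agent.MP_1c2b6e_al

end

-- part MP_1c2b6e_al.Main
section

/-! Induction on the number of punctures. -/

namespace Pool.Agent.MP_1c2b6e_al

open Classical

section tripod

variable {G : Type} [Group G] [TopologicalSpace G] [IsTopologicalGroup G] [CompactSpace G]
  [TotallyDisconnectedSpace G] {l : Fin 3 → G}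

theorem tripod_torsion (hl : IsBasis l) (m : ℕ) : 0 < m → ∀ (φ : MulAut G) (a : Zhatˣ),
    Pure l φ a → (∃ g, φ ^ m = MulAut.conj g) →
      (∃ g, φ = MulAut.conj g) ∨ ((∃ g, φ ^ 2 = MulAut.conj g) ∧ a = -1) := by
  induction m using Nat.strong_induction_on with
  | _ m ih =>
    intro hm φ a hφ ⟨g, hg⟩
    by_cases h1 : m = 1
    · subst h1
      exact Or.inl ⟨g, by simpa using hg⟩
    obtain ⟨p, hp, k, rfl⟩ := Nat.exists_prime_and_dvd h1
    have : Fact p.Prime := ⟨hp⟩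
    have hk : 0 < k := Nat.pos_of_mul_pos_left hm
    have hkm : k < p * k := by nlinarith [hp.two_le]
    have hg' : (φ ^ k) ^ p = MulAut.conj g := by rw [← pow_mul, mul_comm, hg]
    have hap : ((a ^ k : Zhatˣ) : Zhat) ^ p = 1 := by
      rw [← Units.val_pow_eq_pow_val, (hφ.pow k).pow_eq_one hl le_rfl hg', Units.val_one]
    by_cases h2 : p = 2 → res 4 ((a ^ k : Zhatˣ) : Zhat) = 1
    · obtain ⟨v, hv, hav⟩ := exists_nu hap h2
      exact ih k hkm hk φ a hφ (rigid (r := 2) hl le_rfl (hφ.pow k) hg' hv hav)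
    push Not at h2
    obtain ⟨rfl, h2⟩ := h2
    have h4 := (res_four_unit (a ^ k)).resolve_left h2
    have hak : ((a ^ k : Zhatˣ) : Zhat) = -1 := eq_neg_one_of_sq hap h4 fun q _ hq =>
      dihedral hl (hφ.pow k) hg' h4 q hq
    by_cases hk1 : k = 1
    · subst hk1
      exact Or.inr ⟨⟨g, by simpa using hg⟩, Units.ext (by simpa using hak)⟩
    obtain ⟨p', hp', k', rfl⟩ := Nat.exists_prime_and_dvd hk1
    have : Fact p'.Prime := ⟨hp'⟩
    have hp2 : p' ≠ 2 := by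
      rintro rfl
      rw [mul_comm, pow_mul, Units.val_pow_eq_pow_val, map_pow] at h4
      rcases res_four_unit (a ^ k') with h | h <;> rw [h] at h4 <;> exact absurd h4 (by decide)
    have hk' : 0 < k' := Nat.pos_of_mul_pos_left hk
    have hg'' : (φ ^ (2 * k')) ^ p' = MulAut.conj g := by
      rw [← pow_mul, ← hg]; congr 1; ring
    obtain ⟨v, hv, hav⟩ := exists_nu (p := p') (a := ((a ^ (2 * k') : Zhatˣ) : Zhat)) (by
      rw [← Units.val_pow_eq_pow_val, (hφ.pow _).pow_eq_one hl le_rfl hg'', Units.val_one])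
      fun h => absurd h hp2
    exact ih (2 * k') (by nlinarith [hp'.two_le]) (by omega) φ a hφ
      (rigid (r := 2) hl le_rfl (hφ.pow _) hg'' hv hav)

end tripod

theorem Fg.pow {G H : Type} [Group G] [Group H] {q : G →* H} {φ : MulAut G} {φ' : MulAut H}
    (h : ∀ g, q (φ g) = φ' (q g)) (m : ℕ) (g : G) : q ((φ ^ m) g) = (φ' ^ m) (q g) := by
  induction m with
  | zero => rfl
  | succ m ih => rw [pow_succ', pow_succ', MulAut.mul_apply, MulAut.mul_apply, h, ih]

theorem Fg.inv {G H : Type} [Group G] [Group H] {q : G →* H} {φ : MulAut G} {φ' : MulAut H}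
    (h : ∀ g, q (φ g) = φ' (q g)) (g : G) : q (φ⁻¹ g) = φ'⁻¹ (q g) := by
  rw [← φ'.injective.eq_iff, ← h, MulAut.apply_inv_self, MulAut.apply_inv_self]

/-- The character of a torsion element is `±1`. -/
theorem char_torsion (r : ℕ) : ∀ (G : Type) [Group G] [TopologicalSpace G] [IsTopologicalGroup G]
    [CompactSpace G] [TotallyDisconnectedSpace G] (l : Fin (r + 3) → G), IsBasis l →
    ∀ (φ : MulAut G) (a : Zhatˣ), Pure l φ a → ∀ m : ℕ, 0 < m → φ ^ m ∈ Sig l →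
      a = 1 ∨ a = -1 := by
  induction r with
  | zero =>
    intro G _ _ _ _ _ l hl φ a hφ m hm h
    rcases tripod_torsion hl m hm φ a hφ (Sig_three hl h) with ⟨g, rfl⟩ | h
    · exact Or.inl (Pure.unique hl le_rfl hφ (Pure.conj l g))
    · exact Or.inr h.2
  | succ r ih =>
    intro G _ _ _ _ _ l hl φ a hφ m hm h
    have hl' := isBasis_gen (r + 3)
    obtain ⟨q, ι, hF⟩ := exists_fg (r := r + 2) hl hl'
    obtain ⟨φ', hφ', h'⟩ := hF.exists_rho hl hl' hφ
    refine ih _ _ hl' φ' a hφ' m hm (hF.rho_mem hl hl' h ?_ (Fg.pow h' m))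
    rw [← Pure.unique hl (by omega) (hφ.pow m) h.1]
    exact hφ'.pow m

theorem pow_mul_mem {M : Type} [Group M] {S : Subgroup M} {x s : M}
    (hx : x ∈ Subgroup.normalizer (S : Set M)) (hs : s ∈ S) {m : ℕ} (h : x ^ m ∈ S) :
    (x * s) ^ m ∈ S := by
  have key : ∀ k : ℕ, (x ^ k)⁻¹ * (x * s) ^ k ∈ S := by
    intro k
    induction k with
    | zero => simp
    | succ k ih =>
      have h1 : (x ^ (k + 1))⁻¹ * (x * s) ^ (k + 1) =
          x⁻¹ * ((x ^ k)⁻¹ * (x * s) ^ k) * x * s := by rw [pow_succ, pow_succ]; group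
      rw [h1]
      exact mul_mem ((Subgroup.mem_normalizer_iff''.1 hx _).1 ih) hs
  simpa using mul_mem h (key m)

/-- No torsion of prime order with character `1`. -/
theorem no_torsion (r : ℕ) (p : ℕ) [Fact p.Prime] : ∀ (G : Type) [Group G] [TopologicalSpace G]
    [IsTopologicalGroup G] [CompactSpace G] [TotallyDisconnectedSpace G] (l : Fin (r + 3) → G),
    IsBasis l → ∀ φ : MulAut G, Pure l φ 1 → φ ∈ Subgroup.normalizer (Sig l : Set (MulAut G)) →
      φ ^ p ∈ Sig l → φ ∈ Sig l := by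
  induction r with
  | zero =>
    intro G _ _ _ _ _ l hl φ hφ _ h
    obtain ⟨g, hg⟩ := Sig_three hl h
    obtain ⟨g', rfl⟩ := rigid (r := 2) hl le_rfl hφ hg (v := 1) (by simp) (by simp)
    exact conj_mem_Sig hl g'
  | succ r ih =>
    intro G _ _ _ _ _ l hl φ hφ hN h
    have hl' := isBasis_gen (r + 3)
    obtain ⟨q, ι, hF⟩ := exists_fg (r := r + 2) hl hl'
    obtain ⟨φ', hφ', h'⟩ := hF.exists_rho hl hl' hφ
    have hconj : ∀ (ψ : MulAut G) (ψ' : MulAut (SurfHat (r + 3))), Pure (gen (r + 3)) ψ' 1 →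
        (∀ g, q (ψ g) = ψ' (q g)) → ψ ∈ Subgroup.normalizer (Sig l : Set (MulAut G)) →
        ∀ β' ∈ Sig (gen (r + 3)), ψ' * β' * ψ'⁻¹ ∈ Sig (gen (r + 3)) := by
      intro ψ ψ' h1 h2 h3 β' hβ'
      obtain ⟨β, hβ, h4⟩ := hF.exists_lift hl hl' (by omega) hβ'
      refine hF.rho_mem hl hl' ((Subgroup.mem_normalizer_iff.1 h3 β).1 hβ)
        (by simpa using (h1.mul hβ'.1).mul h1.inv) fun g => ?_
      simp only [MulAut.mul_apply]
      rw [h2, h4, Fg.inv h2]
    have hN' : φ' ∈ Subgroup.normalizer (Sig (gen (r + 3)) : Set (MulAut (SurfHat (r + 3)))) := by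
      refine Subgroup.mem_normalizer_iff.2 fun β' => ⟨hconj φ φ' hφ' h' hN β', fun hβ' => ?_⟩
      have h1 := hconj φ⁻¹ φ'⁻¹ (by simpa using hφ'.inv) (Fg.inv h') (inv_mem hN) _ hβ'
      simpa [mul_assoc] using h1
    have h1 := ih _ _ hl' φ' hφ' hN' (hF.rho_mem hl hl' h (by simpa using hφ'.pow p) (Fg.pow h' p))
    obtain ⟨β, hβ, h2⟩ := hF.exists_lift hl hl' (by omega) h1
    have hstep : ∀ ψ s : MulAut G, Pure l ψ 1 ∧ ψ ∈ Subgroup.normalizer (Sig l : Set (MulAut G)) ∧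
        ψ ^ p ∈ Sig l → s ∈ Sig l → Pure l (ψ * s) 1 ∧
        ψ * s ∈ Subgroup.normalizer (Sig l : Set (MulAut G)) ∧ (ψ * s) ^ p ∈ Sig l :=
      fun ψ s h3 hs => ⟨by simpa using h3.1.mul hs.1, mul_mem h3.2.1 (Subgroup.le_normalizer hs),
        pow_mul_mem h3.2.1 hs h3.2.2⟩
    have h3 := hstep φ β⁻¹ ⟨hφ, hN, h⟩ (inv_mem hβ)
    have h4 : ∀ g, q ((φ * β⁻¹) g) = q g := fun g => by
      rw [MulAut.mul_apply, h', Fg.inv h2, MulAut.apply_inv_self]
    obtain ⟨α, hα⟩ := (h3.1.inv).2 (Fin.last (r + 3))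
    have h4' : ∀ g, q ((φ * β⁻¹)⁻¹ g) = q g := fun g => by
      rw [← h4 ((φ * β⁻¹)⁻¹ g), MulAut.apply_inv_self]
    have hql : q (l (Fin.last (r + 3))) = gen (r + 3) (Fin.last (r + 2)) := hF.qs (Fin.last _)
    rw [inv_one, Units.val_one, pw_one] at hα
    obtain ⟨b, hb⟩ := hl'.cent (by omega) (Fin.last (r + 2)) (g := q α) (by
      have h5 := congrArg q hα
      rw [h4', map_mul, map_mul, map_inv, hql, eq_mul_inv_iff_mul_eq] at h5
      exact h5.symm)
    let α' := α * pw (l (Fin.last (r + 3))) (-b)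
    have hα' : q α' = 1 := by
      rw [map_mul, map_pw q hF.cq, hql, hb, ← pw_add, add_neg_cancel, pw_zero]
    have h5 := hstep _ _ h3 (conj_mem_Sig hl α')
    have h6 : ∀ g, q ((φ * β⁻¹ * MulAut.conj α') g) = q g := fun g => by
      rw [MulAut.mul_apply, h4, MulAut.conj_apply, map_mul, map_mul, map_inv, hα']; group
    have h7 : (φ * β⁻¹ * MulAut.conj α') (l (Fin.last (r + 3))) = l (Fin.last (r + 3)) := by
      have h8 : α' * l (Fin.last (r + 3)) * α'⁻¹ = α * l (Fin.last (r + 3)) * α⁻¹ := by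
        have h9 := (commute_pw (Commute.refl (l (Fin.last (r + 3)))) (-b)).eq
        calc _ = α * (pw (l (Fin.last (r + 3))) (-b) * l (Fin.last (r + 3))) *
            (pw (l (Fin.last (r + 3))) (-b))⁻¹ * α⁻¹ := by simp only [α']; group
          _ = _ := by rw [← h9]; group
      rw [MulAut.mul_apply, MulAut.conj_apply, h8, ← hα, MulAut.apply_inv_self]
    set φ₂ := φ * β⁻¹ * MulAut.conj α' with hφ₂
    obtain ⟨g, hg⟩ := h5.1.2 0
    rw [Units.val_one, pw_one] at hg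
    obtain ⟨ψ, hψ, h8, h9, g', h10, h11⟩ := hF.exists_push hl hl' (q g)⁻¹
    have h12 := hstep _ _ h5 hψ
    have h13 : ∀ x, q ((φ₂ * ψ) x) = q x := fun x => by rw [MulAut.mul_apply, h6, h9]
    have h14 : (φ₂ * ψ) (l (Fin.last (r + 3))) = l (Fin.last (r + 3)) := by
      rw [MulAut.mul_apply, h8, h7]
    have h15 : ∃ c, (φ₂ * ψ) (l 0) = c * l 0 * c⁻¹ ∧ q c = 1 :=
      ⟨φ₂ g' * g, by rw [MulAut.mul_apply, h10, map_mul, map_mul, map_inv, hg]; group,
        by rw [map_mul, h6, h11, inv_mul_cancel]⟩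
    have h16 : ∀ k : ℕ, (∀ x, q (((φ₂ * ψ) ^ k) x) = q x) ∧
        ((φ₂ * ψ) ^ k) (l (Fin.last (r + 3))) = l (Fin.last (r + 3)) ∧
        ∃ c, ((φ₂ * ψ) ^ k) (l 0) = c * l 0 * c⁻¹ ∧ q c = 1 := by
      intro k
      induction k with
      | zero => exact ⟨fun _ => rfl, rfl, 1, by simp, map_one q⟩
      | succ k ihk =>
        obtain ⟨c, hc, hc'⟩ := h15
        obtain ⟨i1, i2, d, hd, hd'⟩ := ihk
        refine ⟨fun x => by rw [pow_succ', MulAut.mul_apply, h13, i1],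
          by rw [pow_succ', MulAut.mul_apply, i2, h14], (φ₂ * ψ) d * c, ?_, ?_⟩
        · rw [pow_succ', MulAut.mul_apply, hd, map_mul, map_mul, map_inv, hc]; group
        · rw [map_mul, h13, hd', hc', one_mul]
    obtain ⟨i1, i2, c, hc, hc'⟩ := h16 p
    have h17 := hF.eq_one hl hl' h12.2.2 i2 i1 hc hc'
    obtain ⟨g'', h18⟩ := rigid (r := r + 3) hl (by omega) h12.1 (g := 1) (by rw [h17, map_one])
      (v := 1) (by simp) (by simp)
    have h19 : φ = φ₂ * ψ * ψ⁻¹ * (MulAut.conj α')⁻¹ * β := by rw [hφ₂]; group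
    rw [h19, h18]
    exact mul_mem (mul_mem (mul_mem (conj_mem_Sig hl _) (inv_mem hψ))
      (inv_mem (conj_mem_Sig hl _))) hβ

variable {G : Type} [Group G] [TopologicalSpace G] [IsTopologicalGroup G] [CompactSpace G]
  [TotallyDisconnectedSpace G] {n : ℕ} {l : Fin n → G}

theorem mem_Sig_of_pow (hl : IsBasis l) (hn : 3 ≤ n) (m : ℕ) : 0 < m → ∀ φ : MulAut G,
    Pure l φ 1 → φ ∈ Subgroup.normalizer (Sig l : Set (MulAut G)) → φ ^ m ∈ Sig l → φ ∈ Sig l := by
  obtain ⟨r, rfl⟩ : ∃ r, n = r + 3 := ⟨n - 3, by omega⟩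
  induction m using Nat.strong_induction_on with
  | _ m ih =>
    intro hm φ hφ hN h
    by_cases h1 : m = 1
    · simpa [h1] using h
    obtain ⟨p, hp, k, rfl⟩ := Nat.exists_prime_and_dvd h1
    have : Fact p.Prime := ⟨hp⟩
    have hk : 0 < k := Nat.pos_of_mul_pos_left hm
    refine ih k (by nlinarith [hp.two_le]) hk φ hφ hN (no_torsion r p G l hl _
      (by simpa using hφ.pow k) (pow_mem hN k) ?_)
    rwa [← pow_mul, mul_comm]

theorem mk_mem_Sigma (hl : IsBasis l) (hn : 3 ≤ n) (φ : frakS l) :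
    toT l φ ∈ Sigma l ↔ (φ : MulAut G) ∈ closS l ⊓ plusS l := by
  constructor
  · rintro ⟨ψ, hψ, h⟩
    obtain ⟨g, hg⟩ := QuotientGroup.eq.1 h
    have h1 : (φ : MulAut G) = ψ * MulAut.conj g := by rw [hg]; simp
    rw [h1]
    exact mul_mem hψ ((mem_Sig_iff hl hn).1 (conj_mem_Sig hl g)).1
  · exact fun h => ⟨φ, h, rfl⟩

theorem toQ_eq_one {T : Type} [Group T] (S : Subgroup T) (t : Nor S) :
    toQ S t = 1 ↔ (t : T) ∈ S := QuotientGroup.eq_one_iff t

theorem main (hl : IsBasis l) (hn : 3 ≤ n)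
    (x : NQuot (Sigma l)) (hx : IsOfFinOrder x) (h1 : x ≠ 1) :
    orderOf x = 2 ∧ ∀ (t : Nor (Sigma l)) (φ : frakS l),
      toQ _ t = x → toT l φ = t → HasChar l φ (-1) := by
  have hpow : ∀ (t : Nor (Sigma l)) (φ : frakS l), toT l φ = t → ∀ k : ℕ,
      (toQ _ t ^ k = 1 ↔ (φ : MulAut G) ^ k ∈ closS l ⊓ plusS l) := by
    intro t φ h k
    rw [← map_pow, toQ_eq_one, Subgroup.coe_pow, ← h, ← map_pow, mk_mem_Sigma hl hn,
      Subgroup.coe_pow]
  obtain ⟨m, hm, hxm⟩ := isOfFinOrder_iff_pow_eq_one.1 hx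
  have key : ∀ (t : Nor (Sigma l)) (φ : frakS l), toQ _ t = x →
      toT l φ = t → x ^ 2 = 1 ∧ HasChar l φ (-1) := by
    intro t φ ht hφ
    have hnorm : (φ : MulAut G) ∈
        Subgroup.normalizer ((closS l ⊓ plusS l : Subgroup (MulAut G)) : Set (MulAut G)) := by
      have h2 : ∀ ψ : frakS l, (ψ : MulAut G) ∈ closS l ⊓ plusS l ↔
          ((φ * ψ * φ⁻¹ : frakS l) : MulAut G) ∈ closS l ⊓ plusS l := by
        intro ψ
        rw [← mk_mem_Sigma hl hn, ← mk_mem_Sigma hl hn, map_mul, map_mul, map_inv, hφ]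
        exact Subgroup.mem_normalizer_iff.1 t.2 _
      refine Subgroup.mem_normalizer_iff.2 fun ψ => ⟨fun h => (h2 ⟨ψ, h.1.1⟩).1 h, fun h => ?_⟩
      have h3 : ψ ∈ frakS l := by
        have h4 := mul_mem (mul_mem (inv_mem φ.2) h.1.1) φ.2
        simpa [mul_assoc] using h4
      exact (h2 ⟨ψ, h3⟩).2 h
    obtain ⟨a, ha⟩ := φ.2
    obtain ⟨hc, σ, hσ⟩ := id ha
    obtain ⟨δ, hδ, hδ'⟩ := exists_perm hl σ⁻¹
    have hP : Pure l (φ * δ) a := by
      refine ⟨hc.comp hδ.2.1, fun i => ?_⟩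
      obtain ⟨β, hβ⟩ := hδ' i
      obtain ⟨α, y, hy, h2⟩ := hσ (σ⁻¹ i)
      refine ⟨φ.1 β * α, ?_⟩
      rw [MulAut.mul_apply, hβ, map_mul, map_mul, map_inv, h2, isPow_iff.1 hy]
      rw [show σ (σ⁻¹ i) = i from σ.apply_symm_apply i]
      group
    have hnorm' := mul_mem hnorm (Subgroup.le_normalizer hδ)
    have hN : (φ : MulAut G) * δ ∈ Subgroup.normalizer (Sig l : Set (MulAut G)) := by
      refine Subgroup.mem_normalizer_iff.2 fun ψ => ?_
      rw [mem_Sig_iff hl hn, mem_Sig_iff hl hn, ← Subgroup.mem_normalizer_iff.1 hnorm' ψ]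
      refine and_congr_right fun _ => ⟨fun ⟨b, hb⟩ => ⟨_, (hP.mul hb).mul hP.inv⟩,
        fun ⟨b, hb⟩ => ⟨a⁻¹ * b * a, ?_⟩⟩
      simpa [mul_assoc] using (hP.inv.mul hb).mul hP
    have hm' : ((φ : MulAut G) * δ) ^ m ∈ Sig l := (mem_Sig_iff hl hn).2
      ⟨pow_mul_mem hnorm hδ ((hpow t φ hφ m).1 (ht ▸ hxm)), _, hP.pow m⟩
    have hback : ∀ k : ℕ, ((φ : MulAut G) * δ) ^ k ∈ Sig l → x ^ k = 1 := by
      intro k hk
      rw [← ht, hpow t φ hφ]
      simpa using pow_mul_mem hnorm' (inv_mem hδ) ((mem_Sig_iff hl hn).1 hk).1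
    obtain ⟨r, rfl⟩ : ∃ r, n = r + 3 := ⟨n - 3, by omega⟩
    rcases char_torsion r G l hl _ a hP m hm hm' with rfl | rfl
    · exact absurd (by simpa using hback 1 (by
        simpa using mem_Sig_of_pow hl hn m hm _ hP hN hm')) h1
    · refine ⟨hback 2 (mem_Sig_of_pow hl hn m hm _ (by simpa using hP.pow 2) (pow_mem hN 2) ?_),
        ha⟩
      rw [← pow_mul, mul_comm 2, pow_mul]
      exact pow_mem hm' 2
  refine ⟨?_, fun t φ ht hφ => (key t φ ht hφ).2⟩
  obtain ⟨t, ht⟩ : ∃ t, toQ _ t = x := QuotientGroup.mk_surjective x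
  obtain ⟨φ, hφ⟩ : ∃ φ, toT l φ = t := QuotientGroup.mk_surjective (t : frakT l)
  exact orderOf_eq_prime (key t φ ht hφ).1 h1

end Pool.Agent.MP_1c2b6e_al

end

-- part MP_1c2b6e_al.CDefs
section

/-! Definitions for the conjugacy of involutions. -/

namespace Pool.Agent.MP_1c2b6e_al

open Classical

variable {G : Type} [Group G] [TopologicalSpace G] [IsTopologicalGroup G] [CompactSpace G]
  [TotallyDisconnectedSpace G] {H : Type} [Group H] [TopologicalSpace H] [IsTopologicalGroup H]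
  [CompactSpace H] [TotallyDisconnectedSpace H] {n m : ℕ}

/-- `z` is conjugate to one of the generators. -/
def Cg (l : Fin n → G) (z : G) : Prop := ∃ i, IsConj (l i) z

/-- `t` is a continuous involution with character `-1` (it may permute the punctures). -/
structure Invol (l : Fin n → G) (t : MulAut G) : Prop where
  cont : Continuous t
  sq : t * t = 1
  per : ∃ ρ : Equiv.Perm (Fin n), ∀ i, IsConj (l (ρ i))⁻¹ (t (l i))

/-- `φ'` is induced by `φ` along `q`. -/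
def Desc (q : G →* H) (φ : MulAut G) (φ' : MulAut H) : Prop := ∀ g, q (φ g) = φ' (q g)

/-- `q` keeps the generators with index in the range of `e` and kills the others. -/
structure Kill (l : Fin n → G) (h : Fin m → H) (e : Fin m → Fin n) (q : G →* H) : Prop where
  mono : StrictMono e
  cq : Continuous q
  qe : ∀ j, q (l (e j)) = h j
  qz : ∀ i, i ∉ Set.range e → q (l i) = 1

/-- The preimage of `Σ` in the automorphism group. -/
def Gam (l : Fin n → G) : Subgroup (MulAut G) := closS l ⊓ plusS l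

/-- `σ` is the Hurwitz move of the basis `l` at the positions `i`, `j`. -/
def Hur (l : Fin n → G) (i j : Fin n) (σ : MulAut G) : Prop :=
  Continuous σ ∧ ∀ k, σ (l k) = hur i j l k

/-- The half twist `σ` at the positions `1`, `2` and the powers `D a` of the Dehn twist. -/
structure Loc {r : ℕ} (l : Fin (r + 3) → G) (σ : MulAut G) (D : Zhat → MulAut G) : Prop where
  hur : Hur l 1 2 σ
  cont : ∀ a, Continuous (D a)
  one : ∀ a, D a (l 1) = pw (l 1 * l 2) a * l 1 * (pw (l 1 * l 2) a)⁻¹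
  two : ∀ a, D a (l 2) = pw (l 1 * l 2) a * l 2 * (pw (l 1 * l 2) a)⁻¹
  rest : ∀ a i, i ≠ 1 → i ≠ 2 → D a (l i) = l i

/-- A pure representative of an involution of `N_Σ / Σ`. -/
structure Adm (l : Fin n → G) (θ : MulAut G) : Prop where
  pure : Pure l θ (-1)
  comm : ∀ δ ∈ Gam l, θ * δ * θ⁻¹ * δ⁻¹ ∈ Sig l
  sq : θ * θ ∈ Sig l

/-- A quotient onto the tripod that kills all generators but three. -/
def PQ (l : Fin n → G) (q : G →* SurfHat 3) : Prop :=
  Continuous q ∧ ∃ e : Fin 3 → Fin n, Function.Injective e ∧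
    (∀ j, IsConj (gen 3 j) (q (l (e j)))) ∧ ∀ i, i ∉ Set.range e → q (l i) = 1

/-- A chain of three cusps starting from the involution `s`. -/
structure Ch3 (l : Fin n → G) (s : MulAut G) (a : Zhat) (x y z : G) : Prop where
  cx : Cg l x
  cy : Cg l y
  cz : Cg l z
  ix : s x = x⁻¹
  iy : (s * MulAut.conj (pw x a)) y = y⁻¹
  iz : (s * MulAut.conj (pw x a) * MulAut.conj (pw y a)) z = z⁻¹
  xy : y ≠ x
  yz : z ≠ y

/-- All triangles with exponent `a` close up. -/
def Tri (l : Fin n → G) (θ : MulAut G) (a : Zhat) : Prop :=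
  ∀ q : G →* SurfHat 3, PQ l q → ∀ k ∈ Sig l, ∀ s : MulAut (SurfHat 3), Desc q (k * θ) s →
    s * s = 1 → ∀ x y z, Ch3 (gen 3) s a x y z → pw x a * pw y a * pw z a = 1

/-- An infinite chain of involutions and cusps. -/
structure Chain (l : Fin n → G) (a : Zhat) (s : ℕ → MulAut G) (z : ℕ → G) : Prop where
  cg : ∀ k, Cg l (z k)
  inv : ∀ k, s k (z k) = (z k)⁻¹
  succ : ∀ k, s (k + 1) = s k * MulAut.conj (pw (z k) a)
  ne : ∀ k, z (k + 1) ≠ z k

/-- The product of the first `k` terms. -/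
def pp (y : ℕ → G) : ℕ → G
  | 0 => 1
  | k + 1 => pp y k * y k

/-- The three boundary curves of the pair of pants left by the half twist. -/
def bb (l : Fin 4 → G) : Fin 3 → G := ![l 0, l 1 * l 2, l 3]

omit [TopologicalSpace G] [IsTopologicalGroup G] [CompactSpace G] [TotallyDisconnectedSpace G] in
theorem prod_ofFn_pp (y : ℕ → G) (k : ℕ) : (List.ofFn fun i : Fin k => y i).prod = pp y k := by
  induction k with
  | zero => rfl
  | succ k ih =>
    rw [List.ofFn_succ', List.prod_concat, pp, ← ih]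
    rfl

theorem pw_inv (x : G) (a : Zhat) : pw x⁻¹ a = pw x (-a) := by
  have h : x⁻¹ = pw x (-1) := by rw [pw_neg, pw_one]
  rw [h, ← pw_mul, neg_one_mul]

/-- An automorphism inverting `x` inverts its powers. -/
theorem map_pw_inv {t : MulAut G} (hc : Continuous t) {x : G} (h : t x = x⁻¹) (a : Zhat) :
    t (pw x a) = (pw x a)⁻¹ := by
  rw [map_pw_aut t hc, h, pw_inv, pw_neg]

theorem pw_comm (x : G) (a : Zhat) : pw x a * x = x * pw x a :=
  (commute_pw (Commute.refl x) a).eq.symm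

theorem conj_pw_self (x : G) (a : Zhat) : MulAut.conj (pw x a) x = x := by
  rw [MulAut.conj_apply, pw_comm, mul_inv_cancel_right]

theorem isConj_pw {x y : G} (h : IsConj x y) (a : Zhat) : IsConj (pw x a) (pw y a) := by
  obtain ⟨c, rfl⟩ := isConj_iff.1 h
  exact isConj_iff.2 ⟨c, (pw_conj c x a).symm⟩

omit [TopologicalSpace G] [IsTopologicalGroup G] [CompactSpace G] [TotallyDisconnectedSpace G] in
theorem isConj_inv' {x y : G} (h : IsConj x y) : IsConj x⁻¹ y⁻¹ := by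
  obtain ⟨c, rfl⟩ := isConj_iff.1 h
  exact isConj_iff.2 ⟨c, by group⟩

omit [TopologicalSpace G] [IsTopologicalGroup G] [CompactSpace G] [TotallyDisconnectedSpace G] in
theorem isConj_aut (φ : MulAut G) {x y : G} (h : IsConj x y) : IsConj (φ x) (φ y) :=
  φ.toMonoidHom.map_isConj h

omit [TopologicalSpace G] [IsTopologicalGroup G] [CompactSpace G] [TotallyDisconnectedSpace G] in
theorem mul_conj_eq (t : MulAut G) (x : G) : t * MulAut.conj x = MulAut.conj (t x) * t := by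
  ext g
  simp

section desc

omit [TopologicalSpace G] [IsTopologicalGroup G] [CompactSpace G] [TotallyDisconnectedSpace G]
  [TopologicalSpace H] [IsTopologicalGroup H] [CompactSpace H] [TotallyDisconnectedSpace H]

variable {q : G →* H} {φ ψ : MulAut G} {φ' ψ' : MulAut H}

theorem Desc.one (q : G →* H) : Desc q 1 1 := fun _ => rfl

theorem Desc.mul (h1 : Desc q φ φ') (h2 : Desc q ψ ψ') : Desc q (φ * ψ) (φ' * ψ') := fun g => by
  rw [MulAut.mul_apply, MulAut.mul_apply, h1, h2]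

theorem Desc.inv (h : Desc q φ φ') : Desc q φ⁻¹ φ'⁻¹ := Fg.inv h

theorem Desc.conj (q : G →* H) (x : G) : Desc q (MulAut.conj x) (MulAut.conj (q x)) := fun g => by
  simp

theorem Desc.unique (hq : Function.Surjective q) (h1 : Desc q φ φ') (h2 : Desc q φ ψ') :
    φ' = ψ' := by
  ext x
  obtain ⟨g, rfl⟩ := hq x
  rw [← h1, h2]

theorem Desc.comp {K : Type} [Group K] {p : H →* K} {φ'' : MulAut K} (h1 : Desc q φ φ')
    (h2 : Desc p φ' φ'') : Desc (p.comp q) φ φ'' := fun g => by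
  rw [MonoidHom.comp_apply, MonoidHom.comp_apply, h1, h2]

end desc

variable {l : Fin n → G} {t : MulAut G}

theorem pure_neg_iff : Pure l t (-1) ↔ Continuous t ∧ ∀ i, IsConj (l i)⁻¹ (t (l i)) := by
  refine and_congr_right fun _ => forall_congr' fun i => ?_
  rw [isConj_iff, Units.val_neg, Units.val_one, pw_neg, pw_one]
  exact exists_congr fun _ => eq_comm

theorem pure_one_iff : Pure l t 1 ↔ Continuous t ∧ ∀ i, IsConj (l i) (t (l i)) := by
  refine and_congr_right fun _ => forall_congr' fun i => ?_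
  rw [isConj_iff, Units.val_one, pw_one]
  exact exists_congr fun _ => eq_comm

theorem Pure.invol (h : Pure l t (-1)) (h2 : t * t = 1) : Invol l t :=
  ⟨h.1, h2, 1, (pure_neg_iff.1 h).2⟩

theorem Pure.mul_conj {a : Zhatˣ} (h : Pure l t a) (x : G) : Pure l (t * MulAut.conj x) a := by
  simpa using h.mul (Pure.conj l x)

omit [TopologicalSpace G] [IsTopologicalGroup G] [CompactSpace G] [TotallyDisconnectedSpace G] in
theorem sq_apply (h : t * t = 1) (x : G) : t (t x) = x := by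
  rw [← MulAut.mul_apply, h, MulAut.one_apply]

omit [TopologicalSpace G] [IsTopologicalGroup G] [CompactSpace G] [TotallyDisconnectedSpace G] in
theorem sq_mul_conj (h : t * t = 1) {x : G} (hx : t x = x⁻¹) :
    t * MulAut.conj x * (t * MulAut.conj x) = 1 := by
  ext g
  simp only [MulAut.mul_apply, MulAut.conj_apply, map_mul, map_inv, sq_apply h, hx,
    MulAut.one_apply, inv_inv]
  group

omit [CompactSpace G] [TotallyDisconnectedSpace G] in
theorem Invol.mul_conj (h : Invol l t) {x : G} (hx : t x = x⁻¹) :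
    Invol l (t * MulAut.conj x) := by
  refine ⟨h.cont.comp (continuous_conj_aut x), sq_mul_conj h.sq hx, ?_⟩
  obtain ⟨ρ, hρ⟩ := h.per
  refine ⟨ρ, fun i => (hρ i).trans (isConj_aut t (isConj_iff.2 ⟨x, rfl⟩))⟩

/-- The next involution of a chain still inverts the cusp. -/
theorem mul_conj_pw_inv {x : G} (hx : t x = x⁻¹) (a : Zhat) :
    (t * MulAut.conj (pw x a)) x = x⁻¹ := by
  rw [MulAut.mul_apply, conj_pw_self, hx]

omit [TopologicalSpace G] [IsTopologicalGroup G] [CompactSpace G] [TotallyDisconnectedSpace G] in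
theorem Cg.conj {z w : G} (h : Cg l z) (hw : IsConj z w) : Cg l w :=
  let ⟨i, hi⟩ := h
  ⟨i, hi.trans hw⟩

omit [TopologicalSpace G] [IsTopologicalGroup G] [CompactSpace G] [TotallyDisconnectedSpace G] in
theorem Cg.self (l : Fin n → G) (i : Fin n) : Cg l (l i) := ⟨i, IsConj.refl _⟩

theorem IsBasis.eq_of_isConj (hl : IsBasis l) (hn : 3 ≤ n) {i j : Fin n}
    (h : IsConj (l i) (l j)) : i = j := by
  obtain ⟨c, hc⟩ := isConj_iff.1 h
  refine (hl.conj_pw_inj hn (a := 1) (b := 1) (α := c) (β := 1) ?_).1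
  rw [Units.val_one, pw_one, pw_one, hc]
  simp

theorem Cg.pw_inj (hl : IsBasis l) (hn : 2 ≤ n) {z : G} (hz : Cg l z) {a b : Zhat}
    (h : pw z a = pw z b) : a = b := by
  obtain ⟨i, hi⟩ := hz
  obtain ⟨c, rfl⟩ := isConj_iff.1 hi
  rw [pw_conj, pw_conj, mul_left_inj, mul_right_inj] at h
  exact hl.pw_inj hn i h

theorem Cg.ne_one (hl : IsBasis l) (hn : 2 ≤ n) {z : G} (hz : Cg l z) : z ≠ 1 := fun h => by
  have h1 : (1 : Zhat) = 0 := hz.pw_inj hl hn (by rw [pw_one, pw_zero, h])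
  have h2 := congrArg (res 2) h1
  rw [map_one, map_zero] at h2
  exact absurd h2 (by decide)

theorem Cg.cent (hl : IsBasis l) (hn : 2 ≤ n) {z g : G} (hz : Cg l z) (h : g * z = z * g) :
    ∃ a, g = pw z a := by
  obtain ⟨i, hi⟩ := hz
  obtain ⟨c, rfl⟩ := isConj_iff.1 hi
  obtain ⟨a, ha⟩ := hl.cent hn i (g := c⁻¹ * g * c) (by
    calc _ = c⁻¹ * (g * (c * l i * c⁻¹)) * c := by group
      _ = _ := by rw [h]; group)
  exact ⟨a, by rw [pw_conj, ← ha]; group⟩

/-- Every profinite integer is even or odd. -/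
theorem zhat_parity (a : Zhat) : (∃ b, a = 2 * b) ∨ ∃ b, a = 2 * b + 1 := by
  have h : ∀ x : ZMod 2, x = 0 ∨ x = 1 := by decide
  rcases h (res 2 a) with h | h
  · obtain ⟨b, hb⟩ := zhat_dvd h
    exact Or.inl ⟨b, by simpa using hb⟩
  · obtain ⟨b, hb⟩ := zhat_dvd (k := 2) (a := a - 1) (by rw [map_sub, h, map_one, sub_self])
    exact Or.inr ⟨b, by rw [← sub_eq_iff_eq_add]; simpa using hb⟩

theorem res_two_mul (b : Zhat) : res 2 (2 * b) = 0 := by
  rw [map_mul, map_ofNat]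
  exact mul_eq_zero_of_left (by decide) _

theorem eq_zero_of_two_mul {a : Zhat} (h : 2 * a = 0) : a = 0 :=
  zhat_eq_zero (k := 2) two_ne_zero (by simpa using h)

theorem res_two_unit (a : Zhatˣ) : res 2 (a : Zhat) = 1 := by
  have h : ∀ x y : ZMod 2, x * y = 1 → x = 1 := by decide
  exact h _ (res 2 (a⁻¹ : Zhatˣ)) (by rw [← map_mul, Units.mul_inv, map_one])

theorem IsCh.isConj {k : Type} [AddCommGroup k] {f : G → k} (hf : IsCh ⊤ f) {x y : G}
    (h : IsConj x y) : f y = f x := by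
  obtain ⟨c, rfl⟩ := isConj_iff.1 h
  exact hf.conj trivial trivial

/-- Characters modulo `2` are invariant under pure automorphisms. -/
theorem Pure.ch_two (hl : IsBasis l) {a : Zhatˣ} (h : Pure l t a) {f : G → ZMod 2}
    (hf : IsCh ⊤ f) (g : G) : f (t g) = f g := by
  refine sub_eq_zero.1 (hl.ch_eq_zero ((hf.comp t h.1 fun _ _ => trivial).sub hf) (fun i => ?_) g)
  obtain ⟨α, hα⟩ := h.2 i
  change f (t (l i)) - f (l i) = 0
  rw [hα, hf.conj trivial trivial, hf.map_pw trivial, res_two_unit, one_mul, sub_self]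

end Pool.Agent.MP_1c2b6e_al

end
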