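import Pool.Agent.MP_1c2b6e_al.Mg.CDefs

/-! Invariant characters from Smith theory. -/

namespace Pool.Agent.MP_1c2b6e_al

open Classical

variable {G : Type} [Group G] [TopologicalSpace G] [IsTopologicalGroup G] [CompactSpace G]
  [TotallyDisconnectedSpace G] {n : ℕ} {l : Fin n → G} {U : Subgroup G} {t : MulAut G}

/-- Twisted conjugacy. -/
def csmR (U : Subgroup G) (t : MulAut G) (a e : G) : Prop := ∃ u ∈ U, e = u * a * (t u)⁻¹

omit [TopologicalSpace G] [IsTopologicalGroup G] [CompactSpace G] [TotallyDisconnectedSpace G] in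
theorem csm_refl (a : G) : csmR U t a a := ⟨1, one_mem _, by simp⟩

omit [TopologicalSpace G] [IsTopologicalGroup G] [CompactSpace G] [TotallyDisconnectedSpace G] in
theorem csm_symm {a e : G} (h : csmR U t a e) : csmR U t e a := by
  obtain ⟨u, hu, rfl⟩ := h
  refine ⟨u⁻¹, inv_mem hu, ?_⟩
  rw [map_inv]
  group

omit [TopologicalSpace G] [IsTopologicalGroup G] [CompactSpace G] [TotallyDisconnectedSpace G] in
theorem csm_trans {a b c : G} (h : csmR U t a b) (h' : csmR U t b c) : csmR U t a c := by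
  obtain ⟨u, hu, rfl⟩ := h
  obtain ⟨v, hv, rfl⟩ := h'
  refine ⟨v * u, mul_mem hv hu, ?_⟩
  rw [map_mul]
  group

/-- The indicator function of one class. -/
theorem csm_one (hl : IsBasis l) (hn : 1 ≤ n) (hc : Continuous t) (h2 : t * t = 1)
    (hU : IsOpen (U : Set G)) (hst : ∀ u ∈ U, t u ∈ U) {E : Set G} (hE : E.Finite)
    (hEU : ∀ e ∈ E, e ∈ U ∧ e * t e = 1) {a : G} (ha : a ∈ E) :
    ∃ (f : G → ZMod 2) (κ : ZMod 2), IsCh U f ∧ (∀ u ∈ U, f (t u) = f u) ∧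
      ∀ e ∈ E, f e = (if csmR U t a e then 1 else 0) + κ := by
  obtain ⟨r, rfl⟩ : ∃ r, n = r + 1 := ⟨n - 1, by omega⟩
  obtain ⟨haU, ha2⟩ := hEU a ha
  have htt : ∀ g, t (t g) = g := fun g => by
    have h := congrArg (fun φ : MulAut G => φ g) h2
    simpa using h
  have hta : t a = a⁻¹ := eq_inv_of_mul_eq_one_right ha2
  have hθ : ∀ g, (MulAut.conj a * t) g = a * t g * a⁻¹ := fun g => rfl
  have hθc : Continuous (MulAut.conj a * t : MulAut G) := by
    have : ((MulAut.conj a * t : MulAut G) : G → G) = fun g => a * t g * a⁻¹ := funext hθ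
    rw [this]
    fun_prop
  have hθ2 : (MulAut.conj a * t) ^ 2 = 1 := by
    ext g
    rw [pow_two, MulAut.mul_apply, hθ, hθ, map_mul, map_mul, map_inv, htt, hta, MulAut.one_apply]
    group
  obtain ⟨f, hf, hf0, hf1⟩ := smith0 hl hθc hθ2 hU
    (fun u hu => by rw [hθ]; exact mul_mem (mul_mem haU (hst u hu)) (inv_mem haU))
    (E := (fun e => e * a⁻¹) '' {e ∈ E | ¬ csmR U t a e})
    ((hE.subset fun e he => he.1).image _) (by
      rintro _ ⟨e, ⟨he, hne⟩, rfl⟩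
      obtain ⟨heU, he2⟩ := hEU e he
      have hte : t e = e⁻¹ := eq_inv_of_mul_eq_one_right he2
      refine ⟨mul_mem heU (inv_mem haU), ?_, fun u hu h => hne ⟨u, hu, ?_⟩⟩
      · simp only [hθ, map_mul, map_inv, hta, hte]
        group
      · simp only [hθ] at h
        calc e = e * a⁻¹ * a := by group
          _ = u * (a * t u * a⁻¹)⁻¹ * a := by rw [h]
          _ = u * a * (t u)⁻¹ := by group)
  have hinv : ∀ u ∈ U, f (t u) = f u := by
    intro u hu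
    have h1 := hf0 u hu
    have h3 : a * t u * a⁻¹ ∈ U := mul_mem (mul_mem haU (hst u hu)) (inv_mem haU)
    rw [hθ, hf.1 _ hu _ (inv_mem h3), hf.inv h3, hf.conj (hst u hu) haU] at h1
    exact (add_neg_eq_zero.1 h1).symm
  refine ⟨f, f a + 1, hf, hinv, fun e he => ?_⟩
  have key : ∀ x y : ZMod 2, (x = 1 + (x + 1)) ∧ (x + -y = 1 → x = 0 + (y + 1)) := by decide
  split_ifs with h
  · obtain ⟨u, hu, rfl⟩ := h
    rw [hf.1 _ (mul_mem hu haU) _ (inv_mem (hst u hu)), hf.1 _ hu _ haU, hf.inv (hst u hu),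
      hinv u hu, ← (key (f a) 0).1]
    abel
  · have h1 := hf1 (e * a⁻¹) ⟨e, ⟨he, h⟩, rfl⟩
    rw [hf.1 _ (hEU e he).1 _ (inv_mem haU), hf.inv haU] at h1
    exact (key _ _).2 h1

/-- The indicator function of a union of classes. -/
theorem csm_many (hl : IsBasis l) (hn : 1 ≤ n) (hc : Continuous t) (h2 : t * t = 1)
    (hU : IsOpen (U : Set G)) (hst : ∀ u ∈ U, t u ∈ U) {E : Set G} (hE : E.Finite)
    (hEU : ∀ e ∈ E, e ∈ U ∧ e * t e = 1) (T : Finset G) (hT : ∀ a ∈ T, a ∈ E) :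
    ∃ (f : G → ZMod 2) (κ : ZMod 2), IsCh U f ∧ (∀ u ∈ U, f (t u) = f u) ∧
      ∀ e ∈ E, f e = (if ∃ a ∈ T, csmR U t a e then 1 else 0) + κ := by
  induction T using Finset.induction_on with
  | empty =>
    obtain ⟨N, hN⟩ := exists_le_of_isOpen U hU
    exact ⟨fun _ => 0, 0, ⟨fun _ _ _ _ => (add_zero _).symm, N, fun u hu => ⟨hN hu, rfl⟩⟩,
      fun _ _ => rfl, fun e _ => by simp⟩
  | insert a T _ ih =>
    obtain ⟨f, κ, hf, hi, he⟩ := ih fun b hb => hT b (Finset.mem_insert_of_mem hb)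
    by_cases hcl : ∃ b ∈ T, csmR U t b a
    · refine ⟨f, κ, hf, hi, fun e heE => ?_⟩
      rw [he e heE]
      congr 1
      refine if_congr ⟨?_, ?_⟩ rfl rfl
      · rintro ⟨b, hb, h⟩
        exact ⟨b, Finset.mem_insert_of_mem hb, h⟩
      · rintro ⟨b, hb, h⟩
        rcases Finset.mem_insert.1 hb with rfl | hb
        · obtain ⟨c, hc1, hc2⟩ := hcl
          exact ⟨c, hc1, csm_trans hc2 h⟩
        · exact ⟨b, hb, h⟩
    · obtain ⟨f', κ', hf', hi', he'⟩ :=
        csm_one hl hn hc h2 hU hst hE hEU (hT a (Finset.mem_insert_self a T))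
      refine ⟨fun g => f g - f' g, κ - κ', hf.sub hf', fun u hu => by simp only [hi u hu, hi' u hu],
        fun e heE => ?_⟩
      have key : ∀ x y : ZMod 2, 0 + x - (1 + y) = 1 + (x - y) := by decide
      simp only [he e heE, he' e heE]
      by_cases h : csmR U t a e
      · rw [if_pos h, if_neg, if_pos ⟨a, Finset.mem_insert_self a T, h⟩, key]
        rintro ⟨b, hb, h'⟩
        exact hcl ⟨b, hb, csm_trans h' (csm_symm h)⟩
      · have hiff : (∃ b ∈ insert a T, csmR U t b e) ↔ ∃ b ∈ T, csmR U t b e := by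
          constructor
          · rintro ⟨b, hb, h'⟩
            rcases Finset.mem_insert.1 hb with rfl | hb
            · exact absurd h' h
            · exact ⟨b, hb, h'⟩
          · rintro ⟨b, hb, h'⟩
            exact ⟨b, Finset.mem_insert_of_mem hb, h'⟩
        rw [if_neg h, if_congr hiff rfl rfl]
        ring

omit [IsTopologicalGroup G] [CompactSpace G] [TotallyDisconnectedSpace G] in
theorem csm_list {k : Type} [AddCommGroup k] {f : G → k} (hf : IsCh ⊤ f) (L : List G) :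
    f L.prod = (L.map f).sum := by
  obtain ⟨N, hN⟩ := hf.2
  induction L with
  | nil => simpa using (hN 1 (one_mem _)).2
  | cons a L ih => rw [List.prod_cons, hf.1 _ trivial _ trivial, ih, List.map_cons, List.sum_cons]

/-- Every function on the twisted conjugacy classes of involutions comes from an invariant
character, up to a constant. Plan: for `e₀ ∈ E` apply `smith0` to `θ = conj e₀ * t` and the set of
all `e * e₀⁻¹` with `e ∈ E` not of the form `u * e₀ * (t u)⁻¹`; this gives an invariant character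
`f` with `f e = f e₀ + 1` off the class of `e₀` and `f e = f e₀` on it. Sum these characters over
representatives of the classes on which `Φ = 1` (e.g. induction on the finite set
`{e ∈ E | Φ e = 1}`, removing a whole class). -/
theorem smith_fun (hl : IsBasis l) (hn : 1 ≤ n) (hc : Continuous t) (h2 : t * t = 1)
    (hU : IsOpen (U : Set G)) (hst : ∀ u ∈ U, t u ∈ U) {E : Set G} (hE : E.Finite)
    (hEU : ∀ e ∈ E, e ∈ U ∧ e * t e = 1) (Φ : G → ZMod 2)
    (hΦ : ∀ e ∈ E, ∀ u ∈ U, u * e * (t u)⁻¹ ∈ E → Φ (u * e * (t u)⁻¹) = Φ e) :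
    ∃ (f : G → ZMod 2) (κ : ZMod 2), IsCh U f ∧ (∀ u ∈ U, f (t u) = f u) ∧
      ∀ e ∈ E, f e = Φ e + κ := by
  have hfin : {e ∈ E | Φ e = 1}.Finite := hE.subset fun e he => he.1
  obtain ⟨f, κ, hf, hi, he⟩ := csm_many hl hn hc h2 hU hst hE hEU hfin.toFinset
    fun a ha => (hfin.mem_toFinset.1 ha).1
  refine ⟨f, κ, hf, hi, fun e heE => ?_⟩
  rw [he e heE]
  congr 1
  split_ifs with h
  · obtain ⟨a, ha, u, hu, rfl⟩ := h
    obtain ⟨ha1, ha2⟩ := hfin.mem_toFinset.1 ha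
    rw [hΦ a ha1 u hu heE, ha2]
  · rcases smith0_cases (Φ e) with h0 | h1
    · exact h0.symm
    · exact absurd ⟨e, hfin.mem_toFinset.2 ⟨heE, h1⟩, csm_refl e⟩ h

/-- There are no elements of order two. Hint: `smith0` with `θ = 1`, `U = ⊤`, `E = {c}` gives a
character `f` mod `2` with `f c = 1`; lift it to a character mod `4` (`exists_ch`, `ch_eq_zero`). -/
theorem IsBasis.eq_one_of_sq (hl : IsBasis l) (hn : 1 ≤ n) {c : G} (h : c * c = 1) : c = 1 := by
  obtain ⟨r, rfl⟩ : ∃ r, n = r + 1 := ⟨n - 1, by omega⟩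
  by_contra hc
  obtain ⟨f, hf, -, hf1⟩ := smith0 hl (θ := 1) continuous_id (one_pow 2) (U := ⊤) isOpen_univ
    (fun _ _ => trivial) (Set.finite_singleton c) (by
      rintro e rfl
      exact ⟨trivial, h, fun u _ hu => hc (by simpa using hu)⟩)
  have hsum : ∑ i, f (l i) = 0 := by
    have h1 := csm_list hf (List.ofFn l)
    rw [hl.prod, hf.one, List.map_ofFn, List.sum_ofFn] at h1
    exact h1.symm
  let π : ZMod 4 →+* ZMod 2 := ZMod.castHom (by norm_num) (ZMod 2)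
  let w : Fin (r + 1) → ZMod 4 := fun i => ((f (l i)).val : ZMod 4)
  have hw : ∀ i, π (w i) = f (l i) := fun i => by
    simp only [w, map_natCast, ZMod.natCast_zmod_val]
  have hW : π (∑ i, w i) = 0 := by
    rw [map_sum, Finset.sum_congr rfl fun i _ => hw i, hsum]
  obtain ⟨F, hF, hv⟩ := hl.exists_ch (m := 4) (w - Pi.single 0 (∑ i, w i)) (by
    simp only [Pi.sub_apply, Finset.sum_sub_distrib, Finset.sum_pi_single', Finset.mem_univ,
      if_true, sub_self])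
  have hπ : IsCh ⊤ fun g => π (F g) := by
    obtain ⟨N, hN⟩ := hF.2
    refine ⟨fun a _ b _ => ?_, N, fun u hu => ⟨trivial, ?_⟩⟩
    · simp only [hF.1 a trivial b trivial, map_add]
    · simp only [(hN u hu).2, map_zero]
  have h0 := hl.ch_eq_zero (hπ.sub hf) (fun i => by
    rw [hv, Pi.sub_apply, map_sub, hw]
    by_cases hi : i = 0
    · rw [hi, Pi.single_eq_same, hW]
      ring
    · rw [Pi.single_eq_of_ne hi, map_zero]
      ring) c
  have h4 : F c + F c = 0 := by rw [← hF.1 c trivial c trivial, h, hF.one]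
  have key : ∀ x : ZMod 4, x + x = 0 → π x - 1 ≠ 0 := by decide
  rw [hf1 c rfl] at h0
  exact key _ h4 h0

end Pool.Agent.MP_1c2b6e_al

/-! An involution with character `-1` acts on the cusps of a stable open subgroup; parity. -/

namespace Pool.Agent.MP_1c2b6e_al

open Classical

variable {G : Type} [Group G] [TopologicalSpace G] [IsTopologicalGroup G] [CompactSpace G]
  [TotallyDisconnectedSpace G] {n : ℕ} {l : Fin n → G} {U : Subgroup G} {t : MulAut G}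

/-- A system of representatives of the cusps. -/
def Rep (l : Fin n → G) (U : Subgroup G) (g : Cusp l U → G) : Prop :=
  ∀ x, x = cls l U x.1 (g x)

theorem exists_rep {ι : Type} (i : ι → Fin n) (c : ι → G)
    (hinj : Function.Injective fun k => cls l U (i k) (c k)) :
    ∃ g, Rep l U g ∧ ∀ k, g (cls l U (i k) (c k)) = c k := by
  refine ⟨fun x => if h : ∃ k, x = cls l U (i k) (c k) then c h.choose
    else (exists_cls x).choose, fun x => ?_, fun k => ?_⟩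
  · dsimp only
    split_ifs with h
    · have h1 := h.choose_spec
      have h2 : x.1 = i h.choose := congrArg Sigma.fst h1
      rw [h2]
      exact h1
    · exact (exists_cls x).choose_spec
  · have h : ∃ k', cls l U (i k) (c k) = cls l U (i k') (c k') := ⟨k, rfl⟩
    dsimp only
    rw [dif_pos h, ← hinj h.choose_spec]

theorem Rep.ev {k : Type} [AddCommGroup k] (hU : IsOpen (U : Set G)) {g : Cusp l U → G}
    (hg : Rep l U g) {f : G → k} (hf : IsCh U f) (x : Cusp l U) :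
    ev l U f x = f (cel U (l x.1) (g x)) := by
  exact (congrArg (MP_1c2b6e_al.ev l U f) (hg x)).trans (ev_cls hU hf _ _)

/-- Hint: `eq_of_isConj`, `cent`, `cls_eq_iff`. -/
theorem cls_eq_of_conj (hl : IsBasis l) (hn : 3 ≤ n) (hU : IsOpen (U : Set G)) {i j : Fin n}
    {c d w : G} (hw : w ∈ U) (h : c⁻¹ * l i * c = w * (d⁻¹ * l j * d) * w⁻¹) :
    cls l U i c = cls l U j d := by
  have h1 : l j = (d * w⁻¹ * c⁻¹) * l i * (d * w⁻¹ * c⁻¹)⁻¹ := by
    calc l j = d * w⁻¹ * (w * (d⁻¹ * l j * d) * w⁻¹) * w * d⁻¹ := by group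
      _ = _ := by rw [← h]; group
  obtain rfl : i = j := hl.eq_of_isConj hn (isConj_iff.2 ⟨_, h1.symm⟩)
  obtain ⟨a, ha⟩ := hl.cent (by omega) i (g := d * w⁻¹ * c⁻¹)
    (mul_inv_eq_iff_eq_mul.1 h1.symm)
  refine (cls_eq_iff hU i c d).2 ⟨a, w, hw, ?_⟩
  rw [← ha]
  group

theorem cpar_eq (hl : IsBasis l) (hn : 3 ≤ n) (hU : IsOpen (U : Set G)) {g : Cusp l U → G}
    (hg : Rep l U g) {x y : Cusp l U} {w : G} (hw : w ∈ U)
    (h : (g x)⁻¹ * l x.1 * g x = w * ((g y)⁻¹ * l y.1 * g y) * w⁻¹) : x = y :=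
  (hg x).trans ((cls_eq_of_conj hl hn hU hw h).trans (hg y).symm)

omit [TopologicalSpace G] [IsTopologicalGroup G] [CompactSpace G] [TotallyDisconnectedSpace G] in
theorem cpar_pow (x c : G) (k : ℕ) : c⁻¹ * x ^ k * c = (c⁻¹ * x * c) ^ k := by
  have h := conj_pow (a := c⁻¹) (b := x) (i := k)
  rw [inv_inv] at h
  exact h.symm

omit [TopologicalSpace G] [IsTopologicalGroup G] [CompactSpace G] [TotallyDisconnectedSpace G] in
theorem cpar_cg (i : Fin n) (c : G) : Cg l (c⁻¹ * l i * c) :=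
  ⟨i, isConj_iff.2 ⟨c⁻¹, by rw [inv_inv]⟩⟩

omit [TopologicalSpace G] [IsTopologicalGroup G] [CompactSpace G] [TotallyDisconnectedSpace G] in
theorem cpar_cel (h2 : t * t = 1) (hst : ∀ u ∈ U, t u ∈ U) {x y c d a : G} (ha : a ∈ U)
    (h : a * t (c⁻¹ * x * c) * a⁻¹ = (d⁻¹ * y * d)⁻¹) :
    a * t (cel U x c) * a⁻¹ = (cel U y d)⁻¹ := by
  have h1 : ∀ k : ℕ, a * t (c⁻¹ * x ^ k * c) * a⁻¹ = (d⁻¹ * y ^ k * d)⁻¹ := fun k => by
    rw [cpar_pow, cpar_pow, map_pow, ← conj_pow, h, inv_pow]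
  have h3 : ∀ k : ℕ, ram U x c ∣ k ↔ ram U y d ∣ k := fun k => by
    rw [← pow_mem_iff, ← pow_mem_iff, ← U.inv_mem_iff (x := d⁻¹ * y ^ k * d), ← h1,
      U.mul_mem_cancel_right (U.inv_mem ha), U.mul_mem_cancel_left ha]
    exact ⟨hst _, fun hk => sq_apply h2 (c⁻¹ * x ^ k * c) ▸ hst _ hk⟩
  have h4 : ram U x c = ram U y d := Nat.dvd_antisymm ((h3 _).2 dvd_rfl) ((h3 _).1 dvd_rfl)
  rw [cel, cel, h1, h4]

theorem cpar_step (ht : Invol l t) (hU : IsOpen (U : Set G)) {g : Cusp l U → G} (hg : Rep l U g)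
    (x : Cusp l U) : ∃ (y : Cusp l U) (a : G), a ∈ U ∧
      a * t ((g x)⁻¹ * l x.1 * g x) * a⁻¹ = ((g y)⁻¹ * l y.1 * g y)⁻¹ ∧
      (t ((g x)⁻¹ * l x.1 * g x) = ((g x)⁻¹ * l x.1 * g x)⁻¹ → y = x ∧ a = 1) := by
  by_cases h : t ((g x)⁻¹ * l x.1 * g x) = ((g x)⁻¹ * l x.1 * g x)⁻¹
  · exact ⟨x, 1, one_mem _, by rw [h, one_mul, inv_one, mul_one], fun _ => ⟨rfl, rfl⟩⟩
  obtain ⟨ρ, hρ⟩ := ht.per
  obtain ⟨α, hα⟩ := isConj_iff.1 (hρ x.1)
  obtain ⟨b, u, hu, e⟩ := (cls_eq_iff hU (ρ x.1) _ _).1 (hg (cls l U (ρ x.1) (α⁻¹ * t (g x))))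
  refine ⟨cls l U (ρ x.1) (α⁻¹ * t (g x)), u⁻¹, U.inv_mem hu, ?_, fun h' => absurd h' h⟩
  have h1 := cuspa_conj (l (ρ x.1)) (α⁻¹ * t (g x)) u b 1
  rw [pow_one, ← e] at h1
  change _ = ((g (cls l U (ρ x.1) (α⁻¹ * t (g x))))⁻¹ * l (ρ x.1) *
    g (cls l U (ρ x.1) (α⁻¹ * t (g x))))⁻¹
  rw [h1, map_mul, map_mul, map_inv, ← hα]
  group

omit [TopologicalSpace G] [IsTopologicalGroup G] [CompactSpace G] [TotallyDisconnectedSpace G] in
theorem cpar_twice (h2 : t * t = 1) {a b x y z : G} (h : a * t x * a⁻¹ = y⁻¹)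
    (h' : b * t y * b⁻¹ = z⁻¹) : z = b * t a * x * (b * t a)⁻¹ := by
  have h1 := congrArg t h
  rw [map_mul, map_mul, map_inv, map_inv, sq_apply h2] at h1
  calc z = b * (t y)⁻¹ * b⁻¹ := by rw [← inv_inv z, ← h']; group
    _ = _ := by rw [← h1]; group

/-- The involution on the cusps. Plan: write `z x = (g x)⁻¹ * l x.1 * g x` and
`t (l i) = α i * (l (ρ i))⁻¹ * (α i)⁻¹`; put `T x = cls (ρ x.1) ((α x.1)⁻¹ * t (g x))`. From
`cls_eq_iff` one gets `a x ∈ U` with `a x * t (z x) * (a x)⁻¹ = (z (T x))⁻¹` (take `a x = 1` if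
`t (z x) = (z x)⁻¹`; then `T x = x` by `cls_eq_of_conj`). `cel = z ^ ram` and the ramification
indices agree (`pow_mem_iff`). `T (T x) = x` by `cls_eq_of_conj`. If `T x = x` then `a * t a`
commutes with `z`, so it is `pw z b` (`Cg.cent`); it is fixed by `conj a * t`, which inverts `z`,
so `b = -b`. -/
theorem Invol.exists_T (hl : IsBasis l) (hn : 3 ≤ n) (ht : Invol l t) (hU : IsOpen (U : Set G))
    (hst : ∀ u ∈ U, t u ∈ U) {g : Cusp l U → G} (hg : Rep l U g) :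
    ∃ (T : Equiv.Perm (Cusp l U)) (a : Cusp l U → G), (∀ x, T (T x) = x) ∧ (∀ x, a x ∈ U) ∧
      (∀ x, a x * t (cel U (l x.1) (g x)) * (a x)⁻¹ = (cel U (l (T x).1) (g (T x)))⁻¹) ∧
      (∀ x, T x = x → a x * t (a x) = 1 ∧
        a x * t ((g x)⁻¹ * l x.1 * g x) * (a x)⁻¹ = ((g x)⁻¹ * l x.1 * g x)⁻¹) ∧
      ∀ x, t ((g x)⁻¹ * l x.1 * g x) = ((g x)⁻¹ * l x.1 * g x)⁻¹ → T x = x ∧ a x = 1 := by
  choose T a ha hT hfix using cpar_step ht hU hg
  have hTT : ∀ x, T (T x) = x := fun x =>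
    cpar_eq hl hn hU hg (U.mul_mem (ha (T x)) (hst _ (ha x))) (cpar_twice ht.sq (hT x) (hT (T x)))
  refine ⟨Function.Involutive.toPerm T hTT, a, hTT, ha, fun x => cpar_cel ht.sq hst (ha x) (hT x),
    fun x hx => ?_, hfix⟩
  have hx' : T x = x := hx
  have h1 := hT x
  rw [hx'] at h1
  refine ⟨?_, h1⟩
  have h2 := cpar_twice ht.sq h1 h1
  have hz := cpar_cg (l := l) x.1 (g x)
  obtain ⟨b, hb⟩ := hz.cent hl (by omega) (mul_inv_eq_iff_eq_mul.1 h2.symm)
  have hc : Continuous (MulAut.conj (a x) * t : MulAut G) :=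
    (continuous_conj_aut _).comp ht.cont
  have h3 := map_pw_inv hc (x := (g x)⁻¹ * l x.1 * g x) h1 b
  have h4 : (MulAut.conj (a x) * t : MulAut G) (a x * t (a x)) = a x * t (a x) := by
    rw [MulAut.mul_apply, MulAut.conj_apply, map_mul, sq_apply ht.sq]
    group
  rw [← hb, h4, hb, ← pw_neg] at h3
  have h5 : b = 0 := eq_zero_of_two_mul (by
    have := hz.pw_inj hl (by omega) h3
    linear_combination this)
  rw [hb, h5, pw_zero]

/-- **Parity.** Plan: `F` is the set of fixed points of `T`; `E` consists of the `a x` and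
`cel * a x` for `x ∈ F`; with `f` from `smith_fun`, `0 = ∑ x, ev f x` (`sum_ev`), the cusps moved by
`T` cancel in pairs (`Finset.sum_involution`), and `f cel = f (cel * a x) - f (a x)`. -/
theorem Invol.par (hl : IsBasis l) (hn : 3 ≤ n) (ht : Invol l t) (hU : IsOpen (U : Set G))
    (hst : ∀ u ∈ U, t u ∈ U) {g : Cusp l U → G} (hg : Rep l U g) (Φ : G → ZMod 2)
    (hΦ : ∀ e ∈ U, e * t e = 1 → ∀ u ∈ U, Φ (u * e * (t u)⁻¹) = Φ e) :
    ∃ (F : Finset (Cusp l U)) (a : Cusp l U → G),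
      (∀ x ∈ F, a x ∈ U ∧ a x * t (a x) = 1 ∧
        a x * t ((g x)⁻¹ * l x.1 * g x) * (a x)⁻¹ = ((g x)⁻¹ * l x.1 * g x)⁻¹) ∧
      (∀ x, t ((g x)⁻¹ * l x.1 * g x) = ((g x)⁻¹ * l x.1 * g x)⁻¹ → x ∈ F ∧ a x = 1) ∧
      ∑ x ∈ F, (Φ (a x) + Φ (cel U (l x.1) (g x) * a x)) = 0 := by
  obtain ⟨T, a, hTT, ha, hcel, hF, hfix⟩ := ht.exists_T hl hn hU hst hg
  have := finite_cusp (l := l) hU
  let _ : Fintype (Cusp l U) := Fintype.ofFinite _
  let F : Finset (Cusp l U) := Finset.univ.filter fun x => T x = x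
  have hmem : ∀ x, x ∈ F ↔ T x = x := fun x => by simp [F]
  let E : Set G := a '' F ∪ (fun x => cel U (l x.1) (g x) * a x) '' F
  have hE : E.Finite := (F.finite_toSet.image _).union (F.finite_toSet.image _)
  have hEU : ∀ e ∈ E, e ∈ U ∧ e * t e = 1 := by
    rintro e (⟨x, hx, rfl⟩ | ⟨x, hx, rfl⟩)
    · exact ⟨ha x, (hF x ((hmem x).1 hx)).1⟩
    · refine ⟨U.mul_mem (cel_mem _ _) (ha x), ?_⟩
      have h1 := hcel x
      rw [(hmem x).1 hx] at h1
      calc _ = cel U (l x.1) (g x) * (a x * t (cel U (l x.1) (g x)) * (a x)⁻¹) *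
            (a x * t (a x)) := by rw [map_mul]; group
        _ = 1 := by rw [h1, (hF x ((hmem x).1 hx)).1]; group
  obtain ⟨f, κ, hf, hft, hfE⟩ := smith_fun hl (by omega) ht.cont ht.sq hU hst hE hEU Φ
    fun e he u hu _ => hΦ e (hEU e he).1 (hEU e he).2 u hu
  refine ⟨F, a, fun x hx => ⟨ha x, hF x ((hmem x).1 hx)⟩,
    fun x hx => ⟨(hmem x).2 (hfix x hx).1, (hfix x hx).2⟩, ?_⟩
  have h0 : ∑ x, f (cel U (l x.1) (g x)) = 0 := by
    rw [← sum_ev hl hU hf]
    exact Finset.sum_congr rfl fun x _ => (hg.ev hU hf x).symm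
  have h1 : ∑ x ∈ Finset.univ.filter (fun x => ¬T x = x), f (cel U (l x.1) (g x)) = 0 := by
    refine Finset.sum_involution (fun x _ => T x) (fun x _ => ?_)
      (fun x hx _ => (Finset.mem_filter.1 hx).2) (fun x hx => ?_) fun x _ => hTT x
    · have h2 := congrArg f (hcel x)
      rw [hf.conj (hst _ (cel_mem _ _)) (ha x), hft _ (cel_mem _ _), hf.inv (cel_mem _ _)] at h2
      rw [h2, neg_add_cancel]
    · refine Finset.mem_filter.2 ⟨Finset.mem_univ _, fun h => (Finset.mem_filter.1 hx).2 ?_⟩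
      exact h.symm.trans (hTT x)
  rw [← Finset.sum_filter_add_sum_filter_not Finset.univ (fun x => T x = x), h1, add_zero] at h0
  rw [← h0]
  refine Finset.sum_congr rfl fun x hx => ?_
  have e1 := hfE _ (Or.inl ⟨x, hx, rfl⟩)
  have e2 := hfE _ (Or.inr ⟨x, hx, rfl⟩)
  dsimp only at e2
  rw [hf.1 _ (cel_mem _ _) _ (ha x), e1] at e2
  have e3 : ∀ p q r s : ZMod 2, r + (p + s) = q + s → p + q = r := by decide
  exact e3 _ _ _ _ e2

/-- An involution that inverts a cusp generator inverts a second one. Plan: otherwise apply `par`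
with `U = ⊤` (there `ram = 1`), representatives with `z x₀ = z`, and `Φ` the indicator function of
`{u * (t u)⁻¹}`. If `e = u * (t u)⁻¹` is one of the two ends `a x`, `z x * a x` of `x ∈ F` then `t`
inverts `u⁻¹ * z x * u`, so this element is `z` and `x = x₀` (`cls_eq_of_conj`). For `x₀` the ends
are `1` and `z`, and `z = u * (t u)⁻¹` gives `u = pw z b` with `2 * b = 1`. -/
theorem Invol.exists_other (hl : IsBasis l) (hn : 3 ≤ n) (ht : Invol l t) {z : G} (hz : Cg l z)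
    (h : t z = z⁻¹) : ∃ w, Cg l w ∧ t w = w⁻¹ ∧ w ≠ z := by
  by_contra hcon
  have hu : ∀ w, Cg l w → t w = w⁻¹ → w = z := fun w h1 h2 => by
    by_contra h3
    exact hcon ⟨w, h1, h2, h3⟩
  obtain ⟨i, hi⟩ := id hz
  obtain ⟨c, hc⟩ := isConj_iff.1 hi
  have hU : IsOpen ((⊤ : Subgroup G) : Set G) := isOpen_univ
  obtain ⟨g, hg, hg0⟩ := exists_rep (l := l) (U := ⊤) (fun _ : Unit => i) (fun _ => c⁻¹)
    fun _ _ _ => rfl
  have hz0 : (g (cls l ⊤ i c⁻¹))⁻¹ * l (cls l ⊤ i c⁻¹).1 * g (cls l ⊤ i c⁻¹) = z := by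
    rw [hg0 (), inv_inv]
    exact hc
  generalize cls l ⊤ i c⁻¹ = x₀ at hz0
  have hcel : ∀ x d : G, cel ⊤ x d = d⁻¹ * x * d := fun x d => by
    rw [cel, Nat.dvd_one.1 ((pow_mem_iff x d 1).1 (Subgroup.mem_top _)), pow_one]
  obtain ⟨F, a, hF, hfix, hsum⟩ := ht.par hl hn hU (fun _ _ => Subgroup.mem_top _) hg
    (fun e => if ∃ u, e = u * (t u)⁻¹ then 1 else 0) (fun e _ _ u _ => by
      refine if_congr ⟨fun ⟨v, hv⟩ => ⟨u⁻¹ * v, ?_⟩, fun ⟨v, hv⟩ => ⟨u * v, ?_⟩⟩ rfl rfl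
      · calc e = u⁻¹ * (u * e * (t u)⁻¹) * t u := by group
          _ = _ := by rw [hv, map_mul, map_inv]; group
      · rw [hv, map_mul]
        group)
  have key : ∀ x ∈ F, ∀ u, a x = u * (t u)⁻¹ ∨ (g x)⁻¹ * l x.1 * g x * a x = u * (t u)⁻¹ →
      u⁻¹ * ((g x)⁻¹ * l x.1 * g x) * u = z := by
    intro x hx u h1
    refine hu _ ((cpar_cg x.1 (g x)).conj (isConj_iff.2 ⟨u⁻¹, by rw [inv_inv]⟩)) ?_
    have h2 := (hF x hx).2.2
    generalize (g x)⁻¹ * l x.1 * g x = y at h1 h2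
    have h3 : t y = (a x)⁻¹ * y⁻¹ * a x := by rw [← h2]; group
    rw [map_mul, map_mul, map_inv, h3]
    rcases h1 with h1 | h1
    · rw [h1]
      group
    · rw [eq_inv_mul_of_mul_eq h1]
      group
  have key2 : ∀ x ∈ F, ∀ u, a x = u * (t u)⁻¹ ∨ (g x)⁻¹ * l x.1 * g x * a x = u * (t u)⁻¹ →
      x = x₀ := fun x hx u h1 =>
    cpar_eq hl hn hU hg (Subgroup.mem_top u) (by rw [hz0, ← key x hx u h1]; group)
  obtain ⟨hx₀, ha₀⟩ := hfix x₀ (by rw [hz0, h])
  rw [Finset.sum_eq_single_of_mem x₀ hx₀ (fun x hx hne => by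
    rw [if_neg fun ⟨u, hu⟩ => hne (key2 x hx u (Or.inl hu)), hcel,
      if_neg fun ⟨u, hu⟩ => hne (key2 x hx u (Or.inr hu)), add_zero])] at hsum
  rw [if_pos ⟨1, by rw [ha₀, map_one, inv_one, mul_one]⟩, hcel, if_neg, add_zero] at hsum
  · exact one_ne_zero hsum
  rintro ⟨u, hu'⟩
  have h1 := key x₀ hx₀ u (Or.inr hu')
  rw [hz0] at h1
  rw [hz0, ha₀, mul_one] at hu'
  obtain ⟨b, rfl⟩ := hz.cent hl (by omega) (g := u) (by
    calc u * z = u * (u⁻¹ * z * u) := by rw [h1]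
      _ = z * u := by group)
  rw [map_pw_inv ht.cont h, inv_inv, ← pw_add] at hu'
  have h2 : (1 : Zhat) = 2 * b := by
    rw [two_mul]
    exact hz.pw_inj hl (by omega) ((pw_one z).trans hu')
  have h3 := congrArg (res 2) h2
  rw [map_one, res_two_mul] at h3
  exact one_ne_zero h3

end Pool.Agent.MP_1c2b6e_al

/-! Heisenberg lifts of pairs of characters: the cup product modulo two. -/

namespace Pool.Agent.MP_1c2b6e_al

open Classical

variable {G : Type} [Group G] [TopologicalSpace G] [IsTopologicalGroup G] [CompactSpace G]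
  [TotallyDisconnectedSpace G] {n : ℕ} {l : Fin n → G} {U : Subgroup G}

/-- `(g, f, h)` is a continuous homomorphism from `U` to the Heisenberg group over `ZMod 2`. -/
def IsHe (U : Subgroup G) (g f h : G → ZMod 2) : Prop :=
  (∀ u ∈ U, ∀ v ∈ U, h (u * v) = h u + h v + g u * f v) ∧
    ∃ N : OpenNormalSubgroup G, ∀ u ∈ N, u ∈ U ∧ h u = 0

/-- The cocycle induced by a character. Hint: choose a section `s : G ⧸ U → G` with `s 1 = 1` and
put `c x ω = f ((s (x • ω))⁻¹ * x * s ω)`; the section does not depend on `f`. -/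
theorem exists_ind (hU : IsOpen (U : Set G)) : ∃ j : G → G ⧸ U → G, (∀ x ω, j x ω ∈ U) ∧
    (∀ x y ω, j (x * y) ω = j x (y • ω) * j y ω) ∧ (∀ u ∈ U, j u ((1 : G) : G ⧸ U) = u) ∧
    ∀ N : OpenNormalSubgroup G, N.toSubgroup ≤ U → ∀ x ∈ N, ∀ ω, j x ω ∈ N := by
  let s : G ⧸ U → G := fun ω => if ω = ((1 : G) : G ⧸ U) then 1 else ω.out
  have hs : ∀ ω, (s ω : G ⧸ U) = ω := fun ω => by
    dsimp only [s]
    split_ifs with h
    · exact h.symm
    · exact QuotientGroup.out_eq' ω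
  have hs1 : s ((1 : G) : G ⧸ U) = 1 := if_pos rfl
  refine ⟨fun x ω => (s (x • ω))⁻¹ * x * s ω, fun x ω => ?_, fun x y ω => ?_, fun u hu => ?_,
    fun N hN x hx ω => ?_⟩
  · dsimp only
    rw [mul_assoc, ← QuotientGroup.eq, hs]
    change x • ω = x • (s ω : G ⧸ U)
    rw [hs]
  · dsimp only
    rw [mul_smul]
    group
  · dsimp only
    rw [cusp_fix hu, hs1, inv_one, one_mul, mul_one]
  · dsimp only
    rw [cusp_triv hN hx]
    have h1 := N.isNormal'.conj_mem x hx (s ω)⁻¹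
    rwa [inv_inv] at h1

omit [TopologicalSpace G] [IsTopologicalGroup G] [CompactSpace G] [TotallyDisconnectedSpace G] in
theorem cheis_one {j : G → G ⧸ U → G} (hj : ∀ x y ω, j (x * y) ω = j x (y • ω) * j y ω)
    (ω : G ⧸ U) : j 1 ω = 1 := by
  have h := hj 1 1 ω
  rw [mul_one, one_smul] at h
  exact left_eq_mul.1 h

omit [IsTopologicalGroup G] [CompactSpace G] [TotallyDisconnectedSpace G] in
theorem cheis_mul {j : G → G ⧸ U → G} (hjU : ∀ x ω, j x ω ∈ U)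
    (hj : ∀ x y ω, j (x * y) ω = j x (y • ω) * j y ω) {f : G → ZMod 2} (hf : IsCh U f)
    (x y : G) (ω : G ⧸ U) : f (j (x * y) ω) = f (j x (y • ω)) + f (j y ω) := by
  rw [hj, hf.1 _ (hjU _ _) _ (hjU _ _)]

theorem cheis_inv {j : G → G ⧸ U → G} (hjU : ∀ x ω, j x ω ∈ U)
    (hj : ∀ x y ω, j (x * y) ω = j x (y • ω) * j y ω) {f : G → ZMod 2} (hf : IsCh U f)
    (x : G) (ω : G ⧸ U) : f (j x⁻¹ ω) = -f (j x (x⁻¹ • ω)) := by
  have h := cheis_mul hjU hj hf x x⁻¹ ω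
  rw [mul_inv_cancel, cheis_one hj, hf.one] at h
  exact eq_neg_of_add_eq_zero_right h.symm

/-- The basic permutation of the skew product. -/
def cheis_perm (x : G) (β γ : G ⧸ U → ZMod 2) : Equiv.Perm ((G ⧸ U) × ZMod 2 × ZMod 2) where
  toFun p := (x • p.1, p.2.1 + β p.1, p.2.2 + γ p.1 * p.2.1)
  invFun p := (x⁻¹ • p.1, p.2.1 - β (x⁻¹ • p.1), p.2.2 - γ (x⁻¹ • p.1) * (p.2.1 - β (x⁻¹ • p.1)))
  left_inv p := by simp
  right_inv p := by simp

/-- Heisenberg lifts exist because `G` is free. Plan (compare `exists_cocycle`): with `j` from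
`exists_ind` let `x : G` and `d : G ⧸ U → ZMod 2` act on `(G ⧸ U) × ZMod 2 × ZMod 2` by
`P x d (ω, b, z) = (x • ω, b + f (j x ω), z + d ω + g (j x ω) * b)`. Then
`P x d * P y d' = P (x * y) d''`. For `n = r + 1` send `l i` to `P (l i) 0` for all but one index and
the remaining generator to the inverse of the product of the others, which is again of the form
`P (l i) d`; `lift_fin` gives `Φ`, the set of `x` with `Φ x = P x d` for some `d` is an open subgroup,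
and `h u` is the last coordinate of `Φ u (1, 0, 0)`. -/
theorem exists_he (hl : IsBasis l) (hn : 1 ≤ n) (hU : IsOpen (U : Set G)) {g f : G → ZMod 2}
    (hg : IsCh U g) (hf : IsCh U f) : ∃ h, IsHe U g f h := by
  obtain ⟨r, rfl⟩ : ∃ r, n = r + 1 := ⟨n - 1, by omega⟩
  obtain ⟨j, hjU, hj, hj1, hjN⟩ := exists_ind hU
  have : Finite (G ⧸ U) := finite_quot_open hU
  obtain ⟨σ, hσ⟩ : ∃ σ : Fin r → Equiv.Perm ((G ⧸ U) × ZMod 2 × ZMod 2), ∀ i ω b z,
      σ i (ω, b, z) = (l i.castSucc • ω, b + f (j (l i.castSucc) ω),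
        z + g (j (l i.castSucc) ω) * b) :=
    ⟨fun i => cheis_perm (l i.castSucc) (fun ω => f (j (l i.castSucc) ω))
      fun ω => g (j (l i.castSucc) ω), fun _ _ _ _ => rfl⟩
  obtain ⟨Φ, ho, hΦ⟩ := hl.lift_fin
    (Fin.snoc (α := fun _ => Equiv.Perm ((G ⧸ U) × ZMod 2 × ZMod 2)) σ (List.ofFn σ).prod⁻¹) (by
      rw [List.ofFn_succ', List.prod_concat]
      simp only [Fin.snoc_castSucc, Fin.snoc_last, mul_inv_cancel])
  let S : Subgroup G :=
    { carrier := {x | ∃ d : G ⧸ U → ZMod 2, ∀ ω b z,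
        Φ x (ω, b, z) = (x • ω, b + f (j x ω), z + d ω + g (j x ω) * b)}
      one_mem' := ⟨0, fun ω b z => by simp [cheis_one hj, hf.one, hg.one]⟩
      mul_mem' := fun {x y} ⟨d, hd⟩ ⟨d', hd'⟩ =>
        ⟨fun ω => d' ω + d (y • ω) + g (j x (y • ω)) * f (j y ω), fun ω b z => by
          rw [map_mul, Equiv.Perm.mul_apply, hd', hd, mul_smul, cheis_mul hjU hj hf,
            cheis_mul hjU hj hg]
          refine Prod.ext rfl (Prod.ext ?_ ?_) <;> dsimp only <;> ring⟩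
      inv_mem' := fun {x} ⟨d, hd⟩ =>
        ⟨fun ω => -d (x⁻¹ • ω) + g (j x (x⁻¹ • ω)) * f (j x (x⁻¹ • ω)), fun ω b z => by
          rw [map_inv, Equiv.Perm.inv_eq_iff_eq, hd, smul_inv_smul, cheis_inv hjU hj hf,
            cheis_inv hjU hj hg]
          refine Prod.ext rfl (Prod.ext ?_ ?_) <;> dsimp only <;> ring⟩ }
  obtain ⟨Nf, hNf⟩ := hf.2
  obtain ⟨Ng, hNg⟩ := hg.2
  have hle : (Nf ⊓ Ng).toSubgroup ≤ U := fun u hu => (hNf u hu.1).1
  have hS : S = ⊤ := by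
    refine caya_top hl ((Nf ⊓ Ng) ⊓ kerN Φ ho) (fun x hx => ⟨0, fun ω b z => ?_⟩)
      fun i => ⟨0, fun ω b z => ?_⟩
    · have h1 : Φ x = 1 := hx.2
      have h2 := hjN _ hle x hx.1 ω
      rw [h1, cusp_triv hle hx.1, (hNf _ h2.1).2, (hNg _ h2.2).2]
      simp
    · rw [hΦ, Fin.snoc_castSucc, hσ]
      simp
  have hd : ∀ x, ∃ d : G ⧸ U → ZMod 2, ∀ ω b z,
      Φ x (ω, b, z) = (x • ω, b + f (j x ω), z + d ω + g (j x ω) * b) := fun x =>
    (hS ▸ Subgroup.mem_top x : x ∈ S)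
  refine ⟨fun u => (Φ u (((1 : G) : G ⧸ U), 0, 0)).2.2, fun u hu v hv => ?_,
    (Nf ⊓ Ng) ⊓ kerN Φ ho, fun u hu => ⟨hle hu.1, ?_⟩⟩
  · obtain ⟨d, h1⟩ := hd u
    obtain ⟨d', h2⟩ := hd v
    dsimp only
    rw [map_mul, Equiv.Perm.mul_apply, h2, h1, h1, cusp_fix hv, hj1 u hu, hj1 v hv]
    dsimp only
    ring
  · have h1 : Φ u = 1 := hu.2
    dsimp only
    rw [h1]
    rfl

/-- Hint: `f ↦ (fun i ω => f (j (l i) ω))` is injective on this set: for two characters the set of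
`x` with `f (j x ω) = f' (j x ω)` for all `ω` is an open subgroup. -/
theorem finite_ch (hl : IsBasis l) (hU : IsOpen (U : Set G)) :
    {f : G → ZMod 2 | IsCh U f ∧ ∀ x, x ∉ U → f x = 0}.Finite := by
  obtain ⟨j, hjU, hj, hj1, hjN⟩ := exists_ind hU
  have : Finite (G ⧸ U) := finite_quot_open hU
  refine Set.Finite.of_finite_image (f := fun f i ω => f (j (l i) ω)) (Set.toFinite _) ?_
  rintro f ⟨hf, hf0⟩ f' ⟨hf', hf0'⟩ h
  let S : Subgroup G :=
    { carrier := {x | ∀ ω, f (j x ω) = f' (j x ω)}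
      one_mem' := fun ω => by rw [cheis_one hj, hf.one, hf'.one]
      mul_mem' := fun {x y} hx hy ω => by
        rw [cheis_mul hjU hj hf, cheis_mul hjU hj hf', hx, hy]
      inv_mem' := fun {x} hx ω => by rw [cheis_inv hjU hj hf, cheis_inv hjU hj hf', hx] }
  obtain ⟨N, hN⟩ := hf.2
  obtain ⟨N', hN'⟩ := hf'.2
  have hle : (N ⊓ N').toSubgroup ≤ U := fun u hu => (hN u hu.1).1
  have hS : S = ⊤ := by
    refine hl.eq_top_of_isOpen (Subgroup.isOpen_mono (H₁ := (N ⊓ N').toSubgroup)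
      (fun x hx ω => ?_) (N ⊓ N').isOpen') fun i ω => congrFun (congrFun h i) ω
    have h2 := hjN _ hle x hx ω
    rw [(hN _ h2.1).2, (hN' _ h2.2).2]
  funext x
  by_cases hx : x ∈ U
  · have h1 := (hS ▸ Subgroup.mem_top x : x ∈ S) ((1 : G) : G ⧸ U)
    rwa [hj1 x hx] at h1
  · rw [hf0 x hx, hf0' x hx]

end Pool.Agent.MP_1c2b6e_al

/-! Non-degeneracy of the cup product. -/

namespace Pool.Agent.MP_1c2b6e_al

open Classical

variable {G : Type} [Group G] [TopologicalSpace G] [IsTopologicalGroup G] [CompactSpace G]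
  [TotallyDisconnectedSpace G] {n : ℕ} {l : Fin n → G} {U : Subgroup G}

/-- Hint: the functions `ev f` form a submodule of `Cusp l U → ZMod 2`; a linear functional that
vanishes on it is `y ↦ ∑ x, c x * y x` with `c` constant (`cusp_dual`). -/
theorem exists_ch_ev (hl : IsBasis l) (hU : IsOpen (U : Set G)) [Fintype (Cusp l U)]
    (β : Cusp l U → ZMod 2) (hβ : ∑ x, β x = 0) :
    ∃ f : G → ZMod 2, IsCh U f ∧ ∀ x, ev l U f x = β x := by
  have h0 : IsCh U (fun _ => (0 : ZMod 2)) := by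
    obtain ⟨N, hN⟩ := exists_le_of_isOpen U hU
    exact ⟨fun _ _ _ _ => (add_zero _).symm, N, fun u hu => ⟨hN hu, rfl⟩⟩
  let W : Submodule (ZMod 2) (Cusp l U → ZMod 2) :=
    { carrier := {y | ∃ f : G → ZMod 2, IsCh U f ∧ ∀ x, ev l U f x = y x}
      zero_mem' := ⟨_, h0, fun _ => rfl⟩
      add_mem' := by
        rintro y y' ⟨f, hf, e⟩ ⟨f', hf', e'⟩
        refine ⟨_, hf.sub (h0.sub hf'), fun x => ?_⟩
        rw [Pi.add_apply, ← e, ← e']
        simp only [ev, zero_sub, sub_neg_eq_add]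
      smul_mem' := by
        rintro r y ⟨f, hf, e⟩
        obtain ⟨N, hN⟩ := hf.2
        refine ⟨fun u => r * f u, ⟨fun a ha b hb => ?_, N, fun u hu => ⟨(hN u hu).1, ?_⟩⟩,
          fun x => ?_⟩
        · simp only [hf.1 a ha b hb, mul_add]
        · simp only [(hN u hu).2, mul_zero]
        · rw [Pi.smul_apply, ← e]
          rfl }
  by_contra hne
  obtain ⟨φ, h1, h2⟩ := Submodule.exists_le_ker_of_notMem (p := W) (v := β) hne
  have h3 : ∀ y : Cusp l U → ZMod 2, φ y = ∑ x, φ (Pi.single x 1) * y x := fun y => by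
    conv_lhs => rw [pi_eq_sum_univ' y, map_sum]
    exact Finset.sum_congr rfl fun x _ => by rw [map_smul, smul_eq_mul, mul_comm]
  have h4 := cusp_dual hl hU (fun x => φ (Pi.single x 1)) fun f hf => by
    rw [← h3]
    exact h2 ⟨f, hf, fun _ => rfl⟩
  refine h1 ?_
  rw [h3]
  rcases isEmpty_or_nonempty (Cusp l U) with h5 | ⟨⟨x₀⟩⟩
  · exact Fintype.sum_empty _
  · rw [Finset.sum_congr rfl fun x _ => by rw [h4 x x₀], ← Finset.mul_sum, hβ, mul_zero]

/-- The kernel of a character. -/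
def cndKer {χ : G → ZMod 2} (hχ : IsCh U χ) : Subgroup G where
  carrier := {u | u ∈ U ∧ χ u = 0}
  one_mem' := ⟨U.one_mem, hχ.one⟩
  mul_mem' := fun {a b} ha hb => ⟨U.mul_mem ha.1 hb.1, by
    rw [hχ.1 a ha.1 b hb.1, ha.2, hb.2, add_zero]⟩
  inv_mem' := fun {a} ha => ⟨U.inv_mem ha.1, by rw [hχ.inv ha.1, ha.2, neg_zero]⟩

theorem cnd_mem {χ : G → ZMod 2} (hχ : IsCh U χ) {u : G} : u ∈ cndKer hχ ↔ u ∈ U ∧ χ u = 0 :=
  Iff.rfl

theorem cnd_open {χ : G → ZMod 2} (hχ : IsCh U χ) : IsOpen (cndKer hχ : Set G) := by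
  obtain ⟨N, hN⟩ := hχ.2
  exact Subgroup.isOpen_mono (H₁ := N.toSubgroup) hN N.isOpen'

theorem cnd_two (a : ZMod 2) : a = 0 ∨ a = 1 := by
  revert a
  decide

/-- The transfer of a character of the kernel, with its Heisenberg lift. -/
theorem cnd_transfer {χ η : G → ZMod 2} (hχ : IsCh U χ) (hη : IsCh (cndKer hχ) η) {s : G}
    (hs : s ∈ U) (h1 : χ s = 1) : ∃ ψ h, IsCh U ψ ∧ IsHe U χ ψ h ∧
      ∀ u ∈ cndKer hχ, h u = η u ∧ ψ u = η u + η (s * u * s⁻¹) := by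
  let κ : G → G := fun u => if χ u = 0 then 1 else s
  have k0 : ∀ u, χ u = 0 → κ u = 1 := fun u hu => if_pos hu
  have k1 : ∀ u, χ u = 1 → κ u = s := fun u hu => if_neg (by rw [hu]; exact one_ne_zero)
  have kU : ∀ u, κ u ∈ U := fun u => by
    rcases cnd_two (χ u) with e | e
    · rw [k0 u e]; exact U.one_mem
    · rw [k1 u e]; exact hs
  have kχ : ∀ u, χ (κ u) = χ u := fun u => by
    rcases cnd_two (χ u) with e | e
    · rw [k0 u e, hχ.one, e]
    · rw [k1 u e, h1, e]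
  have kV : ∀ u ∈ U, u * (κ u)⁻¹ ∈ cndKer hχ := fun u hu =>
    ⟨U.mul_mem hu (U.inv_mem (kU u)), by
      rw [hχ.1 _ hu _ (U.inv_mem (kU u)), hχ.inv (kU u), kχ, add_neg_cancel]⟩
  let h : G → ZMod 2 := fun u => η (u * (κ u)⁻¹)
  have key : ∀ u ∈ U, ∀ v ∈ U, h (u * v) = h u + h (κ u * v) := fun u hu v hv => by
    have e : κ (κ u * v) = κ (u * v) := by
      simp only [κ, hχ.1 _ hu _ hv, hχ.1 _ (kU u) _ hv, kχ]
    simp only [h]
    rw [← hη.1 _ (kV u hu) _ (kV _ (U.mul_mem (kU u) hv)), e]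
    congr 1
    group
  have hV : ∀ u ∈ cndKer hχ, h u = η u ∧ h (s * u) = η (s * u * s⁻¹) := fun u hu => by
    simp only [h]
    rw [k0 u hu.2, k1 (s * u) (by rw [hχ.1 _ hs _ hu.1, h1, hu.2, add_zero]), inv_one, mul_one]
    exact ⟨rfl, rfl⟩
  obtain ⟨N, hN⟩ := hη.2
  refine ⟨fun u => h u + h (s * u), h, ⟨fun u hu v hv => ?_, N, fun u hu => ⟨(hN u hu).1.1, ?_⟩⟩,
    ⟨fun u hu v hv => ?_, N, fun u hu => ⟨(hN u hu).1.1, ?_⟩⟩, fun u hu => ⟨(hV u hu).1, ?_⟩⟩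
  · simp only
    rw [← mul_assoc, key u hu v hv, key _ (U.mul_mem hs hu) v hv]
    rcases cnd_two (χ u) with e | e
    · rw [k0 u e, k1 (s * u) (by rw [hχ.1 _ hs _ hu, h1, e, add_zero]), one_mul]
      ring
    · rw [k1 u e, k0 (s * u) (by rw [hχ.1 _ hs _ hu, h1, e]; decide), one_mul]
      ring
  · simp only
    rw [(hV u (hN u hu).1).1, (hV u (hN u hu).1).2, (hN u hu).2,
      (hN _ (N.isNormal'.conj_mem u hu s)).2, add_zero]
  · rw [key u hu v hv]
    rcases cnd_two (χ u) with e | e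
    · rw [k0 u e, e, one_mul, zero_mul, add_zero]
    · rw [k1 u e, e, one_mul, add_assoc, ← add_assoc (h v), CharTwo.add_self_eq_zero, zero_add]
  · rw [(hV u (hN u hu).1).1, (hN u hu).2]
  · simp only
    rw [(hV u hu).1, (hV u hu).2]

/-- **Non-degeneracy of the cup product.** Plan: `V = {u ∈ U | χ u = 0}` (open, normal in `U`).
For every `i, c` one has `cel U (l i) c ∈ V`, so `ram V = ram U` and `cel V = cel U`
(`pow_mem_iff`). Fix a cusp `x₀`, `i = x₀.1`, `c = g x₀`, `y₁ = cls V i c`, `y₂ = cls V i (c * s⁻¹)`;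
`y₁ ≠ y₂` (`cls_eq_iff`, `pw_mem_iff`, `pw_cel`, `map_pw`). Take `η` on `V` with
`ev η = single y₁ 1 + single y₂ 1` (`exists_ch_ev`). Put `κ u = if χ u = 0 then 1 else s`,
`h u = η (u * (κ u)⁻¹)`, `b u = η (s * u * (κ (s * u))⁻¹)`, `ψ = h + b`. For `u ∈ V` one has
`h u = η u`, `ψ u = η u + η (s * u * s⁻¹)`, and `s * cel V (l i) c * s⁻¹ = cel V (l i) (c * s⁻¹)`. -/
theorem he_nondeg (hl : IsBasis l) (hn : 1 ≤ n) (hU : IsOpen (U : Set G)) [Fintype (Cusp l U)]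
    {g : Cusp l U → G} (hg : Rep l U g) {χ : G → ZMod 2} (hχ : IsCh U χ)
    (h0 : ∀ x, ev l U χ x = 0) {s : G} (hs : s ∈ U) (h1 : χ s ≠ 0) :
    ∃ ψ h, IsCh U ψ ∧ (∀ x, ev l U ψ x = 0) ∧ IsHe U χ ψ h ∧
      ∑ x, h (cel U (l x.1) (g x)) = 1 := by
  have hs1 : χ s = 1 := (cnd_two _).resolve_left h1
  have hV := cnd_open hχ
  have hVU : cndKer hχ ≤ U := fun _ hu => hu.1
  have hc : ∀ i c, cel U (l i) c ∈ cndKer hχ := fun i c =>
    ⟨cel_mem _ _, by rw [← ev_cls hU hχ, h0]⟩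
  have hcel : ∀ i c, cel (cndKer hχ) (l i) c = cel U (l i) c := fun i c => by
    have : ram (cndKer hχ) (l i) c = ram U (l i) c :=
      Nat.dvd_antisymm ((pow_mem_iff _ _ _).1 (hc i c))
        ((pow_mem_iff _ _ _).1 (hVU (cel_mem (l i) c)))
    rw [cel, cel, this]
  have := finite_cusp (l := l) hV
  have := Fintype.ofFinite (Cusp l (cndKer hχ))
  let i : Fin n := ⟨0, hn⟩
  let π : Cusp l (cndKer hχ) → Cusp l U := fun y => cls l U y.1 y.2.out.out
  have hπ : ∀ j c, π (cls l (cndKer hχ) j c) = cls l U j c := fun j c => by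
    obtain ⟨a, u, hu, e⟩ := (cls_eq_iff hV j c _).1 (cuspa_out (cls l (cndKer hχ) j c))
    exact ((cls_eq_iff hU j c _).2 ⟨a, u, hVU hu, e⟩).symm
  have hs' : ∀ j c, cls l U j (c * s⁻¹) = cls l U j c := fun j c =>
    ((cls_eq_iff hU j c _).2 ⟨0, s⁻¹, U.inv_mem hs, by rw [pw_zero, one_mul]⟩).symm
  have hne : cls l (cndKer hχ) i 1 ≠ cls l (cndKer hχ) i (1 * s⁻¹) := fun e => by
    obtain ⟨a, v, hv, e⟩ := (cls_eq_iff hV i _ _).1 e
    have e1 : (1 : G)⁻¹ * pw (l i) a * 1 = s⁻¹ * v⁻¹ := by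
      rw [inv_one, one_mul, eq_mul_inv_iff_mul_eq, ← e, one_mul]
    obtain ⟨b, rfl⟩ := (pw_mem_iff hU (l i) 1 a).1
      (e1 ▸ U.mul_mem (U.inv_mem hs) (U.inv_mem (hVU hv)))
    rw [← pw_cel] at e1
    have e2 := pw_mem ((cndKer hχ).isClosed_of_isOpen hV) (hc i 1) b
    rw [e1, Subgroup.mul_mem_cancel_right _ (inv_mem hv), inv_mem_iff] at e2
    exact h1 e2.2
  have hfib : Finset.univ.filter (fun y => π y = cls l U i 1) =
      {cls l (cndKer hχ) i 1, cls l (cndKer hχ) i (1 * s⁻¹)} := by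
    ext y
    rw [Finset.mem_filter, Finset.mem_insert, Finset.mem_singleton]
    refine ⟨fun hy => ?_, ?_⟩
    · obtain ⟨c, e⟩ := exists_cls y
      have e1 := hy.2
      rw [e, hπ] at e1
      have e2 : y.1 = i := congrArg Sigma.fst e1
      rw [e2] at e e1
      obtain ⟨a, u, hu, rfl⟩ := (cls_eq_iff hU i _ _).1 e1.symm
      rw [e]
      rcases cnd_two (χ u) with k | k
      · exact Or.inl ((cls_eq_iff hV i _ _).2 ⟨a, u, ⟨hu, k⟩, rfl⟩).symm
      · refine Or.inr ((cls_eq_iff hV i _ _).2 ⟨a, s * u, ⟨U.mul_mem hs hu, ?_⟩, by group⟩).symm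
        rw [hχ.1 _ hs _ hu, hs1, k]
        decide
    · rintro (rfl | rfl)
      · exact ⟨Finset.mem_univ _, hπ _ _⟩
      · exact ⟨Finset.mem_univ _, (hπ _ _).trans (hs' _ _)⟩
  obtain ⟨η, hη, he⟩ := exists_ch_ev hl hV (fun y => if π y = cls l U i 1 then 1 else 0) (by
    rw [Finset.sum_boole, hfib, Finset.card_pair hne]
    decide)
  have hηc : ∀ j c, η (cel U (l j) c) = if cls l U j c = cls l U i 1 then 1 else 0 := fun j c => by
    rw [← hcel, ← ev_cls hV hη, he, hπ]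
  obtain ⟨ψ, h, hψ, hh, hv⟩ := cnd_transfer hχ hη hs hs1
  refine ⟨ψ, h, hψ, fun x => ?_, hh, ?_⟩
  · have e := cel_mul hU (l x.1) x.2.out.out 0 (U.inv_mem hs)
    rw [pw_zero, one_mul, inv_inv] at e
    rw [ev, (hv _ (hc _ _)).2, ← e, hηc, hηc, hs', CharTwo.add_self_eq_zero]
  · rw [Finset.sum_congr rfl fun x _ => by rw [(hv _ (hc _ _)).1, hηc, ← hg x],
      Finset.sum_ite_eq', if_pos (Finset.mem_univ _)]

end Pool.Agent.MP_1c2b6e_al

/-! Duality: an involution inverts at most two cusp generators. -/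

namespace Pool.Agent.MP_1c2b6e_al

open Classical

variable {G : Type} [Group G] [TopologicalSpace G] [IsTopologicalGroup G] [CompactSpace G]
  [TotallyDisconnectedSpace G] {n : ℕ} {l : Fin n → G} {U : Subgroup G} {t : MulAut G}

section aux

omit [IsTopologicalGroup G] [CompactSpace G] [TotallyDisconnectedSpace G]

theorem cdual_congr {χ f h χ' f' : G → ZMod 2} (H : IsHe U χ f h) (e1 : ∀ u ∈ U, χ' u = χ u)
    (e2 : ∀ u ∈ U, f' u = f u) : IsHe U χ' f' h :=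
  ⟨fun u hu v hv => by rw [H.1 u hu v hv, e1 u hu, e2 v hv], H.2⟩

theorem cdual_addl {χ χ' f h h' : G → ZMod 2} (H : IsHe U χ f h) (H' : IsHe U χ' f h') :
    IsHe U (χ + χ') f (h + h') := by
  obtain ⟨N, hN⟩ := H.2
  obtain ⟨N', hN'⟩ := H'.2
  refine ⟨fun u hu v hv => ?_, N ⊓ N', fun u hu => ⟨(hN u hu.1).1, ?_⟩⟩
  · simp only [Pi.add_apply, H.1 u hu v hv, H'.1 u hu v hv]
    ring
  · simp only [Pi.add_apply, (hN u hu.1).2, (hN' u hu.2).2, add_zero]

theorem cdual_addr {χ f f' h h' : G → ZMod 2} (H : IsHe U χ f h) (H' : IsHe U χ f' h') :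
    IsHe U χ (f + f') (h + h') := by
  obtain ⟨N, hN⟩ := H.2
  obtain ⟨N', hN'⟩ := H'.2
  refine ⟨fun u hu v hv => ?_, N ⊓ N', fun u hu => ⟨(hN u hu.1).1, ?_⟩⟩
  · simp only [Pi.add_apply, H.1 u hu v hv, H'.1 u hu v hv]
    ring
  · simp only [Pi.add_apply, (hN u hu.1).2, (hN' u hu.2).2, add_zero]

theorem cdual_diff {χ f h h' : G → ZMod 2} (H : IsHe U χ f h) (H' : IsHe U χ f h') :
    IsCh U fun u => h u - h' u := by
  obtain ⟨N, hN⟩ := H.2
  obtain ⟨N', hN'⟩ := H'.2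
  refine ⟨fun u hu v hv => ?_, N ⊓ N', fun u hu => ⟨(hN u hu.1).1, ?_⟩⟩
  · simp only [H.1 u hu v hv, H'.1 u hu v hv]
    ring
  · simp only [(hN u hu.1).2, (hN' u hu.2).2, sub_zero]

theorem cdual_chadd {f f' : G → ZMod 2} (hf : IsCh U f) (hf' : IsCh U f') : IsCh U (f + f') := by
  obtain ⟨N, hN⟩ := hf.2
  obtain ⟨N', hN'⟩ := hf'.2
  refine ⟨fun a ha b hb => ?_, N ⊓ N', fun u hu => ⟨(hN u hu.1).1, ?_⟩⟩
  · simp only [Pi.add_apply, hf.1 a ha b hb, hf'.1 a ha b hb]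
    ring
  · simp only [Pi.add_apply, (hN u hu.1).2, (hN' u hu.2).2, add_zero]

theorem cdual_chres {f : G → ZMod 2} (hf : IsCh U f) :
    IsCh U fun u => if u ∈ U then f u else 0 := by
  obtain ⟨N, hN⟩ := hf.2
  refine ⟨fun a ha b hb => ?_, N, fun u hu => ⟨(hN u hu).1, ?_⟩⟩
  · simp only [ha, hb, U.mul_mem ha hb, if_true, hf.1 a ha b hb]
  · simp only [(hN u hu).1, (hN u hu).2, if_true]

theorem cdual_one {χ f h : G → ZMod 2} (H : IsHe U χ f h) : h 1 = 0 := by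
  obtain ⟨N, hN⟩ := H.2
  exact (hN 1 (one_mem _)).2

theorem cdual_inv {χ f h : G → ZMod 2} (H : IsHe U χ f h) {y : G} (hy : y ∈ U) (h0 : f y = 0) :
    h y⁻¹ = h y := by
  have e := H.1 _ (U.inv_mem hy) _ hy
  rw [inv_mul_cancel, cdual_one H, h0, mul_zero, add_zero] at e
  have k : ∀ a b : ZMod 2, 0 = a + b → a = b := by decide
  exact k _ _ e

theorem cdual_he_comp {χ f h : G → ZMod 2} (hc : Continuous t) (h2 : t * t = 1)
    (hst : ∀ u ∈ U, t u ∈ U) (H : IsHe U (fun u => χ (t u)) f h) :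
    IsHe U χ (fun u => f (t u)) fun u => h (t u) := by
  obtain ⟨N, hN⟩ := H.2
  refine ⟨fun u hu v hv => ?_, N ⊓ pre t.toMonoidHom hc N,
    fun u hu => ⟨(hN u hu.1).1, (hN _ hu.2).2⟩⟩
  have e := H.1 _ (hst u hu) _ (hst v hv)
  simp only [sq_apply h2] at e
  simp only [map_mul, e]

theorem cdual_conj {χ f h : G → ZMod 2} (hχ : IsCh U χ) (H : IsHe U χ f h) {w y : G}
    (hw : w ∈ U) (hy : y ∈ U) (h0 : f y = 0) (h1 : χ y = 0) : h (w * y * w⁻¹) = h y := by
  have e := H.1 _ hw _ (U.inv_mem hw)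
  rw [mul_inv_cancel, cdual_one H] at e
  rw [H.1 _ (U.mul_mem hw hy) _ (U.inv_mem hw), H.1 _ hw _ hy, hχ.1 _ hw _ hy, h0, h1]
  linear_combination -e

end aux

theorem cdual_indep (hl : IsBasis l) (hU : IsOpen (U : Set G)) [Fintype (Cusp l U)]
    {g : Cusp l U → G} (hg : Rep l U g) {χ f h h' : G → ZMod 2} (H : IsHe U χ f h)
    (H' : IsHe U χ f h') :
    ∑ x, h (cel U (l x.1) (g x)) = ∑ x, h' (cel U (l x.1) (g x)) := by
  have hd := cdual_diff H H'
  have e := sum_ev hl hU hd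
  simp only [hg.ev hU hd, Finset.sum_sub_distrib] at e
  exact sub_eq_zero.1 e

/-- The characters that vanish at the cusps and off `U`. -/
def cdualX (l : Fin n → G) (U : Subgroup G) (hU : IsOpen (U : Set G)) :
    Submodule (ZMod 2) (G → ZMod 2) where
  carrier := {f | IsCh U f ∧ (∀ x, ev l U f x = 0) ∧ ∀ x, x ∉ U → f x = 0}
  add_mem' := fun {a b} ha hb => ⟨cdual_chadd ha.1 hb.1, fun x => by
    have e1 := ha.2.1 x
    have e2 := hb.2.1 x
    unfold ev at e1 e2 ⊢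
    rw [Pi.add_apply, e1, e2, add_zero], fun x hx => by
    rw [Pi.add_apply, ha.2.2 x hx, hb.2.2 x hx, add_zero]⟩
  zero_mem' := by
    obtain ⟨N, hN⟩ := exists_le_of_isOpen U hU
    exact ⟨⟨fun _ _ _ _ => (add_zero _).symm, N, fun u hu => ⟨hN hu, rfl⟩⟩, fun _ => rfl,
      fun _ _ => rfl⟩
  smul_mem' := fun c f hf => by
    obtain ⟨N, hN⟩ := hf.1.2
    refine ⟨⟨fun a ha b hb => ?_, N, fun u hu => ⟨(hN u hu).1, ?_⟩⟩, fun x => ?_, fun x hx => ?_⟩
    · simp only [Pi.smul_apply, hf.1.1 a ha b hb, smul_add]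
    · simp only [Pi.smul_apply, (hN u hu).2, smul_zero]
    · have e := hf.2.1 x
      unfold ev at e ⊢
      rw [Pi.smul_apply, e, smul_zero]
    · rw [Pi.smul_apply, hf.2.2 x hx, smul_zero]

theorem cdual_resmem (hU : IsOpen (U : Set G)) {f : G → ZMod 2} (hf : IsCh U f)
    (h0 : ∀ x, ev l U f x = 0) : (fun u => if u ∈ U then f u else 0) ∈ cdualX l U hU := by
  refine ⟨cdual_chres hf, fun x => ?_, fun x hx => if_neg hx⟩
  have e := h0 x
  exact (if_pos (cel_mem _ _)).trans e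

/-- The pairing of a character with the characters vanishing at the cusps. -/
theorem cdual_pair (hl : IsBasis l) (hn : 1 ≤ n) (hU : IsOpen (U : Set G)) [Fintype (Cusp l U)]
    {g : Cusp l U → G} (hg : Rep l U g) {χ : G → ZMod 2} (hχ : IsCh U χ) :
    ∃ L : Module.Dual (ZMod 2) (cdualX l U hU), ∀ (f : cdualX l U hU) h, IsHe U χ f h →
      L f = ∑ x, h (cel U (l x.1) (g x)) := by
  choose H hH using fun f : cdualX l U hU => exists_he hl hn hU hχ f.2.1
  let A : cdualX l U hU →+ ZMod 2 := AddMonoidHom.mk' (fun f => ∑ x, H f (cel U (l x.1) (g x)))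
    fun a b => by
      rw [cdual_indep hl hU hg (hH (a + b)) (cdual_addr (hH a) (hH b)), ← Finset.sum_add_distrib]
      rfl
  exact ⟨A.toZModLinearMap 2, fun f h hh => cdual_indep hl hU hg (hH f) hh⟩

theorem cdual_zero (hl : IsBasis l) (hn : 1 ≤ n) (hU : IsOpen (U : Set G)) [Fintype (Cusp l U)]
    {g : Cusp l U → G} (hg : Rep l U g) {χ : G → ZMod 2} (hχ : IsCh U χ)
    (h0 : ∀ x, ev l U χ x = 0)
    (hz : ∀ f ∈ cdualX l U hU, ∃ h, IsHe U χ f h ∧ ∑ x, h (cel U (l x.1) (g x)) = 0) :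
    ∀ u ∈ U, χ u = 0 := by
  intro s hs
  by_contra h1
  obtain ⟨ψ, h, c1, c2, c3, c4⟩ := he_nondeg hl hn hU hg hχ h0 hs h1
  obtain ⟨h', d1, d2⟩ := hz _ (cdual_resmem hU c1 c2)
  have e := cdual_indep hl hU hg (cdual_congr c3 (fun _ _ => rfl) fun u hu => if_pos hu) d1
  rw [c4, d2] at e
  exact one_ne_zero e

theorem cdual_pr (M : OpenNormalSubgroup G) {i j : Fin n} {c d : G}
    (h : cls l M.toSubgroup i c = cls l M.toSubgroup j d) :
    pr M (c⁻¹ * l i * c) = pr M (d⁻¹ * l j * d) := by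
  obtain rfl : i = j := congrArg Sigma.fst h
  obtain ⟨a, u, hu, rfl⟩ := (cls_eq_iff M.isOpen' i c d).1 h
  have e := cuspa_conj (l i) c u a 1
  rw [pow_one] at e
  rw [e, map_mul (pr M) _ u, map_mul (pr M) u⁻¹, map_inv, (pr_eq_one_iff M u).2 hu]
  simp

/-- For prescribed values `β` at the cusps there is exactly one character whose pairing with all
characters vanishing at the cusps is zero. Plan: let `X` be the finite `ZMod 2`-module of the
characters `f` with `ev f = 0` and `f = 0` off `U` (`finite_ch`). For a character `χ` and `f ∈ X` the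
sum `L χ f = ∑ x, h (cel ..)` does not depend on the lift `h` (the difference of two lifts is a
character: `sum_ev`, `Rep.ev`), and it is additive in `χ` and in `f` (add the lifts). The map
`X → Module.Dual X`, `χ ↦ L χ` is injective (`he_nondeg`; replace `ψ` by its restriction to `U`),
hence bijective (finrank). Start from `exists_ch_ev` and correct by an element of `X`. -/
theorem exists_dual (hl : IsBasis l) (hn : 1 ≤ n) (hU : IsOpen (U : Set G)) [Fintype (Cusp l U)]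
    {g : Cusp l U → G} (hg : Rep l U g) (β : Cusp l U → ZMod 2) (hβ : ∑ x, β x = 0) :
    ∃ χ, IsCh U χ ∧ (∀ x, ev l U χ x = β x) ∧
      (∀ f h, IsCh U f → (∀ x, ev l U f x = 0) → IsHe U χ f h →
        ∑ x, h (cel U (l x.1) (g x)) = 0) ∧
      ∀ χ', IsCh U χ' → (∀ x, ev l U χ' x = β x) →
        (∀ f h, IsCh U f → (∀ x, ev l U f x = 0) → IsHe U χ' f h →
          ∑ x, h (cel U (l x.1) (g x)) = 0) → ∀ u ∈ U, χ' u = χ u := by
  have hfin : Finite (cdualX l U hU) :=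
    ((finite_ch hl hU).subset (t := (cdualX l U hU : Set (G → ZMod 2)))
      fun f hf => ⟨hf.1, hf.2.2⟩).to_subtype
  choose L hL using fun χ : {χ : G → ZMod 2 // IsCh U χ} => cdual_pair hl hn hU hg χ.2
  have hadd : ∀ (a b c : {χ : G → ZMod 2 // IsCh U χ}), c.1 = a.1 + b.1 → L c = L a + L b := by
    intro a b c e
    ext f
    obtain ⟨h, hh⟩ := exists_he hl hn hU a.2 f.2.1
    obtain ⟨h', hh'⟩ := exists_he hl hn hU b.2 f.2.1
    rw [LinearMap.add_apply, hL a f h hh, hL b f h' hh', hL c f (h + h') (e ▸ cdual_addl hh hh'),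
      ← Finset.sum_add_distrib]
    rfl
  let A : cdualX l U hU →+ Module.Dual (ZMod 2) (cdualX l U hU) :=
    AddMonoidHom.mk' (fun f => L ⟨f.1, f.2.1⟩) fun a b => hadd _ _ _ rfl
  have hinj : Function.Injective (A.toZModLinearMap 2) := by
    rw [injective_iff_map_eq_zero]
    intro a ha
    refine Subtype.ext (funext fun u => ?_)
    by_cases hu : u ∈ U
    · refine cdual_zero hl hn hU hg a.2.1 a.2.2.1 (fun f hf => ?_) u hu
      obtain ⟨h, hh⟩ := exists_he hl hn hU a.2.1 hf.1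
      refine ⟨h, hh, ?_⟩
      rw [← hL ⟨a.1, a.2.1⟩ ⟨f, hf⟩ h hh]
      exact LinearMap.congr_fun ha ⟨f, hf⟩
    · exact a.2.2.2 u hu
  have hsurj := (LinearMap.injective_iff_surjective_of_finrank_eq_finrank
    (Subspace.dual_finrank_eq (K := ZMod 2) (V := cdualX l U hU)).symm).1 hinj
  obtain ⟨χ₀, c1, c2⟩ := exists_ch_ev hl hU β hβ
  obtain ⟨ξ, hξ⟩ := hsurj (L ⟨χ₀, c1⟩)
  have hc : IsCh U (χ₀ + ξ.1) := cdual_chadd c1 ξ.2.1
  have hev : ∀ x, ev l U (χ₀ + ξ.1) x = β x := fun x => by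
    have e1 := c2 x
    have e2 := ξ.2.2.1 x
    unfold ev at e1 e2 ⊢
    rw [Pi.add_apply, e1, e2, add_zero]
  have h3 : ∀ f h, IsCh U f → (∀ x, ev l U f x = 0) → IsHe U (χ₀ + ξ.1) f h →
      ∑ x, h (cel U (l x.1) (g x)) = 0 := by
    intro f h hf h0 H
    have e := hL ⟨_, hc⟩ ⟨_, cdual_resmem hU hf h0⟩ h
      (cdual_congr H (fun _ _ => rfl) fun u hu => if_pos hu)
    have e2 : L ⟨ξ.1, ξ.2.1⟩ = L ⟨χ₀, c1⟩ := hξ
    rw [← e, hadd ⟨χ₀, c1⟩ ⟨ξ.1, ξ.2.1⟩ ⟨_, hc⟩ rfl, e2, LinearMap.add_apply]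
    exact CharTwo.add_self_eq_zero _
  refine ⟨χ₀ + ξ.1, hc, hev, h3, fun χ' d1 d2 d3 u hu => ?_⟩
  have e := cdual_zero hl hn hU hg (cdual_chadd d1 hc) (fun x => ?_) (fun f hf => ?_) u hu
  · have k : ∀ a b : ZMod 2, a + b = 0 → a = b := by decide
    exact k _ _ e
  · have e1 := d2 x
    have e2 := hev x
    unfold ev at e1 e2 ⊢
    rw [Pi.add_apply, e1, e2]
    exact CharTwo.add_self_eq_zero _
  · obtain ⟨h, hh⟩ := exists_he hl hn hU d1 hf.1
    obtain ⟨h', hh'⟩ := exists_he hl hn hU hc hf.1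
    refine ⟨h + h', cdual_addl hh hh', ?_⟩
    simp only [Pi.add_apply, Finset.sum_add_distrib]
    rw [d3 f h hf.1 hf.2.1 hh, h3 f h' hf.1 hf.2.1 hh', add_zero]

/-- The character dual to the arc between two cusps inverted by `t` is invariant. Plan: `χ` from
`exists_dual`; `χ ∘ t` has the same properties: if `(χ ∘ t, f, h)` is a lift then so is
`(χ, f ∘ t, h ∘ t)`; with `T, a` from `exists_T` one has `h (t (cel x)) = h (cel (T x))`, because
`h (w * y * w⁻¹) = h y` and `h y⁻¹ = h y` if both characters vanish at `y`, and `a x = 1` for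
`x = x₁, x₂` (there `h y⁻¹ = h y` as `f y = 0`). -/
theorem Invol.exists_inv_ch (hl : IsBasis l) (hn : 3 ≤ n) (ht : Invol l t)
    (hU : IsOpen (U : Set G)) (hst : ∀ u ∈ U, t u ∈ U) {g : Cusp l U → G} (hg : Rep l U g)
    {x₁ x₂ : Cusp l U} (h12 : x₁ ≠ x₂)
    (h1 : t ((g x₁)⁻¹ * l x₁.1 * g x₁) = ((g x₁)⁻¹ * l x₁.1 * g x₁)⁻¹)
    (h2 : t ((g x₂)⁻¹ * l x₂.1 * g x₂) = ((g x₂)⁻¹ * l x₂.1 * g x₂)⁻¹) :
    ∃ χ : G → ZMod 2, IsCh U χ ∧ (∀ u ∈ U, χ (t u) = χ u) ∧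
      ∀ x, ev l U χ x = if x = x₁ ∨ x = x₂ then 1 else 0 := by
  have := finite_cusp (l := l) hU
  let _ : Fintype (Cusp l U) := Fintype.ofFinite _
  have hβ : ∑ x : Cusp l U, (if x = x₁ ∨ x = x₂ then (1 : ZMod 2) else 0) = 0 := by
    have e : ∀ x : Cusp l U, (if x = x₁ ∨ x = x₂ then (1 : ZMod 2) else 0) =
        (if x = x₁ then 1 else 0) + if x = x₂ then 1 else 0 := fun x => by
      by_cases a : x = x₁
      · have b : x ≠ x₂ := a ▸ h12
        simp only [a, true_or, if_true, if_neg h12, add_zero]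
      · simp only [a, false_or, if_false, zero_add]
    simp only [e, Finset.sum_add_distrib, Finset.sum_ite_eq', Finset.mem_univ, if_true]
    decide
  obtain ⟨χ, c1, c2, c3, c4⟩ := exists_dual hl (by omega) hU hg _ hβ
  obtain ⟨T, a, -, t2, t3, -, t5⟩ := ht.exists_T hl hn hU hst hg
  have e0 : ∀ x, t (cel U (l x.1) (g x)) =
      (a x)⁻¹ * (cel U (l (T x).1) (g (T x)))⁻¹ * (a x)⁻¹⁻¹ := fun x => by
    rw [← t3]
    group
  have e1 : ∀ f : G → ZMod 2, IsCh U f → ∀ x, ev l U (fun u => f (t u)) x = ev l U f (T x) := by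
    intro f hf x
    rw [hg.ev hU (hf.comp t ht.cont hst), hg.ev hU hf, e0,
      hf.conj (U.inv_mem (cel_mem _ _)) (U.inv_mem (t2 x)), hf.inv (cel_mem _ _), CharTwo.neg_eq]
  have e2 : ∀ x, (T x = x₁ ∨ T x = x₂) ↔ (x = x₁ ∨ x = x₂) := fun x => by
    conv_lhs => rw [← (t5 _ h1).1, ← (t5 _ h2).1]
    simp only [T.injective.eq_iff]
  have d1 := c1.comp t ht.cont hst
  have d2 : ∀ x, ev l U (fun u => χ (t u)) x = if x = x₁ ∨ x = x₂ then 1 else 0 := fun x => by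
    rw [e1 χ c1, c2]
    simp only [e2]
  refine ⟨χ, c1, c4 _ d1 d2 fun f h hf h0 H => ?_, c2⟩
  have e3 := c3 _ _ (hf.comp t ht.cont hst) (fun x => by rw [e1 f hf, h0])
    (cdual_he_comp ht.cont ht.sq hst H)
  rw [← e3, ← Equiv.sum_comp T]
  refine Finset.sum_congr rfl fun x _ => ?_
  have f0 : f (cel U (l (T x).1) (g (T x))) = 0 := by rw [← hg.ev hU hf, h0]
  have f1 := cdual_inv H (cel_mem _ _) f0
  rw [e0]
  by_cases hx : x = x₁ ∨ x = x₂
  · have ha : a x = 1 := by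
      rcases hx with rfl | rfl
      · exact (t5 _ h1).2
      · exact (t5 _ h2).2
    rw [ha, inv_one, inv_one, one_mul, mul_one, f1]
  · rw [cdual_conj d1 H (U.inv_mem (t2 x)) (U.inv_mem (cel_mem _ _)) _ _, f1]
    · rw [hf.inv (cel_mem _ _), f0, neg_zero]
    · rw [d1.inv (cel_mem _ _), ← hg.ev hU d1, d2, if_neg ((e2 x).not.2 hx), neg_zero]

/-- **An involution inverts at most two cusp generators.** Plan: if `x, y, z` are pairwise
distinct take a characteristic open normal `U` modulo which they are distinct (`eq_of_pr`,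
`exists_le_finite`, `exists_char`); the three cusps of `U` are distinct (`cls_eq_iff`, `U` normal).
Take representatives (`exists_rep`), the characters `χ₁₂`, `χ₁₃` of `exists_inv_ch`, and apply
`par` to `Φ = χ₁₂ * χ₁₃`: only `x₁` contributes. -/
theorem Invol.eq_or_eq (hl : IsBasis l) (hn : 3 ≤ n) (ht : Invol l t) {x y z : G} (hx : Cg l x)
    (hy : Cg l y) (hz : Cg l z) (ix : t x = x⁻¹) (iy : t y = y⁻¹) (iz : t z = z⁻¹)
    (hxy : x ≠ y) : z = x ∨ z = y := by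
  by_contra hne
  push Not at hne
  obtain ⟨N₁, hN₁⟩ := not_forall.1 fun h => hxy (eq_of_pr h)
  obtain ⟨N₂, hN₂⟩ := not_forall.1 fun h => hne.1 (eq_of_pr h)
  obtain ⟨N₃, hN₃⟩ := not_forall.1 fun h => hne.2 (eq_of_pr h)
  obtain ⟨M, hM, hch⟩ := hl.exists_char (N₁ ⊓ N₂ ⊓ N₃)
  have m1 : pr M x ≠ pr M y := fun h => hN₁ (pr_mono (hM.trans (inf_le_left.trans inf_le_left)) h)
  have m2 : pr M z ≠ pr M x := fun h => hN₂ (pr_mono (hM.trans (inf_le_left.trans inf_le_right)) h)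
  have m3 : pr M z ≠ pr M y := fun h => hN₃ (pr_mono (hM.trans inf_le_right) h)
  have hcg : ∀ w, Cg l w → ∃ i c, w = c⁻¹ * l i * c := fun w ⟨i, hi⟩ => by
    obtain ⟨c, hc⟩ := isConj_iff.1 hi
    exact ⟨i, c⁻¹, by rw [inv_inv, hc]⟩
  obtain ⟨i₁, c₁, rfl⟩ := hcg x hx
  obtain ⟨i₂, c₂, rfl⟩ := hcg y hy
  obtain ⟨i₃, c₃, rfl⟩ := hcg z hz
  have hU : IsOpen (M.toSubgroup : Set G) := M.isOpen'
  have hst : ∀ u ∈ M.toSubgroup, t u ∈ M.toSubgroup := hch t.toMonoidHom ht.cont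
  have n12 : cls l M.toSubgroup i₁ c₁ ≠ cls l M.toSubgroup i₂ c₂ := fun h => m1 (cdual_pr M h)
  have n31 : cls l M.toSubgroup i₃ c₃ ≠ cls l M.toSubgroup i₁ c₁ := fun h => m2 (cdual_pr M h)
  have n32 : cls l M.toSubgroup i₃ c₃ ≠ cls l M.toSubgroup i₂ c₂ := fun h => m3 (cdual_pr M h)
  obtain ⟨g, hg, hgc⟩ := exists_rep (l := l) (U := M.toSubgroup) ![i₁, i₂, i₃] ![c₁, c₂, c₃] (by
    intro a b h
    fin_cases a <;> fin_cases b
    all_goals first
      | rfl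
      | exact absurd h n12
      | exact absurd h n12.symm
      | exact absurd h n31
      | exact absurd h n31.symm
      | exact absurd h n32
      | exact absurd h n32.symm)
  have g1 : g (cls l M.toSubgroup i₁ c₁) = c₁ := hgc 0
  have g2 : g (cls l M.toSubgroup i₂ c₂) = c₂ := hgc 1
  have g3 : g (cls l M.toSubgroup i₃ c₃) = c₃ := hgc 2
  generalize hx₁ : cls l M.toSubgroup i₁ c₁ = x₁ at *
  generalize hx₂ : cls l M.toSubgroup i₂ c₂ = x₂ at *
  generalize hx₃ : cls l M.toSubgroup i₃ c₃ = x₃ at *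
  have j1 : t ((g x₁)⁻¹ * l x₁.1 * g x₁) = ((g x₁)⁻¹ * l x₁.1 * g x₁)⁻¹ := by
    rw [g1, ← hx₁]
    exact ix
  have j2 : t ((g x₂)⁻¹ * l x₂.1 * g x₂) = ((g x₂)⁻¹ * l x₂.1 * g x₂)⁻¹ := by
    rw [g2, ← hx₂]
    exact iy
  have j3 : t ((g x₃)⁻¹ * l x₃.1 * g x₃) = ((g x₃)⁻¹ * l x₃.1 * g x₃)⁻¹ := by
    rw [g3, ← hx₃]
    exact iz
  obtain ⟨χ, a1, a2, a3⟩ := ht.exists_inv_ch hl hn hU hst hg n12 j1 j2
  obtain ⟨ψ, b1, b2, b3⟩ := ht.exists_inv_ch hl hn hU hst hg n31.symm j1 j3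
  have key : ∀ f : G → ZMod 2, IsCh M.toSubgroup f → (∀ u ∈ M.toSubgroup, f (t u) = f u) →
      ∀ e ∈ M.toSubgroup, ∀ u ∈ M.toSubgroup, f (u * e * (t u)⁻¹) = f e := by
    intro f hf hi e he u hu
    rw [hf.1 _ (mul_mem hu he) _ (inv_mem (hst u hu)), hf.1 _ hu _ he, hf.inv (hst u hu), hi u hu]
    ring
  obtain ⟨F, a, p1, p2, p3⟩ := ht.par hl hn hU hst hg (fun e => χ e * ψ e) fun e he _ u hu => by
    simp only [key χ a1 a2 e he u hu, key ψ b1 b2 e he u hu]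
  have val : ∀ x ∈ F, χ (a x) * ψ (a x) + χ (cel M.toSubgroup (l x.1) (g x) * a x) *
      ψ (cel M.toSubgroup (l x.1) (g x) * a x) = if x = x₁ then 1 else 0 := by
    intro x hxF
    rw [a1.1 _ (cel_mem _ _) _ (p1 x hxF).1, b1.1 _ (cel_mem _ _) _ (p1 x hxF).1, ← hg.ev hU a1,
      ← hg.ev hU b1, a3, b3]
    by_cases q1 : x = x₁
    · rw [q1, (p2 _ j1).2, a1.one, b1.one]
      simp
    by_cases q2 : x = x₂
    · rw [q2, (p2 _ j2).2, a1.one, b1.one]
      simp [n12.symm, n32.symm]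
    by_cases q3 : x = x₃
    · rw [q3, (p2 _ j3).2, a1.one, b1.one]
      simp [n31, n32]
    simp only [q1, q2, q3, or_self, if_false, zero_add]
    exact CharTwo.add_self_eq_zero _
  rw [Finset.sum_congr rfl val, Finset.sum_ite_eq', if_pos (p2 _ j1).1] at p3
  exact one_ne_zero p3

end Pool.Agent.MP_1c2b6e_al

/-! Consequences: centralisers, classes of cusps, chains. -/

namespace Pool.Agent.MP_1c2b6e_al

open Classical

variable {G : Type} [Group G] [TopologicalSpace G] [IsTopologicalGroup G] [CompactSpace G]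
  [TotallyDisconnectedSpace G] {n : ℕ} {l : Fin n → G} {t : MulAut G}

theorem ctwo_fix (hl : IsBasis l) (hn : 3 ≤ n) (ht : Invol l t) {z : G} (hz : Cg l z)
    (iz : t z = z⁻¹) {c : G} (hc : t c = c) (h : c * z * c⁻¹ = z) : c = 1 := by
  obtain ⟨a, rfl⟩ := hz.cent hl (by omega) (mul_inv_eq_iff_eq_mul.1 h)
  rw [map_pw_inv ht.cont iz] at hc
  exact hl.eq_one_of_sq (by omega) (inv_eq_iff_mul_eq_one.1 hc)

theorem ctwo_third (hn : 3 ≤ n) (i j : Fin n) : ∃ k, k ≠ i ∧ k ≠ j := by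
  by_contra h
  push Not at h
  have h1 : (Finset.univ : Finset (Fin n)) ⊆ {i, j} := fun k _ => by
    by_cases h2 : k = i
    · simp [h2]
    · simp [h k h2]
  have h2 := (Finset.card_le_card h1).trans Finset.card_le_two
  rw [Finset.card_fin] at h2
  omega

/-- Plan: `c` permutes the two cusp generators `z`, `w` inverted by `t` (`exists_other`,
`eq_or_eq`); an element fixed by `t` that commutes with `z` is trivial (`Cg.cent`); apply this to
`c` or to `c * c` (`eq_one_of_sq`). -/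
theorem Invol.cent (hl : IsBasis l) (hn : 3 ≤ n) (ht : Invol l t) {z : G} (hz : Cg l z)
    (iz : t z = z⁻¹) {c : G} (hc : t c = c) : c = 1 := by
  obtain ⟨w, hw, iw, hne⟩ := ht.exists_other hl hn hz iz
  have key : ∀ x, Cg l x → t x = x⁻¹ → c * x * c⁻¹ = z ∨ c * x * c⁻¹ = w := fun x hx ix =>
    ht.eq_or_eq hl hn hz hw (hx.conj (isConj_iff.2 ⟨c, rfl⟩)) iz iw
      (by rw [map_mul, map_mul, map_inv, hc, ix]; group) hne.symm
  rcases key z hz iz with h1 | h1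
  · exact ctwo_fix hl hn ht hz iz hc h1
  rcases key w hw iw with h2 | h2
  · refine hl.eq_one_of_sq (by omega) (ctwo_fix hl hn ht hz iz (by rw [map_mul, hc]) ?_)
    calc _ = c * (c * z * c⁻¹) * c⁻¹ := by group
      _ = z := by rw [h1, h2]
  · exact ctwo_fix hl hn ht hw iw hc h2

/-- If `t` inverts `z` and `c * z * c⁻¹ ≠ z` then `(t c)⁻¹ * c` is an odd power of `z`. Plan: it
commutes with `z`; if it is `pw z (2 * b)` then `t` fixes `c * pw z (-b)`. -/
theorem Invol.odd (hl : IsBasis l) (hn : 3 ≤ n) (ht : Invol l t) {z : G} (hz : Cg l z)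
    (iz : t z = z⁻¹) {c : G} (ic : t (c * z * c⁻¹) = (c * z * c⁻¹)⁻¹) (hne : c * z * c⁻¹ ≠ z) :
    ∃ b, res 2 b = 1 ∧ (t c)⁻¹ * c = pw z b := by
  rw [map_mul, map_mul, map_inv, iz] at ic
  obtain ⟨b, hb⟩ := hz.cent hl (by omega) (g := (t c)⁻¹ * c) (by
    calc _ = (t c)⁻¹ * (c * z * c⁻¹)⁻¹⁻¹ * c := by group
      _ = _ := by rw [← ic]; group)
  refine ⟨b, ?_, hb⟩
  rcases zhat_parity b with ⟨b, rfl⟩ | ⟨b, rfl⟩
  · have h1 : c * (pw z b)⁻¹ = 1 := by
      refine ht.cent hl hn hz iz ?_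
      rw [two_mul, pw_add] at hb
      rw [map_mul, map_inv, map_pw_inv ht.cont iz]
      calc _ = t c * (pw z b * pw z b) * (pw z b)⁻¹ := by group
        _ = _ := by rw [← hb]; group
    rw [mul_inv_eq_one.1 h1, pw_comm, mul_inv_cancel_right] at hne
    exact absurd rfl hne
  · rw [map_add, res_two_mul, map_one, zero_add]

theorem Invol.not_conj (hl : IsBasis l) (hn : 3 ≤ n) (ht : Invol l t) {z w : G} (hz : Cg l z)
    (iz : t z = z⁻¹) (iw : t w = w⁻¹) (hne : w ≠ z) {f : G → ZMod 2} (hf : IsCh ⊤ f)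
    (hft : ∀ g, f (t g) = f g) (hfz : f z = 1) : ¬IsConj z w := by
  intro h
  obtain ⟨c, rfl⟩ := isConj_iff.1 h
  obtain ⟨b, h1, h2⟩ := ht.odd hl hn hz iz iw hne
  have h3 := congrArg f h2
  rw [hf.1 _ trivial _ trivial, hf.inv trivial, hft, hf.map_pw trivial, h1, hfz,
    neg_add_cancel, mul_one] at h3
  exact zero_ne_one h3

/-- Hint: `exists_ch_pair`, `Pure.ch_two`. -/
theorem Pure.not_conj (hl : IsBasis l) (hn : 3 ≤ n) (ht : Pure l t (-1)) (h2 : t * t = 1)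
    {z w : G} (hz : Cg l z) (iz : t z = z⁻¹) (iw : t w = w⁻¹) (hne : w ≠ z) : ¬IsConj z w := by
  obtain ⟨i, hi⟩ := hz
  obtain ⟨k, hk, -⟩ := ctwo_third hn i i
  obtain ⟨f, hf, h1, -⟩ := exists_ch_pair hl 2 hk.symm
  exact (ht.invol h2).not_conj hl hn ⟨i, hi⟩ iz iw hne hf (ht.ch_two hl hf)
    ((hf.isConj hi).trans h1)

/-- Plan: if `z = c * x * c⁻¹` then `c⁻¹ * t (pw y m * c)` commutes with `x`; evaluate a character
mod `2` with `f x = 0`, `f y = 1`. -/
theorem Pure.not_conj₃ (hl : IsBasis l) (hn : 3 ≤ n) (ht : Pure l t (-1)) {x y z : G}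
    (hx : Cg l x) (hy : Cg l y) (ix : t x = x⁻¹) (hxy : ¬IsConj x y) {m : Zhat}
    (hm : res 2 m = 1) (iz : (t * MulAut.conj (pw y m)) z = z⁻¹) : ¬IsConj x z := by
  intro h
  obtain ⟨c, rfl⟩ := isConj_iff.1 h
  have h1 : t (pw y m * c) * x⁻¹ * (t (pw y m * c))⁻¹ = (c * x * c⁻¹)⁻¹ := by
    rw [← iz, ← ix, ← map_inv, ← map_mul, ← map_mul, MulAut.mul_apply, MulAut.conj_apply]
    congr 1
    group
  obtain ⟨b, hb⟩ := hx.cent hl (by omega) (g := c⁻¹ * t (pw y m * c)) (by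
    calc _ = c⁻¹ * (t (pw y m * c) * x⁻¹ * (t (pw y m * c))⁻¹)⁻¹ * t (pw y m * c) := by group
      _ = _ := by rw [h1]; group)
  obtain ⟨i, hi⟩ := hx
  obtain ⟨j, hj⟩ := hy
  have hij : i ≠ j := fun e => hxy (hi.symm.trans (e ▸ hj))
  obtain ⟨k, k1, k2⟩ := ctwo_third hn i j
  obtain ⟨f, hf, f1, -, f2⟩ := exists_ch_pair hl 2 k2.symm
  have h3 := congrArg f hb
  rw [hf.1 _ trivial _ trivial, hf.inv trivial, ht.ch_two hl hf, hf.1 _ trivial _ trivial,
    hf.map_pw trivial, hf.map_pw trivial, hm, hf.isConj hi, hf.isConj hj, f1,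
    f2 i hij k1.symm, mul_one, mul_zero, neg_add_cancel_comm_assoc] at h3
  exact one_ne_zero h3

/-- An involution whose permutation moves `i` does not invert a conjugate of `l i`. -/
theorem not_conj_of_swap (hl : IsBasis l) (hn : 3 ≤ n) {i j : Fin n} (hij : i ≠ j)
    (h : IsConj (l j)⁻¹ (t (l i))) {z : G} (iz : t z = z⁻¹) : ¬IsConj (l i) z := by
  intro h1
  have h2 := isConj_inv' (h.trans (isConj_aut t h1))
  rw [iz, inv_inv, inv_inv] at h2
  exact hij (hl.eq_of_isConj hn (h1.trans h2.symm))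

/-- On the tripod three pairwise non-conjugate cusp generators exhaust the classes. -/
theorem isConj_of_four {h : Fin 3 → G} {x y z w : G} (hx : Cg h x) (hy : Cg h y) (hz : Cg h z)
    (hw : Cg h w) (h1 : ¬IsConj x y) (h2 : ¬IsConj x z) (h3 : ¬IsConj y z) (h4 : ¬IsConj y w)
    (h5 : ¬IsConj z w) : IsConj x w := by
  obtain ⟨i, hi⟩ := hx
  obtain ⟨j, hj⟩ := hy
  obtain ⟨k, hk⟩ := hz
  obtain ⟨m, hm⟩ := hw
  have e1 : i ≠ j := fun e => h1 (hi.symm.trans (e ▸ hj))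
  have e2 : i ≠ k := fun e => h2 (hi.symm.trans (e ▸ hk))
  have e3 : j ≠ k := fun e => h3 (hj.symm.trans (e ▸ hk))
  have e4 : j ≠ m := fun e => h4 (hj.symm.trans (e ▸ hm))
  have e5 : k ≠ m := fun e => h5 (hk.symm.trans (e ▸ hm))
  have e : i = m := by omega
  exact hi.symm.trans (e ▸ hm)

/-- The sum of the values of a character on three pairwise non-conjugate cusp generators of the
tripod vanishes. -/
theorem ch_sum_three {k : Type} [AddCommGroup k] {h : Fin 3 → G} (hh : IsBasis h) {x y z : G}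
    (hx : Cg h x) (hy : Cg h y) (hz : Cg h z) (h1 : ¬IsConj x y) (h2 : ¬IsConj x z)
    (h3 : ¬IsConj y z) {f : G → k} (hf : IsCh ⊤ f) : f x + f y + f z = 0 := by
  obtain ⟨i, hi⟩ := hx
  obtain ⟨j, hj⟩ := hy
  obtain ⟨k, hk⟩ := hz
  have e1 : i ≠ j := fun e => h1 (hi.symm.trans (e ▸ hj))
  have e2 : i ≠ k := fun e => h2 (hi.symm.trans (e ▸ hk))
  have e3 : j ≠ k := fun e => h3 (hj.symm.trans (e ▸ hk))
  have h0 : f (h 0) + f (h 1) + f (h 2) = 0 := by
    have h4 : h 0 * h 1 * h 2 = 1 := by simpa [mul_assoc] using hh.prod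
    rw [← hf.1 _ trivial _ trivial, ← hf.1 _ trivial _ trivial, h4, hf.one]
  have h5 : ({i, j, k} : Finset (Fin 3)) = Finset.univ :=
    Finset.eq_univ_of_card _ (Finset.card_eq_three.2 ⟨i, j, k, e1, e2, e3, rfl⟩)
  rw [← Fin.sum_univ_three fun i => f (h i), ← h5, Finset.sum_insert (by simp [e1, e2]),
    Finset.sum_pair e3, ← add_assoc] at h0
  rwa [hf.isConj hi, hf.isConj hj, hf.isConj hk]

/-- Hint: recursion on the subtype of pairs `(s, z)` with `Invol l s`, `Cg l z`, `s z = z⁻¹`. -/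
theorem exists_chain (hl : IsBasis l) (hn : 3 ≤ n) (ht : Invol l t) {x : G} (hx : Cg l x)
    (ix : t x = x⁻¹) (a : Zhat) : ∃ s z, Chain l a s z ∧ s 0 = t ∧ z 0 = x := by
  have step : ∀ p : {p : MulAut G × G // Invol l p.1 ∧ Cg l p.2 ∧ p.1 p.2 = p.2⁻¹},
      ∃ q : {p : MulAut G × G // Invol l p.1 ∧ Cg l p.2 ∧ p.1 p.2 = p.2⁻¹},
        q.1.1 = p.1.1 * MulAut.conj (pw p.1.2 a) ∧ q.1.2 ≠ p.1.2 := by
    rintro ⟨⟨s, z⟩, h1, h2, h3⟩
    have h4 := h1.mul_conj (map_pw_inv h1.cont h3 a)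
    obtain ⟨w, w1, w2, w3⟩ := h4.exists_other hl hn h2 (mul_conj_pw_inv h3 a)
    exact ⟨⟨(_, w), h4, w1, w2⟩, rfl, w3⟩
  choose F h1 h2 using step
  refine ⟨fun k => (F^[k] ⟨(t, x), ht, hx, ix⟩).1.1, fun k => (F^[k] ⟨(t, x), ht, hx, ix⟩).1.2,
    ⟨fun k => (F^[k] _).2.2.1, fun k => (F^[k] _).2.2.2, fun k => ?_, fun k => ?_⟩, rfl, rfl⟩
  · rw [Function.iterate_succ_apply']
    exact h1 _
  · rw [Function.iterate_succ_apply']
    exact h2 _

variable {a : Zhat} {s : ℕ → MulAut G} {z : ℕ → G}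

theorem Chain.shift (h : Chain l a s z) (k : ℕ) :
    Chain l a (fun i => s (k + i)) fun i => z (k + i) := by
  exact ⟨fun i => h.cg _, fun i => h.inv _, fun i => h.succ (k + i), fun i => h.ne (k + i)⟩

theorem Chain.sq (h : Chain l a s z) (h0 : Continuous (s 0)) (h2 : s 0 * s 0 = 1) (k : ℕ) :
    Continuous (s k) ∧ s k * s k = 1 := by
  induction k with
  | zero => exact ⟨h0, h2⟩
  | succ k ih =>
    rw [h.succ]
    exact ⟨ih.1.comp (continuous_conj_aut _), sq_mul_conj ih.2 (map_pw_inv ih.1 (h.inv k) a)⟩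

theorem Chain.eq_pp (h : Chain l a s z) (k : ℕ) :
    s k = s 0 * MulAut.conj (pp (fun i => pw (z i) a) k) := by
  induction k with
  | zero => rw [pp, map_one, mul_one]
  | succ k ih => rw [h.succ, ih, pp, map_mul, mul_assoc]

theorem Chain.inv_succ (h : Chain l a s z) (k : ℕ) : s (k + 1) (z k) = (z k)⁻¹ := by
  rw [h.succ]
  exact mul_conj_pw_inv (h.inv k) a

theorem Chain.map_pp (h : Chain l a s z) (h0 : Continuous (s 0)) (k : ℕ) :
    s 0 (pp (fun i => pw (z i) a) k) = (pp (fun i => pw (z i) a) k)⁻¹ := by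
  induction k with
  | zero => rw [pp, map_one, inv_one]
  | succ k ih =>
    have h1 : Continuous (s k) := by
      rw [h.eq_pp k]
      exact h0.comp (continuous_conj_aut _)
    have h2 := map_pw_inv h1 (h.inv k) a
    rw [h.eq_pp k, MulAut.mul_apply, MulAut.conj_apply, map_mul, map_inv, ih,
      mul_inv_eq_iff_eq_mul] at h2
    rw [pp, h2, mul_inv_rev]

end Pool.Agent.MP_1c2b6e_al
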