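import Pool.Agent.MP_1c2b6e_al.Mg.CDefs
import Pool.Agent.MP_1c2b6e_al.Mg.ConjDual

-- part MP_1c2b6e_al.ConjKill
section

/-! The fixed points of a Dehn twist. -/

namespace Pool.Agent.MP_1c2b6e_al

open Classical

variable {G : Type} [Group G] [TopologicalSpace G] [IsTopologicalGroup G] [CompactSpace G]
  [TotallyDisconnectedSpace G]

omit [TotallyDisconnectedSpace G] in
/-- A multiplicatively closed set containing an open normal subgroup is a subgroup. -/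
theorem cfix_ind {κ : Type} {B : Subgroup G} {z : κ → G}
    (hgen : ∀ S : Subgroup G, IsOpen (S : Set G) → B ≤ S → (∀ k, z k ∈ S) → S = ⊤)
    (P : G → Prop) (N : OpenNormalSubgroup G) (hm : ∀ a b, P a → P b → P (a * b))
    (hN : ∀ a ∈ N, P a) (hB : ∀ b ∈ B, P b) (hz : ∀ k, P (z k)) (g : G) : P g := by
  let S : Subgroup G :=
    { carrier := {a | P a}
      one_mem' := hN 1 (one_mem _)
      mul_mem' := fun {a b} => hm a b
      inv_mem' := fun {a} ha => by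
        have h1 : ∀ n : ℕ, P (a ^ n) := fun n => by
          induction n with
          | zero => exact pow_zero a ▸ hN 1 (one_mem _)
          | succ n ih => exact pow_succ a n ▸ hm _ _ ih ha
        obtain ⟨n, hn⟩ := Nat.exists_eq_succ_of_ne_zero (NeZero.ne (Nat.card (G ⧸ N.toSubgroup)))
        have h2 := pow_card N a
        rw [← map_pow, pr_eq_one_iff, hn] at h2
        have h3 := hm _ _ (hN _ (inv_mem h2)) (h1 n)
        rwa [pow_succ, mul_inv_rev, inv_mul_cancel_right] at h3 }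
  exact (hgen S (Subgroup.isOpen_mono (H₁ := N.toSubgroup) hN N.isOpen') hB hz).ge
    (Subgroup.mem_top g)

/-- The permutation of a skew product. -/
def cfix_perm {A : Type} [Group A] (a : A) (b : A → ZMod 2) : Equiv.Perm (A × ZMod 2) :=
  Equiv.prodShear (Equiv.mulLeft a) fun x => Equiv.addRight (b x)

omit [TotallyDisconnectedSpace G] in
/-- A cocycle vanishing on `B` with prescribed values on the `z k`. -/
theorem cfix_cocycle {κ : Type} {B : Subgroup G} {z : κ → G}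
    (hgen : ∀ S : Subgroup G, IsOpen (S : Set G) → B ≤ S → (∀ k, z k ∈ S) → S = ⊤)
    (hfree : ∀ (Q : Type) [Group Q] [Finite Q] (φ : G →* Q), IsOpen (φ.ker : Set G) →
      ∀ v : κ → Q, ∃ ψ : G →* Q, IsOpen (ψ.ker : Set G) ∧ (∀ b ∈ B, ψ b = φ b) ∧
        ∀ k, ψ (z k) = v k)
    (M : OpenNormalSubgroup G) (a : κ → G ⧸ M.toSubgroup → ZMod 2) :
    ∃ c : G → G ⧸ M.toSubgroup → ZMod 2, (∀ g h x, c (g * h) x = c g (pr M h * x) + c h x) ∧
      (∀ b ∈ B, ∀ x, c b x = 0) ∧ (∀ k x, c (z k) x = a k x) ∧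
      ∃ N : OpenNormalSubgroup G, ∀ g ∈ N, ∀ x, c g x = 0 := by
  let φ : G →* Equiv.Perm ((G ⧸ M.toSubgroup) × ZMod 2) :=
    MonoidHom.mk' (fun g => cfix_perm (pr M g) 0) fun g h => by
      ext p <;> simp [cfix_perm]
  obtain ⟨ψ, ho, h1, h2⟩ := hfree _ φ (Subgroup.isOpen_mono (H₁ := M.toSubgroup) (fun g hg => by
    have h : pr M g = 1 := (pr_eq_one_iff M g).2 hg
    rw [MonoidHom.mem_ker]
    ext p <;> simp [φ, cfix_perm, h]) M.isOpen') fun k => cfix_perm (pr M (z k)) (a k)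
  have hc : ∀ g x t, ψ g (x, t) = (pr M g * x, t + (ψ g (x, 0)).2) := by
    intro g x t
    obtain ⟨d, hd⟩ := cfix_ind hgen
      (fun g => ∃ d : G ⧸ M.toSubgroup → ZMod 2, ∀ x t, ψ g (x, t) = (pr M g * x, t + d x))
      (M ⊓ kerN ψ ho) (fun g h ⟨d, hd⟩ ⟨d', hd'⟩ => ⟨fun x => d' x + d (pr M h * x), fun x t => by
        rw [map_mul, Equiv.Perm.mul_apply, hd', hd, map_mul, mul_assoc, add_assoc]⟩)
      (fun g hg => ⟨0, fun x t => by
        rw [show ψ g = 1 from hg.2, (pr_eq_one_iff M g).2 hg.1]; simp⟩)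
      (fun b hb => ⟨0, fun x t => by rw [h1 b hb]; rfl⟩)
      (fun k => ⟨a k, fun x t => by rw [h2]; rfl⟩) g
    rw [hd, hd, zero_add]
  refine ⟨fun g x => (ψ g (x, 0)).2, fun g h x => ?_, fun b hb x => ?_, fun k x => ?_,
    kerN ψ ho, fun g hg x => ?_⟩ <;> beta_reduce
  · rw [map_mul, Equiv.Perm.mul_apply, hc h x 0, hc g (pr M h * x), zero_add, add_comm]
  · rw [h1 b hb]
    exact add_zero (0 : ZMod 2)
  · rw [h2]
    exact zero_add _
  · rw [show ψ g = 1 from hg]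
    rfl

/-- If `G` is the free product of `B` and the free group on the `z k`, the twist by `w ∈ B` fixes
only `B`. Plan (Fox calculus). By `mem_of_pr` it is enough to show `pr M g ∈ B.map (pr M)` for a
`D`-stable `M` on which `f` vanishes. Let `A = G ⧸ M`, `D'` the induced permutation of `A`,
`W = (κ × A → ZMod 2) ⋊ A` with `(a • c) (k, x) = c (k, a⁻¹ * x)` (any model, e.g. a subgroup of a
permutation group or `SemidirectProduct` with `Multiplicative`), `φ = inr ∘ pr M`,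
`v k = (single (k, 1) 1, pr M (z k))`. The lift `ψ` covers `pr M` and gives a cocycle
`c (g * h) (k, x) = c g (k, x) + c h (k, (pr M g)⁻¹ * x)` vanishing on `B` and on an open subgroup.
Three statements hold for all `g` because the set of such `g` is an open subgroup containing `B` and
the `z k`: (0) `f (D g) = f g`; (1) `c (D g) (k, D' x * pr M w) = c g (k, x)` for all `k, x`;
(2) for all `y : A`, with `I y x = 1` if `y⁻¹ * x ∈ B.map (pr M)` and `0` otherwise,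
`∑ k x, c g (k, x) * (I y (x * pr M (z k)) + I y x) = I y (pr M g) + I y 1`.
For `D g = g` and `y = pr M g` the summand is invariant under `x ↦ D' x * pr M w`, which maps
`{f = 0}` bijectively onto `{f = 1}`; so the sum vanishes. -/
theorem fix_mem {κ : Type} [Finite κ] {B : Subgroup G} (hB : IsClosed (B : Set G)) (z : κ → G)
    {D : MulAut G} (hD : Continuous D) {w : G} (hw : w ∈ B) (h1 : ∀ b ∈ B, D b = b)
    (h2 : ∀ k, D (z k) = w * z k * w⁻¹)
    (hgen : ∀ S : Subgroup G, IsOpen (S : Set G) → B ≤ S → (∀ k, z k ∈ S) → S = ⊤)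
    (hfree : ∀ (Q : Type) [Group Q] [Finite Q] (φ : G →* Q), IsOpen (φ.ker : Set G) →
      ∀ v : κ → Q, ∃ ψ : G →* Q, IsOpen (ψ.ker : Set G) ∧ (∀ b ∈ B, ψ b = φ b) ∧
        ∀ k, ψ (z k) = v k)
    (hchar : ∀ N : OpenNormalSubgroup G, ∃ M : OpenNormalSubgroup G, M ≤ N ∧ ∀ g ∈ M, D g ∈ M)
    {f : G → ZMod 2} (hf : IsCh ⊤ f) (hfw : f w = 1) {g : G} (hg : D g = g) : g ∈ B := by
  have _ := ‹Finite κ›
  refine mem_of_pr hB fun N => ?_
  obtain ⟨N0, hN0⟩ := hf.2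
  obtain ⟨M, hM, hMD⟩ := hchar (N ⊓ N0)
  have hf0 : ∀ u ∈ M, f u = 0 := fun u hu => (hN0 u (hM hu).2).2
  have hfm : ∀ a b, f (a * b) = f a + f b := fun a b => hf.1 a trivial b trivial
  have hfD : ∀ a, f (D a) = f a := cfix_ind hgen _ M
    (fun a b ha hb => by rw [map_mul, hfm, hfm, ha, hb])
    (fun a ha => by rw [hf0 a ha, hf0 _ (hMD a ha)]) (fun b hb => by rw [h1 b hb])
    fun k => by rw [h2, hf.conj trivial trivial]
  have hs : Function.Surjective (pr M) := QuotientGroup.mk'_surjective _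
  obtain ⟨E, hE⟩ : ∃ E : G ⧸ M.toSubgroup →* G ⧸ M.toSubgroup, ∀ a, E (pr M a) = pr M (D a) :=
    ⟨QuotientGroup.map _ _ D.toMonoidHom hMD, fun _ => rfl⟩
  have hi : Function.Injective E := Finite.injective_iff_surjective.2 fun x => by
    obtain ⟨a, rfl⟩ := hs x
    exact ⟨pr M (D.symm a), by rw [hE, D.apply_symm_apply]⟩
  obtain ⟨F, hF⟩ : ∃ F : G ⧸ M.toSubgroup → ZMod 2, ∀ a, F (pr M a) = f a :=
    ⟨fun x => f x.out, fun a => by
      have h := hfm (pr M a).out ((pr M a).out⁻¹ * a)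
      rw [mul_inv_cancel_left, hf0 _ ((pr_eq_iff M _ _).1 (Quotient.out_eq _)), add_zero] at h
      exact h.symm⟩
  obtain ⟨I, hI⟩ : ∃ I : G ⧸ M.toSubgroup → ZMod 2, ∀ x, I x = if x ∈ B.map (pr M) then 1 else 0 :=
    ⟨_, fun _ => rfl⟩
  have hIB : ∀ b ∈ B, ∀ x, I (pr M b * x) = I x := fun b hb x => by
    simp only [hI, mul_mem_cancel_left (Subgroup.mem_map_of_mem (pr M) hb)]
  have hIE : ∀ x, I (E x) = I x := fun x => by
    have h : E x ∈ B.map (pr M) ↔ x ∈ B.map (pr M) :=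
      ⟨fun ⟨b, hb, h⟩ => ⟨b, hb, hi (by rw [hE, h1 b hb, h])⟩,
        fun ⟨b, hb, h⟩ => ⟨b, hb, by rw [← h, hE, h1 b hb]⟩⟩
    simp only [hI, h]
  obtain ⟨c, hc, hcB, hcz, N1, hN1⟩ := cfix_cocycle hgen hfree M
    fun k x => (I (pr M (z k) * x) + I x) * F x
  have key := cfix_ind hgen (fun a => ∀ x, c a x + c (D a) (E x) = I (pr M a * x) + I x)
    (M ⊓ (N1 ⊓ pre D.toMonoidHom hD N1)) (fun a b ha hb x => by
      have h3 := ha (pr M b * x)
      rw [map_mul, hE] at h3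
      rw [map_mul, hc, hc, map_mul, mul_assoc, add_add_add_comm, h3, hb, add_assoc,
        ← add_assoc (I (pr M b * x)), CharTwo.add_self_eq_zero, zero_add])
    (fun a ha x => by
      rw [hN1 a ha.2.1, hN1 (D a) ha.2.2, (pr_eq_one_iff M a).2 ha.1, one_mul,
        CharTwo.add_self_eq_zero, CharTwo.add_self_eq_zero])
    (fun b hb x => by rw [h1 b hb, hcB b hb, hcB b hb, hIB b hb, CharTwo.add_self_eq_zero,
      CharTwo.add_self_eq_zero])
    (fun k x => by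
      have h3 : pr M (z k) * (pr M w⁻¹ * E x) = pr M w⁻¹ * E (pr M (z k) * x) := by
        simp only [map_mul, map_inv, hE, h2, mul_assoc, inv_mul_cancel_left]
      have h4 : F (pr M w⁻¹ * E x) = 1 + F x := by
        obtain ⟨a, rfl⟩ := hs x
        rw [hE, ← map_mul, hF, hF, hfm, hfD, hf.inv trivial, hfw, CharTwo.neg_eq]
      rw [h2, hc, hc, hcB w hw, hcB _ (inv_mem hw), hcz, hcz, h3, h4, hIB _ (inv_mem hw),
        hIB _ (inv_mem hw), hIE, hIE, zero_add, add_zero, ← mul_add, add_left_comm,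
        CharTwo.add_self_eq_zero, add_zero, mul_one]) g 1
  rw [hg, map_one, CharTwo.add_self_eq_zero, mul_one, hI 1, if_pos (one_mem _), hI] at key
  split_ifs at key with h
  · obtain ⟨b, hb, h⟩ := h
    exact ⟨b, hb, pr_mono (hM.trans inf_le_left) h.symm⟩
  · exact absurd key (by decide)

end Pool.Agent.MP_1c2b6e_al

/-! Maps of degree one are surjective. -/

namespace Pool.Agent.MP_1c2b6e_al

open Classical

variable {G : Type} [Group G] [TopologicalSpace G] [IsTopologicalGroup G] [CompactSpace G]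
  [TotallyDisconnectedSpace G] {n : ℕ} {l : Fin n → G} {U : Subgroup G}

theorem cdeg_prod {k : Type} [AddCommGroup k] {f : G → k} (hf : IsCh U f) (L : List G)
    (hL : ∀ x ∈ L, x ∈ U) : f L.prod = (L.map f).sum := by
  induction L with
  | nil => exact hf.one
  | cons a L ih =>
    have h1 : ∀ x ∈ L, x ∈ U := fun x hx => hL x (List.mem_cons_of_mem a hx)
    rw [List.prod_cons, hf.1 a (hL a List.mem_cons_self) _ (U.list_prod_mem h1), ih h1,
      List.map_cons, List.sum_cons]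

theorem cdeg_conj (g x : G) (a : Zhat) : pw (g⁻¹ * x * g) a = g⁻¹ * pw x a * g := by
  have := pw_conj g⁻¹ x a
  rwa [inv_inv] at this

omit [TopologicalSpace G] [IsTopologicalGroup G] [CompactSpace G] [TotallyDisconnectedSpace G] in
theorem cdeg_isConj {x y : G} (h : IsConj x y) : ∃ g, y = g⁻¹ * x * g := by
  obtain ⟨g, rfl⟩ := isConj_iff.1 h
  exact ⟨g⁻¹, by rw [inv_inv]⟩

/-- Plan: `m i = ram * b i` (`pw_mem_iff`) with `b i` odd, so `f (y i) = ev f (cls (ρ i) (c i))` for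
every character `f` mod `2` on `U` (`pw_cel`, `IsCh.map_pw`, `ev_cls`). The cusps `cls (ρ i) (c i)`
are distinct; by `cusp_dual` the indicator function of their set is constant. -/
theorem cusp_all (hl : IsBasis l) (hn : 1 ≤ n) (hU : IsOpen (U : Set G)) {ρ : Fin n → Fin n}
    (hρ : Function.Injective ρ) (c : Fin n → G) {m : Fin n → Zhat} (hm : ∀ i, res 2 (m i) = 1)
    (h1 : ∀ i, (c i)⁻¹ * pw (l (ρ i)) (m i) * c i ∈ U)
    (h2 : (List.ofFn fun i => (c i)⁻¹ * pw (l (ρ i)) (m i) * c i).prod = 1) (x : Cusp l U) :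
    ∃ i, x = cls l U (ρ i) (c i) := by
  have := finite_cusp (l := l) hU
  let _ := Fintype.ofFinite (Cusp l U)
  have hinj : Function.Injective fun i => cls l U (ρ i) (c i) := fun i j hij =>
    hρ (congrArg Sigma.fst hij)
  have key := cusp_dual hl hU
    (fun x => if x ∈ Finset.univ.image (fun i => cls l U (ρ i) (c i)) then (1 : ZMod 2) else 0)
    (fun f hf => ?_) x (cls l U (ρ ⟨0, hn⟩) (c ⟨0, hn⟩))
  · rw [if_pos (Finset.mem_image_of_mem _ (Finset.mem_univ _))] at key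
    by_contra hx
    rw [if_neg] at key
    · exact zero_ne_one key
    · intro h
      obtain ⟨i, -, hi⟩ := Finset.mem_image.1 h
      exact hx ⟨i, hi.symm⟩
  · simp only [ite_mul, one_mul, zero_mul]
    rw [Finset.sum_ite_mem, Finset.univ_inter, Finset.sum_image fun i _ j _ hij => hinj hij]
    have h3 := cdeg_prod hf _ (List.forall_mem_ofFn_iff.2 h1)
    rw [h2, hf.one, List.map_ofFn, List.sum_ofFn] at h3
    refine (Finset.sum_congr rfl fun i _ => ?_).trans h3.symm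
    obtain ⟨b, hb⟩ := (pw_mem_iff hU _ _ _).1 (h1 i)
    have h4 : ∀ x y : ZMod 2, x * y = 1 → y = 1 := by decide
    have h5 : res 2 b = 1 := h4 _ _ (by rw [← map_mul, ← hb, hm])
    rw [ev_cls hU hf, Function.comp_apply, hb, ← pw_cel, hf.map_pw (cel_mem _ _), h5, one_mul]

/-- Plan: every `g` is `pw (l (ρ i)) a * c i * u` (`cusp_all`, `cls_eq_iff`), so `g ∈ c i • U`. -/
theorem eq_top_of_unram (hl : IsBasis l) (hU : IsOpen (U : Set G)) {ρ : Fin n → Fin n}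
    (hρ : Function.Injective ρ) (c : Fin n → G) {m : Fin n → Zhat} (hm : ∀ i, res 2 (m i) = 1)
    (h1 : ∀ i, (c i)⁻¹ * pw (l (ρ i)) (m i) * c i ∈ U)
    (h2 : (List.ofFn fun i => (c i)⁻¹ * pw (l (ρ i)) (m i) * c i).prod = 1) (i : Fin n)
    (h3 : (c i)⁻¹ * l (ρ i) * c i ∈ U) : U = ⊤ := by
  refine eq_top_iff.2 fun w _ => ?_
  obtain ⟨j, hj⟩ := cusp_all hl i.pos hU hρ c hm h1 h2 (cls l U (ρ i) (c i * w))
  obtain rfl : i = j := hρ (congrArg Sigma.fst hj)
  obtain ⟨a, u, hu, e⟩ := (cls_eq_iff hU _ _ _).1 hj.symm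
  have h4 := pw_mem (U.isClosed_of_isOpen hU) h3 a
  rw [cdeg_conj] at h4
  have h5 : w = (c i)⁻¹ * pw (l (ρ i)) a * c i * u := by
    rw [mul_assoc, mul_assoc, ← mul_assoc (pw _ a), ← e, inv_mul_cancel_left]
  rw [h5]
  exact U.mul_mem h4 hu

/-- Hopf property. Hint: `exists_char`; a surjective self-map of a finite quotient is
injective. -/
theorem IsBasis.inj_of_surj (hl : IsBasis l) (f : G →* G) (hf : Continuous f)
    (hs : Function.Surjective f) : Function.Injective f := by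
  refine (injective_iff_map_eq_one f).2 fun x hx => eq_of_pr fun N => ?_
  obtain ⟨M, hM, h⟩ := hl.exists_char N
  let F : G ⧸ M.toSubgroup →* G ⧸ M.toSubgroup :=
    QuotientGroup.map M.toSubgroup M.toSubgroup f fun g hg => h f hf g hg
  have hF : ∀ g, F (pr M g) = pr M (f g) := fun g => rfl
  have h1 : Function.Surjective F := fun q => by
    obtain ⟨g, rfl⟩ := QuotientGroup.mk'_surjective M.toSubgroup q
    obtain ⟨g', rfl⟩ := hs g
    exact ⟨pr M g', hF g'⟩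
  refine pr_mono hM (Finite.injective_iff_surjective.2 h1 ?_)
  rw [hF, hF, hx, map_one f]

/-- Plan: lift `y` to `f`; its range is closed, and for every `N` the open subgroup
`range ⊔ N` is everything (`eq_top_of_unram`; `pw_mem` with `a⁻¹`), so `f` is onto
(`mem_of_pr`). -/
theorem exists_aut_of_tuple (hl : IsBasis l) (hn : 1 ≤ n) {y : Fin n → G}
    (ρ : Equiv.Perm (Fin n)) (a : Zhatˣ) (h1 : ∀ i, IsConj (pw (l (ρ i)) a) (y i))
    (h2 : (List.ofFn y).prod = 1) : ∃ φ : MulAut G, HasChar l φ a ∧ ∀ i, φ (l i) = y i := by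
  obtain ⟨f, hf, hy⟩ := hl.lift G y h2
  choose c hc using fun i => cdeg_isConj (h1 i)
  have hs : Function.Surjective f := fun g => by
    refine mem_of_pr (S := Set.range f) (isCompact_range hf).isClosed fun N => ?_
    have hU : IsOpen ((f.range ⊔ N.toSubgroup : Subgroup G) : Set G) :=
      Subgroup.isOpen_mono le_sup_right N.isOpen'
    have h3 : ∀ i, (c i)⁻¹ * pw (l (ρ i)) a * c i ∈ f.range ⊔ N.toSubgroup := fun i =>
      Subgroup.mem_sup_left ⟨l i, by rw [hy, hc]⟩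
    have h4 := eq_top_of_unram hl hU ρ.injective c (m := fun _ => a) (fun _ => res_two_unit a) h3
      (by rw [← h2]; congr 2; exact funext fun i => (hc i).symm) ⟨0, hn⟩ (by
        have h5 := pw_mem (Subgroup.isClosed_of_isOpen _ hU) (h3 ⟨0, hn⟩) (a⁻¹ : Zhatˣ)
        rwa [cdeg_conj, ← pw_mul, Units.mul_inv, pw_one] at h5)
    have h6 : g ∈ f.range ⊔ N.toSubgroup := h4 ▸ Subgroup.mem_top g
    obtain ⟨r, hr, u, hu, rfl⟩ := Subgroup.mem_sup_of_normal_right.1 h6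
    exact ⟨r, hr, by rw [map_mul, (pr_eq_one_iff N u).2 hu, mul_one]⟩
  refine ⟨MulEquiv.ofBijective f ⟨hl.inj_of_surj f hf hs, hs⟩,
    ⟨hf, ρ, fun i => ⟨(c i)⁻¹, _, isPow_iff.2 rfl, ?_⟩⟩, hy⟩
  rw [inv_inv, ← hc]
  exact hy i

/-- Hint: `arith_isUnit`; the inverses of the residues are compatible. -/
theorem zhat_isUnit {v : Zhat} (hv : ∀ (q : ℕ) [Fact q.Prime], res q v ≠ 0) : IsUnit v := by
  have hu : ∀ m : ℕ+, IsUnit (v.1 m) := fun m =>
    have : NeZero (m : ℕ) := ⟨m.ne_zero⟩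
    arith_isUnit hv m
  choose w hw using fun m => (hu m).exists_right_inv
  refine IsUnit.of_mul_eq_one ⟨w, fun m k hmk => ?_⟩ (Subtype.ext (funext hw))
  refine (hu m).mul_left_cancel ?_
  rw [hw, ← v.2 m k hmk, ← map_mul, hw, map_one]

/-- Plan: characters mod `m` (`exists_ch_pair`, `zhat_ext`) give `a = b = c`. If a prime `q`
divides `a`, apply `eq_top_of_unram` to the kernel `U` of the character mod `q` with values
`1, -1, 0` on the classes of `x, y, z`. -/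
theorem unit_of_prod {h : Fin 3 → G} (hh : IsBasis h) {x y z : G} (hx : Cg h x) (hy : Cg h y)
    (hz : Cg h z) (h1 : ¬IsConj x y) (h2 : ¬IsConj x z) (h3 : ¬IsConj y z) {a b c : Zhat}
    (ha : res 2 a = 1) (hp : pw x a * pw y b * pw z c = 1) :
    ∃ u : Zhatˣ, a = u ∧ b = u ∧ c = u := by
  obtain ⟨i, hi⟩ := hx
  obtain ⟨j, hj⟩ := hy
  obtain ⟨k, hk⟩ := hz
  have hij : i ≠ j := fun e => h1 (hi.symm.trans (e ▸ hj))
  have hik : i ≠ k := fun e => h2 (hi.symm.trans (e ▸ hk))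
  have hjk : j ≠ k := fun e => h3 (hj.symm.trans (e ▸ hk))
  have key : ∀ (m : ℕ) [NeZero m] (f : G → ZMod m), IsCh ⊤ f →
      res m a * f (h i) + res m b * f (h j) + res m c * f (h k) = 0 := fun m _ f hf => by
    have e := congrArg f hp
    rwa [hf.1 _ trivial _ trivial, hf.1 _ trivial _ trivial, hf.map_pw trivial, hf.map_pw trivial,
      hf.map_pw trivial, hf.isConj hi, hf.isConj hj, hf.isConj hk, hf.one] at e
  obtain rfl : a = b := zhat_ext fun m _ => by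
    obtain ⟨f, hf, e1, e2, e3⟩ := exists_ch_pair hh m hij
    have e := key m f hf
    rw [e1, e2, e3 k hik.symm hjk.symm] at e
    linear_combination e
  obtain rfl : a = c := zhat_ext fun m _ => by
    obtain ⟨f, hf, e1, e2, e3⟩ := exists_ch_pair hh m hik
    have e := key m f hf
    rw [e1, e2, e3 j hij.symm hjk] at e
    linear_combination e
  obtain ⟨u, hu⟩ := zhat_isUnit (v := a) fun q _ hq => by
    obtain ⟨f, hf, e1, -, e3⟩ := exists_ch_pair hh q hij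
    let K : Subgroup G :=
      { carrier := {g | f g = 0}
        one_mem' := hf.one
        mul_mem' := fun {s t} hs ht => by
          have := hf.1 s trivial t trivial
          rwa [show f s = 0 from hs, show f t = 0 from ht, add_zero] at this
        inv_mem' := fun {s} hs => by
          have := hf.inv (a := s) trivial
          rwa [show f s = 0 from hs, neg_zero] at this }
    have hK : IsOpen (K : Set G) := by
      obtain ⟨N, hN⟩ := hf.2
      exact Subgroup.isOpen_mono (H₁ := N.toSubgroup) (fun g hg => (hN g hg).2) N.isOpen'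
    obtain ⟨s, rfl⟩ := cdeg_isConj hi
    obtain ⟨t, rfl⟩ := cdeg_isConj hj
    obtain ⟨w, rfl⟩ := cdeg_isConj hk
    have hρ : Function.Injective ![i, j, k] := by
      intro r r' e
      fin_cases r <;> fin_cases r' <;> simp_all
    have h4 := eq_top_of_unram hh hK hρ ![s, t, w] (m := fun _ => a) (fun _ => ha) (fun r => by
      change f _ = 0
      rw [← cdeg_conj, hf.map_pw trivial, hq, zero_mul]) (by
      simp only [cdeg_conj] at hp
      simpa [List.ofFn_succ, mul_assoc] using hp) 2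
      ((hf.isConj hk).trans (e3 k hik.symm hjk.symm))
    have h5 : h i ∈ K := h4 ▸ Subgroup.mem_top _
    exact one_ne_zero (e1.symm.trans h5)
  exact ⟨u, hu.symm, hu.symm, hu.symm⟩

end Pool.Agent.MP_1c2b6e_al

/-! The group `Gam l`, change of basis. -/

namespace Pool.Agent.MP_1c2b6e_al

open Classical

variable {G : Type} [Group G] [TopologicalSpace G] [IsTopologicalGroup G] [CompactSpace G]
  [TotallyDisconnectedSpace G] {n : ℕ} {l : Fin n → G} {δ θ φ σ k : MulAut G}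

theorem cgam_char {a : Zhatˣ} : HasChar l φ a ↔
    Continuous φ ∧ ∃ ρ : Equiv.Perm (Fin n), ∀ i, IsConj (pw (l (ρ i)) a) (φ (l i)) := by
  refine and_congr_right fun _ => exists_congr fun ρ => forall_congr' fun i => ?_
  rw [isConj_iff]
  exact ⟨fun ⟨α, y, hy, e⟩ => ⟨α, by rw [e, isPow_iff.1 hy]⟩,
    fun ⟨α, e⟩ => ⟨α, _, isPow_iff.2 rfl, e.symm⟩⟩

theorem cgam_pure {a : Zhatˣ} :
    Pure l φ a ↔ Continuous φ ∧ ∀ i, IsConj (pw (l i) a) (φ (l i)) := by
  refine and_congr_right fun _ => forall_congr' fun i => ?_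
  rw [isConj_iff]
  exact exists_congr fun _ => eq_comm

theorem gam_perm (hδ : δ ∈ Gam l) :
    Continuous δ ∧ ∃ ρ : Equiv.Perm (Fin n), ∀ i, IsConj (l (ρ i)) (δ (l i)) := by
  have h := cgam_char.1 (show HasChar l δ 1 from hδ.2)
  simpa only [Units.val_one, pw_one] using h

theorem mem_gam_of_sig (hl : IsBasis l) (hn : 3 ≤ n) (hk : k ∈ Sig l) : k ∈ Gam l :=
  ((mem_Sig_iff hl hn).1 hk).1

theorem mem_sig_of_gam (hl : IsBasis l) (hn : 3 ≤ n) (hδ : δ ∈ Gam l)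
    (h : ∀ i, IsConj (l i) (δ (l i))) : δ ∈ Sig l :=
  (mem_Sig_iff hl hn).2 ⟨hδ, 1, pure_one_iff.2 ⟨(gam_perm hδ).1, h⟩⟩

theorem sig_isConj (hk : k ∈ Sig l) {z : G} (hz : Cg l z) : IsConj z (k z) := by
  obtain ⟨i, hi⟩ := hz
  exact hi.symm.trans (((pure_one_iff.1 hk.1).2 i).trans (isConj_aut k hi))

theorem gam_cg (hδ : δ ∈ Gam l) {z : G} (hz : Cg l z) : Cg l (δ z) := by
  obtain ⟨i, hi⟩ := hz
  obtain ⟨-, ρ, h⟩ := gam_perm hδ
  exact ⟨ρ i, (h i).trans (isConj_aut δ hi)⟩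

/-- Conjugating a pure automorphism by an automorphism with a character gives a pure one. -/
theorem HasChar.conj_pure {a b : Zhatˣ} (hφ : HasChar l φ a) (hk : Pure l k b) :
    Pure l (φ * k * φ⁻¹) b := by
  obtain ⟨c, ρ, h⟩ := cgam_char.1 hφ.inv
  refine cgam_pure.2 ⟨hφ.1.comp (hk.1.comp c), fun i => ?_⟩
  have h1 := isConj_pw ((cgam_pure.1 hk).2 (ρ i)) (a⁻¹ : Zhatˣ)
  rw [← map_pw_aut k hk.1, ← pw_mul, mul_comm, pw_mul] at h1
  have h2 := isConj_aut φ ((isConj_pw (h i) b).symm.trans (h1.trans (isConj_aut k (h i))))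
  rwa [map_pw_aut φ hφ.1, MulAut.apply_inv_self] at h2

theorem gam_conj_sig (hl : IsBasis l) (hn : 3 ≤ n) (hδ : δ ∈ Gam l) (hk : k ∈ Sig l) :
    δ * k * δ⁻¹ ∈ Sig l := by
  exact (mem_Sig_iff hl hn).2 ⟨mul_mem (mul_mem hδ (mem_gam_of_sig hl hn hk)) (inv_mem hδ), 1,
    HasChar.conj_pure (a := 1) hδ.2 hk.1⟩

/-- Hint: `IsBasis.map` with a `ContinuousMulEquiv`, `continuous_inv_aut`. -/
theorem IsBasis.aut (hl : IsBasis l) (hφ : Continuous φ) : IsBasis fun i => φ (l i) := by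
  exact hl.map ⟨φ, hφ, continuous_inv_aut φ hφ⟩

theorem cgam_char_map (hφ : Continuous φ) {a : Zhatˣ} (h : HasChar l θ a) :
    HasChar (fun i => φ (l i)) (φ * θ * φ⁻¹) a := by
  obtain ⟨c, ρ, h⟩ := cgam_char.1 h
  refine cgam_char.2 ⟨hφ.comp (c.comp (continuous_inv_aut φ hφ)), ρ, fun i => ?_⟩
  rw [MulAut.mul_apply, MulAut.mul_apply, MulAut.inv_apply_self, ← map_pw_aut φ hφ]
  exact isConj_aut φ (h i)

theorem cgam_disc_map (hφ : Continuous φ) (h : θ ∈ discS l) :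
    φ * θ * φ⁻¹ ∈ discS fun i => φ (l i) := by
  obtain ⟨⟨a, ha⟩, h⟩ := h
  refine ⟨⟨a, cgam_char_map hφ ha⟩, ?_⟩
  have e1 : Subgroup.closure (Set.range fun i => φ (l i)) =
      (Subgroup.closure (Set.range l)).map φ.toMonoidHom := by
    rw [MonoidHom.map_closure, ← Set.range_comp]
    rfl
  have e2 : (φ * θ * φ⁻¹).toMonoidHom.comp φ.toMonoidHom = φ.toMonoidHom.comp θ.toMonoidHom :=
    MonoidHom.ext fun x => by simp
  rw [e1, Subgroup.map_map, e2, ← Subgroup.map_map, h]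

theorem cgam_gam_map (hφ : Continuous φ) (h : θ ∈ Gam l) :
    φ * θ * φ⁻¹ ∈ Gam fun i => φ (l i) := by
  have h1 : HasChar (fun i => φ (l i)) (φ * θ * φ⁻¹) 1 := cgam_char_map hφ h.2
  refine ⟨⟨⟨1, h1⟩, fun N => ?_⟩, h1⟩
  obtain ⟨ψ, h2, h3⟩ := h.1.2 (pre φ.toMonoidHom hφ N)
  refine ⟨_, cgam_disc_map hφ h2, fun g => (pr_eq_iff N _ _).1 ?_⟩
  exact (pr_pre φ.toMonoidHom hφ N).1 ((pr_eq_iff _ _ _).2 (h3 (φ⁻¹ g)))

/-- Hint: unfold `closS`, `discS`, `frakS`, `plusS`; prove one implication for all `l`, `φ`. -/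
theorem mem_gam_map (hφ : Continuous φ) {ψ : MulAut G} :
    ψ ∈ Gam (fun i => φ (l i)) ↔ φ⁻¹ * ψ * φ ∈ Gam l := by
  constructor
  · intro h
    have h1 := cgam_gam_map (continuous_inv_aut φ hφ) h
    simpa only [MulAut.inv_apply_self, inv_inv] using h1
  · intro h
    have h1 := cgam_gam_map hφ h
    rwa [show φ * (φ⁻¹ * ψ * φ) * φ⁻¹ = ψ by group] at h1

theorem gam_aut (hδ : δ ∈ Gam l) : Gam (fun i => δ (l i)) = Gam l := by
  ext ψ
  rw [mem_gam_map (gam_perm hδ).1, Subgroup.mul_mem_cancel_right _ hδ,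
    Subgroup.mul_mem_cancel_left _ (inv_mem hδ)]

omit [TopologicalSpace G] [IsTopologicalGroup G] [CompactSpace G] [TotallyDisconnectedSpace G] in
theorem cgam_symm {l' : Fin n → G} {ρ : Equiv.Perm (Fin n)} (h : ∀ i, IsConj (l (ρ i)) (l' i))
    (i : Fin n) : IsConj (l' (ρ.symm i)) (l i) := by
  simpa using (h (ρ.symm i)).symm

theorem cgam_pure_of {l' : Fin n → G} {ρ : Equiv.Perm (Fin n)} (h : ∀ i, IsConj (l (ρ i)) (l' i))
    {a : Zhatˣ} (hφ : Pure l φ a) : Pure l' φ a :=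
  cgam_pure.2 ⟨hφ.1, fun i => (isConj_pw (h i) a).symm.trans
    (((cgam_pure.1 hφ).2 (ρ i)).trans (isConj_aut φ (h i)))⟩

theorem pure_aut (hδ : δ ∈ Gam l) {a : Zhatˣ} : Pure (fun i => δ (l i)) φ a ↔ Pure l φ a := by
  obtain ⟨-, ρ, h⟩ := gam_perm hδ
  exact ⟨cgam_pure_of (cgam_symm h), cgam_pure_of h⟩

theorem sig_aut (hl : IsBasis l) (hn : 3 ≤ n) (hδ : δ ∈ Gam l) :
    Sig (fun i => δ (l i)) = Sig l := by
  ext ψ
  rw [mem_Sig_iff (hl.aut (gam_perm hδ).1) hn, mem_Sig_iff hl hn]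
  exact and_congr (SetLike.ext_iff.1 (gam_aut hδ) ψ) (exists_congr fun _ => pure_aut hδ)

theorem cg_aut (hδ : δ ∈ Gam l) {z : G} : Cg (fun i => δ (l i)) z ↔ Cg l z := by
  obtain ⟨-, ρ, h⟩ := gam_perm hδ
  exact ⟨fun ⟨i, hi⟩ => ⟨ρ i, (h i).trans hi⟩,
    fun ⟨i, hi⟩ => ⟨ρ.symm i, (cgam_symm h i).trans hi⟩⟩

theorem Adm.aut (hl : IsBasis l) (hn : 3 ≤ n) (hθ : Adm l θ) (hδ : δ ∈ Gam l) :
    Adm (fun i => δ (l i)) θ := by
  refine ⟨(pure_aut hδ).2 hθ.pure, ?_, ?_⟩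
  · rw [gam_aut hδ, sig_aut hl hn hδ]
    exact hθ.comm
  · rw [sig_aut hl hn hδ]
    exact hθ.sq

omit [IsTopologicalGroup G] [CompactSpace G] [TotallyDisconnectedSpace G] in
theorem cgam_pq_of {l' : Fin n → G} {ρ : Equiv.Perm (Fin n)} (h : ∀ i, IsConj (l (ρ i)) (l' i))
    {q : G →* SurfHat 3} (hq : PQ l q) : PQ l' q := by
  obtain ⟨c, e, h1, h2, h3⟩ := hq
  refine ⟨c, fun j => ρ.symm (e j), ρ.symm.injective.comp h1,
    fun j => (h2 j).trans (q.map_isConj (cgam_symm h (e j))).symm, fun i hi => ?_⟩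
  have h4 := q.map_isConj (h i)
  rw [h3 (ρ i) fun ⟨j, hj⟩ => hi ⟨j, by simp [hj]⟩] at h4
  exact isConj_one_right.1 h4

theorem pq_aut (hδ : δ ∈ Gam l) {q : G →* SurfHat 3} : PQ (fun i => δ (l i)) q ↔ PQ l q := by
  obtain ⟨-, ρ, h⟩ := gam_perm hδ
  exact ⟨cgam_pq_of (cgam_symm h), cgam_pq_of h⟩

theorem tri_aut (hl : IsBasis l) (hn : 3 ≤ n) (hδ : δ ∈ Gam l) {a : Zhat} :
    Tri (fun i => δ (l i)) θ a ↔ Tri l θ a := by
  simp only [Tri, pq_aut hδ, sig_aut hl hn hδ]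

theorem Adm.conj_sig (hl : IsBasis l) (hn : 3 ≤ n) (hθ : Adm l θ) (hk : k ∈ Sig l) :
    θ * k * θ⁻¹ ∈ Sig l := by
  have h := mul_mem (hθ.comm k (mem_gam_of_sig hl hn hk)) hk
  rwa [inv_mul_cancel_right] at h

theorem Adm.conj_sig' (hl : IsBasis l) (hn : 3 ≤ n) (hθ : Adm l θ) (hk : k ∈ Sig l) :
    θ⁻¹ * k * θ ∈ Sig l := by
  have h := mul_mem (mul_mem (inv_mem hθ.sq) (hθ.conj_sig hl hn hk)) hθ.sq
  rwa [show (θ * θ)⁻¹ * (θ * k * θ⁻¹) * (θ * θ) = θ⁻¹ * k * θ by group] at h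

theorem Adm.sig_mul (hl : IsBasis l) (hn : 3 ≤ n) (hθ : Adm l θ) (hk : k ∈ Sig l) :
    Adm l (k * θ) := by
  refine ⟨by simpa using hk.1.mul hθ.pure, fun δ hδ => ?_, ?_⟩
  · have h := mul_mem (mul_mem hk (hθ.comm δ hδ)) (gam_conj_sig hl hn hδ (inv_mem hk))
    rwa [show k * (θ * δ * θ⁻¹ * δ⁻¹) * (δ * k⁻¹ * δ⁻¹) = k * θ * δ * (k * θ)⁻¹ * δ⁻¹ by group] at h
  · have h := mul_mem (mul_mem hk (hθ.conj_sig hl hn hk)) hθ.sq
    rwa [show k * (θ * k * θ⁻¹) * (θ * θ) = k * θ * (k * θ) by group] at h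

theorem Adm.mul_sig (hl : IsBasis l) (hn : 3 ≤ n) (hθ : Adm l θ) (hk : k ∈ Sig l) :
    Adm l (θ * k) := by
  have h := hθ.sig_mul hl hn (hθ.conj_sig hl hn hk)
  rwa [inv_mul_cancel_right] at h

theorem Adm.gam_conj (hl : IsBasis l) (hn : 3 ≤ n) (hθ : Adm l θ) (hδ : δ ∈ Gam l) :
    δ⁻¹ * θ * δ * θ⁻¹ ∈ Sig l := by
  have h := inv_mem (hθ.comm δ⁻¹ (inv_mem hδ))
  rwa [show (θ * δ⁻¹ * θ⁻¹ * δ⁻¹⁻¹)⁻¹ = δ⁻¹ * θ * δ * θ⁻¹ by group] at h

theorem Tri.sig_mul {a : Zhat} (h : Tri l θ a) (hk : k ∈ Sig l) : Tri l (k * θ) a := by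
  intro q hq k' hk' s hs
  rw [← mul_assoc] at hs
  exact h q hq _ (mul_mem hk' hk) s hs

theorem Tri.mul_conj {a : Zhat} (hl : IsBasis l) (h : Tri l θ a) (x : G) :
    Tri l (θ * MulAut.conj x) a := by
  rw [mul_conj_eq]
  exact h.sig_mul (conj_mem_Sig hl _)

end Pool.Agent.MP_1c2b6e_al

/-! Discrete moves: Hurwitz moves, rotations, generation of `Gam l`. -/

namespace Pool.Agent.MP_1c2b6e_al

open Classical

variable {G : Type} [Group G] [TopologicalSpace G] [IsTopologicalGroup G] [CompactSpace G]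
  [TotallyDisconnectedSpace G] {n : ℕ} {l : Fin n → G} {δ θ φ σ k : MulAut G}

/-- Hint: `exists_aut_of_tuple` with `a = 1`, `disca_of_gen`. -/
theorem exists_gam_of_tuple (hl : IsBasis l) (hn : 1 ≤ n) {y : Fin n → G}
    (ρ : Equiv.Perm (Fin n)) (h1 : ∀ i, IsConj (l (ρ i)) (y i)) (h2 : (List.ofFn y).prod = 1)
    (h3 : ∀ i, y i ∈ Subgroup.closure (Set.range l))
    (h4 : ∀ i, l i ∈ Subgroup.closure (Set.range y)) : ∃ δ ∈ Gam l, ∀ i, δ (l i) = y i := by
  obtain ⟨φ, h7, h5⟩ := exists_aut_of_tuple hl hn ρ 1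
    (fun i => by rw [Units.val_one, pw_one]; exact h1 i) h2
  have h8 : Disc l φ := by
    refine disca_of_gen (fun i => by rw [h5]; exact h3 i) fun i => ?_
    have h9 : Subgroup.closure (Set.range y) ≤
        (Subgroup.closure (Set.range l)).map φ.toMonoidHom := by
      rw [Subgroup.closure_le]
      rintro _ ⟨m, rfl⟩
      exact ⟨l m, Subgroup.subset_closure ⟨m, rfl⟩, h5 m⟩
    exact h9 (h4 i)
  exact ⟨φ, ⟨⟨⟨1, h7⟩, fun N => ⟨φ, ⟨⟨1, h7⟩, h8⟩, fun x => by simp⟩⟩, h7⟩, h5⟩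

theorem cmov_hur_conj {K : Type} [Group K] (y : Fin n → K) (i j m : Fin n) :
    IsConj (y (Equiv.swap i j m)) (hur i j y m) := by
  rw [hur]
  split_ifs with e1 e2
  · rw [e1, Equiv.swap_apply_left]
    exact isConj_iff.2 ⟨y i, rfl⟩
  · rw [e2, Equiv.swap_apply_right]
  · rw [Equiv.swap_apply_of_ne_of_ne e1 e2]

/-- Hint: as in `disca_swap`. -/
theorem exists_hur (hl : IsBasis l) {i j : Fin n} (hij : (j : ℕ) = i + 1) :
    ∃ σ ∈ Gam l, Hur l i j σ := by
  have hm : ∀ (y : Fin n → G) m, y m ∈ Subgroup.closure (Set.range y) :=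
    fun y m => Subgroup.subset_closure ⟨m, rfl⟩
  obtain ⟨σ, h1, h2⟩ := exists_gam_of_tuple hl i.pos (y := hur i j l) (Equiv.swap i j)
    (cmov_hur_conj l i j) (by rw [prod_hur hij, hl.prod]) (fun m => by
      rw [hur]
      split_ifs
      exacts [mul_mem (mul_mem (hm l i) (hm l j)) (inv_mem (hm l i)), hm l i, hm l m]) (fun m => by
      rw [← congrFun (artin_hur'_hur (artin_ne hij) l) m, hur']
      split_ifs
      exacts [hm _ j, mul_mem (mul_mem (inv_mem (hm _ j)) (hm _ i)) (hm _ j), hm _ m])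
  exact ⟨σ, h1, (gam_perm h1).1, h2⟩

theorem Hur.unique (hl : IsBasis l) {i j : Fin n} {σ' : MulAut G} (h : Hur l i j σ)
    (h' : Hur l i j σ') : σ = σ' := by
  exact MulEquiv.toMonoidHom_injective
    (hl.ext (f := σ.toMonoidHom) (g := σ'.toMonoidHom) h.1 h'.1 fun m => (h.2 m).trans (h'.2 m).symm)

theorem Hur.mem_gam (hl : IsBasis l) {i j : Fin n} (hij : (j : ℕ) = i + 1) (h : Hur l i j σ) :
    σ ∈ Gam l := by
  obtain ⟨σ', h1, h2⟩ := exists_hur hl hij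
  rwa [h.unique hl h2]

theorem Hur.isConj {i j : Fin n} (h : Hur l i j σ) (m : Fin n) :
    IsConj (l (Equiv.swap i j m)) (σ (l m)) := by
  rw [h.2]
  exact cmov_hur_conj l i j m

theorem Hur.aut {i j : Fin n} (h : Hur l i j σ) (hφ : Continuous φ) :
    Hur (fun m => φ (l m)) i j (φ * σ * φ⁻¹) := by
  refine ⟨hφ.comp (h.1.comp (continuous_inv_aut φ hφ)), fun m => ?_⟩
  rw [MulAut.mul_apply, MulAut.mul_apply, MulAut.inv_apply_self, h.2]
  exact artin_map_hur φ.toMonoidHom i j l m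

/-- A pure involution times a Hurwitz move that it inverts is a twisted involution. -/
theorem Hur.invol {i j : Fin n} (h : Hur l i j σ) {t : MulAut G} (ht : Pure l t (-1))
    (h2 : t * t = 1) (h3 : t * σ * t⁻¹ = σ⁻¹) : Invol l (t * σ) := by
  refine ⟨ht.1.comp h.1, ?_, Equiv.swap i j, fun m =>
    ((pure_neg_iff.1 ht).2 _).trans (isConj_aut t (h.isConj m))⟩
  calc t * σ * (t * σ) = t * σ * t⁻¹ * (t * t) * σ := by group
    _ = 1 := by rw [h3, h2, mul_one, inv_mul_cancel]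

theorem Hur.isConj_mul {i j : Fin n} (h : Hur l i j σ) {t : MulAut G} (ht : Pure l t (-1))
    (m : Fin n) : IsConj (l (Equiv.swap i j m))⁻¹ ((t * σ) (l m)) := by
  exact ((pure_neg_iff.1 ht).2 _).trans (isConj_aut t (h.isConj m))

/-- Rotation of the basis. Hint: `List.ofFn_succ`, `List.ofFn_succ'`, `finRotate`. -/
theorem exists_rot {r : ℕ} {l : Fin (r + 3) → G} (hl : IsBasis l) :
    ∃ δ ∈ Gam l, (∀ m, δ (l m) = l (m + 1)) ∧
      ∀ σ, Hur l 1 2 σ → Hur (fun m => δ (l m)) 0 1 σ := by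
  have hm : ∀ (y : Fin (r + 3) → G) m, y m ∈ Subgroup.closure (Set.range y) :=
    fun y m => Subgroup.subset_closure ⟨m, rfl⟩
  obtain ⟨δ, h1, h2⟩ := exists_gam_of_tuple hl (by omega) (y := fun m => l (m + 1))
    (Equiv.addRight 1) (fun m => IsConj.refl _) (by
      have h := hl.prod
      rw [List.ofFn_succ, List.prod_cons] at h
      rw [List.ofFn_succ', List.prod_concat]
      simp only [Fin.coeSucc_eq_succ, Fin.last_add_one]
      exact mul_eq_one_comm.1 h) (fun m => hm l _) (fun m => by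
      have h := hm (fun m => l (m + 1)) (m - 1)
      simpa using h)
  refine ⟨δ, h1, h2, fun σ hσ => ⟨hσ.1, fun m => ?_⟩⟩
  have e : (1 : Fin (r + 3)) + 1 = 2 := rfl
  have e1 : m + 1 = 1 ↔ m = 0 := add_eq_right
  have e2 : m + 1 = 2 ↔ m = 1 := by rw [← e, add_left_inj]
  simp only [h2, hσ.2, hur, e1, e2, zero_add, e]

/-- The half twist exchanging the last and the first generator. -/
theorem exists_swap {r : ℕ} {l : Fin (r + 2) → G} (hl : IsBasis l) :
    ∃ δ ∈ Gam l, δ (l 0) = l (Fin.last _) ∧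
      δ (l (Fin.last _)) = l (Fin.last _) * l 0 * (l (Fin.last _))⁻¹ ∧
      ∀ i, i ≠ 0 → i ≠ Fin.last _ → δ (l i) = l i := by
  have hm : ∀ (y : Fin (r + 2) → G) m, y m ∈ Subgroup.closure (Set.range y) :=
    fun y m => Subgroup.subset_closure ⟨m, rfl⟩
  have hne : Fin.last (r + 1) ≠ 0 := Fin.last_pos.ne'
  obtain ⟨y, y0, y1, y2⟩ : ∃ y : Fin (r + 2) → G, y 0 = l (Fin.last _) ∧
      y (Fin.last _) = l (Fin.last _) * l 0 * (l (Fin.last _))⁻¹ ∧
      ∀ i, i ≠ 0 → i ≠ Fin.last _ → y i = l i :=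
    ⟨hur (Fin.last _) 0 l, by simp [hur, hne.symm], by simp [hur],
      fun i a b => by simp [hur, a, b]⟩
  obtain ⟨δ, h1, h2⟩ := exists_gam_of_tuple hl (by omega) (y := y) (Equiv.swap 0 (Fin.last _))
    (fun m => by
      by_cases a : m = 0
      · rw [a, Equiv.swap_apply_left, y0]
      · by_cases b : m = Fin.last _
        · rw [b, Equiv.swap_apply_right, y1]
          exact isConj_iff.2 ⟨_, rfl⟩
        · rw [Equiv.swap_apply_of_ne_of_ne a b, y2 m a b])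
    (by
      have h := hl.prod
      rw [List.ofFn_succ, List.prod_cons, List.ofFn_succ', List.prod_concat, Fin.succ_last] at h ⊢
      have e : (fun i : Fin r => y i.castSucc.succ) = fun i : Fin r => l i.castSucc.succ :=
        funext fun i => y2 _ (Fin.succ_ne_zero _) (by
          rw [← Fin.succ_last]
          exact fun e => (Fin.castSucc_lt_last i).ne (Fin.succ_injective _ e))
      rw [e, y0, y1]
      generalize (List.ofFn fun i : Fin r => l i.castSucc.succ).prod = w at h ⊢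
      rw [eq_inv_of_mul_eq_one_left h]
      group)
    (fun m => by
      by_cases a : m = 0
      · rw [a, y0]
        exact hm l _
      · by_cases b : m = Fin.last _
        · rw [b, y1]
          exact mul_mem (mul_mem (hm l _) (hm l _)) (inv_mem (hm l _))
        · rw [y2 m a b]
          exact hm l _)
    (fun m => by
      by_cases a : m = 0
      · have e : l 0 = (y 0)⁻¹ * y (Fin.last _) * y 0 := by
          rw [y0, y1]
          group
        rw [a, e]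
        exact mul_mem (mul_mem (inv_mem (hm y _)) (hm y _)) (hm y _)
      · by_cases b : m = Fin.last _
        · rw [b, ← y0]
          exact hm y _
        · rw [← y2 m a b]
          exact hm y _)
  exact ⟨δ, h1, by rw [h2, y0], by rw [h2, y1], fun i a b => by rw [h2, y2 i a b]⟩

theorem cmov_perm (hl : IsBasis l) (hn : 3 ≤ n) (ρ : Equiv.Perm (Fin n)) (i : Fin n) {x : G}
    (hx : IsConj (l (ρ i)) x) :
    ∃ δ ∈ Gam l, δ (l i) = x ∧ ∀ m, IsConj (l (ρ m)) (δ (l m)) := by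
  obtain ⟨δ, h1, h2⟩ := exists_perm hl ρ
  obtain ⟨c, hc⟩ := isConj_iff.1 hx
  obtain ⟨α, hα⟩ := h2 i
  refine ⟨MulAut.conj (c * α⁻¹) * δ, mul_mem (mem_gam_of_sig hl hn (conj_mem_Sig hl _)) h1, ?_,
    fun m => ?_⟩
  · rw [MulAut.mul_apply, MulAut.conj_apply, hα, ← hc]
    group
  · obtain ⟨β, hβ⟩ := h2 m
    refine isConj_iff.2 ⟨c * α⁻¹ * β, ?_⟩
    rw [MulAut.mul_apply, MulAut.conj_apply, hβ]
    group

/-- Hint: `exists_perm` with a transposition, then an inner automorphism. -/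
theorem exists_gam_one (hl : IsBasis l) (hn : 3 ≤ n) (i : Fin n) {x : G} (hx : Cg l x) :
    ∃ δ ∈ Gam l, δ (l i) = x := by
  obtain ⟨m, hm⟩ := hx
  obtain ⟨δ, h1, h2, -⟩ := cmov_perm hl hn (Equiv.swap i m) i (x := x)
    (by rwa [Equiv.swap_apply_left])
  exact ⟨δ, h1, h2⟩

/-- Hint: extend the injection `0, 1, 2 ↦` classes of `x, y, z` to a permutation
(`Equiv.Perm.exists_extending_pair` or three transpositions). -/
theorem exists_gam_three {r : ℕ} {l : Fin (r + 3) → G} (hl : IsBasis l) {x y z : G}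
    (hx : Cg l x) (hy : Cg l y) (hz : Cg l z) (h1 : ¬IsConj x y) (h2 : ¬IsConj x z)
    (h3 : ¬IsConj y z) :
    ∃ δ ∈ Gam l, δ (l 0) = x ∧ IsConj (δ (l 1)) y ∧ IsConj (δ (l 2)) z := by
  obtain ⟨a, ha⟩ := hx
  obtain ⟨b, hb⟩ := hy
  obtain ⟨c, hc⟩ := hz
  have e1 : a ≠ b := fun e => h1 (ha.symm.trans (e ▸ hb))
  have e2 : a ≠ c := fun e => h2 (ha.symm.trans (e ▸ hc))
  have e3 : b ≠ c := fun e => h3 (hb.symm.trans (e ▸ hc))
  have hg : Function.Injective (![a, b, c] : Fin 3 → Fin (r + 3)) := by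
    intro u v huv
    fin_cases u <;> fin_cases v <;> simp_all [eq_comm]
  obtain ⟨ρ, hρ⟩ := Equiv.Perm.exists_extending_pair _ _
    (Fin.castLE_injective (by omega : 3 ≤ r + 3)) hg
  have r0 : ρ 0 = a := hρ 0
  have r1 : ρ 1 = b := hρ 1
  have r2 : ρ 2 = c := hρ 2
  obtain ⟨δ, d1, d2, d3⟩ := cmov_perm hl (by omega) ρ 0 (x := x) (by rwa [r0])
  refine ⟨δ, d1, d2, (d3 1).symm.trans ?_, (d3 2).symm.trans ?_⟩
  · rwa [r1]
  · rwa [r2]

/-- Hint: as in `exists_perm`. -/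
theorem exists_perm_mem (hl : IsBasis l) {S : Subgroup (MulAut G)}
    (hS : ∀ (i j : Fin n) σ, (j : ℕ) = i + 1 → Hur l i j σ → σ ∈ S) (ρ : Equiv.Perm (Fin n)) :
    ∃ δ ∈ Gam l, δ ∈ S ∧ ∀ i, IsConj (l (ρ i)) (δ (l i)) := by
  have h1 : ∃ δ ∈ Gam l, δ ∈ S ∧ ∀ i, IsConj (l ((1 : Equiv.Perm (Fin n)) i)) (δ (l i)) :=
    ⟨1, one_mem _, one_mem _, fun i => IsConj.refl _⟩
  rcases n with _ | m
  · rwa [Subsingleton.elim ρ 1]
  have h2 : ρ ∈ Submonoid.closure (Set.range fun i : Fin m => Equiv.swap i.castSucc i.succ) := by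
    rw [Equiv.Perm.mclosure_swap_castSucc_succ]
    trivial
  induction h2 using Submonoid.closure_induction with
  | mem x hx =>
    obtain ⟨i, rfl⟩ := hx
    have hij : ((i.succ : Fin (m + 1)) : ℕ) = (i.castSucc : Fin (m + 1)) + 1 := by simp
    obtain ⟨σ, h3, h4⟩ := exists_hur hl hij
    exact ⟨σ, h3, hS _ _ σ hij h4, h4.isConj⟩
  | one => exact h1
  | mul x y _ _ hx hy =>
    obtain ⟨δ, h3, h4, h5⟩ := hx
    obtain ⟨δ', h6, h7, h8⟩ := hy
    exact ⟨δ * δ', mul_mem h3 h6, mul_mem h4 h7, fun i => (h5 (y i)).trans (isConj_aut δ (h8 i))⟩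

theorem gam_le (hl : IsBasis l) (hn : 3 ≤ n) {S : Subgroup (MulAut G)} (h : Sig l ≤ S)
    (hS : ∀ (i j : Fin n) σ, (j : ℕ) = i + 1 → Hur l i j σ → σ ∈ S) : Gam l ≤ S := by
  intro δ hδ
  obtain ⟨-, ρ, hρ⟩ := gam_perm hδ
  obtain ⟨ε, h1, h2, h3⟩ := exists_perm_mem hl hS ρ
  have h4 : ε⁻¹ * δ ∈ Sig l := mem_sig_of_gam hl hn (mul_mem (inv_mem h1) hδ) fun i => by
    have h5 := isConj_aut ε⁻¹ ((h3 i).symm.trans (hρ i))
    rwa [MulAut.inv_apply_self] at h5
  have h5 := mul_mem h2 (h h4)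
  rwa [mul_inv_cancel_left] at h5

/-- The extension of Artin's generator is a Hurwitz move. -/
theorem cmov_ext_hur {r : ℕ} {l : Fin (r + 1) → G} (hl : IsBasis l) {i j : Fin r} (hij : i ≠ j)
    (e : (j : ℕ) = i + 1) (hc : Continuous σ) (h : ∀ w, σ (jj l w) = jj l (sig i j hij w)) :
    Hur l i.castSucc j.castSucc σ := by
  refine ⟨hc, fun m => ?_⟩
  induction m using Fin.lastCases with
  | last =>
    rw [hur, if_neg (Fin.castSucc_lt_last i).ne', if_neg (Fin.castSucc_lt_last j).ne']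
    apply inv_injective
    have h1 : sig i j hij (PP r) = PP r := by
      refine (disc_map_PP (sig i j hij).toMonoidHom).trans ?_
      have h2 : (fun m => (sig i j hij).toMonoidHom (FreeGroup.of m)) = hur i j FreeGroup.of :=
        funext (sig_of i j hij)
      rw [h2, prod_hur e, PP]
    rw [← map_inv, ← jj_PP hl, h, h1]
  | cast m =>
    rw [← disc_jj_of l m, h, sig_of, artin_map_hur]
    simp only [hur, disc_jj_of, Fin.castSucc_inj]

/-- Modulo a characteristic subgroup a positive power of `φ` is trivial. -/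
theorem cmov_pow {M : OpenNormalSubgroup G}
    (hM : ∀ ψ : G →* G, Continuous ψ → ∀ g ∈ M, ψ g ∈ M) {a : Zhatˣ} (hφ : HasChar l φ a) :
    ∃ m : ℕ, ∀ g, pr M ((φ ^ (m + 1)) g) = pr M g := by
  obtain ⟨Φ, hΦ⟩ := forget_act hM (frakS l).subtype fun w => by
    obtain ⟨_, hw⟩ := w.2
    exact hw.1
  have : Finite (Function.End (G ⧸ M.toSubgroup)) :=
    inferInstanceAs (Finite ((G ⧸ M.toSubgroup) → G ⧸ M.toSubgroup))
  obtain ⟨m, hm⟩ := Nat.exists_eq_succ_of_ne_zero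
    (Nat.card_pos (α := (Function.End (G ⧸ M.toSubgroup))ˣ)).ne'
  refine ⟨m, fun g => ?_⟩
  have h1 := hΦ ((⟨φ, a, hφ⟩ : frakS l) ^ (m + 1)) (by
    rw [map_pow, ← Nat.succ_eq_add_one, ← hm, pow_card_eq_one']) g
  rwa [map_pow] at h1

/-- An element of `frakS l` that conjugates the Hurwitz moves into `Gam l` normalises `Gam l`.
Plan: `S = {δ ∈ Gam l | φ * δ * φ⁻¹ ∈ Gam l}` is a subgroup containing the Hurwitz moves and the
inner automorphisms. For `n = r + 1` the homomorphism `X` of `exists_ext` sends `sig i j` to the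
Hurwitz move at `i.castSucc`, `j.castSucc`, so it maps `Br r` into `S`. An element of `Sig l` fixing
the last generator is a limit of elements `X β` with `β` good (`approx_good`, `Good.mem_Br`,
`mem_Sig_of_good`, `pr_ext`); with `mem_Sig_of_pr`, `HasChar.conj_pure`, `exists_char`,
`forget_char` this gives `φ * k * φ⁻¹ ∈ Sig l` for all `k ∈ Sig l`; `gam_le` gives `Gam l ≤ S`.
Conversely, modulo a characteristic `N` some power `φ ^ (m + 1)` is trivial, so
`φ⁻¹ * k * φ ≡ φ ^ m * k * (φ ^ m)⁻¹` and `φ⁻¹ * k * φ ∈ Sig l`. For `δ ∈ Gam l` pick `δ₁ ∈ Gam l`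
such that `φ * δ₁ * φ⁻¹` has the permutation of `δ` (`exists_perm`). -/
theorem mem_normalizer_of_hur (hl : IsBasis l) (hn : 3 ≤ n) {a : Zhatˣ} (hφ : HasChar l φ a)
    (h : ∀ (i j : Fin n) σ, (j : ℕ) = i + 1 → Hur l i j σ → φ * σ * φ⁻¹ ∈ Gam l) :
    φ ∈ Subgroup.normalizer (Gam l : Set (MulAut G)) := by
  obtain ⟨r, rfl⟩ : ∃ r, n = r + 1 := ⟨n - 1, by omega⟩
  let S : Subgroup (MulAut G) := (Gam l).comap (MulAut.conj φ).toMonoidHom
  have hS : ∀ δ, δ ∈ S ↔ φ * δ * φ⁻¹ ∈ Gam l := fun δ => Iff.rfl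
  obtain ⟨X, hX⟩ := exists_ext hl
  have h1 : ∀ β ∈ Br r, X β ∈ S := fun β hβ => by
    have h2 : Br r ≤ S.comap X := by
      rw [Br, Subgroup.closure_le]
      rintro _ ⟨i, j, hij, e, rfl⟩
      exact h i.castSucc j.castSucc _ e (cmov_ext_hur hl hij e (hX _).1 (hX _).2)
    exact h2 hβ
  have h2 : ∀ k ∈ Sig l, k (l (Fin.last r)) = l (Fin.last r) → φ * k * φ⁻¹ ∈ Sig l := by
    intro k hk hlast
    refine mem_Sig_of_pr (hφ.conj_pure hk.1).1 fun N => ?_
    obtain ⟨β, hβ, e⟩ := approx_good hl (by omega) hk hlast (pre φ.toMonoidHom hφ.1 N)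
    have h3 := (mem_Sig_of_good hl hβ (hX β).1 (hX β).2).1
    refine ⟨φ * X β * φ⁻¹, (mem_Sig_iff hl hn).2 ⟨h1 β hβ.mem_Br, 1, hφ.conj_pure h3.1⟩,
      fun g => ?_⟩
    refine (pr_pre φ.toMonoidHom hφ.1 N).1 ?_
    refine hl.pr_ext (f := k.toMonoidHom) (g := (X β).toMonoidHom) _ hk.1.1 (hX β).1
      (fun i => ?_) (φ⁻¹ g)
    obtain ⟨w, hw⟩ := disc_exists_jj hl i
    rw [← hw]
    exact (e w).trans (congrArg _ ((hX β).2 w).symm)
  have h3 : Sig l ≤ S := fun k hk => by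
    obtain ⟨α, hα⟩ := hk.1.2 (Fin.last r)
    rw [Units.val_one, pw_one] at hα
    have h4 := h2 _ (mul_mem (inv_mem (conj_mem_Sig hl α)) hk) (by
      rw [MulAut.mul_apply, hα, MulAut.conj_inv_apply]
      group)
    have h5 : φ * k * φ⁻¹ = MulAut.conj (φ α) * (φ * ((MulAut.conj α)⁻¹ * k) * φ⁻¹) := by
      rw [← mul_assoc, ← mul_assoc, ← mul_conj_eq]
      group
    rw [hS, h5]
    exact mem_gam_of_sig hl hn (mul_mem (conj_mem_Sig hl _) h4)
  have h4 : Gam l ≤ S := gam_le hl hn h3 h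
  have h5 : ∀ m : ℕ, ∀ δ ∈ Gam l, φ ^ m * δ * (φ ^ m)⁻¹ ∈ Gam l := fun m δ hδ => by
    induction m with
    | zero => simpa using hδ
    | succ m ih =>
      have e : φ ^ (m + 1) * δ * (φ ^ (m + 1))⁻¹ = φ * (φ ^ m * δ * (φ ^ m)⁻¹) * φ⁻¹ := by group
      rw [e]
      exact h4 ih
  have h6 : ∀ δ ∈ Gam l, φ⁻¹ * δ * φ ∈ Gam l := fun δ hδ => by
    have h7 : HasChar l (φ⁻¹ * δ * φ) 1 := by
      simpa using (hφ.inv.mul (show HasChar l δ 1 from hδ.2)).mul hφ
    refine ⟨⟨⟨1, h7⟩, fun N => ?_⟩, h7⟩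
    obtain ⟨M, hM, hM'⟩ := hl.exists_char N
    obtain ⟨m, hm⟩ := cmov_pow hM' hφ
    have h8 := h5 m δ hδ
    obtain ⟨ψ, h9, h10⟩ := h8.1.2 N
    refine ⟨ψ, h9, fun g => (pr_eq_iff N _ _).1 (Eq.trans (pr_mono hM ?_)
      ((pr_eq_iff N _ _).2 (h10 g)))⟩
    have e : φ ^ (m + 1) * (φ⁻¹ * δ * φ) = φ ^ m * δ * (φ ^ m)⁻¹ * φ ^ (m + 1) := by group
    rw [← hm, ← MulAut.mul_apply, e, MulAut.mul_apply]
    exact forget_char hM' (gam_perm h8).1 (hm g)
  refine Subgroup.mem_normalizer_iff.2 fun δ => ⟨fun hδ => h4 hδ, fun hδ => ?_⟩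
  have h7 := h6 _ hδ
  have e : φ⁻¹ * (φ * δ * φ⁻¹) * φ = δ := by group
  rwa [e] at h7

end Pool.Agent.MP_1c2b6e_al

/-! Forgetting punctures. -/

namespace Pool.Agent.MP_1c2b6e_al

open Classical

variable {G : Type} [Group G] [TopologicalSpace G] [IsTopologicalGroup G] [CompactSpace G]
  [TotallyDisconnectedSpace G] {H : Type} [Group H] [TopologicalSpace H] [IsTopologicalGroup H]
  [CompactSpace H] [TotallyDisconnectedSpace H] {n m : ℕ} {l : Fin n → G} {h : Fin m → H}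
  {e : Fin m → Fin n} {q : G →* H}

theorem ckill_filter {Q α : Type} [Group Q] {f : α → Q} {p : α → Bool}
    (hf : ∀ a, p a ≠ true → f a = 1) (L : List α) :
    ((L.filter p).map f).prod = (L.map f).prod := by
  induction L with
  | nil => rfl
  | cons a L ih =>
    by_cases h : p a = true
    · rw [List.filter_cons_of_pos h, List.map_cons, List.map_cons, List.prod_cons, List.prod_cons,
        ih]
    · rw [List.filter_cons_of_neg h, List.map_cons, List.prod_cons, ih, hf a h, one_mul]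

/-- Hint: induction on `n`, or `List.ofFn` as a map over `List.finRange` and a filter
(`List.prod_map_filter`-like lemmas, sorted lists are determined by their members). -/
theorem prod_kill {Q : Type} [Group Q] (he : StrictMono e) {f : Fin n → Q}
    (hf : ∀ i, i ∉ Set.range e → f i = 1) :
    (List.ofFn fun j => f (e j)).prod = (List.ofFn f).prod := by
  have h1 : List.ofFn e = (List.finRange n).filter fun i => decide (i ∈ Set.range e) :=
    List.Pairwise.eq_of_mem_iff (r := (· < ·)) (List.pairwise_ofFn.2 fun _ _ h => he h)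
      ((List.sortedLT_finRange n).pairwise.filter _) fun a => by simp
  have h2 : (List.ofFn fun j => f (e j)) = (List.ofFn e).map f := by
    rw [List.map_ofFn]
    rfl
  rw [h2, h1, ckill_filter fun a ha => hf a (by simpa using ha), List.ofFn_eq_map]

theorem ckill_prod {Q Q' : Type} [Group Q] [Group Q'] (p : Q →* Q') {y : Fin n → Q}
    (hy : (List.ofFn y).prod = 1) : (List.ofFn fun i => p (y i)).prod = 1 := by
  have h1 := congrArg p hy
  rwa [map_list_prod, map_one, List.map_ofFn] at h1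

theorem exists_kill (hl : IsBasis l) (hh : (List.ofFn h).prod = 1) (he : StrictMono e) :
    ∃ q, Kill l h e q := by
  have h1 : ∀ i, i ∉ Set.range e → Function.extend e h (fun _ => 1) i = 1 := fun i hi =>
    Function.extend_apply' _ _ _ hi
  obtain ⟨q, cq, hq⟩ := hl.lift H (Function.extend e h fun _ => 1) (by
    rw [← prod_kill he h1]
    simpa only [he.injective.extend_apply] using hh)
  exact ⟨q, he, cq, fun j => by rw [hq, he.injective.extend_apply], fun i hi => by rw [hq, h1 i hi]⟩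

theorem Kill.surj (hq : Kill l h e q) (hh : IsBasis h) : Function.Surjective q := by
  exact MonoidHom.range_eq_top.1
    (hh.dense q.range (isCompact_range hq.cq).isClosed fun j => ⟨_, hq.qe j⟩)

/-- Universal property: a continuous map killing the same generators factors. -/
theorem Kill.factor (hq : Kill l h e q) (hl : IsBasis l) (hh : IsBasis h) {K : Type} [Group K]
    [TopologicalSpace K] [IsTopologicalGroup K] [CompactSpace K] [TotallyDisconnectedSpace K]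
    (p : G →* K) (hp : Continuous p) (h0 : ∀ i, i ∉ Set.range e → p (l i) = 1) :
    ∃ p' : H →* K, Continuous p' ∧ ∀ g, p' (q g) = p g := by
  obtain ⟨p', c, hp'⟩ := hh.lift K (fun j => p (l (e j)))
    ((prod_kill hq.mono h0).trans (ckill_prod p hl.prod))
  refine ⟨p', c, DFunLike.congr_fun (hl.ext (f := p'.comp q) (c.comp hq.cq) hp fun i => ?_)⟩
  rw [MonoidHom.comp_apply]
  by_cases hi : i ∈ Set.range e
  · obtain ⟨j, rfl⟩ := hi
    rw [hq.qe, hp']
  · rw [hq.qz i hi, h0 i hi, map_one]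

theorem ckill_hom (hq : Kill l h e q) (hl : IsBasis l) (hh : IsBasis h) {φ : MulAut G}
    {a : Zhatˣ} (hφ : Pure l φ a) : ∃ f : H →* H, Continuous f ∧ ∀ g, f (q g) = q (φ g) :=
  hq.factor hl hh (q.comp φ.toMonoidHom) (hq.cq.comp hφ.1) fun i hi => by
    obtain ⟨α, hα⟩ := hφ.2 i
    change q (φ (l i)) = 1
    rw [hα, map_mul, map_mul, map_pw q hq.cq, hq.qz i hi, one_pw, map_inv, mul_one, mul_inv_cancel]

/-- Hint: as `Fg.exists_rho`, with `Kill.factor`. -/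
theorem Kill.desc (hq : Kill l h e q) (hl : IsBasis l) (hh : IsBasis h) {φ : MulAut G}
    {a : Zhatˣ} (hφ : Pure l φ a) : ∃ φ', Pure h φ' a ∧ Desc q φ φ' := by
  obtain ⟨f, cf, hf⟩ := ckill_hom hq hl hh hφ
  obtain ⟨g, cg, hg⟩ := ckill_hom hq hl hh hφ.inv
  obtain ⟨φ', c, h1⟩ := hh.exists_aut f g cf cg
    (fun i => by rw [← hq.qe, hg, hf, MulAut.apply_inv_self])
    (fun i => by rw [← hq.qe, hf, hg, MulAut.inv_apply_self])
  refine ⟨φ', ⟨c, fun i => ?_⟩, fun x => by rw [h1, hf]⟩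
  obtain ⟨α, hα⟩ := hφ.2 (e i)
  refine ⟨q α, ?_⟩
  rw [h1, ← hq.qe, hf, hα, map_mul, map_mul, map_inv, map_pw q hq.cq]

/-- Hint: as `Fg.rho_mem`. -/
theorem Kill.desc_sig (hq : Kill l h e q) (hl : IsBasis l) (hh : IsBasis h) {φ : MulAut G}
    (hφ : φ ∈ Sig l) : ∃ φ' ∈ Sig h, Desc q φ φ' := by
  obtain ⟨φ', h1, h2⟩ := hq.desc hl hh hφ.1
  refine ⟨φ', ⟨h1, fun N => ?_⟩, h2⟩
  obtain ⟨ψ, p, d, e1⟩ := hφ.2 (pre q hq.cq N)
  obtain ⟨ψ', p', e'⟩ := hq.desc hl hh p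
  have h3 : (Subgroup.closure (Set.range l)).map q = Subgroup.closure (Set.range h) := by
    refine le_antisymm ?_ ((Subgroup.closure_le _).2 ?_)
    · rw [Subgroup.map_le_iff_le_comap, Subgroup.closure_le]
      rintro _ ⟨i, rfl⟩
      change q (l i) ∈ Subgroup.closure (Set.range h)
      by_cases hi : i ∈ Set.range e
      · obtain ⟨j, rfl⟩ := hi
        exact Subgroup.subset_closure ⟨j, (hq.qe j).symm⟩
      · rw [hq.qz i hi]
        exact one_mem _
    · rintro _ ⟨j, rfl⟩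
      exact ⟨l (e j), Subgroup.subset_closure ⟨_, rfl⟩, hq.qe j⟩
  refine ⟨ψ', p', ?_, fun x => ?_⟩
  · have e2 : ψ'.toMonoidHom.comp q = q.comp ψ.toMonoidHom :=
      MonoidHom.ext fun g => (e' g).symm
    unfold Disc at d ⊢
    rw [← h3, Subgroup.map_map, e2, ← Subgroup.map_map, d]
  · obtain ⟨g, rfl⟩ := hq.surj hh x
    rw [← h2, ← e']
    exact (pr_pre q hq.cq N).1 (e1 _)

theorem Kill.mem_sig (hq : Kill l h e q) (hl : IsBasis l) (hh : IsBasis h) {φ : MulAut G}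
    (hφ : φ ∈ Sig l) {φ' : MulAut H} (hd : Desc q φ φ') : φ' ∈ Sig h := by
  obtain ⟨ψ, h1, h2⟩ := hq.desc_sig hl hh hφ
  rwa [hd.unique (hq.surj hh) h2]

theorem Kill.inner {h : Fin 3 → H} {e : Fin 3 → Fin n} (hq : Kill l h e q) (hl : IsBasis l)
    (hh : IsBasis h) {φ : MulAut G} (hφ : φ ∈ Sig l) : ∃ c, Desc q φ (MulAut.conj c) := by
  obtain ⟨ψ, h1, h2⟩ := hq.desc_sig hl hh hφ
  obtain ⟨c, rfl⟩ := Sig_three hh h1
  exact ⟨c, h2⟩

theorem Kill.aut (hq : Kill l h e q) {δ : MulAut G} {δ' : MulAut H} (hd : Desc q δ δ') :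
    Kill (fun i => δ (l i)) (fun j => δ' (h j)) e q := by
  exact ⟨hq.mono, hq.cq, fun j => by rw [hd, hq.qe], fun i hi => by rw [hd, hq.qz i hi, map_one]⟩

theorem Kill.cg (hq : Kill l h e q) {z : G} (hz : Cg l z)
    (h0 : ∀ i, i ∉ Set.range e → ¬IsConj (l i) z) : Cg h (q z) := by
  obtain ⟨i, hi⟩ := hz
  obtain ⟨j, rfl⟩ : i ∈ Set.range e := by_contra fun hn => h0 i hn hi
  exact ⟨j, hq.qe j ▸ q.map_isConj hi⟩

theorem Kill.isConj_of (hq : Kill l h e q) (hh : IsBasis h) (hm : 3 ≤ m) {a b : G} (ha : Cg l a)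
    (hb : Cg l b) (hc : IsConj (q a) (q b)) (h1 : q a ≠ 1) : IsConj a b := by
  obtain ⟨i, hi⟩ := ha
  obtain ⟨k, hk⟩ := hb
  have h2 := q.map_isConj hi
  have h3 := (q.map_isConj hk).trans hc.symm
  obtain ⟨j, rfl⟩ : i ∈ Set.range e := by_contra fun hn =>
    h1 (isConj_one_right.1 (hq.qz i hn ▸ h2))
  obtain ⟨j', rfl⟩ : k ∈ Set.range e := by_contra fun hn =>
    h1 (isConj_one_right.1 (hq.qz k hn ▸ h3))
  rw [hq.qe] at h2 h3
  obtain rfl := hh.eq_of_isConj hm (h2.trans h3.symm)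
  exact hi.symm.trans hk

theorem Kill.hur (hq : Kill l h e q) (hl : IsBasis l) {i j : Fin m} {σ : MulAut G}
    {σ' : MulAut H} (h1 : Hur l (e i) (e j) σ) (h2 : Hur h i j σ') : Desc q σ σ' := by
  refine DFunLike.congr_fun (hl.ext (f := q.comp σ.toMonoidHom) (g := σ'.toMonoidHom.comp q)
    (hq.cq.comp h1.1) (h2.1.comp hq.cq) fun k => ?_)
  change q (σ (l k)) = σ' (q (l k))
  rw [h1.2, MP_1c2b6e_al.hur]
  by_cases hk : k ∈ Set.range e
  · obtain ⟨k, rfl⟩ := hk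
    rw [hq.qe, h2.2, MP_1c2b6e_al.hur]
    simp only [hq.mono.injective.eq_iff]
    split_ifs
    · rw [map_mul, map_mul, map_inv, hq.qe, hq.qe]
    · exact hq.qe i
    · exact hq.qe k
  · rw [if_neg fun h3 => hk ⟨i, h3.symm⟩, if_neg fun h3 => hk ⟨j, h3.symm⟩, hq.qz k hk, map_one]

theorem Kill.pq {e : Fin 3 → Fin n} {q : G →* SurfHat 3} (hq : Kill l (gen 3) e q) : PQ l q := by
  exact ⟨hq.cq, e, hq.mono.injective, fun j => by rw [hq.qe], hq.qz⟩

theorem Kill.pq_comp (hq : Kill l h e q) {p : H →* SurfHat 3} (hp : PQ h p) :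
    PQ l (p.comp q) := by
  obtain ⟨c, e', h1, h2, h3⟩ := hp
  refine ⟨c.comp hq.cq, fun j => e (e' j), hq.mono.injective.comp h1, fun j => ?_, fun i hi => ?_⟩
  · rw [MonoidHom.comp_apply, hq.qe]
    exact h2 j
  · rw [MonoidHom.comp_apply]
    by_cases hk : i ∈ Set.range e
    · obtain ⟨k, rfl⟩ := hk
      rw [hq.qe]
      exact h3 k fun ⟨j, hj⟩ => hi ⟨j, congrArg e hj⟩
    · rw [hq.qz i hk, map_one]

theorem Kill.pq_factor (hq : Kill l h e q) (hl : IsBasis l) (hh : IsBasis h)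
    {p : G →* SurfHat 3} (hp : PQ l p) (h0 : ∀ i, i ∉ Set.range e → p (l i) = 1) :
    ∃ p' : H →* SurfHat 3, PQ h p' ∧ ∀ g, p' (q g) = p g := by
  obtain ⟨c, e', h1, h2, h3⟩ := hp
  obtain ⟨p', c', hp'⟩ := hq.factor hl hh p c h0
  have h4 : ∀ j, e' j ∈ Set.range e := fun j => by_contra fun hn =>
    (Cg.self (gen 3) j).ne_one (isBasis_gen 3) (by norm_num)
      (isConj_one_left.1 (h0 _ hn ▸ h2 j))
  choose e'' h5 using h4
  refine ⟨p', ⟨c', e'', fun a b hab => h1 (by rw [← h5, ← h5, hab]), fun j => ?_,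
    fun i hi => ?_⟩, hp'⟩
  · rw [← hq.qe, hp', h5]
    exact h2 j
  · rw [← hq.qe, hp']
    exact h3 _ fun ⟨j, hj⟩ => hi ⟨j, hq.mono.injective ((h5 j).trans hj)⟩

/-- Hint: `exists_aut_of_tuple`. -/
theorem PQ.aut {p : SurfHat 3 →* SurfHat 3} (hp : PQ (gen 3) p) :
    ∃ α : MulAut (SurfHat 3), Continuous α ∧ (∀ g, α g = p g) ∧
      ∀ z, Cg (gen 3) (α z) ↔ Cg (gen 3) z := by
  obtain ⟨c, e, h1, h2, -⟩ := hp
  have h3 := Finite.injective_iff_bijective.1 h1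
  have h4 : ∀ i, IsConj (gen 3 ((Equiv.ofBijective e h3).symm i)) (p (gen 3 i)) := fun i => by
    have h5 := h2 ((Equiv.ofBijective e h3).symm i)
    rwa [Equiv.ofBijective_apply_symm_apply e h3] at h5
  obtain ⟨α, h5, h6⟩ := exists_aut_of_tuple (isBasis_gen 3) (by norm_num)
    (y := fun i => p (gen 3 i)) (Equiv.ofBijective e h3).symm 1
    (fun i => by rw [Units.val_one, pw_one]; exact h4 i) (ckill_prod p (isBasis_gen 3).prod)
  refine ⟨α, h5.1, DFunLike.congr_fun ((isBasis_gen 3).ext (f := α.toMonoidHom) h5.1 c h6),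
    fun z => ⟨fun ⟨i, hi⟩ => ⟨e i, ?_⟩, fun ⟨i, hi⟩ => ⟨_, (h4 i).trans ?_⟩⟩⟩
  · have h7 := isConj_aut α⁻¹ ((h6 (e i) ▸ h2 i).symm.trans hi)
    rwa [MulAut.inv_apply_self, MulAut.inv_apply_self] at h7
  · rw [← h6]
    exact isConj_aut α hi

theorem PQ.exists_zero {p : G →* SurfHat 3} (hp : PQ l p) (hn : 4 ≤ n) : ∃ i, p (l i) = 1 := by
  obtain ⟨-, e, -, -, h3⟩ := hp
  by_contra h4
  have h5 := Fintype.card_le_of_surjective e fun i => by_contra fun hi => h4 ⟨i, h3 i hi⟩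
  rw [Fintype.card_fin, Fintype.card_fin] at h5
  omega

theorem PQ.comp_gam {p : G →* SurfHat 3} (hp : PQ l p) {δ : MulAut G} (hδ : δ ∈ Gam l) :
    PQ l (p.comp δ.toMonoidHom) := by
  obtain ⟨c, e, h1, h2, h3⟩ := (pq_aut hδ).2 hp
  exact ⟨c.comp (gam_perm hδ).1, e, h1, h2, h3⟩

end Pool.Agent.MP_1c2b6e_al

/-! Lifting along the map that forgets the first puncture. -/

namespace Pool.Agent.MP_1c2b6e_al

open Classical

variable {G : Type} [Group G] [TopologicalSpace G] [IsTopologicalGroup G] [CompactSpace G]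
  [TotallyDisconnectedSpace G] {H : Type} [Group H] [TopologicalSpace H] [IsTopologicalGroup H]
  [CompactSpace H] [TotallyDisconnectedSpace H] {r : ℕ} {l : Fin (r + 4) → G} {h : Fin (r + 3) → H}
  {q : G →* H}

theorem Kill.fg (hq : Kill l h Fin.succ q) (hl : IsBasis l) (hh : IsBasis h) :
    ∃ ι, Fg l h q ι := by
  obtain ⟨q', ι, hF⟩ := exists_fg (r := r + 2) hl hh
  have h1 : q' = q := hl.ext hF.cq hq.cq fun i => by
    induction i using Fin.cases with
    | zero => rw [hF.qz, hq.qz 0 (by simp)]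
    | succ i => rw [hF.qs, hq.qe]
  exact ⟨ι, h1 ▸ hF⟩

theorem clift_fix (hq : Kill l h Fin.succ q) (hl : IsBasis l) (hh : IsBasis h) {δ : MulAut G}
    {δ' : MulAut H} (hd : Desc q δ δ') {α : G} (hα : δ (l 0) = α * l 0 * α⁻¹) :
    ∃ k ∈ Sig l, (k * δ) (l 0) = l 0 ∧ Desc q (k * δ) δ' := by
  obtain ⟨ι, hF⟩ := hq.fg hl hh
  obtain ⟨ψ, hψ, -, h1, g, h2, h3⟩ := hF.exists_push hl hh (q α)⁻¹
  refine ⟨MulAut.conj g⁻¹ * ψ * MulAut.conj α⁻¹,
    mul_mem (mul_mem (conj_mem_Sig hl _) hψ) (conj_mem_Sig hl _), ?_, fun x => ?_⟩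
  · have h4 : MulAut.conj α⁻¹ (δ (l 0)) = l 0 := by
      rw [hα, MulAut.conj_apply]
      group
    rw [MulAut.mul_apply, MulAut.mul_apply, MulAut.mul_apply, h4, h2, MulAut.conj_apply]
    group
  · rw [MulAut.mul_apply, MulAut.mul_apply, MulAut.mul_apply, Desc.conj, h1, Desc.conj, hd,
      map_inv q, map_inv q, h3, MulAut.conj_apply, MulAut.conj_apply]
    group

/-- Plan: first for inner `φ' = conj γ` (`exists_push` for `γ⁻¹`, multiplied by `conj g⁻¹`), then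
correct a lift from `exists_lift`. -/
theorem Kill.lift0 (hq : Kill l h Fin.succ q) (hl : IsBasis l) (hh : IsBasis h) {φ' : MulAut H}
    (hφ' : φ' ∈ Sig h) : ∃ φ ∈ Sig l, φ (l 0) = l 0 ∧ Desc q φ φ' := by
  obtain ⟨ι, hF⟩ := hq.fg hl hh
  obtain ⟨φ, hφ, hd⟩ := hF.exists_lift hl hh (by omega) hφ'
  obtain ⟨α, hα⟩ := hφ.1.2 0
  rw [Units.val_one, pw_one] at hα
  obtain ⟨k, hk, h1, h2⟩ := clift_fix hq hl hh hd hα
  exact ⟨k * φ, mul_mem hk hφ, h1, h2⟩

/-- Plan: `ψ (l last) = α * l last * α⁻¹`; change `α` by a power of `l last` so that `q α = 1`; then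
`Fg.eq_one` gives `ψ = conj α`, and `α` commutes with `l 0`. Compare `no_torsion`. -/
theorem Kill.ker0 (hq : Kill l h Fin.succ q) (hl : IsBasis l) (hh : IsBasis h) {ψ : MulAut G}
    (hψ : ψ ∈ Sig l) (h0 : ψ (l 0) = l 0) (h1 : Desc q ψ 1) :
    ∃ a, ψ = MulAut.conj (pw (l 0) a) := by
  obtain ⟨ι, hF⟩ := hq.fg hl hh
  obtain ⟨α, hα⟩ := hψ.1.2 (Fin.last (r + 3))
  rw [Units.val_one, pw_one] at hα
  have h1' : ∀ g, q (ψ g) = q g := h1
  have hql : q (l (Fin.last (r + 3))) = h (Fin.last (r + 2)) := hF.qs (Fin.last _)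
  obtain ⟨b, hb⟩ := hh.cent (by omega) (Fin.last (r + 2)) (g := q α) (by
    have h5 := congrArg q hα
    rw [h1', map_mul, map_mul, map_inv, hql, eq_mul_inv_iff_mul_eq] at h5
    exact h5.symm)
  obtain ⟨β, hβ⟩ : ∃ β, β = α * pw (l (Fin.last (r + 3))) (-b) := ⟨_, rfl⟩
  have h2 : q β = 1 := by
    rw [hβ, map_mul, map_pw q hF.cq, hql, hb, ← pw_add, add_neg_cancel, pw_zero]
  have h3 : ψ (l (Fin.last (r + 3))) = MulAut.conj β (l (Fin.last (r + 3))) := by
    rw [hβ, map_mul, MulAut.mul_apply, conj_pw_self, hα, MulAut.conj_apply]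
  have h4 : (MulAut.conj β)⁻¹ * ψ = 1 := by
    refine hF.eq_one hl hh (mul_mem (inv_mem (conj_mem_Sig hl β)) hψ) ?_ (fun g => ?_)
      (g := β⁻¹) ?_ (by rw [map_inv, h2, inv_one])
    · rw [MulAut.mul_apply, h3, MulAut.inv_apply_self]
    · rw [MulAut.mul_apply, ← map_inv, Desc.conj, h1', map_inv, h2, inv_one, map_one,
        MulAut.one_apply]
    · rw [MulAut.mul_apply, h0, ← map_inv, MulAut.conj_apply]
  have h5 : ψ = MulAut.conj β := (inv_mul_eq_one.1 h4).symm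
  obtain ⟨a, ha⟩ := hl.cent (by omega) 0 (g := β) (by
    rw [h5, MulAut.conj_apply, mul_inv_eq_iff_eq_mul] at h0
    exact h0)
  exact ⟨a, by rw [h5, ha]⟩

/-- Plan: `gam_le` for the subgroup of the `δ'` with a lift in `Gam l` (`Kill.hur`); a lift sends
`l 0` to a conjugate of `l 0`; correct it with `lift0`. -/
theorem Kill.lift_gam (hq : Kill l h Fin.succ q) (hl : IsBasis l) (hh : IsBasis h)
    {δ' : MulAut H} (hδ' : δ' ∈ Gam h) : ∃ δ ∈ Gam l, δ (l 0) = l 0 ∧ Desc q δ δ' := by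
  let S : Subgroup (MulAut H) :=
    { carrier := {δ' | ∃ δ ∈ Gam l, Desc q δ δ'}
      one_mem' := ⟨1, one_mem _, Desc.one q⟩
      mul_mem' := fun ⟨a, ha, ha'⟩ ⟨b, hb, hb'⟩ => ⟨a * b, mul_mem ha hb, ha'.mul hb'⟩
      inv_mem' := fun ⟨a, ha, ha'⟩ => ⟨a⁻¹, inv_mem ha, ha'.inv⟩ }
  have h1 : Gam h ≤ S := by
    refine gam_le hh (by omega) (fun φ' hφ' => ?_) fun i j σ' hij hσ' => ?_
    · obtain ⟨φ, hφ, -, hd⟩ := hq.lift0 hl hh hφ'
      exact ⟨φ, mem_gam_of_sig hl (by omega) hφ, hd⟩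
    · obtain ⟨σ, hσ, h2⟩ := exists_hur hl (i := i.succ) (j := j.succ) (by simp [hij])
      exact ⟨σ, hσ, hq.hur hl h2 hσ'⟩
  obtain ⟨δ, hδ, hd⟩ := h1 hδ'
  obtain ⟨-, ρ, hρ⟩ := gam_perm hδ
  have h2 : q (l (ρ 0)) = 1 := by
    have h3 := q.map_isConj (hρ 0)
    rw [hd, hq.qz 0 (by simp), map_one] at h3
    exact isConj_one_left.1 h3
  have h3 : ρ 0 = 0 := by
    by_contra h4
    obtain ⟨j, hj⟩ := Fin.exists_succ_eq.2 h4
    rw [← hj, hq.qe] at h2
    exact (Cg.self h j).ne_one hh (by omega) h2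
  obtain ⟨α, hα⟩ := isConj_iff.1 (hρ 0)
  rw [h3] at hα
  obtain ⟨k, hk, h4, h5⟩ := clift_fix hq hl hh hd hα.symm
  exact ⟨k * δ, mul_mem (mem_gam_of_sig hl (by omega) hk) hδ, h4, h5⟩

theorem Adm.desc0 (hq : Kill l h Fin.succ q) (hl : IsBasis l) (hh : IsBasis h) {θ : MulAut G}
    (hθ : Adm l θ) {θ' : MulAut H} (hd : Desc q θ θ') : Adm h θ' := by
  obtain ⟨φ', h1, h2⟩ := hq.desc hl hh hθ.pure
  obtain rfl : φ' = θ' := Desc.unique (hq.surj hh) h2 hd
  refine ⟨h1, fun δ' hδ' => ?_, hq.mem_sig hl hh hθ.sq (hd.mul hd)⟩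
  obtain ⟨δ, hδ, -, h3⟩ := hq.lift_gam hl hh hδ'
  exact hq.mem_sig hl hh (hθ.comm δ hδ) (((hd.mul h3).mul hd.inv).mul h3.inv)

theorem Tri.desc0 (hq : Kill l h Fin.succ q) (hl : IsBasis l) (hh : IsBasis h) {θ : MulAut G}
    {a : Zhat} (hθ : Tri l θ a) {θ' : MulAut H} (hd : Desc q θ θ') : Tri h θ' a := by
  intro p hp k' hk' s hs
  obtain ⟨k, hk, -, h1⟩ := hq.lift0 hl hh hk'
  exact hθ (p.comp q) (hq.pq_comp hp) k hk s ((h1.mul hd).comp hs)

theorem Kill.one_zero (hq : Kill l h (Fin.succAbove 1) q) {σ : MulAut G} (hσ : Hur l 0 1 σ) :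
    Kill (fun i => σ (l i)) h Fin.succ q := by
  refine ⟨Fin.strictMono_succ, hq.cq, fun j => ?_, fun i hi => ?_⟩
  · rw [hσ.2, ← hq.qe j]
    induction j using Fin.cases with
    | zero => rfl
    | succ j =>
      have h1 : j.succ.succ ≠ 0 := Fin.succ_ne_zero _
      have h2 : j.succ.succ ≠ 1 := fun e => Fin.succ_ne_zero j (Fin.succ_injective _ e)
      rw [MP_1c2b6e_al.hur, if_neg h1, if_neg h2]
      rfl
  · obtain rfl : i = 0 := by
      by_contra h1
      exact hi (Fin.exists_succ_eq.2 h1)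
    rw [hσ.2, MP_1c2b6e_al.hur, if_pos rfl, map_mul, map_mul, map_inv, hq.qz 1 (by simp), mul_one,
      mul_inv_cancel]

/-- Hint: `one_zero`, `exists_hur`, `Adm.aut`. -/
theorem Adm.desc1 (hq : Kill l h (Fin.succAbove 1) q) (hl : IsBasis l) (hh : IsBasis h)
    {θ : MulAut G} (hθ : Adm l θ) {θ' : MulAut H} (hd : Desc q θ θ') : Adm h θ' := by
  obtain ⟨σ, hσ, h1⟩ := exists_hur hl (i := 0) (j := 1) rfl
  exact Adm.desc0 (hq.one_zero h1) (hl.aut h1.1) hh (hθ.aut hl (by omega) hσ) hd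

theorem Tri.desc1 (hq : Kill l h (Fin.succAbove 1) q) (hl : IsBasis l) (hh : IsBasis h)
    {θ : MulAut G} {a : Zhat} (hθ : Tri l θ a) {θ' : MulAut H} (hd : Desc q θ θ') :
    Tri h θ' a := by
  obtain ⟨σ, hσ, h1⟩ := exists_hur hl (i := 0) (j := 1) rfl
  exact Tri.desc0 (hq.one_zero h1) (hl.aut h1.1) hh ((tri_aut hl (by omega) hσ).2 hθ) hd

theorem clift_sq {n : ℕ} {l : Fin n → G} (hl : IsBasis l) (hn : 3 ≤ n) (i : Fin n) {t : MulAut G}
    (hc : Continuous t) (h0 : t (l i) = (l i)⁻¹) {a : Zhat}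
    (h2 : t * t = MulAut.conj (pw (l i) a)) : t * t = 1 := by
  have h3 : MulAut.conj (t (pw (l i) a)) = MulAut.conj (pw (l i) a) := by
    apply mul_right_cancel (b := t)
    rw [← mul_conj_eq, ← h2, mul_assoc]
  have h4 := hl.conj_inj hn h3
  rw [map_pw_inv hc h0, ← pw_neg] at h4
  have h5 := hl.pw_inj (by omega) i h4
  have h6 : a = 0 := eq_zero_of_two_mul (by linear_combination -h5)
  rw [h2, h6, pw_zero, map_one]

theorem clift_norm {n : ℕ} {l : Fin n → G} {θ : MulAut G} (hθ : Pure l θ (-1)) (i : Fin n) :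
    ∃ α : G, (MulAut.conj α * θ) (l i) = (l i)⁻¹ := by
  obtain ⟨c, hc⟩ := isConj_iff.1 ((pure_neg_iff.1 hθ).2 i)
  refine ⟨c⁻¹, ?_⟩
  rw [MulAut.mul_apply, ← hc, MulAut.conj_apply]
  group

/-- An admissible class contains an honest involution. Plan: induction on `r`. First change `θ` by
an inner automorphism so that it inverts `l 0`. On the tripod its square is `conj c`
(`Sig_three`) with `c = pw (l 0) a` fixed by `θ` (`conj_inj`), so `a = -a`. In the induction step lift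
the correction `k'` with `lift0`; the square is `conj (pw (l 0) a)` by `ker0`. -/
theorem exists_invol_adm (r : ℕ) : ∀ (G : Type) [Group G] [TopologicalSpace G]
    [IsTopologicalGroup G] [CompactSpace G] [TotallyDisconnectedSpace G] (l : Fin (r + 3) → G),
    IsBasis l → ∀ θ, Adm l θ →
      ∃ k ∈ Sig l, k * θ * (k * θ) = 1 ∧ (k * θ) (l 0) = (l 0)⁻¹ := by
  induction r with
  | zero =>
    intro G _ _ _ _ _ l hl θ hθ
    obtain ⟨α, hα⟩ := clift_norm hθ.pure 0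
    have h1 := hθ.sig_mul hl le_rfl (conj_mem_Sig hl α)
    obtain ⟨c, hc⟩ := Sig_three hl h1.sq
    obtain ⟨a, rfl⟩ := hl.cent (by omega) 0 (g := c) (by
      have h2 := DFunLike.congr_fun hc (l 0)
      rw [MulAut.mul_apply, hα, map_inv, hα, inv_inv, MulAut.conj_apply,
        eq_mul_inv_iff_mul_eq] at h2
      exact h2.symm)
    exact ⟨_, conj_mem_Sig hl α, clift_sq hl le_rfl 0 h1.pure.1 hα hc, hα⟩
  | succ r ih =>
    intro G _ _ _ _ _ l hl θ hθ
    obtain ⟨α, hα⟩ := clift_norm hθ.pure 0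
    have h1 := hθ.sig_mul hl (by omega) (conj_mem_Sig hl α)
    have hh := isBasis_gen (r + 3)
    obtain ⟨q, hq⟩ := exists_kill (e := Fin.succ) hl hh.prod Fin.strictMono_succ
    obtain ⟨θ', -, hd⟩ := hq.desc hl hh h1.pure
    obtain ⟨k', hk', h2, -⟩ := ih _ _ hh θ' (h1.desc0 hq hl hh hd)
    obtain ⟨k, hk, h3, h4⟩ := hq.lift0 hl hh hk'
    have h5 := h1.sig_mul hl (by omega) hk
    have h6 : (k * (MulAut.conj α * θ)) (l 0) = (l 0)⁻¹ := by
      rw [MulAut.mul_apply, hα, map_inv, h3]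
    obtain ⟨a, ha⟩ := hq.ker0 hl hh h5.sq (by rw [MulAut.mul_apply, h6, map_inv, h6, inv_inv])
      (h2 ▸ (h4.mul hd).mul (h4.mul hd))
    refine ⟨k * MulAut.conj α, mul_mem hk (conj_mem_Sig hl α), ?_, ?_⟩
    · rw [mul_assoc k]
      exact clift_sq hl (by omega) 0 h5.pure.1 h6 ha
    · rw [mul_assoc k]
      exact h6

end Pool.Agent.MP_1c2b6e_al

/-! The half twist and the Dehn twists at the positions `1`, `2`. -/

namespace Pool.Agent.MP_1c2b6e_al

open Classical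

variable {G : Type} [Group G] [TopologicalSpace G] [IsTopologicalGroup G] [CompactSpace G]
  [TotallyDisconnectedSpace G] {H : Type} [Group H] [TopologicalSpace H] [IsTopologicalGroup H]
  [CompactSpace H] [TotallyDisconnectedSpace H] {r : ℕ} {l : Fin (r + 3) → G}
  {σ φ : MulAut G} {D : Zhat → MulAut G} {q : G →* H}

/-- The inclusion of the first three indices. -/
def e3 (r : ℕ) : Fin 3 → Fin (r + 3) := Fin.castLE (Nat.le_add_left 3 r)

theorem e3_mono (r : ℕ) : StrictMono (e3 r) := fun _ _ h => h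

theorem e3_zero (r : ℕ) : e3 r 0 = 0 := rfl

theorem e3_one (r : ℕ) : e3 r 1 = 1 := rfl

theorem e3_two (r : ℕ) : e3 r 2 = 2 := rfl

theorem ctw_ne (r : ℕ) : (2 : Fin (r + 3)) ≠ 1 := (artin_ne (i := 1) (j := 2) rfl).symm

theorem ctw_cases {P : Fin (r + 3) → Prop} (h1 : P 1) (h2 : P 2)
    (h3 : ∀ i, i ≠ 1 → i ≠ 2 → P i) (i : Fin (r + 3)) : P i := by
  by_cases e1 : i = 1
  · exact e1 ▸ h1
  by_cases e2 : i = 2
  · exact e2 ▸ h2
  exact h3 i e1 e2

theorem ctw_conj (x y : G) (a : Zhat) :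
    pw (x * y) a * x * (pw (x * y) a)⁻¹ * (pw (x * y) a * y * (pw (x * y) a)⁻¹) = x * y := by
  calc _ = pw (x * y) a * (x * y) * (pw (x * y) a)⁻¹ := by group
    _ = _ := conj_pw_self (x * y) a

theorem ctw_ext (hl : IsBasis l) {ψ : MulAut G} (hφ : Continuous φ) (hψ : Continuous ψ)
    (h : ∀ i, φ (l i) = ψ (l i)) : φ = ψ :=
  MulEquiv.toMonoidHom_injective (hl.ext (f := φ.toMonoidHom) (g := ψ.toMonoidHom) hφ hψ h)

/-- Hint: `artin_prod_congr` for the product relation; `D (-a)` is the inverse. -/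
theorem exists_loc (hl : IsBasis l) : ∃ σ D, Loc l σ D := by
  obtain ⟨σ, -, hσ⟩ := exists_hur hl (i := 1) (j := 2) rfl
  have key : ∀ a : Zhat, ∃ f : G →* G, Continuous f ∧
      f (l 1) = pw (l 1 * l 2) a * l 1 * (pw (l 1 * l 2) a)⁻¹ ∧
      f (l 2) = pw (l 1 * l 2) a * l 2 * (pw (l 1 * l 2) a)⁻¹ ∧
      ∀ i, i ≠ 1 → i ≠ 2 → f (l i) = l i := fun a => by
    obtain ⟨f, hc, hf⟩ := hl.lift G (fun i => if i = 1 ∨ i = 2 then
        pw (l 1 * l 2) a * l i * (pw (l 1 * l 2) a)⁻¹ else l i) (by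
      rw [← hl.prod]
      refine artin_prod_congr (i := 1) (j := 2) rfl (fun k h1 h2 => if_neg (by tauto)) ?_
      rw [if_pos (Or.inl rfl), if_pos (Or.inr rfl)]
      exact ctw_conj _ _ a)
    exact ⟨f, hc, (hf 1).trans (if_pos (Or.inl rfl)), (hf 2).trans (if_pos (Or.inr rfl)),
      fun i h1 h2 => (hf i).trans (if_neg (by tauto))⟩
  choose f hc h1 h2 h3 using key
  have hg : ∀ a b, f a (pw (l 1 * l 2) b) = pw (l 1 * l 2) b := fun a b => by
    rw [map_pw (f a) (hc a), map_mul, h1, h2, ctw_conj]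
  have hi : ∀ a b, b + a = 0 → ∀ i, f a (f b (l i)) = l i := fun a b hab => by
    have e : pw (l 1 * l 2) a = (pw (l 1 * l 2) b)⁻¹ := by
      rw [← pw_neg, eq_neg_of_add_eq_zero_right hab]
    refine ctw_cases ?_ ?_ fun i i1 i2 => by rw [h3 b i i1 i2, h3 a i i1 i2]
    · rw [h1 b, map_mul, map_mul, map_inv, hg, h1 a, e]
      group
    · rw [h2 b, map_mul, map_mul, map_inv, hg, h2 a, e]
      group
  have h4 : ∀ a, ∃ φ : MulAut G, Continuous φ ∧ ∀ x, φ x = f a x := fun a =>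
    hl.exists_aut (f a) (f (-a)) (hc _) (hc _) (hi _ _ (neg_add_cancel a))
      (hi _ _ (add_neg_cancel a))
  choose D hD hD' using h4
  exact ⟨σ, D, hσ, hD, fun a => (hD' _ _).trans (h1 a), fun a => (hD' _ _).trans (h2 a),
    fun a i i1 i2 => (hD' _ _).trans (h3 a i i1 i2)⟩

theorem Loc.sig_one (hL : Loc l σ D) : σ (l 1) = l 1 * l 2 * (l 1)⁻¹ := by
  rw [hL.hur.2, _root_.Pool.Agent.MP_1c2b6e_al.hur, if_pos rfl]

theorem Loc.sig_two (hL : Loc l σ D) : σ (l 2) = l 1 := by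
  rw [hL.hur.2, _root_.Pool.Agent.MP_1c2b6e_al.hur, if_neg (ctw_ne r), if_pos rfl]

theorem Loc.sig_rest (hL : Loc l σ D) {i : Fin (r + 3)} (h1 : i ≠ 1) (h2 : i ≠ 2) :
    σ (l i) = l i := by
  rw [hL.hur.2, _root_.Pool.Agent.MP_1c2b6e_al.hur, if_neg h1, if_neg h2]

theorem Loc.sig_gam (hL : Loc l σ D) : σ (l 1 * l 2) = l 1 * l 2 := by
  rw [map_mul, hL.sig_one, hL.sig_two, inv_mul_cancel_right]

theorem Loc.tw_gam (hL : Loc l σ D) (a : Zhat) : D a (l 1 * l 2) = l 1 * l 2 := by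
  rw [map_mul, hL.one, hL.two, ctw_conj]

theorem Loc.mem_gam (hL : Loc l σ D) (hl : IsBasis l) : σ ∈ Gam l :=
  hL.hur.mem_gam hl rfl

theorem ctw_tw_pw (hL : Loc l σ D) (a b : Zhat) : D a (pw (l 1 * l 2) b) = pw (l 1 * l 2) b := by
  rw [map_pw_aut _ (hL.cont a), hL.tw_gam]

theorem ctw_sig_pw (hL : Loc l σ D) (b : Zhat) : σ (pw (l 1 * l 2) b) = pw (l 1 * l 2) b := by
  rw [map_pw_aut _ hL.hur.1, hL.sig_gam]

theorem Loc.sq (hL : Loc l σ D) (hl : IsBasis l) : σ * σ = D 1 := by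
  refine ctw_ext hl (hL.hur.1.comp hL.hur.1) (hL.cont 1) (ctw_cases ?_ ?_ fun i h1 h2 => ?_)
  · rw [MulAut.mul_apply, hL.sig_one, map_mul, map_inv, hL.sig_gam, hL.sig_one, hL.one, pw_one]
    group
  · rw [MulAut.mul_apply, hL.sig_two, hL.sig_one, hL.two, pw_one]
    group
  · rw [MulAut.mul_apply, hL.sig_rest h1 h2, hL.sig_rest h1 h2, hL.rest 1 i h1 h2]

theorem Loc.add (hL : Loc l σ D) (hl : IsBasis l) (a b : Zhat) : D (a + b) = D a * D b := by
  refine ctw_ext hl (hL.cont _) ((hL.cont a).comp (hL.cont b))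
    (ctw_cases ?_ ?_ fun i h1 h2 => ?_)
  · rw [MulAut.mul_apply, hL.one, hL.one, map_mul, map_mul, map_inv, ctw_tw_pw hL, hL.one,
      add_comm a, pw_add]
    group
  · rw [MulAut.mul_apply, hL.two, hL.two, map_mul, map_mul, map_inv, ctw_tw_pw hL, hL.two,
      add_comm a, pw_add]
    group
  · rw [MulAut.mul_apply, hL.rest _ i h1 h2, hL.rest _ i h1 h2, hL.rest _ i h1 h2]

theorem Loc.zero (hL : Loc l σ D) (hl : IsBasis l) : D 0 = 1 := by
  have h := hL.add hl 0 0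
  rw [add_zero] at h
  exact mul_eq_left.1 h.symm

theorem Loc.neg (hL : Loc l σ D) (hl : IsBasis l) (a : Zhat) : D (-a) = (D a)⁻¹ := by
  rw [eq_inv_iff_mul_eq_one, ← hL.add hl, neg_add_cancel, hL.zero hl]

theorem Loc.comm (hL : Loc l σ D) (hl : IsBasis l) (a : Zhat) : σ * D a = D a * σ := by
  refine ctw_ext hl (hL.hur.1.comp (hL.cont a)) ((hL.cont a).comp hL.hur.1)
    (ctw_cases ?_ ?_ fun i h1 h2 => ?_)
  · rw [MulAut.mul_apply, MulAut.mul_apply, hL.one, map_mul, map_mul, map_inv, ctw_sig_pw hL,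
      hL.sig_one, map_mul, map_mul, map_inv, hL.one, hL.two]
    group
  · rw [MulAut.mul_apply, MulAut.mul_apply, hL.two, map_mul, map_mul, map_inv, ctw_sig_pw hL,
      hL.sig_two, hL.one]
  · rw [MulAut.mul_apply, MulAut.mul_apply, hL.rest _ i h1 h2, hL.sig_rest h1 h2,
      hL.rest _ i h1 h2]

theorem ctw_nat (hL : Loc l σ D) (hl : IsBasis l) (k : ℕ) : D (k : Zhat) = (σ * σ) ^ k := by
  induction k with
  | zero => rw [Nat.cast_zero, hL.zero hl, pow_zero]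
  | succ k ih => rw [Nat.cast_succ, hL.add hl, ih, pow_succ, hL.sq hl]

theorem ctw_pr (hL : Loc l σ D) (hl : IsBasis l) (N : OpenNormalSubgroup G) {a b : Zhat}
    (h : pr N (pw (l 1 * l 2) a) = pr N (pw (l 1 * l 2) b)) (g : G) :
    pr N (D a g) = pr N (D b g) := by
  refine hl.pr_ext N (f := (D a).toMonoidHom) (g := (D b).toMonoidHom) (hL.cont a) (hL.cont b)
    (ctw_cases ?_ ?_ fun i h1 h2 => ?_) g
  · change pr N (D a _) = pr N (D b _)
    rw [hL.one, hL.one, map_mul, map_mul, map_inv, h, map_mul, map_mul, map_inv]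
  · change pr N (D a _) = pr N (D b _)
    rw [hL.two, hL.two, map_mul, map_mul, map_inv, h, map_mul, map_mul, map_inv]
  · change pr N (D a _) = pr N (D b _)
    rw [hL.rest _ i h1 h2, hL.rest _ i h1 h2]

/-- Modulo `N` the twist `D a` is a power of `σ * σ`. Hint: take `k = (res m a).val` with
`m = Nat.card (G ⧸ N)`; `pr_ext`. -/
theorem Loc.approx (hL : Loc l σ D) (hl : IsBasis l) (a : Zhat) (N : OpenNormalSubgroup G) :
    ∃ k : ℕ, (∀ g, pr N (D a g) = pr N (((σ * σ) ^ k) g)) ∧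
      ∀ g, pr N (D (-a) g) = pr N (((σ * σ) ^ k)⁻¹ g) := by
  have h : pr N (pw (l 1 * l 2) a) =
      pr N (pw (l 1 * l 2) ((res (Nat.card (G ⧸ N.toSubgroup)) a).val : ℕ)) := by
    rw [pow_pr_pw N _ a _ (pow_card N _), pw_natCast, map_pow]
  refine ⟨(res (Nat.card (G ⧸ N.toSubgroup)) a).val, fun g => ?_, fun g => ?_⟩
  · rw [← ctw_nat hL hl]
    exact ctw_pr hL hl N h g
  · rw [← ctw_nat hL hl, ← hL.neg hl]
    exact ctw_pr hL hl N (by rw [pw_neg, pw_neg, map_inv, map_inv, h]) g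

/-- Hint: `mem_Sig_of_pr`, `approx`, `mem_sig_of_gam`. -/
theorem Loc.mem_sig (hL : Loc l σ D) (hl : IsBasis l) (a : Zhat) : D a ∈ Sig l := by
  have h : σ * σ ∈ Sig l := by
    refine mem_sig_of_gam hl (by omega) (mul_mem (hL.mem_gam hl) (hL.mem_gam hl)) ?_
    rw [hL.sq hl]
    refine ctw_cases (isConj_iff.2 ⟨_, (hL.one 1).symm⟩) (isConj_iff.2 ⟨_, (hL.two 1).symm⟩)
      fun i h1 h2 => ?_
    rw [hL.rest _ i h1 h2]
  refine mem_Sig_of_pr (hL.cont a) fun N => ?_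
  obtain ⟨k, hk, -⟩ := hL.approx hl a N
  exact ⟨_, pow_mem h k, hk⟩

/-- Hint: `approx` with a characteristic `N`, `forget_char`. -/
theorem Loc.inv_tw (hL : Loc l σ D) (hl : IsBasis l) (hφ : Continuous φ)
    (h : φ * σ * φ⁻¹ = σ⁻¹) (a : Zhat) : φ * D a * φ⁻¹ = D (-a) := by
  ext g
  refine eq_of_pr fun N => ?_
  obtain ⟨M, hM, hc⟩ := hl.exists_char N
  obtain ⟨k, h1, h2⟩ := hL.approx hl a M
  have e : φ * (σ * σ) ^ k * φ⁻¹ = ((σ * σ) ^ k)⁻¹ := by
    rw [← conj_pow, ← inv_pow, mul_inv_rev, ← h]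
    congr 1
    group
  refine pr_mono hM ?_
  rw [h2, ← e]
  exact forget_char hc hφ (h1 _)

theorem Loc.not_mem (hL : Loc l σ D) (hl : IsBasis l) : σ ∉ Sig l := by
  intro h
  have h1 := sig_isConj h (Cg.self l 2)
  rw [hL.sig_two] at h1
  exact ctw_ne r (hl.eq_of_isConj (by omega) h1)

theorem Loc.aut (hL : Loc l σ D) (hφ : Continuous φ) :
    Loc (fun i => φ (l i)) (φ * σ * φ⁻¹) fun a => φ * D a * φ⁻¹ := by
  have e : ∀ a x, (φ * D a * φ⁻¹) (φ x) = φ (D a x) := fun a x => by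
    rw [MulAut.mul_apply, MulAut.mul_apply, MulAut.inv_apply_self]
  refine ⟨hL.hur.aut hφ, fun a => hφ.comp ((hL.cont a).comp (continuous_inv_aut φ hφ)),
    fun a => ?_, fun a => ?_, fun a i h1 h2 => ?_⟩
  · rw [e, hL.one, map_mul, map_mul, map_inv, map_pw_aut φ hφ, map_mul]
  · rw [e, hL.two, map_mul, map_mul, map_inv, map_pw_aut φ hφ, map_mul]
  · rw [e, hL.rest _ i h1 h2]

theorem Loc.congr (hL : Loc l σ D) {l' : Fin (r + 3) → G} (h1 : l' 1 = l 1) (h2 : l' 2 = l 2)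
    (h3 : ∀ i, i ≠ 1 → i ≠ 2 → σ (l' i) = l' i ∧ ∀ a, D a (l' i) = l' i) : Loc l' σ D := by
  refine ⟨⟨hL.hur.1, ctw_cases ?_ ?_ fun i i1 i2 => ?_⟩, hL.cont, fun a => ?_, fun a => ?_,
    fun a i i1 i2 => (h3 i i1 i2).2 a⟩
  · rw [_root_.Pool.Agent.MP_1c2b6e_al.hur, if_pos rfl, h1, h2, hL.sig_one]
  · rw [_root_.Pool.Agent.MP_1c2b6e_al.hur, if_neg (ctw_ne r), if_pos rfl, h1, h2, hL.sig_two]
  · rw [_root_.Pool.Agent.MP_1c2b6e_al.hur, if_neg i1, if_neg i2, (h3 i i1 i2).1]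
  · rw [h1, h2, hL.one]
  · rw [h1, h2, hL.two]

theorem ctw_desc (hl : IsBasis l) (hq : Continuous q) {ψ : MulAut H} (hφ : Continuous φ)
    (hψ : Continuous ψ) (h : ∀ i, q (φ (l i)) = ψ (q (l i))) : Desc q φ ψ :=
  DFunLike.congr_fun (hl.ext (f := q.comp φ.toMonoidHom) (g := ψ.toMonoidHom.comp q)
    (hq.comp hφ) (hψ.comp hq) h)

theorem ctw_desc_conj (hL : Loc l σ D) (hl : IsBasis l) (hq : Continuous q) {c : H}
    (hc : q (l 1 * l 2) = c⁻¹) (hr : ∀ i, i ≠ 1 → i ≠ 2 → q (l i) = c ∨ q (l i) = 1)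
    (a : Zhat) : Desc q (D a) (MulAut.conj (pw c (-a))) := by
  refine ctw_desc hl hq (hL.cont a) (continuous_conj_aut _) (ctw_cases ?_ ?_ fun i h1 h2 => ?_)
  · rw [hL.one, map_mul, map_mul, map_inv, map_pw q hq, hc, pw_inv, MulAut.conj_apply]
  · rw [hL.two, map_mul, map_mul, map_inv, map_pw q hq, hc, pw_inv, MulAut.conj_apply]
  · rw [hL.rest _ i h1 h2]
    rcases hr i h1 h2 with e | e
    · rw [e, conj_pw_self]
    · rw [e, map_one]

theorem ctw_prod {h : Fin 3 → H} (hh : IsBasis h) : h 0 * (h 1 * h 2) = 1 := by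
  have e := hh.prod
  simpa [List.ofFn_succ] using e

theorem Loc.desc_one (hL : Loc l σ D) (hl : IsBasis l) {h : Fin (r + 2) → H}
    (hq : Kill l h (Fin.succAbove 1) q) (a : Zhat) : Desc q (D a) 1 := by
  have h0 : q (l 1) = 1 := hq.qz 1 fun ⟨j, hj⟩ => Fin.succAbove_ne 1 j hj
  refine ctw_desc hl hq.cq (hL.cont a) continuous_id (ctw_cases ?_ ?_ fun i h1 h2 => ?_)
  · rw [hL.one, map_mul, map_mul, map_inv, h0, mul_one, mul_inv_cancel, map_one]
  · rw [hL.two, map_mul, map_mul, map_inv, map_pw q hq.cq, map_mul, h0, one_mul]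
    exact conj_pw_self _ a
  · rw [hL.rest _ i h1 h2, MulAut.one_apply]

theorem Loc.desc_three (hL : Loc l σ D) (hl : IsBasis l) {h : Fin 3 → H} (hh : IsBasis h)
    (hq : Kill l h (e3 r) q) (a : Zhat) : Desc q (D a) (MulAut.conj (pw (h 0) (-a))) := by
  refine ctw_desc_conj hL hl hq.cq ?_ (fun i h1 h2 => ?_) a
  · rw [map_mul, ← e3_one r, ← e3_two r, hq.qe, hq.qe]
    exact eq_inv_of_mul_eq_one_right (ctw_prod hh)
  · by_cases hi : i ∈ Set.range (e3 r)
    · obtain ⟨j, rfl⟩ := hi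
      refine Or.inl ?_
      rw [hq.qe]
      fin_cases j
      · rfl
      · exact absurd rfl h1
      · exact absurd rfl h2
    · exact Or.inr (hq.qz i hi)

theorem Loc.desc_zero {l : Fin 4 → G} (hL : Loc (r := 1) l σ D) (hl : IsBasis l) {h : Fin 3 → H}
    (hh : IsBasis h) (hq : Kill l h Fin.succ q) (a : Zhat) :
    Desc q (D a) (MulAut.conj (pw (h 2) (-a))) := by
  refine ctw_desc_conj hL hl hq.cq ?_ (fun i h1 h2 => ?_) a
  · have e1 : q (l 1) = h 0 := hq.qe 0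
    have e2 : q (l 2) = h 1 := hq.qe 1
    have e3 := ctw_prod hh
    rw [← mul_assoc] at e3
    exact (map_mul q _ _).trans ((congrArg₂ (· * ·) e1 e2).trans (eq_inv_of_mul_eq_one_left e3))
  · by_cases hi : i ∈ Set.range (Fin.succ : Fin 3 → Fin 4)
    · obtain ⟨j, rfl⟩ := hi
      refine Or.inl ?_
      rw [hq.qe]
      fin_cases j
      · exact absurd rfl h1
      · exact absurd rfl h2
      · rfl
    · exact Or.inr (hq.qz i hi)

end Pool.Agent.MP_1c2b6e_al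

end

-- part MP_1c2b6e_al.ConjLoc
section

/-! The two subsurfaces cut out by the curve around the punctures `1`, `2`. -/

namespace Pool.Agent.MP_1c2b6e_al

open Classical

variable {G : Type} [Group G] [TopologicalSpace G] [IsTopologicalGroup G] [CompactSpace G]
  [TotallyDisconnectedSpace G] {H : Type} [Group H] [TopologicalSpace H] [IsTopologicalGroup H]
  [CompactSpace H] [TotallyDisconnectedSpace H] {r : ℕ} {l : Fin (r + 3) → G}
  {σ : MulAut G} {D : Zhat → MulAut G} {q : G →* H}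

/-- The section onto the subsurface fixed by the half twist. -/
structure SecB (l : Fin (r + 3) → G) (h : Fin (r + 2) → H) (σ : MulAut G) (D : Zhat → MulAut G)
    (q : G →* H) (ι : H →* G) : Prop where
  cont : Continuous ι
  sec : ∀ x, q (ι x) = x
  one : ι (h 1) = l 1 * l 2
  rest : ∀ j, j ≠ 1 → ι (h j) = l (Fin.succAbove 1 j)
  sig : ∀ x, σ (ι x) = ι x
  tw : ∀ a x, D a (ι x) = ι x
  fix : ∀ g, D 1 g = g → ι (q g) = g

/-- The section onto the pair of pants containing the punctures `1`, `2`. -/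
structure SecA (l : Fin (r + 3) → G) (h : Fin 3 → H) (σ : MulAut G) (D : Zhat → MulAut G)
    (q : G →* H) (ι : H →* G) : Prop where
  cont : Continuous ι
  sec : ∀ x, q (ι x) = x
  zero : ι (h 0) = (l 1 * l 2)⁻¹
  one : ι (h 1) = l 1
  two : ι (h 2) = l 2
  tw : ∀ a x, D a (ι x) = pw (l 1 * l 2) a * ι x * (pw (l 1 * l 2) a)⁻¹
  fix : ∀ g, D 1 g = l 1 * l 2 * g * (l 1 * l 2)⁻¹ → ι (q g) = g

theorem csec_cases2 {P : Fin (r + 2) → Prop} (h0 : P 0) (h1 : P 1)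
    (h2 : ∀ k : Fin r, P k.succ.succ) (i : Fin (r + 2)) : P i := by
  refine Fin.cases h0 (fun i => ?_) i
  exact Fin.cases h1 h2 i

theorem csec_cases3 {P : Fin (r + 3) → Prop} (h0 : P 0) (h1 : P 1) (h2 : P 2)
    (h3 : ∀ k : Fin r, P k.succ.succ.succ) (i : Fin (r + 3)) : P i := by
  refine Fin.cases h0 (fun i => ?_) i
  exact csec_cases2 (P := fun i => P i.succ) h1 h2 h3 i

theorem csec_prod2 {Q : Type} [Group Q] (f : Fin (r + 2) → Q) : (List.ofFn f).prod =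
    f 0 * f 1 * (List.ofFn fun k : Fin r => f k.succ.succ).prod := by
  rw [List.ofFn_succ, List.ofFn_succ, List.prod_cons, List.prod_cons, mul_assoc]
  rfl

theorem csec_prod3 {Q : Type} [Group Q] (f : Fin (r + 3) → Q) : (List.ofFn f).prod =
    f 0 * (f 1 * f 2) * (List.ofFn fun k : Fin r => f k.succ.succ.succ).prod := by
  rw [List.ofFn_succ, List.prod_cons, csec_prod2, mul_assoc (f 0)]
  rfl

theorem csec_above (k : Fin r) :
    Fin.succAbove (1 : Fin (r + 3)) k.succ.succ = k.succ.succ.succ :=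
  Fin.succAbove_of_le_castSucc _ _ (by
    rw [Fin.le_def]
    simp)

theorem csec_ne1 (k : Fin r) : (k.succ.succ.succ : Fin (r + 3)) ≠ 1 := fun e => by
  have := congrArg Fin.val e
  simp at this

theorem csec_ne2 (k : Fin r) : (k.succ.succ.succ : Fin (r + 3)) ≠ 2 := fun e => by
  have h : (2 : Fin (r + 3)) = (Fin.succ (Fin.succ 0)) := rfl
  rw [h, Fin.succ_inj, Fin.succ_inj] at e
  exact Fin.succ_ne_zero k e

theorem csec_01 : (0 : Fin (r + 3)) ≠ 1 := Fin.zero_ne_one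

theorem csec_02 : (0 : Fin (r + 3)) ≠ 2 := (Fin.succ_ne_zero (1 : Fin (r + 2))).symm

theorem csec_12 : (1 : Fin (r + 3)) ≠ 2 := fun e =>
  Fin.zero_ne_one (Fin.succ_injective _ (show Fin.succ (0 : Fin (r + 2)) = Fin.succ 1 from e))

omit [IsTopologicalGroup G] [CompactSpace G] [TotallyDisconnectedSpace G] [IsTopologicalGroup H]
  [CompactSpace H] [TotallyDisconnectedSpace H] in
theorem csec_open {Q : Type} [Group Q] {ι : H →* G} (hc : Continuous ι) {φ : G →* Q}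
    (h : IsOpen (φ.ker : Set G)) : IsOpen ((φ.comp ι).ker : Set H) :=
  h.preimage hc

omit [IsTopologicalGroup H] [TotallyDisconnectedSpace H] [CompactSpace G] in
theorem csec_closed {ι : H →* G} (hc : Continuous ι) : IsClosed (ι.range : Set G) :=
  (isCompact_range hc).isClosed

theorem csec_char (hl : IsBasis l) {t : MulAut G} (ht : Continuous t) (N : OpenNormalSubgroup G) :
    ∃ M : OpenNormalSubgroup G, M ≤ N ∧ ∀ g ∈ M, t g ∈ M :=
  let ⟨M, h1, h2⟩ := hl.exists_char N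
  ⟨M, h1, h2 t.toMonoidHom ht⟩

theorem csec_ch (hl : IsBasis l) : ∃ f : G → ZMod 2, IsCh ⊤ f ∧ f (l 1 * l 2) = 1 := by
  obtain ⟨f, hf, h1, -, h2⟩ := exists_ch_pair hl 2 (csec_01 (r := r)).symm
  refine ⟨f, hf, ?_⟩
  rw [hf.1 _ trivial _ trivial, h1, h2 2 csec_12.symm csec_02.symm, add_zero]

/-- Plan: lift the tuple `l 0, l 1 * l 2, l 3, ...`. For `fix` use `fix_mem` with `B = ι.range`,
`κ = Unit`, `z = l 1`, `w = l 1 * l 2`; given `φ`, `v` lift `l 1 ↦ v`, `l 2 ↦ v⁻¹ * φ w`, `l i ↦ φ (l i)`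
(`lift_fin`, `artin_prod_congr`, `ext_fin` on `H`); `exists_char`; `exists_ch_pair` for `f`. -/
theorem Loc.secB (hL : Loc l σ D) (hl : IsBasis l) {h : Fin (r + 2) → H} (hh : IsBasis h)
    (hq : Kill l h (Fin.succAbove 1) q) : ∃ ι, SecB l h σ D q ι := by
  obtain ⟨ι, hc, hι⟩ := hh.lift G
    (Fin.cons (l 0) (Fin.cons (l 1 * l 2) fun k : Fin r => l k.succ.succ.succ))
    (by rw [csec_prod2, ← hl.prod, csec_prod3]; rfl)
  have e0 : ι (h 0) = l 0 := hι 0
  have e1 : ι (h 1) = l 1 * l 2 := hι 1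
  have e2 : ∀ k : Fin r, ι (h k.succ.succ) = l k.succ.succ.succ := fun k => hι k.succ.succ
  have hsec : ∀ x, q (ι x) = x := by
    refine DFunLike.congr_fun (hh.ext (f := q.comp ι) (g := MonoidHom.id H) (hq.cq.comp hc)
      continuous_id (csec_cases2 ?_ ?_ fun k => ?_))
    · exact (congrArg q e0).trans (hq.qe 0)
    · refine (congrArg q e1).trans ?_
      rw [map_mul, hq.qz 1 (by rintro ⟨j, hj⟩; exact Fin.succAbove_ne 1 j hj), one_mul]
      exact hq.qe 1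
    · refine (congrArg q (e2 k)).trans ?_
      rw [← csec_above]
      exact hq.qe _
  have key : ∀ t : MulAut G, Continuous t → t (l 1 * l 2) = l 1 * l 2 →
      (∀ i, i ≠ 1 → i ≠ 2 → t (l i) = l i) → ∀ x, t (ι x) = ι x := by
    intro t ht h1 h2
    refine DFunLike.congr_fun (hh.ext (f := t.toMonoidHom.comp ι) (g := ι) (ht.comp hc) hc
      (csec_cases2 ?_ ?_ fun k => ?_))
    · change t (ι (h 0)) = _
      rw [e0, h2 0 csec_01 csec_02]
    · change t (ι (h 1)) = _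
      rw [e1, h1]
    · change t (ι (h _)) = _
      rw [e2, h2 _ (csec_ne1 k) (csec_ne2 k)]
  have htw : ∀ a x, D a (ι x) = ι x := fun a => key _ (hL.cont a) (hL.tw_gam a) (hL.rest a)
  refine ⟨ι, hc, hsec, e1, csec_cases2 (fun _ => e0) (fun h => absurd rfl h) fun k _ => ?_,
    key σ hL.hur.1 hL.sig_gam fun i => hL.sig_rest, htw, fun g hg => ?_⟩
  · rw [csec_above, e2]
  obtain ⟨f, hf, hfw⟩ := csec_ch hl
  suffices hm : g ∈ ι.range by
    obtain ⟨x, rfl⟩ := hm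
    rw [hsec]
  refine fix_mem (κ := Unit) (csec_closed hc) (fun _ => l 1) (hL.cont 1)
    (w := l 1 * l 2) ⟨_, e1⟩ (by rintro _ ⟨x, rfl⟩; exact htw 1 x)
    (fun _ => by rw [hL.one, pw_one]) (fun S hS hB hz => ?_) (fun Q _ _ φ hφ v => ?_)
    (csec_char hl (hL.cont 1)) hf hfw hg
  · refine hl.eq_top_of_isOpen hS (csec_cases3 (hB ⟨_, e0⟩) (hz ()) ?_ fun k => hB ⟨_, e2 k⟩)
    exact (S.mul_mem_cancel_left (hz ())).1 (hB ⟨_, e1⟩)
  · obtain ⟨ψ, hψ, hv⟩ := hl.lift_fin (Q := Q) (Fin.cons (φ (l 0)) (Fin.cons (v ())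
      (Fin.cons ((v ())⁻¹ * φ (l 1 * l 2)) fun k : Fin r => φ (l k.succ.succ.succ)))) (by
        have h1 := congrArg φ hl.prod
        rw [csec_prod3, map_mul, map_mul, map_one, map_list_prod, List.map_ofFn] at h1
        rw [csec_prod3, ← h1]
        congr 2
        exact mul_inv_cancel_left _ _)
    have v0 : ψ (l 0) = φ (l 0) := hv 0
    have v1 : ψ (l 1) = v () := hv 1
    have v2 : ψ (l 2) = (v ())⁻¹ * φ (l 1 * l 2) := hv 2
    have v3 : ∀ k : Fin r, ψ (l k.succ.succ.succ) = φ (l k.succ.succ.succ) := fun k =>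
      hv k.succ.succ.succ
    refine ⟨ψ, hψ, ?_, fun _ => v1⟩
    rintro _ ⟨x, rfl⟩
    refine DFunLike.congr_fun (hh.ext_fin (csec_open hc hψ) (csec_open hc hφ)
      (csec_cases2 ?_ ?_ fun k => ?_)) x
    · rw [MonoidHom.comp_apply, MonoidHom.comp_apply, e0, v0]
    · rw [MonoidHom.comp_apply, MonoidHom.comp_apply, e1, map_mul ψ, v1, v2, mul_inv_cancel_left]
    · rw [MonoidHom.comp_apply, MonoidHom.comp_apply, e2, v3]

/-- Plan: for `fix` use `fix_mem` for the automorphism `conj (l 1 * l 2)⁻¹ * D 1` with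
`B = ι.range`, `κ = Fin r`, `z k = l k.succ.succ.succ`, `w = (l 1 * l 2)⁻¹`; the image of `l 0` is
forced by the relation. -/
theorem Loc.secA (hL : Loc l σ D) (hl : IsBasis l) {h : Fin 3 → H} (hh : IsBasis h)
    (hq : Kill l h (e3 r) q) : ∃ ι, SecA l h σ D q ι := by
  obtain ⟨ι, hc, hι⟩ := hh.lift G ![(l 1 * l 2)⁻¹, l 1, l 2] (by simp)
  have e0 : ι (h 0) = (l 1 * l 2)⁻¹ := hι 0
  have e1 : ι (h 1) = l 1 := hι 1
  have e2 : ι (h 2) = l 2 := hι 2
  have q1 : q (l 1) = h 1 := hq.qe 1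
  have q2 : q (l 2) = h 2 := hq.qe 2
  have hsec : ∀ x, q (ι x) = x := by
    refine DFunLike.congr_fun (hh.ext (f := q.comp ι) (g := MonoidHom.id H) (hq.cq.comp hc)
      continuous_id (csec_cases3 (r := 0) ?_ ?_ ?_ fun k => k.elim0))
    · refine (congrArg q e0).trans ?_
      have h1 := hh.prod
      rw [csec_prod3 (r := 0), List.ofFn_zero, List.prod_nil, mul_one] at h1
      rw [map_inv, map_mul, q1, q2]
      exact (eq_inv_of_mul_eq_one_left h1).symm
    · exact (congrArg q e1).trans q1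
    · exact (congrArg q e2).trans q2
  have htw : ∀ a x, D a (ι x) = pw (l 1 * l 2) a * ι x * (pw (l 1 * l 2) a)⁻¹ := by
    intro a
    refine DFunLike.congr_fun (hh.ext (f := (D a).toMonoidHom.comp ι)
      (g := (MulAut.conj (pw (l 1 * l 2) a)).toMonoidHom.comp ι) ((hL.cont a).comp hc)
      ((continuous_conj_aut _).comp hc) (csec_cases3 (r := 0) ?_ ?_ ?_ fun k => k.elim0))
    · change D a (ι (h 0)) = MulAut.conj (pw (l 1 * l 2) a) (ι (h 0))
      rw [e0, map_inv, map_inv, hL.tw_gam, conj_pw_self]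
    · change D a (ι (h 1)) = MulAut.conj (pw (l 1 * l 2) a) (ι (h 1))
      rw [e1, hL.one, MulAut.conj_apply]
    · change D a (ι (h 2)) = MulAut.conj (pw (l 1 * l 2) a) (ι (h 2))
      rw [e2, hL.two, MulAut.conj_apply]
  refine ⟨ι, hc, hsec, e0, e1, e2, htw, fun g hg => ?_⟩
  obtain ⟨f, hf, hfw⟩ := csec_ch hl
  have hc' : Continuous (MulAut.conj (l 1 * l 2)⁻¹ * D 1 : MulAut G) :=
    (continuous_conj_aut _).comp (hL.cont 1)
  suffices hm : g ∈ ι.range by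
    obtain ⟨x, rfl⟩ := hm
    rw [hsec]
  refine fix_mem (κ := Fin r) (csec_closed hc) (fun k => l k.succ.succ.succ) hc'
    (w := (l 1 * l 2)⁻¹) ⟨_, e0⟩ ?_ (fun k => ?_) (fun S hS hB hz => ?_) (fun Q _ _ φ hφ v => ?_)
    (csec_char hl hc') hf (by rw [hf.inv trivial, hfw]; rfl) (g := g) ?_
  · rintro _ ⟨x, rfl⟩
    rw [MulAut.mul_apply, htw, pw_one, MulAut.conj_apply]
    group
  · rw [MulAut.mul_apply, hL.rest 1 _ (csec_ne1 k) (csec_ne2 k), MulAut.conj_apply]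
  · refine hl.eq_top_of_isOpen hS (csec_cases3 ?_ (hB ⟨_, e1⟩) (hB ⟨_, e2⟩) hz)
    have h1 := hl.prod
    rw [csec_prod3, mul_assoc] at h1
    rw [eq_inv_of_mul_eq_one_left h1]
    refine inv_mem (mul_mem (mul_mem (hB ⟨_, e1⟩) (hB ⟨_, e2⟩)) (list_prod_mem fun y hy => ?_))
    obtain ⟨k, rfl⟩ := (List.mem_ofFn' _ _).1 hy
    exact hz k
  · obtain ⟨ψ, hψ, hv⟩ := hl.lift_fin (Q := Q)
      (Fin.cons (φ (l 1) * φ (l 2) * (List.ofFn v).prod)⁻¹ (Fin.cons (φ (l 1))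
        (Fin.cons (φ (l 2)) v))) (by
        rw [csec_prod3, mul_assoc]
        exact inv_mul_cancel _)
    have v1 : ψ (l 1) = φ (l 1) := hv 1
    have v2 : ψ (l 2) = φ (l 2) := hv 2
    refine ⟨ψ, hψ, ?_, fun k => hv k.succ.succ.succ⟩
    rintro _ ⟨x, rfl⟩
    refine DFunLike.congr_fun (hh.ext_fin (csec_open hc hψ) (csec_open hc hφ)
      (csec_cases3 (r := 0) ?_ ?_ ?_ fun k => k.elim0)) x
    · rw [MonoidHom.comp_apply, MonoidHom.comp_apply, e0, map_inv, map_inv, map_mul, map_mul,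
        v1, v2]
    · rw [MonoidHom.comp_apply, MonoidHom.comp_apply, e1, v1]
    · rw [MonoidHom.comp_apply, MonoidHom.comp_apply, e2, v2]
  · rw [MulAut.mul_apply, hg, MulAut.conj_apply]
    group

variable {ι : H →* G} {φ : MulAut G} {φ' : MulAut H}

/-- An automorphism inverting the half twist preserves the subsurface. Hint: `Loc.sq`. -/
theorem SecB.map {h : Fin (r + 2) → H} (hι : SecB l h σ D q ι) (hL : Loc l σ D)
    (hl : IsBasis l) (h1 : φ * σ * φ⁻¹ = σ⁻¹) (hd : Desc q φ φ') (x : H) :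
    φ (ι x) = ι (φ' x) := by
  have h2 : σ⁻¹ (φ (ι x)) = φ (ι x) := by
    rw [← h1, MulAut.mul_apply, MulAut.mul_apply, MulAut.inv_apply_self, hι.sig]
  have h3 : σ (φ (ι x)) = φ (ι x) := by
    conv_lhs => rw [← h2, MulAut.apply_inv_self]
  have h4 := hι.fix (φ (ι x)) (by rw [← hL.sq hl, MulAut.mul_apply, h3, h3])
  rw [← h4, hd, hι.sec]

theorem SecB.cg {h : Fin (r + 2) → H} (hι : SecB l h σ D q ι) {j : Fin (r + 2)} (hj : j ≠ 1)
    {x : H} (hx : IsConj (h j) x) : IsConj (l (Fin.succAbove 1 j)) (ι x) := by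
  rw [← hι.rest j hj]
  exact ι.map_isConj hx

theorem SecB.comm {h : Fin (r + 2) → H} (hι : SecB l h σ D q ι) (x : H) :
    MulAut.conj (ι x) * σ * (MulAut.conj (ι x))⁻¹ = σ := by
  have h1 := mul_conj_eq σ (ι x)
  rw [hι.sig] at h1
  rw [← h1, mul_inv_cancel_right]

theorem SecB.comm_tw {h : Fin (r + 2) → H} (hι : SecB l h σ D q ι) (a : Zhat) (x : H) :
    MulAut.conj (ι x) * D a * (MulAut.conj (ι x))⁻¹ = D a := by
  have h1 := mul_conj_eq (D a) (ι x)
  rw [hι.tw] at h1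
  rw [← h1, mul_inv_cancel_right]

theorem SecA.map {h : Fin 3 → H} (hι : SecA l h σ D q ι) (hL : Loc l σ D) (hl : IsBasis l)
    (h1 : φ * σ * φ⁻¹ = σ⁻¹) (h2 : φ (l 1 * l 2) = (l 1 * l 2)⁻¹) (hd : Desc q φ φ') (x : H) :
    φ (ι x) = ι (φ' x) := by
  have h3 : φ = D 1 * φ * D 1 := by
    rw [← hL.sq hl]
    calc φ = σ * σ * (σ⁻¹ * σ⁻¹) * φ := by group
      _ = σ * σ * ((φ * σ * φ⁻¹) * (φ * σ * φ⁻¹)) * φ := by rw [h1]
      _ = _ := by group
  have h4 : φ (ι x) = (l 1 * l 2)⁻¹ * D 1 (φ (ι x)) * (l 1 * l 2) := by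
    conv_lhs => rw [h3, MulAut.mul_apply, MulAut.mul_apply, hι.tw, pw_one]
    generalize hw : l 1 * l 2 = w at h2
    have h5 : D 1 w = w := hw ▸ hL.tw_gam 1
    simp only [map_mul, map_inv, h2, h5, inv_inv]
  have h5 := hι.fix (φ (ι x)) (by
    conv_rhs => rw [h4]
    group)
  rw [← h5, hd, hι.sec]

/-- The twists and the half twist preserve the pair of pants. -/
theorem SecA.tw_sig {h : Fin 3 → H} (hι : SecA l h σ D q ι) (hL : Loc l σ D) (hl : IsBasis l)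
    (a b : Zhat) (x : H) : D a ((σ * D b) (ι x)) =
      pw (l 1 * l 2) a * (σ * D b) (ι x) * (pw (l 1 * l 2) a)⁻¹ := by
  have h1 : D a * (σ * D b) = σ * D b * D a := by
    rw [← mul_assoc, ← hL.comm hl, mul_assoc, mul_assoc, ← hL.add hl, ← hL.add hl, add_comm]
  have h2 : (σ * D b) (pw (l 1 * l 2) a) = pw (l 1 * l 2) a := by
    rw [MulAut.mul_apply, map_pw_aut _ (hL.cont b), hL.tw_gam, map_pw_aut _ hL.hur.1, hL.sig_gam]
  rw [← MulAut.mul_apply, h1, MulAut.mul_apply _ (σ * D b), hι.tw, map_mul, map_mul, map_inv, h2]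

/-- Killing `l 1` sends the pair of pants to the powers of one generator. Hint: the set of `x` such
that `p (ι x)` commutes with `p (l 2)` is a closed subgroup containing the `h j`. -/
theorem SecA.comm {h : Fin 3 → H} (hι : SecA l h σ D q ι) (hh : IsBasis h) {K : Type} [Group K]
    [TopologicalSpace K] [IsTopologicalGroup K] [T2Space K] (p : G →* K) (hp : Continuous p)
    (h1 : p (l 1) = 1) (x : H) : p (ι x) * p (l 2) = p (l 2) * p (ι x) := by
  have h2 : Continuous (MulAut.conj (p (l 2)) : MulAut K) := by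
    show Continuous fun y : K => p (l 2) * y * (p (l 2))⁻¹
    fun_prop
  have h3 := DFunLike.congr_fun (hh.ext (f := p.comp ι)
    (g := (MulAut.conj (p (l 2))).toMonoidHom.comp (p.comp ι)) (hp.comp hι.cont)
    (h2.comp (hp.comp hι.cont)) (csec_cases3 (r := 0) ?_ ?_ ?_ fun k => k.elim0)) x
  · exact eq_mul_inv_iff_mul_eq.1 h3
  · change p (ι (h 0)) = p (l 2) * p (ι (h 0)) * (p (l 2))⁻¹
    rw [hι.zero, map_inv, map_mul, h1]
    group
  · change p (ι (h 1)) = p (l 2) * p (ι (h 1)) * (p (l 2))⁻¹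
    rw [hι.one, h1]
    group
  · change p (ι (h 2)) = p (l 2) * p (ι (h 2)) * (p (l 2))⁻¹
    rw [hι.two]
    group

end Pool.Agent.MP_1c2b6e_al

/-! An involution inverts a half twist between two consecutive cusps of a chain. -/

namespace Pool.Agent.MP_1c2b6e_al

open Classical

variable {G : Type} [Group G] [TopologicalSpace G] [IsTopologicalGroup G] [CompactSpace G]
  [TotallyDisconnectedSpace G]

theorem cest_sig {r : ℕ} {l : Fin (r + 3) → G} (hl : IsBasis l) {t σ : MulAut G} (ht : Adm l t)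
    (h0 : t (l 0) = (l 0)⁻¹) (hσ : Hur l 1 2 σ) : ∃ D, Loc l σ D ∧ σ (l 0) = l 0 ∧
      t * σ * t⁻¹ * σ ∈ Sig l ∧ (t * σ * t⁻¹ * σ) (l 0) = l 0 := by
  obtain ⟨σ', D, hL⟩ := exists_loc hl
  obtain rfl : σ = σ' := hσ.unique hl hL.hur
  have hs : σ (l 0) = l 0 := hL.sig_rest Fin.zero_ne_one (Fin.succ_ne_zero 1).symm
  refine ⟨D, hL, hs, ?_, ?_⟩
  · have e : t * σ * t⁻¹ * σ = t * σ * t⁻¹ * σ⁻¹ * D 1 := by
      rw [← hL.sq hl]
      group
    rw [e]
    exact mul_mem (ht.comm σ (hL.mem_gam hl)) (hL.mem_sig hl 1)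
  · have h1 : t (l 0)⁻¹ = l 0 := by rw [map_inv, h0, inv_inv]
    have h2 : t⁻¹ (l 0) = (l 0)⁻¹ := by
      apply t.injective
      rw [MulAut.apply_inv_self, h1]
    simp only [MulAut.mul_apply]
    rw [hs, h2, map_inv, hs, h1]

theorem cest_sq {t σ : MulAut G} {x : G} {m : Zhat} (hc : Continuous σ) (hs : σ x = x)
    (h : t * σ * t⁻¹ * σ = MulAut.conj (pw x m)) :
    t * (σ * σ) * t⁻¹ * (σ * σ) = MulAut.conj (pw x (2 * m)) := by
  have h1 : σ * MulAut.conj (pw x m) = MulAut.conj (pw x m) * σ := by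
    rw [mul_conj_eq, map_pw_aut σ hc, hs]
  have h2 : t * σ * t⁻¹ = MulAut.conj (pw x m) * σ⁻¹ := by rw [← h, mul_inv_cancel_right]
  calc _ = t * σ * t⁻¹ * (t * σ * t⁻¹ * σ) * σ := by group
    _ = MulAut.conj (pw x m) * σ⁻¹ * (MulAut.conj (pw x m) * σ) := by rw [h, h2, mul_assoc]
    _ = MulAut.conj (pw x m) * MulAut.conj (pw x m) := by rw [← h1]; group
    _ = _ := by rw [two_mul, pw_add, map_mul]

theorem cest_zero {n : ℕ} {l : Fin n → G} (hl : IsBasis l) (hn : 3 ≤ n) (i : Fin n) {m : Zhat}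
    (h : (1 : MulAut G) = MulAut.conj (pw (l i) (2 * m))) : m = 0 := by
  rw [← map_one MulAut.conj] at h
  refine eq_zero_of_two_mul (hl.pw_inj (by omega) i ?_)
  rw [pw_zero]
  exact (hl.conj_inj hn h).symm

theorem cest_fin {t σ : MulAut G} {x : G} (h : t * σ * t⁻¹ * σ = MulAut.conj (pw x 0)) :
    t * σ * t⁻¹ = σ⁻¹ := by
  rw [pw_zero, map_one] at h
  exact eq_inv_of_mul_eq_one_left h

/-- The tripod. Plan: `t * σ * t⁻¹ * σ ∈ Sig l` (`Adm.comm`, `Loc.sq`, `Loc.mem_sig`) is inner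
(`Sig_three`) and fixes `l 0`, so it is `conj (pw (l 0) m)`. Square `t * σ * t⁻¹` and use
`D 1 = conj (l 0)⁻¹` (`desc_three` for the identity map, or directly) to get `2 * m = 0`. -/
theorem twist_three {l : Fin 3 → G} (hl : IsBasis l) {t σ : MulAut G} (ht : Adm l t)
    (h0 : t (l 0) = (l 0)⁻¹) (hσ : Hur l 1 2 σ) : t * σ * t⁻¹ = σ⁻¹ := by
  obtain ⟨D, hL, hs, h1, h2⟩ := cest_sig (r := 0) hl ht h0 hσ
  obtain ⟨g, hg⟩ := Sig_three hl h1
  rw [hg, MulAut.conj_apply, mul_inv_eq_iff_eq_mul] at h2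
  obtain ⟨m, rfl⟩ := hl.cent (by norm_num) 0 h2
  have hk : Kill l l (e3 0) (MonoidHom.id G) :=
    ⟨e3_mono 0, continuous_id, fun _ => rfl, fun i hi => absurd ⟨i, rfl⟩ hi⟩
  have hD : D 1 = MulAut.conj (l 0)⁻¹ := by
    ext x
    have := hL.desc_three hl hl hk 1 x
    rwa [pw_neg, pw_one] at this
  have h3 := cest_sq hσ.1 hs hg
  rw [hL.sq hl, hD, mul_conj_eq t, map_inv t, h0, inv_inv, mul_inv_cancel_right, ← map_mul,
    mul_inv_cancel, map_one] at h3
  obtain rfl := cest_zero hl le_rfl 0 h3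
  exact cest_fin hg

/-- The induction step. Plan: `t * σ * t⁻¹ * σ ∈ Sig l` fixes `l 0` and descends to `1`, so it is
`conj (pw (l 0) m)` (`ker0`). Square `t * σ * t⁻¹` and descend along the map killing `l 1`
(`exists_kill` onto `gen (r + 3)`, `desc_one`, `Kill.desc`, `Desc.unique`, `conj_inj`). -/
theorem twist_step {r : ℕ} {l : Fin (r + 4) → G} (hl : IsBasis l) {t σ : MulAut G} (ht : Adm l t)
    (h0 : t (l 0) = (l 0)⁻¹) (hσ : Hur l 1 2 σ) {H : Type} [Group H] [TopologicalSpace H]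
    [IsTopologicalGroup H] [CompactSpace H] [TotallyDisconnectedSpace H] {h : Fin (r + 3) → H}
    (hh : IsBasis h) {q : G →* H} (hq : Kill l h Fin.succ q) {t' σ' : MulAut H}
    (h1 : Desc q t t') (h2 : Hur h 0 1 σ') (h3 : t' * σ' * t'⁻¹ = σ'⁻¹) :
    t * σ * t⁻¹ = σ⁻¹ := by
  obtain ⟨D, hL, hs, h4, h5⟩ := cest_sig (r := r + 1) hl ht h0 hσ
  have hd : Desc q σ σ' := hq.hur hl (i := 0) (j := 1) hσ h2
  have h6 := ((h1.mul hd).mul h1.inv).mul hd
  rw [h3, inv_mul_cancel] at h6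
  obtain ⟨m, hm⟩ := hq.ker0 hl hh h4 h5 h6
  have h7 := cest_sq hσ.1 hs hm
  have hg := isBasis_gen (r + 3)
  obtain ⟨p, hp⟩ := exists_kill hl hg.prod (Fin.strictMono_succAbove 1)
  obtain ⟨s, -, hs'⟩ := hp.desc hl hg ht.pure
  have h8 := hL.desc_one hl hp 1
  have h9 := ((hs'.mul h8).mul hs'.inv).mul h8
  rw [← hL.sq hl, h7, mul_one, mul_one, mul_inv_cancel] at h9
  have h10 := Desc.unique (hp.surj hg) h9 (Desc.conj p _)
  have h11 : p (l 0) = gen (r + 3) 0 := hp.qe 0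
  rw [map_pw p hp.cq, h11] at h10
  obtain rfl := cest_zero hg (by omega) 0 h10
  exact cest_fin hm

/-- Plan: induction on `r`. `x, y, z` are pairwise non-conjugate (`Pure.not_conj`,
`Pure.not_conj₃`). For `r = 0` use `exists_gam_three`, `twist_three`. In the step change the basis
so that `l 0 = x` (`exists_gam_one`), kill `l 0`, take the second cusp generator `x'` inverted by
the induced involution (`exists_other` applied to `q y`), apply the hypothesis to `x', q y, q z`,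
rotate (`exists_rot`), lift (`lift_gam`, `Kill.aut`), and use `twist_step`, `Kill.isConj_of`. -/
theorem exists_twist (r : ℕ) : ∀ (G : Type) [Group G] [TopologicalSpace G] [IsTopologicalGroup G]
    [CompactSpace G] [TotallyDisconnectedSpace G] (l : Fin (r + 3) → G), IsBasis l →
    ∀ t, Adm l t → t * t = 1 → ∀ (x y z : G) (m : Zhat), Cg l x → Cg l y → Cg l z →
      t x = x⁻¹ → t y = y⁻¹ → x ≠ y → res 2 m = 1 → (t * MulAut.conj (pw y m)) z = z⁻¹ → z ≠ y →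
      ∃ δ ∈ Gam l, δ (l 0) = x ∧ IsConj (δ (l 1)) y ∧ IsConj (δ (l 2)) z ∧
        ∀ σ, Hur (fun i => δ (l i)) 1 2 σ → t * σ * t⁻¹ = σ⁻¹ := by
  have key : ∀ {n : ℕ} {G : Type} [Group G] [TopologicalSpace G] [IsTopologicalGroup G]
      [CompactSpace G] [TotallyDisconnectedSpace G] {l : Fin n → G}, IsBasis l → 3 ≤ n →
      ∀ {t}, Adm l t → t * t = 1 → ∀ {x y z : G} {m : Zhat}, Cg l x → Cg l y →
        t x = x⁻¹ → t y = y⁻¹ → x ≠ y → res 2 m = 1 → (t * MulAut.conj (pw y m)) z = z⁻¹ → z ≠ y →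
        ¬IsConj x y ∧ ¬IsConj x z ∧ ¬IsConj y z := by
    intro n G _ _ _ _ _ l hl hn t ht h2 x y z m hx hy ix iy hxy hm iz hzy
    have h1 := ht.pure.not_conj hl hn h2 hx ix iy hxy.symm
    exact ⟨h1, ht.pure.not_conj₃ hl hn hx hy ix h1 hm iz,
      (ht.pure.mul_conj _).not_conj hl hn (sq_mul_conj h2 (map_pw_inv ht.pure.1 iy m)) hy
        (mul_conj_pw_inv iy m) iz hzy⟩
  induction r with
  | zero =>
    intro G _ _ _ _ _ l hl t ht h2 x y z m hx hy hz ix iy hxy hm iz hzy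
    obtain ⟨n1, n2, n3⟩ := key hl le_rfl ht h2 hx hy ix iy hxy hm iz hzy
    obtain ⟨δ, hδ, e0, e1, e2⟩ := exists_gam_three hl hx hy hz n1 n2 n3
    refine ⟨δ, hδ, e0, e1, e2, fun σ hσ => ?_⟩
    exact twist_three (hl.aut (gam_perm hδ).1) (ht.aut hl le_rfl hδ) (by rw [e0]; exact ix) hσ
  | succ r ih =>
    intro G _ _ _ _ _ l hl t ht h2 x y z m hx hy hz ix iy hxy hm iz hzy
    have hn : 3 ≤ r + 1 + 3 := by omega
    have hn' : 3 ≤ r + 3 := by omega
    obtain ⟨n1, n2, n3⟩ := key hl hn ht h2 hx hy ix iy hxy hm iz hzy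
    obtain ⟨δ₀, hδ₀, e0⟩ := exists_gam_one hl hn 0 hx
    have hl' := hl.aut (gam_perm hδ₀).1
    have ht' := ht.aut hl hn hδ₀
    have hy' := (cg_aut hδ₀).2 hy
    have hz' := (cg_aut hδ₀).2 hz
    have hg := isBasis_gen (r + 3)
    obtain ⟨q, hq⟩ := exists_kill hl' hg.prod Fin.strictMono_succ
    obtain ⟨t', hp', hd⟩ := hq.desc hl' hg ht'.pure
    have ha' : Adm (gen (r + 3)) t' := ht'.desc0 hq hl' hg hd
    have h2' : t' * t' = 1 := Desc.unique (hq.surj hg) (hd.mul hd) (h2 ▸ Desc.one q)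
    have hcg : ∀ w, Cg (fun i => δ₀ (l i)) w → ¬IsConj x w → Cg (gen (r + 3)) (q w) := by
      intro w hw hxw
      refine hq.cg hw fun i hi => ?_
      obtain rfl : i = 0 := by
        by_contra h
        exact hi (Fin.exists_succ_eq.2 h)
      rwa [e0]
    have cy := hcg y hy' n1
    have cz := hcg z hz' n2
    have iy' : t' (q y) = (q y)⁻¹ := by rw [← hd, iy, map_inv]
    obtain ⟨x', cx, ix', hne⟩ := (hp'.invol h2').exists_other hg hn' cy iy'
    have iz' : (t' * MulAut.conj (pw (q y) m)) (q z) = (q z)⁻¹ := by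
      rw [← map_pw q hq.cq, ← hd.mul (Desc.conj q _), iz, map_inv]
    have hzy' : q z ≠ q y := fun h =>
      n3 (hq.isConj_of hg hn' hy' hz' (h ▸ IsConj.refl _) (cy.ne_one hg (by omega)))
    obtain ⟨δ', hδ', -, e1, e2, hinv⟩ :=
      ih _ _ hg t' ha' h2' x' (q y) (q z) m cx cy cz ix' iy' hne hm iz' hzy'
    have hg1 := hg.aut (gam_perm hδ').1
    obtain ⟨ρ, hρ, hrot, hhur⟩ := exists_rot hg1
    rw [gam_aut hδ'] at hρ
    have hρδ := mul_mem hρ hδ'
    obtain ⟨δ₁, hδ₁, f0, hd₁⟩ := hq.lift_gam hl' hg hρδ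
    have hq₁ := hq.aut hd₁
    have hc : ∀ (j : Fin (r + 3)) w, Cg (fun i => δ₀ (l i)) w →
        IsConj (δ' (gen (r + 3) (j + 1))) (q w) → IsConj (δ₁ (δ₀ (l j.succ))) w := by
      intro j w hw h
      have e : q (δ₁ (δ₀ (l j.succ))) = δ' (gen (r + 3) (j + 1)) := (hq₁.qe j).trans (hrot j)
      refine hq.isConj_of hg hn' (gam_cg hδ₁ (Cg.self _ j.succ)) hw (e ▸ h) ?_
      rw [e]
      exact (gam_cg hδ' (Cg.self _ _)).ne_one hg (by omega)
    refine ⟨δ₁ * δ₀, mul_mem (gam_aut hδ₀ ▸ hδ₁) hδ₀, f0.trans e0, hc 0 y hy' e1, hc 1 z hz' e2,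
      fun σ hσ => ?_⟩
    obtain ⟨σ', -, hσ'⟩ := exists_hur hg1 (i := 1) (j := 2) rfl
    refine twist_step (hl'.aut (gam_perm hδ₁).1) (ht'.aut hl' hn hδ₁) ?_ hσ
      (hg.aut (gam_perm hρδ).1) hq₁ hd (hhur σ' hσ') (hinv σ' hσ')
    rw [f0, e0]
    exact ix

end Pool.Agent.MP_1c2b6e_al

/-! Chains close up and their Hurwitz moves are geometric. -/

namespace Pool.Agent.MP_1c2b6e_al

open Classical

variable {G : Type} [Group G] [TopologicalSpace G] [IsTopologicalGroup G] [CompactSpace G]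
  [TotallyDisconnectedSpace G]

/-- Two consecutive cusps of a chain lie in a pair of pants. -/
theorem pants {r : ℕ} {l : Fin (r + 3) → G} (hl : IsBasis l) {t σ : MulAut G}
    {D : Zhat → MulAut G} (hL : Loc l σ D) (ht : Adm l t) (h2 : t * t = 1) {a : Zhatˣ}
    (hT : Tri l t a) (h3 : t * σ * t⁻¹ = σ⁻¹) (h4 : t (l 1 * l 2) = (l 1 * l 2)⁻¹) {x y z : G}
    (hx : IsConj (l 0) x) (hy : IsConj (l 1) y) (hz : IsConj (l 2) z) (ix : t x = x⁻¹)
    (iy : t y = y⁻¹) (iz : (t * MulAut.conj (pw y a)) z = z⁻¹) :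
    pw y a * pw z a = pw (l 1 * l 2) a ∧ ∃ b, (σ * D b) z = y := by
  have hn : 3 ≤ r + 3 := by omega
  have n3 : 3 ≤ 3 := le_rfl
  have hh := isBasis_gen 3
  have ha := res_two_unit a
  obtain ⟨q, hq⟩ := exists_kill hl hh.prod (e3_mono r)
  obtain ⟨ι, hι⟩ := hL.secA hl hh hq
  have hsurj := hq.surj hh
  obtain ⟨s, hp, hs⟩ := hq.desc hl hh ht.pure
  have s2 : s * s = 1 := Desc.unique hsurj (hs.mul hs) (h2 ▸ Desc.one q)
  have hinj : Function.Injective ι := fun u v e => by rw [← hι.sec u, e, hι.sec]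
  have hm := hι.map hL hl h3 h4 hs
  have nc : ∀ {i j : Fin (r + 3)} {u : G}, i ≠ j → IsConj (l i) u → ¬IsConj (l j) u :=
    fun hij h1 h2 => hij (hl.eq_of_isConj hn (h1.trans h2.symm))
  have n01 : (0 : Fin (r + 3)) ≠ 1 := by simp
  have n02 : (0 : Fin (r + 3)) ≠ 2 := ((e3_mono r) (by decide : (0 : Fin 3) < 2)).ne
  have n12 : (1 : Fin (r + 3)) ≠ 2 := ((e3_mono r) (by decide : (1 : Fin 3) < 2)).ne
  have cgι : ∀ {w : SurfHat 3}, Cg (gen 3) w → ¬IsConj (gen 3 0) w →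
      IsConj (l 1) (ι w) ∨ IsConj (l 2) (ι w) := by
    rintro w ⟨j, hj⟩ h0
    have e := ι.map_isConj hj
    fin_cases j
    · exact absurd hj h0
    · exact Or.inl (hι.one ▸ e)
    · exact Or.inr (hι.two ▸ e)
  have i0 : s (gen 3 0) = (gen 3 0)⁻¹ := hinj (by
    rw [← hm, map_inv ι, hι.zero, map_inv, h4])
  have hI := ht.pure.invol h2
  have hxy : x ≠ y := fun e => nc n01 hx (e ▸ hy)
  -- the first cusp
  obtain ⟨w₁, c₁, i₁, ne₁⟩ := (hp.invol s2).exists_other hh n3 (Cg.self _ 0) i0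
  have c01 := hp.not_conj hh n3 s2 (Cg.self _ 0) i0 i₁ ne₁
  have e₁ : ι w₁ = y := by
    have h5 := cgι c₁ c01
    rcases hI.eq_or_eq hl hn ⟨_, hx⟩ ⟨_, hy⟩ (h5.elim (fun h => ⟨_, h⟩) fun h => ⟨_, h⟩) ix iy
      (by rw [hm, i₁, map_inv]) hxy with e | e
    · rw [e] at h5
      exact absurd h5 (not_or.2 ⟨nc n01 hx, nc n02 hx⟩)
    · exact e
  -- the second cusp
  have p₁ := hp.mul_conj (pw w₁ a)
  have q₁ := sq_mul_conj s2 (map_pw_inv hp.1 i₁ a)
  have i₁' := mul_conj_pw_inv i₁ a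
  obtain ⟨w₂, c₂, i₂, ne₂⟩ := (p₁.invol q₁).exists_other hh n3 c₁ i₁'
  have c02 := hp.not_conj₃ hh n3 (Cg.self _ 0) c₁ i0 c01 ha i₂
  have hιpw : ∀ u b, ι (pw u b) = pw (ι u) b := map_pw ι hι.cont
  have hm₁ : ∀ u, (t * MulAut.conj (pw y a)) (ι u) = ι ((s * MulAut.conj (pw w₁ a)) u) := by
    intro u
    rw [MulAut.mul_apply, MulAut.mul_apply, ← hm, MulAut.conj_apply, MulAut.conj_apply, map_mul ι,
      map_mul ι, map_inv ι, hιpw, e₁]
  have e₂ : ι w₂ = z := by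
    have h5 := cgι c₂ c02
    rcases (hI.mul_conj (map_pw_inv hI.cont iy a)).eq_or_eq hl hn ⟨_, hy⟩ ⟨_, hz⟩
      (h5.elim (fun h => ⟨_, h⟩) fun h => ⟨_, h⟩) (mul_conj_pw_inv iy a) iz
      (by rw [hm₁, i₂, map_inv]) (fun e => nc n12 hy (e ▸ hz)) with e | e
    · exact absurd (hinj (e.trans e₁.symm)) ne₂
    · exact e
  -- the third cusp
  have p₂ := p₁.mul_conj (pw w₂ a)
  have q₂ := sq_mul_conj q₁ (map_pw_inv p₁.1 i₂ a)
  obtain ⟨w₃, c₃, i₃, ne₃⟩ := (p₂.invol q₂).exists_other hh n3 c₂ (mul_conj_pw_inv i₂ a)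
  have hpr := hT q hq.pq 1 (one_mem _) s (by rwa [one_mul]) s2 w₁ w₂ w₃
    ⟨c₁, c₂, c₃, i₁, i₂, i₃, ne₂, ne₃⟩
  have i₃' : s w₃ = w₃⁻¹ := by
    have h5 := mul_conj_pw_inv i₃ a
    rwa [mul_assoc, mul_assoc, ← map_mul, ← map_mul, ← mul_assoc, hpr, map_one, mul_one] at h5
  have c12 := p₁.not_conj hh n3 q₁ c₁ i₁' i₂ ne₂
  have c13 := p₁.not_conj₃ hh n3 c₁ c₂ i₁' c12 ha i₃
  have e₃ : w₃ = gen 3 0 := by
    rcases (hp.invol s2).eq_or_eq hh n3 (Cg.self _ 0) c₁ c₃ i0 i₁ i₃' ne₁.symm with e | e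
    · exact e
    · exact absurd (e ▸ IsConj.refl _) c13
  have hγ : pw y a * pw z a = pw (l 1 * l 2) a := by
    have h5 := congrArg ι hpr
    rw [map_mul, map_mul, hιpw, hιpw, hιpw, e₁, e₂, e₃, hι.zero, map_one, pw_inv, pw_neg,
      mul_inv_eq_one] at h5
    exact h5
  refine ⟨hγ, ?_⟩
  obtain ⟨b, hb⟩ : ∃ b : Zhat, (a : Zhat) = 2 * b + 1 := by
    rcases zhat_parity a with ⟨b, hb⟩ | h
    · rw [hb, res_two_mul] at ha
      exact absurd ha (by decide)
    · exact h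
  refine ⟨b, ?_⟩
  have hc : IsConj (l 1) ((σ * D b) z) := by
    have h5 := isConj_aut σ (hz.trans (sig_isConj (hL.mem_sig hl b) ⟨_, hz⟩))
    rwa [hL.sig_two] at h5
  have hψγ : (σ * D b) (pw (l 1 * l 2) a) = pw (l 1 * l 2) a := by
    rw [MulAut.mul_apply, map_pw_aut _ (hL.cont b), hL.tw_gam, map_pw_aut _ hL.hur.1, hL.sig_gam]
  have h6 : t * D (-a) * (σ * D b) = σ * D b * t := by
    have h7 := hL.inv_tw hl hI.cont h3
    have h8 : D (-a) * (σ * D b) = (σ * D b)⁻¹ := by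
      rw [eq_inv_iff_mul_eq_one]
      calc _ = D (-a) * (σ * (D b * σ) * D b) := by group
        _ = D (-a) * (σ * σ * D b * D b) := by rw [← hL.comm hl]; group
        _ = 1 := by
          rw [hL.sq hl, ← hL.add hl, ← hL.add hl, ← hL.add hl, ← hL.zero hl, hb]
          congr 1
          ring
    rw [mul_assoc, h8]
    calc _ = (t * σ * t⁻¹ * (t * D b * t⁻¹))⁻¹ * t := by group
      _ = (σ⁻¹ * (D b)⁻¹)⁻¹ * t := by rw [h3, h7, hL.neg hl]
      _ = _ := by rw [hL.comm hl]; group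
  have iψ : t ((σ * D b) z) = ((σ * D b) z)⁻¹ := by
    have h7 := hι.tw_sig hL hl (-a) b w₂
    rw [e₂, pw_neg, inv_inv] at h7
    have h8 := mul_conj_pw_inv iz a
    rw [mul_assoc, ← map_mul, hγ, MulAut.mul_apply, MulAut.conj_apply] at h8
    have h9 : t (D (-a) ((σ * D b) (pw (l 1 * l 2) a * z * (pw (l 1 * l 2) a)⁻¹))) =
        (σ * D b) (t (pw (l 1 * l 2) a * z * (pw (l 1 * l 2) a)⁻¹)) :=
      congrArg (fun φ : MulAut G => φ (pw (l 1 * l 2) a * z * (pw (l 1 * l 2) a)⁻¹)) h6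
    rw [h8, map_inv (σ * D b), map_mul (σ * D b), map_mul (σ * D b), map_inv (σ * D b), hψγ,
      map_mul (D (-a)), map_mul (D (-a)), map_inv (D (-a)), h7, map_pw_aut _ (hL.cont _),
      hL.tw_gam] at h9
    rw [← h9]
    congr 1
    group
  rcases hI.eq_or_eq hl hn ⟨_, hx⟩ ⟨_, hy⟩ ⟨_, hc⟩ ix iy iψ hxy with e | e
  · exact absurd (e ▸ hc) (nc n01 hx)
  · exact e

/-- The local structure at two consecutive cusps of a chain. -/
theorem local_step {r : ℕ} {l : Fin (r + 3) → G} (hl : IsBasis l) {t : MulAut G} (ht : Adm l t)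
    (h2 : t * t = 1) {a : Zhatˣ} (hT : Tri l t a) {y z : G} (hy : Cg l y) (hz : Cg l z)
    (iy : t y = y⁻¹) (iz : (t * MulAut.conj (pw y a)) z = z⁻¹) (hne : z ≠ y) :
    ∃ δ ∈ Gam l, ∃ σ D, Loc (fun i => δ (l i)) σ D ∧ t * σ * t⁻¹ = σ⁻¹ ∧
      t (δ (l 1) * δ (l 2)) = (δ (l 1) * δ (l 2))⁻¹ ∧ IsConj (δ (l 1)) y ∧ IsConj (δ (l 2)) z ∧
      pw y a * pw z a = pw (δ (l 1) * δ (l 2)) a ∧ ∃ b, (σ * D b) z = y := by
  have hn : 3 ≤ r + 3 := by omega
  have hh := isBasis_gen (r + 2)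
  obtain ⟨x, hx, ix, nx⟩ := (ht.pure.invol h2).exists_other hl hn hy iy
  obtain ⟨δ, hδ, h0, c1, c2, hσ⟩ := exists_twist r G l hl t ht h2 x y z a hx hy hz ix iy nx
    (res_two_unit a) iz hne
  have hl' := hl.aut (gam_perm hδ).1
  obtain ⟨σ, D, hL⟩ := exists_loc hl'
  have h3 := hσ σ hL.hur
  obtain ⟨q, hq⟩ := exists_kill hl' hh.prod (Fin.strictMono_succAbove 1)
  obtain ⟨ι, hι⟩ := hL.secB hl' hh hq
  obtain ⟨s, -, hs⟩ := hq.desc hl' hh (ht.aut hl hn hδ).pure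
  have qy : q y = 1 := by
    have h5 := q.map_isConj c1
    rw [hq.qz 1 (by simp)] at h5
    exact isConj_one_right.1 h5
  have iz' : s (q z) = (q z)⁻¹ := by
    have h5 := congrArg q iz
    rwa [MulAut.mul_apply, hs, MulAut.conj_apply, map_mul q, map_mul q, map_inv q, map_pw q hq.cq,
      qy, one_pw, one_mul, inv_one, mul_one, map_inv q] at h5
  obtain ⟨c, hc⟩ : ∃ c, c * gen (r + 2) 1 * c⁻¹ = q z := by
    have h5 := q.map_isConj c2
    rw [show q (δ (l 2)) = gen (r + 2) 1 from hq.qe 1] at h5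
    exact isConj_iff.1 h5
  have hg : MulAut.conj (ι c) ∈ Gam l := mem_gam_of_sig hl hn (conj_mem_Sig hl _)
  have hδ' := mul_mem hg hδ
  have hL' : Loc (fun i => (MulAut.conj (ι c) * δ) (l i)) σ D := by
    have h5 := hL.aut (continuous_conj_aut (ι c))
    rw [hι.comm] at h5
    simp only [hι.comm_tw] at h5
    exact h5
  have h4 : t ((MulAut.conj (ι c) * δ) (l 1) * (MulAut.conj (ι c) * δ) (l 2)) =
      ((MulAut.conj (ι c) * δ) (l 1) * (MulAut.conj (ι c) * δ) (l 2))⁻¹ := by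
    have h5 : (MulAut.conj (ι c) * δ) (l 1) * (MulAut.conj (ι c) * δ) (l 2) = ι (q z) := by
      rw [← hc, map_mul ι, map_mul ι, hι.one, map_inv ι, MulAut.mul_apply, MulAut.mul_apply,
        ← map_mul, MulAut.conj_apply]
    rw [h5, hι.map hL hl' h3 hs, iz', map_inv]
  have cj : ∀ u, IsConj ((MulAut.conj (ι c) * δ) u) (δ u) := fun u =>
    (isConj_iff.2 ⟨ι c, rfl⟩).symm
  exact ⟨_, hδ', σ, D, hL', h3, h4, (cj _).trans c1, (cj _).trans c2,
    pants (hl.aut (gam_perm hδ').1) hL' (ht.aut hl hn hδ') h2 ((tri_aut hl hn hδ').2 hT) h3 h4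
      (h0 ▸ cj _) ((cj _).trans c1) ((cj _).trans c2) ix iy iz⟩

/-- A chain is determined by the chain in the subsurface fixed by the half twist. -/
theorem chain_lift {r : ℕ} {l : Fin (r + 3) → G} (hl : IsBasis l) {a : Zhat}
    {s : ℕ → MulAut G} {z : ℕ → G} (hc : Chain l a s z) (hI : Invol l (s 0)) {σ : MulAut G}
    {D : Zhat → MulAut G} (hL : Loc l σ D) (h3 : s 0 * σ * (s 0)⁻¹ = σ⁻¹)
    (c2 : IsConj (l 2) (z 1)) (hγ : pw (z 0) a * pw (z 1) a = pw (l 1 * l 2) a)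
    {H : Type} [Group H] [TopologicalSpace H] [IsTopologicalGroup H] [CompactSpace H]
    [TotallyDisconnectedSpace H] {h : Fin (r + 2) → H} {q : G →* H} {ι : H →* G}
    (hι : SecB l h σ D q ι) {s' : ℕ → MulAut H} {z' : ℕ → H} (hc' : Chain h a s' z')
    (hs : Desc q (s 0) (s' 0)) (h0 : z' 0 = h 1) (m : ℕ)
    (hm : ∀ k, 1 ≤ k → k ≤ m → ¬IsConj (h 1) (z' k)) :
    s (m + 2) = s 0 * MulAut.conj (ι (pp (fun i => pw (z' i) a) (m + 1))) ∧
      ∀ k, 1 ≤ k → k ≤ m → z (k + 1) = ι (z' k) := by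
  have hn : 3 ≤ r + 3 := by omega
  have hinj : Function.Injective ι := fun u v e => by rw [← hι.sec u, e, hι.sec]
  have hI' : ∀ k, Invol l (s k) := fun k => by
    induction k with
    | zero => exact hI
    | succ k ih => rw [hc.succ]; exact ih.mul_conj (map_pw_inv ih.cont (hc.inv k) a)
  induction m with
  | zero =>
    refine ⟨?_, fun k h1 h2 => by omega⟩
    rw [hc.succ, hc.succ, mul_assoc, ← map_mul, hγ]
    simp only [pp, one_mul]
    rw [map_pw ι hι.cont, h0, hι.one]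
  | succ m ih =>
    obtain ⟨e1, e2⟩ := ih fun k h1 h2 => hm k h1 (by omega)
    obtain ⟨j, hj⟩ := hc'.cg (m + 1)
    have hj1 : j ≠ 1 := fun e => hm (m + 1) (by omega) le_rfl (e ▸ hj)
    have hcj := hι.cg hj1 hj
    have e3 : s (m + 2) (ι (z' (m + 1))) = (ι (z' (m + 1)))⁻¹ := by
      have e4 := hc'.inv (m + 1)
      rw [hc'.eq_pp, MulAut.mul_apply] at e4
      rw [e1, MulAut.mul_apply, MulAut.conj_apply, ← map_inv ι, ← map_mul ι, ← map_mul ι,
        hι.map hL hl h3 hs, ← MulAut.conj_apply, e4, map_inv]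
    have e4 : z (m + 2) = ι (z' (m + 1)) := by
      rcases (hI' (m + 2)).eq_or_eq hl hn (hc.cg (m + 1)) (hc.cg (m + 2)) ⟨_, hcj⟩
        (hc.inv_succ (m + 1)) (hc.inv (m + 2)) e3 (hc.ne (m + 1)).symm with e | e
      · exfalso
        rcases Nat.eq_zero_or_pos m with rfl | hm0
        · have e5 := hl.eq_of_isConj hn ((e ▸ hcj).trans c2.symm)
          exact hj1 (Fin.succAbove_right_injective (p := 1) e5)
        · exact hc'.ne m (hinj (e.trans (e2 m hm0 le_rfl)))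
      · exact e.symm
    refine ⟨?_, fun k h1 h2 => ?_⟩
    · rw [hc.succ, e1, e4, mul_assoc, ← map_mul, ← map_pw ι hι.cont, ← map_mul ι]
      rfl
    · rcases h2.lt_or_eq with h2 | rfl
      exacts [e2 k h1 (by omega), e4]

theorem chain_closed (r : ℕ) : ∀ (G : Type) [Group G] [TopologicalSpace G] [IsTopologicalGroup G]
    [CompactSpace G] [TotallyDisconnectedSpace G] (l : Fin (r + 3) → G), IsBasis l →
    ∀ (a : Zhatˣ) (s : ℕ → MulAut G) (z : ℕ → G), Chain l a s z → Adm l (s 0) →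
      s 0 * s 0 = 1 → Tri l (s 0) a →
      pp (fun i => pw (z i) a) (r + 3) = 1 ∧
      (∀ i < r + 3, ∀ j < r + 3, IsConj (z i) (z j) → i = j) ∧
      ∃ ψ ∈ Gam l, ψ (z 1) = z 0 ∧ ψ (pw (z 0) a * pw (z 1) a) = pw (z 0) a * pw (z 1) a ∧
        ∀ i, 2 ≤ i → i < r + 3 → ψ (z i) = z i := by
  induction r with
  | zero =>
    intro G _ _ _ _ _ l hl a s z hc ht h2 hT
    have n3 : 3 ≤ 3 := le_rfl
    have ha := res_two_unit a
    obtain ⟨δ, hδ, σ, D, hL, -, h4, c1, c2, hγ, b, hb⟩ := local_step hl ht h2 hT (hc.cg 0)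
      (hc.cg 1) (hc.inv 0) (hc.succ 0 ▸ hc.inv 1) (hc.ne 0)
    have hl' := hl.aut (gam_perm hδ).1
    have hγ' : δ (l 0) = (δ (l 1) * δ (l 2))⁻¹ := by
      have h5 := hl'.prod
      simp only [List.ofFn_succ, List.ofFn_zero, List.prod_cons, List.prod_nil, mul_one] at h5
      exact eq_inv_of_mul_eq_one_left h5
    have hI := ht.pure.invol h2
    have hI1 : Invol l (s 1) := hc.succ 0 ▸ hI.mul_conj (map_pw_inv hI.cont (hc.inv 0) a)
    have hI2 : Invol l (s 2) := hc.succ 1 ▸ hI1.mul_conj (map_pw_inv hI1.cont (hc.inv 1) a)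
    have nc : ∀ {i j : Fin 3} {u v : G}, IsConj (δ (l i)) u → IsConj (δ (l j)) v → IsConj u v →
        i = j := fun h1 h2 h3 => hl'.eq_of_isConj n3 (h1.trans (h3.trans h2.symm))
    have e2 : z 2 = δ (l 0) := by
      have h5 : s 2 (δ (l 0)) = (δ (l 0))⁻¹ := by
        rw [hc.succ, hc.succ, mul_assoc, ← map_mul, hγ, hγ', map_inv, mul_conj_pw_inv h4]
      rcases hI2.eq_or_eq hl n3 (hc.cg 1) (gam_cg hδ (Cg.self l 0)) (hc.cg 2) (hc.inv_succ 1) h5
        (hc.inv 2) (fun e => absurd (nc (j := 0) c2 (IsConj.refl _) (by rw [e])) (by decide))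
        with e | e
      exacts [absurd e (hc.ne 1), e]
    have hψ : (σ * D b) (δ (l 1) * δ (l 2)) = δ (l 1) * δ (l 2) := by
      rw [MulAut.mul_apply, hL.tw_gam, hL.sig_gam]
    have hc' : Continuous (σ * D b : MulAut G) := hL.hur.1.comp (hL.cont b)
    refine ⟨?_, ?_, σ * D b, ?_, hb, by rw [hγ, map_pw_aut _ hc', hψ], fun i h5 h6 => ?_⟩
    · simp only [pp, one_mul]
      rw [hγ, e2, hγ', pw_inv, pw_neg, mul_inv_cancel]
    · have c0 : IsConj (δ (l 0)) (z 2) := e2 ▸ IsConj.refl _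
      intro i hi j hj h5
      interval_cases i <;> interval_cases j <;> first
        | rfl
        | exact absurd (nc (by assumption) (by assumption) h5) (by decide)
    · rw [← gam_aut hδ]
      exact mul_mem (hL.mem_gam hl') (mem_gam_of_sig hl' n3 (hL.mem_sig hl' b))
    · obtain rfl : i = 2 := by omega
      rw [e2, hγ', map_inv, hψ]
  | succ r ih =>
    intro G _ _ _ _ _ l hl a s z hc ht h2 hT
    have hn : 3 ≤ r + 1 + 3 := by omega
    have hn' : 3 ≤ r + 3 := by omega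
    obtain ⟨δ, hδ, σ, D, hL, h3, h4, c1, c2, hγ, b, hb⟩ := local_step hl ht h2 hT (hc.cg 0)
      (hc.cg 1) (hc.inv 0) (hc.succ 0 ▸ hc.inv 1) (hc.ne 0)
    have hl' := hl.aut (gam_perm hδ).1
    have ht' := ht.aut hl hn hδ
    have hh := isBasis_gen (r + 3)
    obtain ⟨q, hq⟩ := exists_kill hl' hh.prod (Fin.strictMono_succAbove 1)
    obtain ⟨ι, hι⟩ := hL.secB hl' hh hq
    obtain ⟨t, hp, hs⟩ := hq.desc hl' hh ht'.pure
    have t2 : t * t = 1 := Desc.unique (hq.surj hh) (hs.mul hs) (h2 ▸ Desc.one q)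
    have i1 : t (gen (r + 3) 1) = (gen (r + 3) 1)⁻¹ := by
      rw [← hι.sec (gen (r + 3) 1), ← hs, hι.one, h4, map_inv]
    obtain ⟨s', z', hc', rfl, h0⟩ := exists_chain hh hn' (hp.invol t2) (Cg.self _ 1) i1 a
    obtain ⟨e1, e2, -⟩ := ih _ _ hh a s' z' hc' (ht'.desc1 hq hl' hh hs) t2
      (((tri_aut hl hn hδ).2 hT).desc1 hq hl' hh hs)
    have hcδ : Chain (fun i => δ (l i)) a s z :=
      ⟨fun k => (cg_aut hδ).2 (hc.cg k), hc.inv, hc.succ, hc.ne⟩
    obtain ⟨e3, e4⟩ := chain_lift hl' hcδ (ht'.pure.invol h2) hL h3 c2 hγ hι hc' hs h0 (r + 2)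
      fun k h5 h6 h7 => absurd (e2 0 (by omega) k (by omega) (h0 ▸ h7)) (by omega)
    have hc'' : Continuous (σ * D b : MulAut G) := hL.hur.1.comp (hL.cont b)
    refine ⟨?_, ?_, σ * D b, ?_, hb, ?_, fun i h5 h6 => ?_⟩
    · rw [e1, map_one, hc.eq_pp, mul_right_inj] at e3
      exact hl.conj_inj hn e3
    · have q0 : q (z 0) = 1 := by
        have h5 := q.map_isConj c1
        rw [hq.qz 1 (by simp)] at h5
        exact isConj_one_right.1 h5
      have q1 : ∀ k < r + 3, IsConj (q (z (k + 1))) (z' k) := by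
        intro k hk
        rcases Nat.eq_zero_or_pos k with rfl | hk0
        · have h5 := q.map_isConj c2
          rw [show q (δ (l 2)) = gen (r + 3) 1 from hq.qe 1, ← h0] at h5
          exact h5.symm
        · rw [e4 k hk0 (by omega), hι.sec]
      have q2 : ∀ k < r + 3, ¬IsConj (z 0) (z (k + 1)) := fun k hk h5 => by
        have h6 := (q.map_isConj h5).trans (q1 k hk)
        rw [q0] at h6
        exact (hc'.cg k).ne_one hh (by omega) (isConj_one_right.1 h6)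
      intro i hi j hj h5
      rcases i with _ | i <;> rcases j with _ | j
      · rfl
      · exact absurd h5 (q2 j (by omega))
      · exact absurd h5.symm (q2 i (by omega))
      · rw [e2 i (by omega) j (by omega)
          ((q1 i (by omega)).symm.trans ((q.map_isConj h5).trans (q1 j (by omega))))]
    · rw [← gam_aut hδ]
      exact mul_mem (hL.mem_gam hl') (mem_gam_of_sig hl' hn (hL.mem_sig hl' b))
    · rw [hγ, map_pw_aut _ hc'', MulAut.mul_apply, hL.tw_gam, hL.sig_gam]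
    · obtain ⟨k, rfl⟩ : ∃ k, i = k + 1 := ⟨i - 1, by omega⟩
      rw [e4 k (by omega) (by omega), MulAut.mul_apply, hι.tw, hι.sig]

end Pool.Agent.MP_1c2b6e_al

end
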