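import Pool.Agent.MP_1c2b6e_al.Mg.ConjLoc

/-! The twisted involution on the sphere with four punctures: centraliser. -/

namespace Pool.Agent.MP_1c2b6e_al

open Classical

variable {G : Type} [Group G] [TopologicalSpace G] [IsTopologicalGroup G] [CompactSpace G]
  [TotallyDisconnectedSpace G] {H : Type} [Group H] [TopologicalSpace H] [IsTopologicalGroup H]
  [CompactSpace H] [TotallyDisconnectedSpace H] {l : Fin 4 → G}
  {σ t : MulAut G} {D : Zhat → MulAut G}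

/-- An involution `t` inverting the half twist `σ`; the twisted involution is `t * σ`. -/
structure Vx (l : Fin 4 → G) (σ : MulAut G) (D : Zhat → MulAut G) (t : MulAut G) : Prop where
  bas : IsBasis l
  loc : Loc (r := 1) l σ D
  adm : Adm l t
  sq : t * t = 1
  inv : t * σ * t⁻¹ = σ⁻¹

theorem Vx.invol (hV : Vx l σ D t) : Invol l (t * σ) :=
  hV.loc.hur.invol hV.adm.pure hV.sq hV.inv

theorem Vx.conj_sig (hV : Vx l σ D t) {k : MulAut G} (hk : k ∈ Sig l) :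
    (t * σ)⁻¹ * k * (t * σ) ∈ Sig l := by
  have h1 := hV.adm.conj_sig' hV.bas (by norm_num) hk
  have h2 := gam_conj_sig hV.bas (by norm_num) (inv_mem (hV.loc.mem_gam hV.bas)) h1
  simpa [mul_assoc] using h2

/-- The twisted involution inverts the twists. -/
theorem Vx.tw (hV : Vx l σ D t) (a : Zhat) : D a * (t * σ) = t * σ * D (-a) := by
  have h1 := hV.loc.inv_tw hV.bas hV.adm.pure.1 hV.inv (-a)
  rw [neg_neg] at h1
  rw [mul_assoc t, hV.loc.comm hV.bas, ← h1]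
  group

/-- Plan: the descent is `conj c` (`Kill.inner`) with `c = pw (h 2) b`; `D b * k` descends to `1`
(`desc_zero`); `ker0`. -/
theorem tw_of_fix (hl : IsBasis l) (hL : Loc (r := 1) l σ D) {h : Fin 3 → H} (hh : IsBasis h)
    {q : G →* H} (hq : Kill l h Fin.succ q) {k : MulAut G} (hk : k ∈ Sig l) (h0 : k (l 0) = l 0)
    {k' : MulAut H} (hd : Desc q k k') (h2 : k' (h 2) = h 2) :
    ∃ a b, k = D a * MulAut.conj (pw (l 0) b) := by
  obtain ⟨c, hc⟩ := hq.inner hl hh hk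
  obtain rfl := Desc.unique (hq.surj hh) hd hc
  obtain ⟨b, rfl⟩ := hh.cent (by norm_num) 2 (g := c) (by
    rw [MulAut.conj_apply] at h2
    rw [← mul_inv_eq_iff_eq_mul, h2])
  have h3 : Desc q (D b * k) 1 := by
    have h4 := (hL.desc_zero hl hh hq b).mul hd
    rwa [← map_mul, ← pw_add, neg_add_cancel, pw_zero, map_one] at h4
  obtain ⟨a, ha⟩ := hq.ker0 (r := 0) hl hh (mul_mem (hL.mem_sig hl b) hk) (by
    rw [MulAut.mul_apply, h0, hL.rest b 0 (by decide) (by decide)]) h3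
  exact ⟨-b, a, by rw [← ha, hL.neg hl, inv_mul_cancel_left]⟩

/-- An element of `Sig l` fixing `l 0` and commuting with `σ`. Hint: it commutes with `D 1`, whose
descent is `conj (h 2)⁻¹`. -/
theorem tw_of_comm (hl : IsBasis l) (hL : Loc (r := 1) l σ D) {k : MulAut G} (hk : k ∈ Sig l)
    (h0 : k (l 0) = l 0) (h1 : k * σ = σ * k) : ∃ a b, k = D a * MulAut.conj (pw (l 0) b) := by
  have hh := isBasis_gen 3
  obtain ⟨q, hq⟩ := exists_kill (e := Fin.succ) hl hh.prod Fin.strictMono_succ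
  obtain ⟨c, hc⟩ := hq.inner hl hh hk
  refine tw_of_fix hl hL hh hq hk h0 hc ?_
  have h2 : k * D 1 = D 1 * k := by
    rw [← hL.sq hl, ← mul_assoc, h1, mul_assoc, h1, mul_assoc]
  have h3 := hc.mul (hL.desc_zero hl hh hq 1)
  rw [h2] at h3
  have h4 := Desc.unique (hq.surj hh) h3 ((hL.desc_zero hl hh hq 1).mul hc)
  rw [← map_mul, ← map_mul, pw_neg, pw_one] at h4
  have h5 := hh.conj_inj (by norm_num) h4
  rw [MulAut.conj_apply]
  calc c * gen 3 2 * c⁻¹ = gen 3 2 * ((gen 3 2)⁻¹ * c) * gen 3 2 * c⁻¹ := by group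
    _ = _ := by rw [← h5]; group

/-- The second cusp generator inverted by the twisted involution. Plan: `exists_other`; the
classes `1`, `2` are excluded by `not_conj_of_swap` (`Hur.isConj_mul`), the class `0` by
`Invol.not_conj` with the character `l 0, l 3 ↦ 1`, `l 1, l 2 ↦ 0` (invariant under `t` by
`Pure.ch_two` and under `σ` by `ch_eq_zero`). An element of `Gam l` that commutes with `t * σ` and
preserves the classes `0` and `3` fixes both (`eq_or_eq`). -/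
theorem Vx.exists_three (hV : Vx l σ D t) (h0 : t (l 0) = (l 0)⁻¹) :
    ∃ y, IsConj (l 3) y ∧ (t * σ) y = y⁻¹ ∧ ∀ κ ∈ Gam l, κ * (t * σ) = t * σ * κ →
      IsConj (l 0) (κ (l 0)) → IsConj (l 3) (κ (l 3)) → κ (l 0) = l 0 ∧ κ y = y := by
  have hl := hV.bas
  have h3 : 3 ≤ 4 := by norm_num
  have i0 : (t * σ) (l 0) = (l 0)⁻¹ := by
    rw [MulAut.mul_apply, hV.loc.sig_rest (by decide) (by decide), h0]
  obtain ⟨y, ⟨j, hj⟩, iy, hne⟩ := hV.invol.exists_other hl h3 (Cg.self l 0) i0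
  have n0 : ¬IsConj (l 0) y := by
    obtain ⟨f, hf, f0, f3, fr⟩ := exists_ch_pair hl 2 (i := 0) (k := 3) (by decide)
    refine hV.invol.not_conj hl h3 (Cg.self l 0) i0 iy hne hf (fun g => ?_) f0
    rw [MulAut.mul_apply, hV.adm.pure.ch_two hl hf]
    refine sub_eq_zero.1 (hl.ch_eq_zero ((hf.comp σ hV.loc.hur.1 fun _ _ => trivial).sub hf)
      (fun i => ?_) g)
    change f (σ (l i)) - f (l i) = 0
    rw [hf.isConj (hV.loc.hur.isConj i), sub_eq_zero]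
    by_cases e1 : i = 1
    · rw [e1, Equiv.swap_apply_left, fr 1 (by decide) (by decide), fr 2 (by decide) (by decide)]
    by_cases e2 : i = 2
    · rw [e2, Equiv.swap_apply_right, fr 1 (by decide) (by decide), fr 2 (by decide) (by decide)]
    rw [Equiv.swap_apply_of_ne_of_ne e1 e2]
  have n1 : ¬IsConj (l 1) y := not_conj_of_swap hl h3 (i := 1) (j := 2) (by decide) (by
    simpa using hV.loc.hur.isConj_mul hV.adm.pure 1) iy
  have n2 : ¬IsConj (l 2) y := not_conj_of_swap hl h3 (i := 2) (j := 1) (by decide) (by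
    simpa using hV.loc.hur.isConj_mul hV.adm.pure 2) iy
  have y3 : IsConj (l 3) y := by
    have e : j = 0 ∨ j = 1 ∨ j = 2 ∨ j = 3 := by clear hj; revert j; decide
    rcases e with rfl | rfl | rfl | rfl
    exacts [absurd hj n0, absurd hj n1, absurd hj n2, hj]
  refine ⟨y, y3, iy, fun κ hκ hc c0 c3 => ?_⟩
  have hi : ∀ z, (t * σ) z = z⁻¹ → (t * σ) (κ z) = (κ z)⁻¹ := fun z hz => by
    rw [← MulAut.mul_apply, ← hc, MulAut.mul_apply, hz, map_inv]
  constructor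
  · rcases hV.invol.eq_or_eq hl h3 (Cg.self l 0) ⟨3, y3⟩ ⟨0, c0⟩ i0 iy (hi _ i0) hne.symm with
      e | e
    · exact e
    · exact absurd (e ▸ c0) n0
  · have c4 : IsConj (l 3) (κ y) := c3.trans (isConj_aut κ y3)
    rcases hV.invol.eq_or_eq hl h3 (Cg.self l 0) ⟨3, y3⟩ ⟨3, c4⟩ i0 iy (hi _ iy) hne.symm with
      e | e
    · exact absurd (hl.eq_of_isConj h3 (e ▸ c4)) (by decide)
    · exact e

theorem hexa_eq_one {n : ℕ} {l : Fin n → G} (hl : IsBasis l) (hn : 3 ≤ n) {τ : MulAut G} {c : G}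
    (h : MulAut.conj c * τ = τ * MulAut.conj c) (hc : τ c = c⁻¹) : c = 1 := by
  rw [mul_conj_eq, mul_left_inj, hc] at h
  refine hl.eq_one_of_sq (by omega) ?_
  nth_rewrite 1 [hl.conj_inj hn h]
  exact inv_mul_cancel c

/-- Plan: `κ` fixes `l 0` and `y`. Kill `l 0`: `κ` descends to `conj c` with `c = pw (q y) a`, and
`t * σ` descends (`Kill.desc`, `exists_hur`, `Kill.hur`) to an automorphism inverting `q y` and
commuting with `conj c`; so `a = -a`. By `ker0`, `κ = conj (pw (l 0) b)` and `b = -b`. -/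
theorem Vx.cent (hV : Vx l σ D t) (h0 : t (l 0) = (l 0)⁻¹) {κ : MulAut G} (hκ : κ ∈ Sig l)
    (h : κ * (t * σ) = t * σ * κ) : κ = 1 := by
  have hl := hV.bas
  have hh := isBasis_gen 3
  have h3 : 3 ≤ 4 := by norm_num
  obtain ⟨y, y3, iy, hy⟩ := hV.exists_three h0
  obtain ⟨k0, ky⟩ := hy κ (mem_gam_of_sig hl h3 hκ) h (sig_isConj hκ (Cg.self l 0))
    (sig_isConj hκ (Cg.self l 3))
  obtain ⟨q, hq⟩ := exists_kill (e := Fin.succ) hl hh.prod Fin.strictMono_succ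
  obtain ⟨c, hc⟩ := hq.inner hl hh hκ
  obtain ⟨t', ht', hd⟩ := hq.desc hl hh hV.adm.pure
  obtain ⟨σ', hσ', hs⟩ := exists_hur hh (i := 0) (j := 1) rfl
  have hd2 := hd.mul (hq.hur hl (i := 0) (j := 1) hV.loc.hur hs)
  have cy : Cg (gen 3) (q y) := ⟨2, hq.qe 2 ▸ q.map_isConj y3⟩
  obtain ⟨a, rfl⟩ := cy.cent hh (by norm_num) (g := c) (by
    have e := hc y
    rw [ky, MulAut.conj_apply] at e
    rw [← mul_inv_eq_iff_eq_mul, ← e])
  have e1 := hexa_eq_one hh le_rfl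
    (Desc.unique (hq.surj hh) (hc.mul hd2) (h ▸ hd2.mul hc))
    (map_pw_inv (t := t' * σ') (ht'.1.comp hs.1) (by rw [← hd2, iy, map_inv]) a)
  rw [e1, map_one] at hc
  obtain ⟨b, rfl⟩ := hq.ker0 (r := 0) hl hh hκ k0 hc
  rw [hexa_eq_one hl h3 h (map_pw_inv hV.invol.cont (by
    rw [MulAut.mul_apply, hV.loc.sig_rest (by decide) (by decide), h0]) b), map_one]

/-- Plan: `κ = k * σ` has `κ * κ ∈ Sig l`, so `κ * κ = 1` (`cent`), and fixes `y`. Kill `l 0`: `κ`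
descends to `conj c * σ'` fixing `q y = g * h 2 * g⁻¹`; conjugating by `conj g` gives
`conj (pw (h 2) a) * σ'`, whose square is `conj (pw (h 2) (2 * a - 1))`. -/
theorem Vx.cent' (hV : Vx l σ D t) (h0 : t (l 0) = (l 0)⁻¹) {k : MulAut G} (hk : k ∈ Sig l)
    (h : k * σ * (t * σ) = t * σ * (k * σ)) : False := by
  have hl := hV.bas
  have hh := isBasis_gen 3
  have h3 : 3 ≤ 4 := by norm_num
  have hs := hV.loc.mem_gam hl
  have h2 : k * σ * (k * σ) = 1 := by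
    refine hV.cent h0 ?_ (by rw [mul_assoc, h, ← mul_assoc, h, mul_assoc])
    have e : k * σ * (k * σ) = k * (σ * k * σ⁻¹) * (σ * σ) := by group
    rw [e, hV.loc.sq hl]
    exact mul_mem (mul_mem hk (gam_conj_sig hl h3 hs hk)) (hV.loc.mem_sig hl 1)
  have s3 : σ (l 3) = l 3 := hV.loc.sig_rest (by decide) (by decide)
  obtain ⟨y, y3, -, hy⟩ := hV.exists_three h0
  obtain ⟨-, ky⟩ := hy (k * σ) (mul_mem (mem_gam_of_sig hl h3 hk) hs) h (by
    rw [MulAut.mul_apply, hV.loc.sig_rest (by decide) (by decide)]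
    exact sig_isConj hk (Cg.self l 0)) (by
    rw [MulAut.mul_apply, s3]
    exact sig_isConj hk (Cg.self l 3))
  obtain ⟨q, hq⟩ := exists_kill (e := Fin.succ) hl hh.prod Fin.strictMono_succ
  obtain ⟨c, hc⟩ := hq.inner hl hh hk
  obtain ⟨σ', -, hs'⟩ := exists_hur hh (i := 0) (j := 1) rfl
  have hd := hq.hur hl (i := 0) (j := 1) hV.loc.hur hs'
  have q3 : q (l 3) = gen 3 2 := hq.qe 2
  have s2 : σ' (gen 3 2) = gen 3 2 := by rw [← q3, ← hd, s3]
  have e1 : σ' * σ' = MulAut.conj (pw (gen 3 2) (-1)) :=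
    Desc.unique (hq.surj hh) (hV.loc.sq hl ▸ hd.mul hd) (hV.loc.desc_zero hl hh hq 1)
  have e2 : MulAut.conj c * σ' * (MulAut.conj c * σ') = 1 :=
    Desc.unique (hq.surj hh) ((hc.mul hd).mul (hc.mul hd)) (h2 ▸ Desc.one q)
  obtain ⟨g, hg⟩ := isConj_iff.1 (q.map_isConj y3)
  have e3 := (hc.mul hd) y
  rw [ky, ← hg, q3, MulAut.mul_apply, map_mul σ', map_mul σ', map_inv, s2,
    MulAut.conj_apply] at e3
  obtain ⟨a, ha⟩ := hh.cent (by norm_num) 2 (g := g⁻¹ * c * σ' g) (by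
    calc g⁻¹ * c * σ' g * gen 3 2
        = g⁻¹ * (c * (σ' g * gen 3 2 * (σ' g)⁻¹) * c⁻¹) * c * σ' g := by group
      _ = _ := by rw [← e3]; group)
  have e4 : MulAut.conj (pw (gen 3 2) a) * σ' =
      (MulAut.conj g)⁻¹ * (MulAut.conj c * σ') * MulAut.conj g := by
    rw [← ha, mul_assoc (MulAut.conj g)⁻¹, mul_assoc (MulAut.conj c), mul_conj_eq, map_mul, map_mul,
      map_inv]
    group
  have e5 : MulAut.conj (pw (gen 3 2) a) * σ' * (MulAut.conj (pw (gen 3 2) a) * σ') = 1 := by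
    rw [e4]
    calc _ = (MulAut.conj g)⁻¹ * (MulAut.conj c * σ' * (MulAut.conj c * σ')) * MulAut.conj g := by
          group
      _ = 1 := by rw [e2]; group
  rw [mul_assoc, ← mul_assoc σ', mul_conj_eq, map_pw_aut σ' hs'.1, s2, mul_assoc, e1, ← map_mul,
    ← map_mul, ← pw_add, ← pw_add, ← map_one MulAut.conj, ← pw_zero (gen 3 2)] at e5
  have e6 := congrArg (res 2) (hh.pw_inj (by norm_num) 2 (hh.conj_inj le_rfl e5))
  rw [← add_assoc, ← two_mul, map_add, res_two_mul, map_neg, map_one, map_zero] at e6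
  exact absurd e6 (by decide)

/-- Plan: write `a = 2 * a'` or `a = 2 * a' + 1` and `i = D a' * conj (pw (l 0) c)`; then
`i⁻¹ * (t * σ) * i = t * σ * (D (2 * a') * conj (pw (l 0) (2 * c)))` and
`σ⁻¹ * (t * σ) * σ = t * σ * D 1`. So `g * i⁻¹` or `g * (i * σ)⁻¹ = (g * (D 1)⁻¹ * i⁻¹) * σ` commutes
with `t * σ`. -/
theorem Vx.parity (hV : Vx l σ D t) (h0 : t (l 0) = (l 0)⁻¹) {g : MulAut G} (hg : g ∈ Sig l)
    {a c : Zhat}
    (h : g⁻¹ * (t * σ) * g = t * σ * (D a * MulAut.conj (pw (l 0) (2 * c)))) :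
    ∃ b, g = D b * MulAut.conj (pw (l 0) c) := by
  have hl := hV.bas
  have h3 : 3 ≤ 4 := by norm_num
  have s0 : σ (l 0) = l 0 := hV.loc.sig_rest (by decide) (by decide)
  have hu := conj_mem_Sig hl (pw (l 0) c)
  rw [two_mul, pw_add, map_mul] at h
  have c1 : ∀ b, D b * MulAut.conj (pw (l 0) c) = MulAut.conj (pw (l 0) c) * D b := fun b => by
    rw [mul_conj_eq, map_pw_aut _ (hV.loc.cont b), hV.loc.rest b 0 (by decide) (by decide)]
  have c2 : σ * MulAut.conj (pw (l 0) c) = MulAut.conj (pw (l 0) c) * σ := by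
    rw [mul_conj_eq, map_pw_aut _ hV.loc.hur.1, s0]
  have c3 : (MulAut.conj (pw (l 0) c))⁻¹ * (t * σ) = t * σ * MulAut.conj (pw (l 0) c) := by
    rw [mul_conj_eq, map_pw_inv hV.invol.cont (by rw [MulAut.mul_apply, s0, h0]), map_inv]
  generalize MulAut.conj (pw (l 0) c) = u at h hu c1 c2 c3 ⊢
  have c4 : ∀ b, (D b * u)⁻¹ * (t * σ) * (D b * u) = t * σ * (D (2 * b) * (u * u)) := fun b => by
    have e := hV.tw (-b)
    rw [neg_neg, hV.loc.neg hl] at e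
    calc _ = u⁻¹ * ((D b)⁻¹ * (t * σ)) * D b * u := by group
      _ = u⁻¹ * (t * σ) * (D b * D b) * u := by rw [e]; group
      _ = t * σ * (u * D (2 * b)) * u := by rw [c3, two_mul, hV.loc.add hl]; group
      _ = _ := by rw [← c1]; group
  have key : ∀ i : MulAut G, g⁻¹ * (t * σ) * g = i⁻¹ * (t * σ) * i →
      g * i⁻¹ * (t * σ) = t * σ * (g * i⁻¹) := fun i e => by
    calc _ = g * (i⁻¹ * (t * σ) * i) * i⁻¹ := by group
      _ = _ := by rw [← e]; group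
  rcases zhat_parity a with ⟨b, rfl⟩ | ⟨b, rfl⟩
  · exact ⟨b, mul_inv_eq_one.1 (hV.cent h0
      (mul_mem hg (inv_mem (mul_mem (hV.loc.mem_sig hl b) hu))) (key _ (h.trans (c4 b).symm)))⟩
  · have c5 : σ⁻¹ * (t * σ) * σ = t * σ * D 1 := by
      rw [← hV.loc.sq hl, ← hV.inv]
      group
    have c6 : ∀ b, D b * (u * u) * σ = σ * (D b * (u * u)) := fun b => by
      rw [mul_assoc, mul_assoc, ← c2, ← mul_assoc u, ← c2, ← mul_assoc, ← mul_assoc,
        ← hV.loc.comm hl]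
      group
    have e := key (D b * u * σ) (by
      calc _ = σ⁻¹ * (t * σ) * σ * (D (2 * b) * (u * u)) := by
            rw [h, c5, add_comm, hV.loc.add hl]; group
        _ = σ⁻¹ * (t * σ * (D (2 * b) * (u * u))) * σ := by
            rw [mul_assoc σ⁻¹ (t * σ * _) σ, mul_assoc (t * σ), c6]; group
        _ = _ := by rw [← c4]; group)
    have e2 : g * (D b * u * σ)⁻¹ = g * (D 1)⁻¹ * (σ * (D b * u)⁻¹ * σ⁻¹) * σ := by
      rw [← hV.loc.sq hl]
      group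
    rw [e2] at e
    exact (hV.cent' h0 (mul_mem (mul_mem hg (inv_mem (hV.loc.mem_sig hl 1)))
      (gam_conj_sig hl h3 (hV.loc.mem_gam hl)
        (inv_mem (mul_mem (hV.loc.mem_sig hl b) hu)))) e).elim

/-- Moving to another vertex of the cell. Hint: `σ * (g * σ * g⁻¹)⁻¹ ∈ Sig l`, `Adm.mul_sig`,
`Adm.aut`, `Loc.aut`. -/
theorem Vx.move (hV : Vx l σ D t) {g : MulAut G} (hg : g ∈ Sig l)
    (h : g⁻¹ * (t * σ) * g * σ * (g⁻¹ * (t * σ) * g)⁻¹ = σ⁻¹) :
    Vx (fun i => g (l i)) (g * σ * g⁻¹) (fun a => g * D a * g⁻¹)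
      (t * σ * (g * σ * g⁻¹)⁻¹) := by
  have hl := hV.bas
  have h3 : 3 ≤ 4 := by norm_num
  have hg' := mem_gam_of_sig hl h3 hg
  have hc := (gam_perm hg').1
  have h1 : σ * (g * σ * g⁻¹)⁻¹ ∈ Sig l := by
    have h2 := mul_mem (gam_conj_sig hl h3 (hV.loc.mem_gam hl) hg) (inv_mem hg)
    have e : σ * (g * σ * g⁻¹)⁻¹ = σ * g * σ⁻¹ * g⁻¹ := by group
    rwa [e]
  have h4 := hV.invol.sq
  refine ⟨hl.aut hc, hV.loc.aut hc, ?_, ?_, ?_⟩
  · rw [mul_assoc]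
    exact (hV.adm.mul_sig hl h3 h1).aut hl h3 hg'
  · generalize t * σ = τ at h h4 ⊢
    have e : τ⁻¹ = τ := inv_eq_of_mul_eq_one_right h4
    have h5 : g⁻¹ * τ * g * σ⁻¹ * (g⁻¹ * τ * g)⁻¹ = σ := by
      rw [← inv_inj]
      refine Eq.trans ?_ h
      group
    calc τ * (g * σ * g⁻¹)⁻¹ * (τ * (g * σ * g⁻¹)⁻¹)
        = g * (g⁻¹ * τ * g * σ⁻¹ * (g⁻¹ * τ⁻¹ * g)⁻¹) * σ⁻¹ * g⁻¹ := by group
      _ = 1 := by rw [e, h5]; group
  · generalize t * σ = τ at h ⊢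
    calc τ * (g * σ * g⁻¹)⁻¹ * (g * σ * g⁻¹) * (τ * (g * σ * g⁻¹)⁻¹)⁻¹
        = g * (g⁻¹ * τ * g * σ * (g⁻¹ * τ * g)⁻¹) * g⁻¹ := by group
      _ = _ := by rw [h]; group

end Pool.Agent.MP_1c2b6e_al

/-! Walking along the sides of the cell of the twisted involution. -/

namespace Pool.Agent.MP_1c2b6e_al

open Classical

variable {G : Type} [Group G] [TopologicalSpace G] [IsTopologicalGroup G] [CompactSpace G]
  [TotallyDisconnectedSpace G] {H : Type} [Group H] [TopologicalSpace H] [IsTopologicalGroup H]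
  [CompactSpace H] [TotallyDisconnectedSpace H] {l : Fin 4 → G}
  {σ t : MulAut G} {D : Zhat → MulAut G} {h : Fin 3 → H} {q : G →* H}

/-- The conclusion of a step: `g⁻¹ * (t * σ) * g = t * σ * k` where `k` commutes with `σ`, fixes `b`
and descends to an odd power of `q b`, and `g` descends to a power of `q b`. -/
def Stp (l : Fin 4 → G) (σ t : MulAut G) (q : G →* H) (b : G) : Prop :=
  ∃ g ∈ Sig l, ∃ (k : MulAut G) (u m : Zhat), g⁻¹ * (t * σ) * g = t * σ * k ∧ k * σ = σ * k ∧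
    k b = b ∧ res 2 m = 1 ∧ Desc q k (MulAut.conj (pw (q b) m)) ∧
    Desc q g (MulAut.conj (pw (q b) u))

omit [IsTopologicalGroup G] [CompactSpace G] [TotallyDisconnectedSpace G] [IsTopologicalGroup H]
  [CompactSpace H] [TotallyDisconnectedSpace H] in
theorem chexb_one (hq : Kill l h (Fin.succAbove 1) q) : q (l 1) = 1 := hq.qz 1 (by decide)

theorem kill_bb (hq : Kill l h (Fin.succAbove 1) q) (j : Fin 3) : q (bb l j) = h j := by
  fin_cases j
  · exact hq.qe 0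
  · change q (l 1 * l 2) = h 1
    rw [map_mul, chexb_one hq, one_mul]
    exact hq.qe 1
  · exact hq.qe 2

/-- The descent of the twisted involution to a tripod containing the punctures `1`, `2`. -/
theorem chexb_desc (hV : Vx l σ D t) (hh : IsBasis h) {e : Fin 3 → Fin 4} (hq : Kill l h e q)
    {i j m : Fin 3} (hij : (j : ℕ) = i + 1) (hi : e i = 1) (hj : e j = 2)
    (hm : ∀ a, a = i ∨ a = j ∨ a = m) : ∃ τ', Invol h τ' ∧ Desc q (t * σ) τ' ∧
      (τ' (h m) = (h m)⁻¹ →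
        ∃ c, τ' (c * h m * c⁻¹) = (c * h m * c⁻¹)⁻¹ ∧ c * h m * c⁻¹ ≠ h m) := by
  obtain ⟨t', ht', dt⟩ := hq.desc hV.bas hh hV.adm.pure
  obtain ⟨σ', -, hσ'⟩ := exists_hur hh hij
  have dσ : Desc q σ σ' := hq.hur hV.bas (by rw [hi, hj]; exact hV.loc.hur) hσ'
  have h2 : t' * t' = 1 := Desc.unique (hq.surj hh) (dt.mul dt) (hV.sq ▸ Desc.one q)
  have h3 : t' * σ' * t'⁻¹ = σ'⁻¹ :=
    Desc.unique (hq.surj hh) ((dt.mul dσ).mul dt.inv) (hV.inv ▸ dσ.inv)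
  have hI := hσ'.invol ht' h2 h3
  refine ⟨t' * σ', hI, dt.mul dσ, fun h0 => ?_⟩
  obtain ⟨w, ⟨a, ha⟩, iw, hw⟩ := hI.exists_other hh le_rfl (Cg.self h m) h0
  have hne : i ≠ j := by
    rintro rfl
    omega
  rcases hm a with rfl | rfl | rfl
  · have h4 := hσ'.isConj_mul ht' a
    rw [Equiv.swap_apply_left] at h4
    exact absurd ha (not_conj_of_swap hh le_rfl hne h4 iw)
  · have h4 := hσ'.isConj_mul ht' a
    rw [Equiv.swap_apply_right] at h4
    exact absurd ha (not_conj_of_swap hh le_rfl hne.symm h4 iw)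
  · obtain ⟨c, rfl⟩ := isConj_iff.1 ha
    exact ⟨c, iw, hw⟩

theorem chexb_comm (hσ : Continuous σ) {x : G} (hx : σ x = x) (b : Zhat) :
    MulAut.conj (pw x b) * σ = σ * MulAut.conj (pw x b) := by
  rw [mul_conj_eq, map_pw_aut σ hσ, hx]

theorem chexb_desc_pw (hq : Continuous q) (x : G) (b : Zhat) :
    Desc q (MulAut.conj (pw x b)) (MulAut.conj (pw (q x) b)) :=
  map_pw q hq x b ▸ Desc.conj q (pw x b)

/-- The side along the first puncture. Plan: kill `l 0` by `p` onto `h' = gen 3`; `τ = t * σ`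
descends to `τ' = t' * σ'` (`Hur.invol`), which inverts `h' 2` (`Vx.tw`, `desc_zero`, `conj_inj`)
and a second cusp generator `c * h' 2 * c⁻¹` (`exists_other`, `not_conj_of_swap`). Lift `conj c` to
`g` (`lift0`); `k = τ⁻¹ * g⁻¹ * τ * g` is `D a * conj (pw (l 0) b)` (`tw_of_fix`), and `b` is odd
(`zhat_parity`, `Vx.parity`). Along `q`, `g` descends to `conj c'` with `c'` commuting with `h 0`. -/
theorem Vx.step_zero (hV : Vx l σ D t) (hh : IsBasis h) (hq : Kill l h (Fin.succAbove 1) q)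
    (h0 : t (l 0) = (l 0)⁻¹) : Stp l σ t q (l 0) := by
  have hl := hV.bas
  have hL := hV.loc
  have hh' := isBasis_gen 3
  obtain ⟨p, hp⟩ := exists_kill (e := Fin.succ) hl hh'.prod Fin.strictMono_succ
  obtain ⟨τ', -, dτ, hoth⟩ := chexb_desc hV hh' hp (i := 0) (j := 1) (m := 2) rfl rfl rfl
    (by decide)
  have hσ0 : σ (l 0) = l 0 := hL.sig_rest (by decide) (by decide)
  have hτ0 : (t * σ) (l 0) = (l 0)⁻¹ := by rw [MulAut.mul_apply, hσ0, h0]
  have hτ2 : τ' (gen 3 2) = (gen 3 2)⁻¹ := by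
    have e := Desc.unique (hp.surj hh') ((hL.desc_zero hl hh' hp 1).mul dτ)
      (hV.tw 1 ▸ dτ.mul (hL.desc_zero hl hh' hp (-1)))
    rw [mul_conj_eq, neg_neg, pw_neg, pw_one, mul_left_inj] at e
    exact (hh'.conj_inj le_rfl e).symm
  obtain ⟨c, ic, hc⟩ := hoth hτ2
  obtain ⟨g, hg, hg0, dg⟩ := Kill.lift0 (r := 0) hp hl hh' (conj_mem_Sig hh' c)
  have hk : (t * σ)⁻¹ * g⁻¹ * (t * σ) * g ∈ Sig l := mul_mem (hV.conj_sig (inv_mem hg)) hg
  have hk0 : ((t * σ)⁻¹ * g⁻¹ * (t * σ) * g) (l 0) = l 0 := by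
    rw [MulAut.mul_apply, MulAut.mul_apply, hg0, hτ0, map_inv, MulAut.mul_apply, ← hg0,
      MulAut.inv_apply_self, hg0, ← map_inv, ← hτ0, MulAut.inv_apply_self]
  obtain ⟨a, b, hab⟩ := tw_of_fix hl hL hh' hp hk hk0 (((dτ.inv.mul dg.inv).mul dτ).mul dg) (by
    rw [MulAut.mul_apply, MulAut.mul_apply, MulAut.conj_apply, ic, map_inv, MulAut.mul_apply,
      ← MulAut.conj_apply, MulAut.inv_apply_self, ← map_inv, ← hτ2, MulAut.inv_apply_self])
  have hgk : g⁻¹ * (t * σ) * g = t * σ * (D a * MulAut.conj (pw (l 0) b)) := by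
    rw [← hab]
    group
  have hb : res 2 b = 1 := by
    rcases zhat_parity b with ⟨b, rfl⟩ | ⟨b, rfl⟩
    · obtain ⟨b', e⟩ := hV.parity h0 hg hgk
      have e1 := Desc.unique (hp.surj hh') dg
        (e ▸ (hL.desc_zero hl hh' hp b').mul (chexb_desc_pw hp.cq (l 0) b))
      rw [hp.qz 0 (by decide), one_pw, map_one, mul_one] at e1
      refine absurd ?_ hc
      rw [hh'.conj_inj le_rfl e1, pw_comm, mul_inv_cancel_right]
    · rw [map_add, res_two_mul, map_one, zero_add]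
  obtain ⟨c', dc'⟩ := hq.inner hl hh hg
  obtain ⟨u, hu⟩ := hh.cent (by norm_num) 0 (g := c') (by
    have e := dc' (l 0)
    rw [hg0, show q (l 0) = h 0 from hq.qe 0, MulAut.conj_apply] at e
    exact mul_inv_eq_iff_eq_mul.1 e.symm)
  refine ⟨g, hg, _, u, b, hgk, ?_, hab ▸ hk0, hb, ?_, ?_⟩
  · rw [mul_assoc, chexb_comm hL.hur.1 hσ0, ← mul_assoc, ← hL.comm hl, mul_assoc]
  · exact one_mul (MulAut.conj (pw (q (l 0)) b)) ▸
      (hL.desc_one hl hq a).mul (chexb_desc_pw hq.cq (l 0) b)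
  · rw [show q (l 0) = h 0 from hq.qe 0, ← hu]
    exact dc'

/-- The side along the curve. Plan: kill `l 3` by `p` onto `h' = gen 3` (`e3 1`), with section `ι`
(`secA`); `τ = t * σ` inverts `σ` and `l 1 * l 2`, descends to `τ'` inverting `h' 0` and a second
cusp generator `c * h' 0 * c⁻¹`. Take `g = conj (ι c)`; `(τ' c)⁻¹ * c` is an odd power of `h' 0`
(`Invol.odd`), `SecA.map`, `SecA.comm`, `Cg.cent`. -/
theorem Vx.step_one (hV : Vx l σ D t) (hh : IsBasis h) (hq : Kill l h (Fin.succAbove 1) q)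
    (h0 : t (l 1 * l 2) = (l 1 * l 2)⁻¹) : Stp l σ t q (l 1 * l 2) := by
  have hl := hV.bas
  have hL := hV.loc
  have hh' := isBasis_gen 3
  obtain ⟨p, hp⟩ := exists_kill (e := e3 1) hl hh'.prod (e3_mono 1)
  obtain ⟨ι, hι⟩ := hL.secA hl hh' hp
  obtain ⟨τ', hI, dτ, hoth⟩ := chexb_desc hV hh' hp (i := 1) (j := 2) (m := 0) rfl rfl rfl
    (by decide)
  have hτ0 : (t * σ) (l 1 * l 2) = (l 1 * l 2)⁻¹ := by rw [MulAut.mul_apply, hL.sig_gam, h0]
  have hτσ : t * σ * σ * (t * σ)⁻¹ = σ⁻¹ := by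
    rw [← hV.inv]
    group
  have hτ2 : τ' (gen 3 0) = (gen 3 0)⁻¹ := by
    have e : p (l 1 * l 2)⁻¹ = gen 3 0 := hι.zero ▸ hι.sec _
    rw [← e, ← dτ, map_inv (t * σ), hτ0, map_inv p (l 1 * l 2)⁻¹]
  obtain ⟨c, ic, hc⟩ := hoth hτ2
  obtain ⟨b, hb, e⟩ := hI.odd hh' le_rfl (Cg.self _ 0) hτ2 ic hc
  have e2 : ((t * σ) (ι c))⁻¹ * ι c = pw (l 1 * l 2) (-b) := by
    rw [hι.map hL hl hτσ hτ0 dτ, ← map_inv, ← map_mul, e, map_pw ι hι.cont, hι.zero, pw_inv]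
  have e3 : q (l 1 * l 2) = h 1 := kill_bb hq 1
  obtain ⟨u, hu⟩ := hh.cent (by norm_num) 1 (g := q (ι c)) (by
    have e := hι.comm hh' q hq.cq (chexb_one hq) c
    rwa [show q (l 2) = h 1 from hq.qe 1] at e)
  refine ⟨MulAut.conj (ι c), conj_mem_Sig hl _, MulAut.conj (pw (l 1 * l 2) (-b)), u, -b, ?_,
    chexb_comm hL.hur.1 hL.sig_gam _, conj_pw_self _ _, ?_, chexb_desc_pw hq.cq _ _, ?_⟩
  · rw [← e2, map_mul, ← mul_assoc (t * σ), mul_conj_eq (t * σ) ((t * σ) (ι c))⁻¹, map_inv (t * σ),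
      sq_apply hV.invol.sq, map_inv]
  · rw [map_neg, hb]
    decide
  · rw [e3, ← hu]
    exact Desc.conj q _

/-- The side along the last puncture. Plan: apply `step_zero` to the basis
`l 3, l 1, l 2, l 3 * l 0 * (l 3)⁻¹` (`exists_swap` for `l` and for `h`, `Loc.congr`, `sig_aut`). -/
theorem Vx.step_two (hV : Vx l σ D t) (hh : IsBasis h) (hq : Kill l h (Fin.succAbove 1) q)
    (h0 : t (l 3) = (l 3)⁻¹) : Stp l σ t q (l 3) := by
  have hl := hV.bas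
  have hL := hV.loc
  obtain ⟨δ, hδ, a0, a3, a⟩ := exists_swap (r := 2) hl
  obtain ⟨δ', hδ', b0, b2, b⟩ := exists_swap (r := 1) hh
  change δ (l 0) = l 3 at a0
  change δ (l 3) = l 3 * l 0 * (l 3)⁻¹ at a3
  have a1 : δ (l 1) = l 1 := a 1 (by decide) (by decide)
  have a2 : δ (l 2) = l 2 := a 2 (by decide) (by decide)
  have s0 : σ (l 0) = l 0 := hL.sig_rest (by decide) (by decide)
  have s3 : σ (l 3) = l 3 := hL.sig_rest (by decide) (by decide)
  have d0 : ∀ a, D a (l 0) = l 0 := fun a => hL.rest a 0 (by decide) (by decide)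
  have d3 : ∀ a, D a (l 3) = l 3 := fun a => hL.rest a 3 (by decide) (by decide)
  have hV' : Vx (fun i => δ (l i)) σ D t := by
    refine ⟨hl.aut (gam_perm hδ).1, hL.congr a1 a2 fun i h1 h2 => ?_,
      hV.adm.aut hl (by norm_num) hδ, hV.sq, hV.inv⟩
    have hi : i = 0 ∨ i = 3 := by
      revert i
      decide
    rcases hi with rfl | rfl
    · rw [a0]
      exact ⟨s3, d3⟩
    · rw [a3]
      exact ⟨by rw [map_mul, map_mul, map_inv, s0, s3],
        fun a => by rw [map_mul, map_mul, map_inv, d0, d3]⟩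
  have hq' : Kill (fun i => δ (l i)) (fun j => δ' (h j)) (Fin.succAbove 1) q := by
    refine ⟨hq.mono, hq.cq, fun j => ?_, fun i hi => ?_⟩
    · fin_cases j
      · change q (δ (l 0)) = δ' (h 0)
        rw [a0, b0]
        exact hq.qe 2
      · change q (δ (l 2)) = δ' (h 1)
        rw [a2, b 1 (by decide) (by decide)]
        exact hq.qe 1
      · change q (δ (l 3)) = δ' (h (Fin.last 2))
        rw [a3, b2, map_mul, map_mul, map_inv, show q (l 0) = h 0 from hq.qe 0,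
          show q (l 3) = h (Fin.last 2) from hq.qe 2]
    · have hi' : i = 1 := by
        revert i
        decide
      rw [hi', a1]
      exact chexb_one hq
  have h1 := hV'.step_zero (hh.aut (gam_perm hδ').1) hq' (by rw [a0]; exact h0)
  unfold Stp at h1
  rwa [sig_aut hl (by norm_num) hδ, a0] at h1

theorem chexb_stp (hV : Vx l σ D t) (hh : IsBasis h) (hq : Kill l h (Fin.succAbove 1) q)
    (j : Fin 3) (h0 : t (bb l j) = (bb l j)⁻¹) : Stp l σ t q (bb l j) := by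
  fin_cases j
  · exact hV.step_zero hh hq h0
  · exact hV.step_one hh hq h0
  · exact hV.step_two hh hq h0

/-- Two sides. Plan: `z = c * h j * c⁻¹`; with `ι` from `secB` and `g₁ = conj (ι c)` the basis
`g₁ ∘ l` has the same `σ`, `D`, `t` (`SecB.comm`, `comm_tw`), `t` inverts `g₁ (bb l j) = ι z`
(`SecB.map`), and `Kill.aut` applies. Take `g₂, k, u, m` from the step for this basis and
`g = g₂ * g₁`; then `t * σ * (g * σ * g⁻¹)⁻¹ = g₂ * (t * k) * g₂⁻¹` descends to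
`s * conj (pw z (m - 2 * u))`. -/
theorem Vx.step (hV : Vx l σ D t) (hh : IsBasis h) (hq : Kill l h (Fin.succAbove 1) q)
    {s : MulAut H} (hs : Desc q t s) {j : Fin 3} {z : H} (hz : IsConj (h j) z) (iz : s z = z⁻¹) :
    ∃ g ∈ Sig l, ∃ m, res 2 m = 1 ∧
      g⁻¹ * (t * σ) * g * σ * (g⁻¹ * (t * σ) * g)⁻¹ = σ⁻¹ ∧
      (g⁻¹ * (t * σ) * g) (bb l j) = (bb l j)⁻¹ ∧
      Desc q (t * σ * (g * σ * g⁻¹)⁻¹) (s * MulAut.conj (pw z m)) := by
  have hl := hV.bas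
  have hL := hV.loc
  obtain ⟨c, rfl⟩ := isConj_iff.1 hz
  obtain ⟨ι, hι⟩ := hL.secB hl hh hq
  have hg₁ := conj_mem_Sig hl (ι c)
  have hγ := mem_gam_of_sig hl (by norm_num) hg₁
  have hc := continuous_conj_aut (ι c)
  have hσ := hι.comm c
  have hV' : Vx (fun i => MulAut.conj (ι c) (l i)) σ D t := by
    refine ⟨hl.aut hc, ?_, hV.adm.aut hl (by norm_num) hγ, hV.sq, hV.inv⟩
    have h1 := hL.aut hc
    simp only [hσ, hι.comm_tw] at h1
    exact h1
  have e0 : ι (h j) = bb l j := by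
    fin_cases j
    · exact hι.rest 0 (by decide)
    · exact hι.one
    · exact hι.rest 2 (by decide)
  have e1 : MulAut.conj (ι c) (bb l j) = ι (c * h j * c⁻¹) := by
    rw [map_mul, map_mul, map_inv, e0, MulAut.conj_apply]
  have e2 : bb (fun i => MulAut.conj (ι c) (l i)) j = ι (c * h j * c⁻¹) := by
    rw [← e1]
    fin_cases j
    · rfl
    · exact (map_mul _ _ _).symm
    · rfl
  generalize c * h j * c⁻¹ = z at iz e1 e2 ⊢
  have it : t (ι z) = (ι z)⁻¹ := by rw [hι.map hL hl hV.inv hs, iz, map_inv]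
  have h1 := chexb_stp hV' (hh.aut (continuous_conj_aut _)) (hq.aut (Desc.conj q (ι c))) j
    (by rw [e2]; exact it)
  unfold Stp at h1
  rw [sig_aut hl (by norm_num) hγ, e2, hι.sec] at h1
  obtain ⟨g, hg, k, u, m, h1, h2, h3, h4, h5, h6⟩ := h1
  generalize MulAut.conj (ι c) = g₁ at hg₁ hσ e1
  have h7 : (g * g₁)⁻¹ * (t * σ) * (g * g₁) = g₁⁻¹ * (t * σ * k) * g₁ := by
    rw [← h1]
    group
  have h8 : k * σ * k⁻¹ = σ := by rw [h2, mul_inv_cancel_right]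
  refine ⟨g * g₁, mul_mem hg hg₁, -u + m + -u, ?_, ?_, ?_, ?_⟩
  · have h : ∀ x : ZMod 2, -x + 1 + -x = 1 := by decide
    rw [map_add, map_add, map_neg, h4, h]
  · rw [h7]
    calc _ = g₁⁻¹ * (t * (σ * (k * (g₁ * σ * g₁⁻¹) * k⁻¹) * σ⁻¹) * t⁻¹) * g₁ := by group
      _ = g₁⁻¹ * (g₁ * σ * g₁⁻¹)⁻¹ * g₁ := by rw [hσ, h8, mul_inv_cancel_right, hV.inv]
      _ = σ⁻¹ := by group
  · rw [h7, MulAut.mul_apply, MulAut.mul_apply, MulAut.mul_apply, MulAut.mul_apply, e1, h3,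
      hι.sig, it, map_inv, ← e1, MulAut.inv_apply_self]
  · have h9 : t * σ * (g * g₁ * σ * (g * g₁)⁻¹)⁻¹ = g * (t * k) * g⁻¹ := by
      calc _ = g * (g⁻¹ * (t * σ) * g * (g₁ * σ * g₁⁻¹)⁻¹) * g⁻¹ := by group
        _ = g * (t * (σ * k) * σ⁻¹) * g⁻¹ := by rw [h1, hσ, mul_assoc t]
        _ = _ := by rw [← h2]; group
    have h10 : s (pw z u)⁻¹ = pw z u := by
      have e := hs (pw (ι z) u)
      rw [map_pw_inv hV.adm.pure.1 it, map_inv, map_pw q hq.cq, hι.sec] at e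
      rw [map_inv, ← e, inv_inv]
    have h11 : s * MulAut.conj (pw z (-u + m + -u)) =
        MulAut.conj (pw z u) * (s * MulAut.conj (pw z m)) * (MulAut.conj (pw z u))⁻¹ := by
      rw [pw_add, pw_add, pw_neg, map_mul, map_mul, ← mul_assoc, ← mul_assoc, mul_conj_eq s, h10,
        map_inv, mul_assoc _ s]
    rw [h9, h11]
    exact (h6.mul (hs.mul h5)).mul h6.inv

end Pool.Agent.MP_1c2b6e_al

/-! The hexagon closes up. -/

namespace Pool.Agent.MP_1c2b6e_al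

open Classical

variable {G : Type} [Group G] [TopologicalSpace G] [IsTopologicalGroup G] [CompactSpace G]
  [TotallyDisconnectedSpace G] {H : Type} [Group H] [TopologicalSpace H] [IsTopologicalGroup H]
  [CompactSpace H] [TotallyDisconnectedSpace H] {l : Fin 4 → G}
  {σ t : MulAut G} {D : Zhat → MulAut G} {h : Fin 3 → H} {q : G →* H}

/-- The step from the vertex given by `k ∈ Sig l`. -/
theorem Vx.step' (hV : Vx l σ D t) (hh : IsBasis h) (hq : Kill l h (Fin.succAbove 1) q)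
    {k : MulAut G} (hk : k ∈ Sig l)
    (h1 : k⁻¹ * (t * σ) * k * σ * (k⁻¹ * (t * σ) * k)⁻¹ = σ⁻¹)
    {s : MulAut H} (hs : Desc q (t * σ * (k * σ * k⁻¹)⁻¹) s) {j : Fin 3} {z : H}
    (hz : IsConj (h j) z) (iz : s z = z⁻¹) :
    ∃ g ∈ Sig l, ∃ m, res 2 m = 1 ∧
      g⁻¹ * (t * σ) * g * σ * (g⁻¹ * (t * σ) * g)⁻¹ = σ⁻¹ ∧
      (g⁻¹ * (t * σ) * g) (bb l j) = (bb l j)⁻¹ ∧
      Desc q (t * σ * (g * σ * g⁻¹)⁻¹) (s * MulAut.conj (pw z m)) := by
  have hl := hV.bas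
  have hG := mem_gam_of_sig hl (by norm_num) hk
  obtain ⟨c, hc⟩ := hq.inner hl hh hk
  have hz' : IsConj (MulAut.conj c (h j)) z := (isConj_iff.2 ⟨c, rfl⟩).symm.trans hz
  obtain ⟨g, hg, m, hm, h2, h3, h4⟩ := (hV.move hk h1).step
    (h := fun i => MulAut.conj c (h i)) (hh.aut (continuous_conj_aut c)) (hq.aut hc) hs hz' iz
  rw [sig_aut hl (by norm_num) hG] at hg
  rw [inv_mul_cancel_right] at h2 h3 h4
  refine ⟨g * k, mul_mem hg hk, m, hm, ?_, ?_, ?_⟩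
  · calc _ = k⁻¹ * (g⁻¹ * (t * σ) * g * (k * σ * k⁻¹) * (g⁻¹ * (t * σ) * g)⁻¹) * k := by group
      _ = _ := by rw [h2]; group
  · have e1 : bb (fun i => k (l i)) j = k (bb l j) := by
      fin_cases j <;> simp [bb]
    have e2 : (g * k)⁻¹ * (t * σ) * (g * k) = k⁻¹ * (g⁻¹ * (t * σ) * g) * k := by group
    rw [e2, MulAut.mul_apply, MulAut.mul_apply, ← e1, h3, e1, map_inv, MulAut.inv_apply_self]
  · have e3 : g * k * σ * (g * k)⁻¹ = g * (k * σ * k⁻¹) * g⁻¹ := by group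
    rw [e3]
    exact h4

theorem chexc_comm {M : Type} [Group M] {a b x : M} (ha : a * x * a⁻¹ = x⁻¹)
    (hb : b * x * b⁻¹ = x⁻¹) : a⁻¹ * b * x = x * (a⁻¹ * b) := by
  calc _ = a⁻¹ * (b * x * b⁻¹) * b := by group
    _ = a⁻¹ * (a * x * a⁻¹) * b := by rw [ha, hb]
    _ = _ := by group

/-- **The hexagon.** -/
theorem Vx.hexagon (hV : Vx l σ D t) (h0 : t (l 0) = (l 0)⁻¹) (hh : IsBasis h)
    (hq : Kill l h (Fin.succAbove 1) q) {s : MulAut H} (hs : Desc q t s) :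
    ∃ (a : Zhatˣ) (x y z : H), Ch3 h s a x y z ∧ pw x a * pw y a * pw z a = 1 := by
  have hl := hV.bas
  have n3 : 3 ≤ 3 := le_rfl
  have hsurj := hq.surj hh
  obtain ⟨s', hp, hs'⟩ := hq.desc hl hh hV.adm.pure
  obtain rfl : s = s' := Desc.unique hsurj hs hs'
  have h2 : s * s = 1 := Desc.unique hsurj (hs.mul hs) (hV.sq ▸ Desc.one q)
  have i0 : s (h 0) = (h 0)⁻¹ := by
    have e : q (l 0) = h 0 := kill_bb hq 0
    rw [← e, ← hs, h0, map_inv]
  have hτ : t * σ * σ * (t * σ)⁻¹ = σ⁻¹ := by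
    calc _ = t * σ * t⁻¹ := by group
      _ = _ := hV.inv
  -- first corner
  obtain ⟨x, ⟨j₁, cx⟩, ix, nx⟩ := (hp.invol h2).exists_other hh n3 (Cg.self h 0) i0
  obtain ⟨k₁, hk₁, m₁, hm₁, a₁, -, d₁⟩ := hV.step hh hq hs cx ix
  have p₁ := hp.mul_conj (pw x m₁)
  have q₁ := sq_mul_conj h2 (map_pw_inv hp.1 ix m₁)
  have ix' := mul_conj_pw_inv ix m₁
  -- second corner
  obtain ⟨y, ⟨j₂, cy⟩, iy, ny⟩ := (p₁.invol q₁).exists_other hh n3 ⟨_, cx⟩ ix'
  obtain ⟨k₂, hk₂, m₂, hm₂, a₂, -, d₂⟩ := hV.step' hh hq hk₁ a₁ d₁ cy iy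
  have p₂ := p₁.mul_conj (pw y m₂)
  have q₂ := sq_mul_conj q₁ (map_pw_inv p₁.1 iy m₂)
  have iy' := mul_conj_pw_inv iy m₂
  -- third corner
  obtain ⟨z, ⟨j₃, cz⟩, iz, nz⟩ := (p₂.invol q₂).exists_other hh n3 ⟨_, cy⟩ iy'
  have c0x : ¬IsConj (h 0) x := hp.not_conj hh n3 h2 (Cg.self h 0) i0 ix nx
  have cxy : ¬IsConj x y := p₁.not_conj hh n3 q₁ ⟨_, cx⟩ ix' iy ny
  have cyz : ¬IsConj y z := p₂.not_conj hh n3 q₂ ⟨_, cy⟩ iy' iz nz
  have c0y : ¬IsConj (h 0) y := hp.not_conj₃ hh n3 (Cg.self h 0) ⟨_, cx⟩ i0 c0x hm₁ iy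
  have cxz : ¬IsConj x z := p₁.not_conj₃ hh n3 ⟨_, cx⟩ ⟨_, cy⟩ ix' cxy hm₂ iz
  have c0z : IsConj (h 0) z :=
    isConj_of_four (Cg.self h 0) ⟨_, cx⟩ ⟨_, cy⟩ ⟨_, cz⟩ c0x c0y cxy cxz cyz
  obtain ⟨k, hk, m₃, hm₃, a₃, b₃, d₃⟩ := hV.step' hh hq hk₂ a₂ d₂ c0z iz
  change (k⁻¹ * (t * σ) * k) (l 0) = (l 0)⁻¹ at b₃
  -- back at the first vertex
  have hτ0 : (t * σ) (l 0) = (l 0)⁻¹ := by
    rw [MulAut.mul_apply, hV.loc.sig_rest (by decide) (by decide), h0]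
  have hn : (t * σ)⁻¹ * k⁻¹ * (t * σ) * k ∈ Sig l := mul_mem (hV.conj_sig (inv_mem hk)) hk
  have e0 : (t * σ)⁻¹ * k⁻¹ * (t * σ) * k = (t * σ)⁻¹ * (k⁻¹ * (t * σ) * k) := by group
  have hcomm : (t * σ)⁻¹ * k⁻¹ * (t * σ) * k * σ = σ * ((t * σ)⁻¹ * k⁻¹ * (t * σ) * k) := by
    rw [e0]
    exact chexc_comm hτ a₃
  obtain ⟨a, c, hac⟩ := tw_of_comm hl hV.loc hn (by
    rw [e0, MulAut.mul_apply, b₃, ← hτ0, MulAut.inv_apply_self]) hcomm
  have e1 : k⁻¹ * (t * σ) * k = t * σ * (D a * MulAut.conj (pw (l 0) c)) := by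
    rw [← hac]; group
  have e2 : t * σ * (k * σ * k⁻¹)⁻¹ = k * (t * (D a * MulAut.conj (pw (l 0) c))) * k⁻¹ := by
    rw [hac] at hcomm
    calc _ = k * (k⁻¹ * (t * σ) * k) * σ⁻¹ * k⁻¹ := by group
      _ = k * t * (σ * (D a * MulAut.conj (pw (l 0) c))) * σ⁻¹ * k⁻¹ := by rw [e1]; group
      _ = _ := by rw [← hcomm]; group
  obtain ⟨w, hw⟩ := hq.inner hl hh hk
  have e3 : q (l 0) = h 0 := kill_bb hq 0
  have d₄ := (hw.mul (hs.mul ((hV.loc.desc_one hl hq a).mul (Desc.conj q (pw (l 0) c))))).mul hw.inv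
  rw [← e2, one_mul, map_pw q hq.cq, e3] at d₄
  have e4 := Desc.unique hsurj d₃ d₄
  have e5 : pw x m₁ * pw y m₂ * pw z m₃ = s⁻¹ w * pw (h 0) c * w⁻¹ := by
    refine hh.conj_inj n3 ?_
    have e6 := mul_conj_eq s (s⁻¹ w)
    rw [MulAut.apply_inv_self] at e6
    simp only [map_mul, map_inv]
    calc _ = s⁻¹ * (s * MulAut.conj (pw x m₁) * MulAut.conj (pw y m₂) *
          MulAut.conj (pw z m₃)) := by group
      _ = s⁻¹ * (MulAut.conj w * s) * MulAut.conj (pw (h 0) c) * (MulAut.conj w)⁻¹ := by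
          rw [e4]; group
      _ = _ := by rw [← e6]; group
  have hc : res 2 c = 0 := by
    obtain ⟨f, hf, f0, -, -⟩ := exists_ch_pair hh 2 (i := 0) (k := 1) (by decide)
    have e6 := congrArg f e5
    have e7 : f (s⁻¹ w) = f w := by
      rw [← hp.ch_two hh hf (s⁻¹ w), MulAut.apply_inv_self]
    simp only [hf.1 _ trivial _ trivial, hf.map_pw trivial, hf.inv trivial, hm₁, hm₂, hm₃,
      one_mul, e7, f0, mul_one] at e6
    rw [ch_sum_three hh ⟨_, cx⟩ ⟨_, cy⟩ ⟨_, cz⟩ cxy cxz cyz hf] at e6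
    linear_combination -e6
  obtain ⟨c', hc'⟩ := zhat_dvd hc
  obtain ⟨b, hb⟩ := hV.parity h0 hk (a := a) (c := c') (by rw [e1, hc']; rfl)
  have e6 : k * σ * k⁻¹ = σ := by
    have e7 := mul_conj_eq σ (pw (l 0) c')
    rw [map_pw_aut σ hV.loc.hur.1, hV.loc.sig_rest (by decide) (by decide)] at e7
    rw [mul_inv_eq_iff_eq_mul, hb, mul_assoc, ← e7, ← mul_assoc, ← hV.loc.comm hl, mul_assoc]
  rw [e6, mul_inv_cancel_right] at d₃
  have e7 : pw x m₁ * pw y m₂ * pw z m₃ = 1 := by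
    refine hh.conj_inj n3 ?_
    have e8 := Desc.unique hsurj d₃ hs
    simp only [map_mul, map_one]
    calc _ = s⁻¹ * (s * MulAut.conj (pw x m₁) * MulAut.conj (pw y m₂) *
          MulAut.conj (pw z m₃)) := by group
      _ = _ := by rw [e8, inv_mul_cancel]
  obtain ⟨u, rfl, rfl, rfl⟩ := unit_of_prod hh ⟨_, cx⟩ ⟨_, cy⟩ ⟨_, cz⟩ cxy cxz cyz hm₁ e7
  exact ⟨u, x, y, z, ⟨⟨_, cx⟩, ⟨_, cy⟩, ⟨_, cz⟩, ix, iy, iz, ny, nz⟩, e7⟩

end Pool.Agent.MP_1c2b6e_al

/-! All triangles close up. -/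

namespace Pool.Agent.MP_1c2b6e_al

open Classical

variable {G : Type} [Group G] [TopologicalSpace G] [IsTopologicalGroup G] [CompactSpace G]
  [TotallyDisconnectedSpace G]

section tripod

variable {h : Fin 3 → G} {s : MulAut G} {a : Zhat} {x y z : G}

theorem ctri_aut (H : Ch3 h s a x y z) {β : MulAut G} (hβ : Continuous β)
    (hc : ∀ w, Cg h w → Cg h (β w)) : Ch3 h (β * s * β⁻¹) a (β x) (β y) (β z) := by
  have key : ∀ {t : MulAut G} {w : G}, t w = w⁻¹ → (β * t * β⁻¹) (β w) = (β w)⁻¹ := by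
    intro t w hw
    rw [MulAut.mul_apply, MulAut.mul_apply, MulAut.inv_apply_self, hw, map_inv]
  have hcj : ∀ w : G, MulAut.conj (pw (β w) a) = β * MulAut.conj (pw w a) * β⁻¹ := by
    intro w
    rw [← map_pw_aut β hβ, mul_conj_eq, mul_inv_cancel_right]
  refine ⟨hc _ H.cx, hc _ H.cy, hc _ H.cz, key H.ix, ?_, ?_, β.injective.ne H.xy,
    β.injective.ne H.yz⟩
  · have e : β * s * β⁻¹ * MulAut.conj (pw (β x) a) = β * (s * MulAut.conj (pw x a)) * β⁻¹ := by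
      rw [hcj]
      group
    rw [e]
    exact key H.iy
  · have e : β * s * β⁻¹ * MulAut.conj (pw (β x) a) * MulAut.conj (pw (β y) a) =
        β * (s * MulAut.conj (pw x a) * MulAut.conj (pw y a)) * β⁻¹ := by
      rw [hcj, hcj]
      group
    rw [e]
    exact key H.iz

theorem Ch3.conj (H : Ch3 h s a x y z) (g : G) :
    Ch3 h (MulAut.conj g * s * (MulAut.conj g)⁻¹) a (g * x * g⁻¹) (g * y * g⁻¹)
      (g * z * g⁻¹) :=
  ctri_aut H (continuous_conj_aut g) fun _ hw => hw.conj (isConj_iff.2 ⟨g, rfl⟩)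

/-- Hint: `eq_or_eq`. -/
theorem Ch3.unique (hh : IsBasis h) (hs : Invol h s) {y' z' : G} (H : Ch3 h s a x y z)
    (H' : Ch3 h s a x y' z') : y' = y ∧ z' = z := by
  have h1 : Invol h (s * MulAut.conj (pw x a)) := hs.mul_conj (map_pw_inv hs.cont H.ix a)
  have e1 : y' = y :=
    (h1.eq_or_eq hh le_rfl H.cx H.cy H'.cy (mul_conj_pw_inv H.ix a) H.iy H'.iy
      H.xy.symm).resolve_left H'.xy
  subst e1
  have h2 : Invol h (s * MulAut.conj (pw x a) * MulAut.conj (pw y' a)) :=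
    h1.mul_conj (map_pw_inv h1.cont H.iy a)
  exact ⟨rfl, (h2.eq_or_eq hh le_rfl H.cy H.cz H'.cz (mul_conj_pw_inv H.iy a) H.iz H'.iz
    H.yz.symm).resolve_left H'.yz⟩

theorem Ch3.not_conj (hh : IsBasis h) (hs : Pure h s (-1)) (h2 : s * s = 1) (ha : res 2 a = 1)
    (H : Ch3 h s a x y z) : ¬IsConj x y ∧ ¬IsConj x z ∧ ¬IsConj y z := by
  have p1 := hs.mul_conj (pw x a)
  have q1 := sq_mul_conj h2 (map_pw_inv hs.1 H.ix a)
  have p2 := p1.mul_conj (pw y a)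
  have q2 := sq_mul_conj q1 (map_pw_inv p1.1 H.iy a)
  have hxy := p1.not_conj hh le_rfl q1 H.cx (mul_conj_pw_inv H.ix a) H.iy H.xy
  exact ⟨hxy, p1.not_conj₃ hh le_rfl H.cx H.cy (mul_conj_pw_inv H.ix a) hxy ha H.iz,
    p2.not_conj hh le_rfl q2 H.cy (mul_conj_pw_inv H.iy a) H.iz H.yz⟩

theorem ctri_close (hp : pw x a * pw y a * pw z a = 1) :
    s * MulAut.conj (pw x a) * MulAut.conj (pw y a) * MulAut.conj (pw z a) = s := by
  rw [mul_assoc, mul_assoc, ← map_mul, ← map_mul, ← mul_assoc (pw x a), hp, map_one, mul_one]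

theorem Ch3.rot (hh : IsBasis h) (hs : Pure h s (-1)) (h2 : s * s = 1) (ha : res 2 a = 1)
    (H : Ch3 h s a x y z) (hp : pw x a * pw y a * pw z a = 1) :
    Ch3 h (s * MulAut.conj (pw x a)) a y z x ∧ pw y a * pw z a * pw x a = 1 := by
  refine ⟨⟨H.cy, H.cz, H.cx, H.iy, H.iz, ?_, H.yz, fun e => ?_⟩, ?_⟩
  · rw [ctri_close hp, H.ix]
  · exact (H.not_conj hh hs h2 ha).2.1 (e ▸ IsConj.refl _)
  · calc _ = (pw x a)⁻¹ * (pw x a * pw y a * pw z a) * pw x a := by group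
      _ = 1 := by rw [hp]; group

/-- The mirror image. With `X = pw x a` etc.: `s * conj X * conj X = conj X⁻¹ * s * conj X`, `s`
inverts `z` (as `s = s * conj X * conj Y * conj Z`), and `Z * X = Y⁻¹`. -/
theorem Ch3.flip (hh : IsBasis h) (hs : Pure h s (-1)) (h2 : s * s = 1) (ha : res 2 a = 1)
    (H : Ch3 h s a x y z) (hp : pw x a * pw y a * pw z a = 1) :
    Ch3 h (s * MulAut.conj (pw x a)) a x ((pw x a)⁻¹ * z * pw x a) y ∧
      pw x a * pw ((pw x a)⁻¹ * z * pw x a) a * pw y a = 1 := by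
  obtain ⟨-, hxz, hyz⟩ := H.not_conj hh hs h2 ha
  have hcz : IsConj z ((pw x a)⁻¹ * z * pw x a) := isConj_iff.2 ⟨(pw x a)⁻¹, by rw [inv_inv]⟩
  have hpw : pw ((pw x a)⁻¹ * z * pw x a) a = (pw x a)⁻¹ * pw z a * pw x a := by
    have := pw_conj (pw x a)⁻¹ z a
    rwa [inv_inv] at this
  have hsz : s z = z⁻¹ := by
    rw [← ctri_close (s := s) hp]
    exact mul_conj_pw_inv H.iz a
  have hX := map_pw_inv hs.1 H.ix a
  have hZX : pw z a * pw x a = pw y (-a) := by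
    rw [pw_neg]
    calc _ = (pw y a)⁻¹ * ((pw x a)⁻¹ * (pw x a * pw y a * pw z a) * pw x a) := by group
      _ = _ := by rw [hp]; group
  refine ⟨⟨H.cx, H.cz.conj hcz, H.cy, mul_conj_pw_inv H.ix a, ?_, ?_, fun e => ?_, fun e => ?_⟩, ?_⟩
  · have e1 : MulAut.conj (pw x a) ((pw x a)⁻¹ * z * pw x a) = z := by
      rw [MulAut.conj_apply]
      group
    rw [MulAut.mul_apply, e1, MulAut.mul_apply, MulAut.conj_apply, map_mul, map_mul, map_inv, hX,
      hsz]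
    group
  · have e1 : s * MulAut.conj (pw x a) * MulAut.conj (pw x a) *
        MulAut.conj (pw ((pw x a)⁻¹ * z * pw x a) a) =
        s * MulAut.conj (pw x a) * MulAut.conj (pw y (-a)) := by
      rw [hpw, mul_assoc (s * MulAut.conj (pw x a)), ← map_mul, ← hZX]
      congr 2
      group
    rw [e1]
    exact mul_conj_pw_inv H.iy (-a)
  · exact hxz (e ▸ hcz).symm
  · exact hyz (e ▸ hcz).symm
  · rw [hpw]
    calc _ = pw z a * (pw x a * pw y a * pw z a) * (pw z a)⁻¹ := by group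
      _ = 1 := by rw [hp]; group

theorem ctri_prod_conj (hp : pw x a * pw y a * pw z a = 1) (g : G) :
    pw (g * x * g⁻¹) a * pw (g * y * g⁻¹) a * pw (g * z * g⁻¹) a = 1 := by
  rw [pw_conj, pw_conj, pw_conj]
  calc _ = g * (pw x a * pw y a * pw z a) * g⁻¹ := by group
    _ = 1 := by rw [hp]; group

theorem ctri_pure_conj (hs : Pure h s (-1)) (g : G) :
    Pure h (MulAut.conj g * s * (MulAut.conj g)⁻¹) (-1) := by
  rw [← map_inv]
  refine Pure.mul_conj ?_ _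
  simpa using (Pure.conj h g).mul hs

omit [TopologicalSpace G] [IsTopologicalGroup G] [CompactSpace G] [TotallyDisconnectedSpace G] in
theorem ctri_sq_conj (h2 : s * s = 1) (β : MulAut G) : β * s * β⁻¹ * (β * s * β⁻¹) = 1 := by
  calc _ = β * (s * s) * β⁻¹ := by group
    _ = 1 := by rw [h2]; group

theorem ctri_even (hh : IsBasis h) (hs : Pure h s (-1)) (h2 : s * s = 1)
    (H : Ch3 h s a x y z) (hp : pw x a * pw y a * pw z a = 1) {c : Zhat} {y' z' : G}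
    (H' : Ch3 h (s * MulAut.conj (pw x (2 * c))) a x y' z') :
    pw x a * pw y' a * pw z' a = 1 := by
  have e1 : s * MulAut.conj (pw x (2 * c)) =
      MulAut.conj (pw x c)⁻¹ * s * (MulAut.conj (pw x c)⁻¹)⁻¹ := by
    rw [← map_pw_inv hs.1 H.ix c, ← mul_conj_eq, map_pw_inv hs.1 H.ix c, map_inv, inv_inv,
      mul_assoc, ← map_mul, ← pw_add, two_mul]
  have e2 : (pw x c)⁻¹ * x * (pw x c)⁻¹⁻¹ = x := by
    rw [inv_inv, mul_assoc, ← pw_comm, inv_mul_cancel_left]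
  have H1 := H.conj (pw x c)⁻¹
  have hp1 := ctri_prod_conj hp (pw x c)⁻¹
  rw [e2] at H1 hp1
  rw [e1] at H'
  obtain ⟨rfl, rfl⟩ := H1.unique hh ((ctri_pure_conj hs _).invol (ctri_sq_conj h2 _)) H'
  exact hp1

theorem ctri_same (hh : IsBasis h) (hs : Pure h s (-1)) (h2 : s * s = 1) (ha : res 2 a = 1)
    (H : Ch3 h s a x y z) (hp : pw x a * pw y a * pw z a = 1) {w y' z' : G}
    (H' : Ch3 h (s * MulAut.conj w) a x y' z') : pw x a * pw y' a * pw z' a = 1 := by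
  have hw : w * x = x * w := by
    have h1 := H'.ix
    rw [MulAut.mul_apply, ← H.ix, MulAut.conj_apply] at h1
    exact mul_inv_eq_iff_eq_mul.1 (s.injective h1)
  obtain ⟨b, rfl⟩ := H.cx.cent hh (by norm_num) hw
  rcases zhat_parity b with ⟨c, rfl⟩ | ⟨c, rfl⟩
  · exact ctri_even hh hs h2 H hp H'
  · rcases zhat_parity a with ⟨a', rfl⟩ | ⟨a', ha'⟩
    · rw [res_two_mul] at ha
      exact absurd ha (by decide)
    · obtain ⟨F, hF⟩ := H.flip hh hs h2 ha hp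
      have e : s * MulAut.conj (pw x (2 * c + 1)) =
          s * MulAut.conj (pw x a) * MulAut.conj (pw x (2 * (c - a'))) := by
        rw [mul_assoc, ← map_mul, ← pw_add]
        congr 3
        rw [ha']
        ring
      rw [e] at H'
      exact ctri_even hh (hs.mul_conj _) (sq_mul_conj h2 (map_pw_inv hs.1 H.ix a)) F hF H'

theorem ctri_isConj (hh : IsBasis h) (hs : Pure h s (-1)) (h2 : s * s = 1) (ha : res 2 a = 1)
    (H : Ch3 h s a x y z) (hp : pw x a * pw y a * pw z a = 1) {w x' y' z' : G}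
    (H' : Ch3 h (s * MulAut.conj w) a x' y' z') (hc : IsConj x x') :
    pw x' a * pw y' a * pw z' a = 1 := by
  obtain ⟨g, rfl⟩ := isConj_iff.1 hc
  have e : s * MulAut.conj w =
      MulAut.conj g * s * (MulAut.conj g)⁻¹ * MulAut.conj (g * (s g)⁻¹ * w) := by
    have e1 : MulAut.conj g * s = s * MulAut.conj (s g) := by rw [mul_conj_eq, sq_apply h2]
    rw [e1, map_mul, map_mul, map_inv]
    group
  rw [e] at H'
  exact ctri_same hh (ctri_pure_conj hs g) (ctri_sq_conj h2 _) ha (H.conj g)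
    (ctri_prod_conj hp g) H'

/-- Plan: first the case `x' = x`: then `w = pw x b`; if `b = 2 * c` conjugate by `pw x c` and use
`unique`; if `b` is odd use `flip`. In general `x'` is conjugate to one of `x, y, z`
(`isConj_of_four`); use `rot` and `Ch3.conj`. -/
theorem Ch3.all (hh : IsBasis h) (hs : Pure h s (-1)) (h2 : s * s = 1) (ha : res 2 a = 1)
    (H : Ch3 h s a x y z) (hp : pw x a * pw y a * pw z a = 1) {w x' y' z' : G}
    (H' : Ch3 h (s * MulAut.conj w) a x' y' z') : pw x' a * pw y' a * pw z' a = 1 := by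
  obtain ⟨hxy, hxz, hyz⟩ := H.not_conj hh hs h2 ha
  obtain ⟨H1, hp1⟩ := H.rot hh hs h2 ha hp
  have p1 := hs.mul_conj (pw x a)
  have q1 := sq_mul_conj h2 (map_pw_inv hs.1 H.ix a)
  have e1 : s * MulAut.conj w = s * MulAut.conj (pw x a) * MulAut.conj ((pw x a)⁻¹ * w) := by
    rw [map_mul, map_inv]
    group
  by_cases hy : IsConj y x'
  · rw [e1] at H'
    exact ctri_isConj hh p1 q1 ha H1 hp1 H' hy
  by_cases hz : IsConj z x'
  · obtain ⟨H2, hp2⟩ := H1.rot hh p1 q1 ha hp1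
    have e2 : s * MulAut.conj w = s * MulAut.conj (pw x a) * MulAut.conj (pw y a) *
        MulAut.conj ((pw y a)⁻¹ * ((pw x a)⁻¹ * w)) := by
      rw [map_mul, map_mul, map_inv, map_inv]
      group
    rw [e2] at H'
    exact ctri_isConj hh (p1.mul_conj _) (sq_mul_conj q1 (map_pw_inv p1.1 H.iy a)) ha H2 hp2 H' hz
  · exact ctri_isConj hh hs h2 ha H hp H' (isConj_of_four H.cx H.cy H.cz H'.cx hxy hxz hyz hy hz)

end tripod

/-- A quotient onto the tripod factors, after a change of basis, through a given forgetful map. -/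
theorem ctri_factor {H : Type} [Group H] [TopologicalSpace H] [IsTopologicalGroup H]
    [CompactSpace H] [TotallyDisconnectedSpace H] {n m : ℕ} {l : Fin n → G} {h : Fin m → H}
    {e : Fin m → Fin n} {q : G →* H} (hq : Kill l h e q) (hl : IsBasis l) (hh : IsBasis h)
    (hn : 4 ≤ n) {j : Fin n} (hj : ∀ i, i ∉ Set.range e → i = j) {θ : MulAut G} (hθ : Adm l θ)
    {θ' : MulAut H} (hd : Desc q θ θ') {p : G →* SurfHat 3} (hp : PQ l p) {k : MulAut G}
    (hk : k ∈ Sig l) {s : MulAut (SurfHat 3)} (hs : Desc p (k * θ) s) :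
    ∃ p' : H →* SurfHat 3, PQ h p' ∧ ∃ k' ∈ Sig h, Desc p' (k' * θ') s := by
  have h3 : 3 ≤ n := by omega
  obtain ⟨i, hi⟩ := hp.exists_zero hn
  obtain ⟨δ, hδ, hδj⟩ := exists_gam_one hl h3 j (Cg.self l i)
  obtain ⟨p', hp', hf⟩ := hq.pq_factor hl hh (hp.comp_gam hδ) (fun i' hi' => by
    rw [hj i' hi']
    change p (δ (l j)) = 1
    rw [hδj, hi])
  have hk1 : δ⁻¹ * k * δ⁻¹⁻¹ * (δ⁻¹ * θ * δ * θ⁻¹) ∈ Sig l :=
    mul_mem (gam_conj_sig hl h3 (inv_mem hδ) hk) (hθ.gam_conj hl h3 hδ)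
  obtain ⟨k', hk', hd'⟩ := hq.desc_sig hl hh hk1
  refine ⟨p', hp', k', hk', fun u => ?_⟩
  obtain ⟨g, rfl⟩ := hq.surj hh u
  have e1 : δ * (δ⁻¹ * k * δ⁻¹⁻¹ * (δ⁻¹ * θ * δ * θ⁻¹) * θ) = k * θ * δ := by group
  rw [← hd'.mul hd g, hf, hf]
  change p ((δ * (δ⁻¹ * k * δ⁻¹⁻¹ * (δ⁻¹ * θ * δ * θ⁻¹) * θ)) g) = s (p (δ g))
  rw [e1, MulAut.mul_apply, hs]

theorem ctri_vx {l : Fin 4 → G} {σ t : MulAut G} {D : Zhat → MulAut G} (hV : Vx l σ D t)
    (h0 : t (l 0) = (l 0)⁻¹) : ∃ a : Zhatˣ, Tri l t a := by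
  have hh := isBasis_gen 3
  obtain ⟨q, hq⟩ := exists_kill hV.bas hh.prod (Fin.strictMono_succAbove (1 : Fin 4))
  obtain ⟨s₀, hs₀, hd⟩ := hq.desc hV.bas hh hV.adm.pure
  have h2 : s₀ * s₀ = 1 := by
    refine Desc.unique (hq.surj hh) (hd.mul hd) ?_
    rw [hV.sq]
    exact Desc.one q
  obtain ⟨a, x, y, z, H, hp⟩ := hV.hexagon h0 hh hq hd
  refine ⟨a, fun p hpq k hk s hs _ x' y' z' H' => ?_⟩
  obtain ⟨p', hp', k', hk', hd'⟩ := ctri_factor hq hV.bas hh le_rfl (j := 1)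
    (fun i hi => by simpa [Fin.range_succAbove] using hi) hV.adm hd hpq hk hs
  obtain ⟨α, hα, hαp, hαc⟩ := hp'.aut
  obtain ⟨c, rfl⟩ := Sig_three hh hk'
  have hα' := continuous_inv_aut α hα
  have e : α⁻¹ * s * α⁻¹⁻¹ = s₀ * MulAut.conj (s₀ c) := by
    rw [mul_conj_eq, sq_apply h2, inv_inv]
    ext1 g
    rw [MulAut.mul_apply, MulAut.mul_apply, hαp, ← hd' g, ← hαp, MulAut.inv_apply_self]
  have H1 := ctri_aut H' hα' (fun w hw => (hαc _).1 (by rwa [MulAut.apply_inv_self]))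
  rw [e] at H1
  have h3 := H.all hh hs₀ h2 (res_two_unit a) hp H1
  rw [← map_pw_aut _ hα', ← map_pw_aut _ hα', ← map_pw_aut _ hα', ← map_mul, ← map_mul] at h3
  exact (map_eq_one_iff _ (α⁻¹).injective).1 h3

/-- Plan: replace `θ` by an involution `t` inverting `l 0` (`exists_invol_adm`, `Tri.sig_mul`), get
two more cusps (`exists_other`) and change the basis with `exists_twist`; `exists_loc`,
`exists_kill` onto `gen 3`, `hexagon`. Given `p` with `PQ l p`, some `l i` is killed; take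
`δ ∈ Gam l` with `δ (l 1) = l i`; `p ∘ δ = α ∘ q` (`pq_factor`, `PQ.aut`); `α⁻¹ * s * α` is induced by
`δ⁻¹ * (k * t) * δ ∈ Sig l * t`, so it is `s₀ * conj w` (`Kill.inner`); use `Ch3.all`. -/
theorem tri_four {l : Fin 4 → G} (hl : IsBasis l) {θ : MulAut G} (hθ : Adm l θ) :
    ∃ a : Zhatˣ, Tri l θ a := by
  obtain ⟨k, hk, h2, h0⟩ := exists_invol_adm 1 G l hl θ hθ
  have ht := hθ.sig_mul hl (by norm_num) hk
  have hi := ht.pure.invol h2
  obtain ⟨y, hy, iy, hne⟩ := hi.exists_other hl (by norm_num) (Cg.self l 0) h0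
  obtain ⟨z, hz, iz, hne'⟩ := (hi.mul_conj (map_pw_inv hi.cont iy 1)).exists_other hl
    (by norm_num) hy (mul_conj_pw_inv iy 1)
  obtain ⟨δ, hδ, d0, -, -, hσ⟩ := exists_twist 1 G l hl _ ht h2 (l 0) y z 1 (Cg.self l 0) hy hz h0
    iy hne.symm (map_one _) iz hne'
  have hl' := hl.aut (gam_perm hδ).1
  obtain ⟨σ, D, hL⟩ := exists_loc (r := 1) hl'
  obtain ⟨a, ha⟩ := ctri_vx (l := fun i => δ (l i))
    ⟨hl', hL, ht.aut hl (by norm_num) hδ, h2, hσ σ hL.hur⟩ (by rw [d0]; exact h0)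
  refine ⟨a, ?_⟩
  have h3 := ((tri_aut hl (by norm_num) hδ).1 ha).sig_mul (inv_mem hk)
  rwa [inv_mul_cancel_left] at h3

/-- Plan: induction on `r`; kill `l 0` and factor `p ∘ δ` as in `tri_four`. -/
theorem tri_all (r : ℕ) : ∀ (G : Type) [Group G] [TopologicalSpace G] [IsTopologicalGroup G]
    [CompactSpace G] [TotallyDisconnectedSpace G] (l : Fin (r + 4) → G), IsBasis l →
    ∀ θ, Adm l θ → ∃ a : Zhatˣ, Tri l θ a := by
  induction r with
  | zero =>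
    intro G _ _ _ _ _ l hl θ hθ
    exact tri_four hl hθ
  | succ r ih =>
    intro G _ _ _ _ _ l hl θ hθ
    have hh := isBasis_gen (r + 4)
    obtain ⟨q, hq⟩ := exists_kill hl hh.prod (Fin.strictMono_succ (n := r + 4))
    obtain ⟨θ', -, hd⟩ := hq.desc hl hh hθ.pure
    obtain ⟨a, ha⟩ := ih (SurfHat (r + 4)) (gen (r + 4)) hh θ'
      (Adm.desc0 (r := r + 1) hq hl hh hθ hd)
    refine ⟨a, fun p hp k hk s hs h2 x y z H => ?_⟩
    obtain ⟨p', hp', k', hk', hd'⟩ := ctri_factor hq hl hh (by omega) (j := 0)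
      (fun i hi => by simpa [Fin.range_succ] using hi) hθ hd hp hk hs
    exact ha p' hp' k' hk' s hd' h2 x y z H

end Pool.Agent.MP_1c2b6e_al

/-! Standard form of an involution. -/

namespace Pool.Agent.MP_1c2b6e_al

open Classical

variable {G : Type} [Group G] [TopologicalSpace G] [IsTopologicalGroup G] [CompactSpace G]
  [TotallyDisconnectedSpace G]

omit [TopologicalSpace G] [IsTopologicalGroup G] [CompactSpace G] [TotallyDisconnectedSpace G] in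
theorem cfin_pp (y : ℕ → G) (m : ℕ) : pp y (m + 1) = y 0 * pp (fun i => y (i + 1)) m := by
  induction m with
  | zero => simp [pp]
  | succ m ih => rw [pp, ih, pp, mul_assoc]

omit [TopologicalSpace G] [IsTopologicalGroup G] [CompactSpace G] [TotallyDisconnectedSpace G] in
theorem cfin_map (φ : MulAut G) (y : ℕ → G) (m : ℕ) : φ (pp y m) = pp (fun i => φ (y i)) m := by
  induction m with
  | zero => exact map_one φ
  | succ m ih => rw [pp, pp, map_mul, ih]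

theorem Adm.conj_gam {n : ℕ} {l : Fin n → G} (hl : IsBasis l) (hn : 3 ≤ n) {θ δ : MulAut G}
    (hθ : Adm l θ) (hδ : δ ∈ Gam l) : θ⁻¹ * δ * θ ∈ Gam l := by
  have h1 := mem_gam_of_sig hl hn hθ.sq
  have h2 := mul_mem (mem_gam_of_sig hl hn (hθ.comm δ hδ)) hδ
  have h3 := mul_mem (mul_mem (inv_mem h1) h2) h1
  convert h3 using 1
  group

/-- **Standard form.** -/
theorem std_form {r : ℕ} {l : Fin (r + 4) → G} (hl : IsBasis l) {θ : MulAut G} (hθ : Adm l θ) :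
    ∃ k ∈ Sig l, ∃ φ ∈ frakS l, φ ∈ Subgroup.normalizer (Gam l : Set (MulAut G)) ∧
      ∃ y : ℕ → G, (∀ i : Fin (r + 4), y i = l i) ∧
        ∀ m, (φ⁻¹ * (k * θ) * φ) (pp y m) = (pp y m)⁻¹ := by
  have hn : 3 ≤ r + 4 := by omega
  obtain ⟨k, hk, h2, h0⟩ := exists_invol_adm (r + 1) G l hl θ hθ
  have ht := hθ.sig_mul hl hn hk
  obtain ⟨a, hT⟩ := tri_all r G l hl _ ht
  obtain ⟨s, z, hc, hs, -⟩ := exists_chain hl hn (ht.pure.invol h2) (Cg.self l 0) h0 a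
  rw [← hs] at ht hT h2
  have key : ∀ m, pp (fun i => pw (z (m + i)) a) (r + 4) = 1 ∧
      (∀ i < r + 4, ∀ j < r + 4, IsConj (z (m + i)) (z (m + j)) → i = j) ∧
      ∃ ψ ∈ Gam l, ψ (z (m + 1)) = z m ∧
        ψ (pw (z m) a * pw (z (m + 1)) a) = pw (z m) a * pw (z (m + 1)) a ∧
        ∀ i, 2 ≤ i → i < r + 4 → ψ (z (m + i)) = z (m + i) := fun m =>
    chain_closed (r + 1) G l hl a _ _ (hc.shift m)
      (by simpa only [hc.eq_pp m, add_zero] using ht.mul_sig hl hn (conj_mem_Sig hl _))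
      (hc.sq ht.pure.1 h2 m).2 (by simpa only [hc.eq_pp m, add_zero] using hT.mul_conj hl _)
  have per : ∀ m, z (m + (r + 4)) = z m := fun m => by
    have e1 := (key m).1
    have e2 := (key (m + 1)).1
    rw [cfin_pp] at e1
    rw [pp] at e2
    simp only [add_zero, add_assoc, add_comm 1] at e1 e2
    have e3 : pw (z (m + (r + 3 + 1))) a = pw (z m) a :=
      (eq_inv_of_mul_eq_one_right e2).trans (eq_inv_of_mul_eq_one_left e1).symm
    have e4 := congrArg (fun u => pw u (a⁻¹ : Zhatˣ)) e3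
    simpa only [← pw_mul, Units.mul_inv, pw_one] using e4
  choose ρ hρ using hc.cg
  obtain ⟨e1, e2, -⟩ := key 0
  simp only [zero_add] at e1 e2
  have hinj : Function.Injective fun i : Fin (r + 4) => ρ i := fun i j h =>
    Fin.ext (e2 i i.2 j j.2 ((hρ i).symm.trans ((show ρ i = ρ j from h) ▸ hρ j)))
  obtain ⟨φ, hφ, hφ'⟩ := exists_aut_of_tuple hl (by omega) (y := fun i => pw (z i) a)
    (Equiv.ofBijective _ (Finite.injective_iff_bijective.1 hinj)) a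
    (fun i => isConj_pw (hρ i) a) ((prod_ofFn_pp (fun i => pw (z i) a) _).trans e1)
  refine ⟨k, hk, φ, ⟨a, hφ⟩, mem_normalizer_of_hur hl hn hφ fun i j σ hij hσ => ?_,
    fun m => φ⁻¹ (pw (z m) a), fun i => ?_, fun m => ?_⟩
  · obtain ⟨ψ, hψ, e3, e4, e5⟩ := (key i).2.2
    have hc' := (gam_perm hψ).1
    have e6 : ψ (pw (z j) a) = pw (z i) a := by rw [map_pw_aut ψ hc', hij, e3]
    rw [← hij] at e4
    rw [(hσ.aut hφ.1).unique (hl.aut hφ.1) (σ' := ψ) ⟨hc', fun m => ?_⟩]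
    · exact hψ
    simp only [hφ', hur]
    split_ifs with h3 h4
    · rw [h3, ← e4, map_mul, e6, mul_inv_cancel_right]
    · rw [h4, e6]
    · rw [map_pw_aut ψ hc']
      have h5 : (m : ℕ) ≠ i := fun e => h3 (Fin.ext e)
      have h6 : (m : ℕ) ≠ j := fun e => h4 (Fin.ext e)
      have h7 := m.2
      have h8 := j.2
      rcases lt_or_gt_of_ne h5 with h9 | h9
      · have e7 := e5 (m + (r + 4) - i) (by omega) (by omega)
        rw [show (i : ℕ) + (m + (r + 4) - i) = m + (r + 4) by omega, per] at e7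
        rw [e7]
      · have e7 := e5 (m - i) (by omega) (by omega)
        rw [show (i : ℕ) + (m - i) = m by omega] at e7
        rw [e7]
  · change φ⁻¹ (pw (z i) a) = l i
    rw [← hφ', MulAut.inv_apply_self]
  · rw [← cfin_map, ← hs, MulAut.mul_apply, MulAut.mul_apply, MulAut.apply_inv_self,
      hc.map_pp ht.pure.1, map_inv]

theorem conj_of_adm {r : ℕ} {l : Fin (r + 4) → G} (hl : IsBasis l) {θ θ' : MulAut G}
    (hθ : Adm l θ) (hθ' : Adm l θ') :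
    ∃ φ ∈ frakS l, φ ∈ Subgroup.normalizer (Gam l : Set (MulAut G)) ∧
      θ'⁻¹ * (φ * θ * φ⁻¹) ∈ Gam l := by
  have hn : 3 ≤ r + 4 := by omega
  obtain ⟨k, hk, φ, hφ, hN, y, hy, h1⟩ := std_form hl hθ
  obtain ⟨k', hk', φ', hφ', hN', y', hy', h1'⟩ := std_form hl hθ'
  have hc : ∀ {k θ φ : MulAut G}, k ∈ Sig l → Adm l θ → φ ∈ frakS l →
      Continuous (φ⁻¹ * (k * θ) * φ : MulAut G) := fun hk hθ ⟨_, hφ⟩ =>
    ((continuous_inv_aut _ hφ.1).comp (hk.1.1.comp hθ.pure.1)).comp hφ.1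
  have e1 : ∀ m ≤ r + 4, pp y' m = pp y m := fun m hm => by
    induction m with
    | zero => rfl
    | succ m ih => rw [pp, pp, ih (by omega), (hy ⟨m, hm⟩).trans (hy' ⟨m, hm⟩).symm]
  have e2 : φ⁻¹ * (k * θ) * φ = φ'⁻¹ * (k' * θ') * φ' := by
    refine MulEquiv.toMonoidHom_injective (hl.ext (hc hk hθ hφ) (hc hk' hθ' hφ') fun i => ?_)
    have e3 : l i = (pp y i)⁻¹ * pp y (i + 1) := by rw [pp, hy, inv_mul_cancel_left]
    change (φ⁻¹ * (k * θ) * φ) (l i) = (φ'⁻¹ * (k' * θ') * φ') (l i)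
    rw [e3, map_mul, map_inv, h1, h1, ← e1 i i.2.le, ← e1 (i + 1) i.2, map_mul, map_inv, h1', h1']
  have hN'' := mul_mem hN' (inv_mem hN)
  refine ⟨φ' * φ⁻¹, mul_mem hφ' (inv_mem hφ), hN'', ?_⟩
  have e3 : θ'⁻¹ * (φ' * φ⁻¹ * θ * (φ' * φ⁻¹)⁻¹) =
      θ'⁻¹ * (φ' * φ⁻¹ * k⁻¹ * (φ' * φ⁻¹)⁻¹ * k') * θ' := by
    calc _ = θ'⁻¹ * (φ' * φ⁻¹ * k⁻¹ * (φ' * φ⁻¹)⁻¹) * φ' * (φ⁻¹ * (k * θ) * φ) * φ'⁻¹ := by group
      _ = _ := by rw [e2]; group
  rw [e3]
  exact hθ'.conj_gam hl hn (mul_mem ((Subgroup.mem_normalizer_iff.1 hN'' _).1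
    (inv_mem (mem_gam_of_sig hl hn hk))) (mem_gam_of_sig hl hn hk'))

theorem mem_nor_iff {n : ℕ} {l : Fin n → G} (hl : IsBasis l) (hn : 3 ≤ n) (φ : frakS l) :
    toT l φ ∈ Nor (Sigma l) ↔ (φ : MulAut G) ∈ Subgroup.normalizer (Gam l : Set (MulAut G)) := by
  constructor
  · intro ht
    have h2 : ∀ ψ : frakS l, (ψ : MulAut G) ∈ closS l ⊓ plusS l ↔
        ((φ * ψ * φ⁻¹ : frakS l) : MulAut G) ∈ closS l ⊓ plusS l := by
      intro ψ
      rw [← mk_mem_Sigma hl hn, ← mk_mem_Sigma hl hn, map_mul, map_mul, map_inv]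
      exact Subgroup.mem_normalizer_iff.1 ht _
    refine Subgroup.mem_normalizer_iff.2 fun ψ => ⟨fun h => (h2 ⟨ψ, h.1.1⟩).1 h, fun h => ?_⟩
    have h3 : ψ ∈ frakS l := by
      have h4 := mul_mem (mul_mem (inv_mem φ.2) h.1.1) φ.2
      simpa [mul_assoc] using h4
    exact (h2 ⟨ψ, h3⟩).2 h
  · intro h
    refine Subgroup.mem_normalizer_iff.2 fun s => ?_
    obtain ⟨ψ, rfl⟩ : ∃ ψ, toT l ψ = s := QuotientGroup.mk_surjective s
    rw [← map_inv, ← map_mul, ← map_mul, mk_mem_Sigma hl hn, mk_mem_Sigma hl hn]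
    exact Subgroup.mem_normalizer_iff.1 h _

theorem exists_adm {n : ℕ} {l : Fin n → G} (hl : IsBasis l) (hn : 3 ≤ n) (x : NQuot (Sigma l))
    (hx : orderOf x = 2) :
    ∃ (θ : frakS l) (h : toT l θ ∈ Nor (Sigma l)), toQ _ ⟨_, h⟩ = x ∧ Adm l θ := by
  obtain ⟨t, ht⟩ : ∃ t, toQ _ t = x := QuotientGroup.mk_surjective x
  obtain ⟨φ, hφ⟩ : ∃ φ, toT l φ = t := QuotientGroup.mk_surjective (t : frakT l)
  have h1 : x ≠ 1 := fun e => by simp [e] at hx
  obtain ⟨hc, ρ, hρ⟩ := (main hl hn x (orderOf_pos_iff.1 (by omega)) h1).2 t φ ht hφ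
  obtain ⟨δ, hδ, hδ'⟩ := exists_perm hl ρ⁻¹
  have hP : Pure l (φ * δ) (-1) := by
    refine ⟨hc.comp hδ.2.1, fun i => ?_⟩
    obtain ⟨β, hβ⟩ := hδ' i
    obtain ⟨α, y, hy, h2⟩ := hρ (ρ⁻¹ i)
    refine ⟨φ.1 β * α, ?_⟩
    rw [MulAut.mul_apply, hβ, map_mul, map_mul, map_inv, h2, isPow_iff.1 hy]
    rw [show ρ (ρ⁻¹ i) = i from ρ.apply_symm_apply i]
    group
  have hs : toT l ⟨δ, hδ.1.1⟩ ∈ Sigma l := (mk_mem_Sigma hl hn _).2 hδ
  have hN : toT l (φ * ⟨δ, hδ.1.1⟩) ∈ Nor (Sigma l) := by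
    rw [map_mul, hφ]
    exact mul_mem t.2 (Subgroup.le_normalizer hs)
  have hx' : toQ _ ⟨_, hN⟩ = x := by
    have e : (⟨_, hN⟩ : Nor (Sigma l)) = t * ⟨_, Subgroup.le_normalizer hs⟩ :=
      Subtype.ext (by rw [Subgroup.coe_mul, ← hφ]; exact map_mul _ _ _)
    rw [e, map_mul, ht, (toQ_eq_one _ _).2 hs, mul_one]
  have hN' := (mem_nor_iff hl hn _).1 hN
  refine ⟨_, hN, hx', hP, fun ψ hψ => ?_, ?_⟩
  · refine mem_sig_of_gam hl hn
      (mul_mem ((Subgroup.mem_normalizer_iff.1 hN' ψ).1 hψ) (inv_mem hψ)) ?_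
    have h2 := hP.mul (HasChar.conj_pure (a := 1) hψ.2 hP.inv)
    rw [mul_inv_cancel] at h2
    have h3 := (pure_one_iff.1 h2).2
    rw [← mul_assoc, ← mul_assoc] at h3
    exact h3
  · refine mem_sig_of_gam hl hn ?_ (pure_one_iff.1 (by simpa using hP.mul hP)).2
    have h2 : x * x = 1 := by rw [← pow_two, ← hx, pow_orderOf_eq_one]
    rw [← hx', ← map_mul, toQ_eq_one] at h2
    change toT l _ * toT l _ ∈ Sigma l at h2
    rw [← map_mul, mk_mem_Sigma hl hn] at h2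
    exact h2

theorem main_conj {n : ℕ} {l : Fin n → G} (hl : IsBasis l) (hn : 4 ≤ n)
    (x y : NQuot (Sigma l)) (hx : orderOf x = 2) (hy : orderOf y = 2) : IsConj x y := by
  obtain ⟨r, rfl⟩ : ∃ r, n = r + 4 := ⟨n - 4, by omega⟩
  have h3 : 3 ≤ r + 4 := by omega
  obtain ⟨θ, h1, rfl, hθ⟩ := exists_adm hl h3 x hx
  obtain ⟨θ', h2, rfl, hθ'⟩ := exists_adm hl h3 y hy
  obtain ⟨φ, hφ, hN, h4⟩ := conj_of_adm hl hθ hθ'
  have h5 := (mem_nor_iff hl h3 ⟨φ, hφ⟩).2 hN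
  refine isConj_iff.2 ⟨toQ _ ⟨_, h5⟩, ?_⟩
  rw [← map_inv, ← map_mul, ← map_mul, eq_comm, ← inv_mul_eq_one, ← map_inv, ← map_mul,
    toQ_eq_one]
  change (toT l θ')⁻¹ * (toT l ⟨φ, hφ⟩ * toT l θ * (toT l ⟨φ, hφ⟩)⁻¹) ∈ Sigma l
  rw [← map_inv, ← map_inv, ← map_mul, ← map_mul, ← map_mul, mk_mem_Sigma hl h3]
  exact h4

theorem exists_order_two {n : ℕ} {l : Fin n → G} (hl : IsBasis l) (hn : 3 ≤ n) :
    ∃ x : NQuot (Sigma l), orderOf x = 2 := by
  obtain ⟨y, hy⟩ : ∃ y : ℕ → G, ∀ i : Fin n, y i = l i :=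
    ⟨fun k => if h : k < n then l ⟨k, h⟩ else 1, fun i => dif_pos i.2⟩
  have h1 : ∀ m, pp (fun k => pp y k * (pp y (k + 1))⁻¹) m = (pp y m)⁻¹ := fun m => by
    induction m with
    | zero => simp [pp]
    | succ m ih => rw [pp, ih, inv_mul_cancel_left]
  have h2 : pp y n = 1 := by rw [← prod_ofFn_pp, funext hy, hl.prod]
  obtain ⟨φ, hφ, h3⟩ := exists_aut_of_tuple hl (by omega)
    (y := fun i : Fin n => pp y i * (pp y (i + 1))⁻¹) 1 (-1) (fun i => isConj_iff.2 ⟨pp y i, by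
      rw [pp, hy, Units.val_neg, Units.val_one, pw_neg, pw_one, Equiv.Perm.one_apply]; group⟩)
    (by rw [prod_ofFn_pp fun k => pp y k * (pp y (k + 1))⁻¹, h1, h2, inv_one])
  have h4 : ∀ m ≤ n, φ (pp y m) = (pp y m)⁻¹ ∧ pp y m ∈ Subgroup.closure (Set.range l) := by
    intro m hm
    induction m with
    | zero => exact ⟨by simp [pp], one_mem _⟩
    | succ m ih =>
      have e : y m = l ⟨m, hm⟩ := hy ⟨m, hm⟩
      refine ⟨?_, mul_mem (ih (by omega)).2 (e ▸ Subgroup.subset_closure ⟨_, rfl⟩)⟩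
      conv_lhs => rw [pp, map_mul, (ih (by omega)).1, e, h3]
      rw [inv_mul_cancel_left]
  have h5 : ∀ i, φ (φ (l i)) = l i := fun i => by
    rw [h3, map_mul, map_inv, (h4 i i.2.le).1, (h4 _ i.2).1, pp, hy]
    group
  have h6 : ∀ i, φ (l i) ∈ Subgroup.closure (Set.range l) := fun i => by
    rw [h3]
    exact mul_mem (h4 i i.2.le).2 (inv_mem (h4 _ i.2).2)
  have h7 : φ ∈ closS l :=
    ⟨⟨_, hφ⟩, fun N => ⟨φ, ⟨⟨_, hφ⟩, disca_of_gen h6 fun i => ⟨_, h6 i, h5 i⟩⟩, fun x => by simp⟩⟩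
  have h8 : ∀ {ψ χ : MulAut G} {a : Zhatˣ}, ψ ∈ closS l → HasChar l ψ a → χ ∈ Gam l →
      ψ * χ * ψ⁻¹ ∈ Gam l := fun h h' h'' =>
    ⟨(closS l).mul_mem ((closS l).mul_mem h h''.1) ((closS l).inv_mem h), by
      simpa [plusS, IsPlus] using (h'.mul h''.2).mul h'.inv⟩
  have h9 : φ ∈ Subgroup.normalizer (Gam l : Set (MulAut G)) :=
    Subgroup.mem_normalizer_iff.2 fun χ => ⟨h8 h7 hφ, fun h => by
      simpa [mul_assoc] using h8 (inv_mem h7) hφ.inv h⟩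
  refine ⟨toQ _ ⟨_, (mem_nor_iff hl hn ⟨φ, _, hφ⟩).2 h9⟩, orderOf_eq_prime ?_ fun h => ?_⟩
  · have e : (⟨φ, _, hφ⟩ : frakS l) ^ 2 = 1 := Subtype.ext (MulEquiv.toMonoidHom_injective
      (hl.ext (hφ.1.comp hφ.1) continuous_id h5))
    rw [← map_pow, toQ_eq_one, Subgroup.coe_pow, ← map_pow, e, map_one]
    exact one_mem _
  · rw [toQ_eq_one, mk_mem_Sigma hl hn] at h
    obtain ⟨_, ρ, hρ⟩ : HasChar l φ 1 := h.2
    obtain ⟨_, ρ', hρ'⟩ := id hφ
    obtain ⟨α, u, hu, e⟩ := hρ ⟨0, by omega⟩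
    obtain ⟨α', u', hu', e'⟩ := hρ' ⟨0, by omega⟩
    rw [isPow_iff.1 hu] at e
    rw [isPow_iff.1 hu'] at e'
    have e2 := congrArg (res 4) (hl.conj_pw_inj hn (e.symm.trans e')).2
    rw [Units.val_neg, Units.val_one, map_neg, map_one] at e2
    exact absurd e2 (by decide)

end Pool.Agent.MP_1c2b6e_al
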