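import Mathlib
import Pool.Agent.MP_1c2b6e_al.Basis

-- part MP_1c2b6e_al.Graph
section

/-! The `p`-fold product of an acyclic (pro-finite) graph as a cubical cochain complex over
`ZMod p`, with a sign convention invariant under the cyclic shift of the coordinates. -/

namespace Pool.Agent.MP_1c2b6e_al

open Classical

/-- A graph with cells `T` (edges are the cells with `isE`), a directed family of finite quotients
indexed by `Λ`, whose complex of functions factoring through some quotient is acyclic. -/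
structure Gr (p : ℕ) (T Λ : Type) where
  isE : T → Prop
  s : T → T
  t : T → T
  o : T
  hs : ∀ x, ¬isE (s x)
  ht : ∀ x, ¬isE (t x)
  ho : ¬isE o
  r : Λ → Setoid T
  ne : Nonempty Λ
  fin : ∀ a, Finite (Quotient (r a))
  dir : ∀ a b, ∃ c, (∀ x y, r c x y → r a x y) ∧ ∀ x y, r c x y → r b x y
  rE : ∀ a x y, r a x y → (isE x ↔ isE y)
  rs : ∀ a x y, r a x y → r a (s x) (s y)
  rt : ∀ a x y, r a x y → r a (t x) (t y)
  prim : ∀ f : T → ZMod p, (∃ a, ∀ x y, r a x y → f x = f y) →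
    ∃ h : T → ZMod p, (∃ a, ∀ x y, r a x y → h x = h y) ∧ ∀ e, isE e → h (t e) - h (s e) = f e
  const : ∀ h : T → ZMod p, (∃ a, ∀ x y, r a x y → h x = h y) →
    (∀ e, isE e → h (t e) = h (s e)) → ∀ v, ¬isE v → h v = h o

variable {p : ℕ} [Fact p.Prime] {T Λ : Type}

/-- Signs with `chi m * chi (-m) = -1` for `m ≠ 0`. -/
def chi (m : ZMod p) : ZMod p := if 2 * m.val < p then -1 else 1

theorem chi_mul_self (m : ZMod p) : chi m * chi m = 1 := by
  unfold chi
  split_ifs <;> simp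

theorem chi_mul_neg {m : ZMod p} (hm : m ≠ 0) : chi m * chi (-m) = -1 := by
  have hv : (-m).val = p - m.val := by rw [ZMod.neg_val, if_neg hm]
  have hlt : m.val < p := ZMod.val_lt m
  unfold chi
  rw [hv]
  split_ifs with h1 h2 h2
  · omega
  · simp
  · simp
  · have h3 : 2 * m.val = p := by omega
    have h4 : (2 : ZMod p) * m = 0 := by
      have := congrArg (Nat.cast : ℕ → ZMod p) h3
      rw [ZMod.natCast_self] at this
      simpa using this
    have h5 : (2 : ZMod p) = 0 := (mul_eq_zero.1 h4).resolve_right hm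
    linear_combination h5

/-- The shift of coordinates. -/
def sg (p : ℕ) (T : Type) : Equiv.Perm (ZMod p → T) where
  toFun x := fun i => x (i + 1)
  invFun x := fun i => x (i - 1)
  left_inv x := by funext i; simp
  right_inv x := by funext i; simp

theorem sg_pow_apply (k : ℕ) (x : ZMod p → T) (i : ZMod p) :
    (sg p T ^ k) x i = x (i + k) := by
  induction k generalizing i with
  | zero => simp
  | succ k ih =>
    rw [pow_succ', Equiv.Perm.mul_apply]
    change (sg p T ^ k) x (i + 1) = _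
    rw [ih]
    congr 1
    push_cast
    ring

theorem sg_pow_card : sg p T ^ p = 1 := by
  ext x i
  rw [sg_pow_apply, ZMod.natCast_self, add_zero]
  rfl

/-- `1 - shift`. -/
def rho (b : (ZMod p → T) → ZMod p) : (ZMod p → T) → ZMod p := fun x => b x - b (sg p T x)

/-- The norm of the shift. -/
def nm (b : (ZMod p → T) → ZMod p) : (ZMod p → T) → ZMod p :=
  fun x => ∑ k ∈ Finset.range p, b ((sg p T ^ k) x)

/-- `nm` in odd degrees, `rho` in even degrees. -/
def op (j : ℕ) (b : (ZMod p → T) → ZMod p) : (ZMod p → T) → ZMod p :=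
  if Odd j then nm b else rho b

theorem op_op (j : ℕ) (b : (ZMod p → T) → ZMod p) : op j (op (j + 1) b) = 0 := by
  funext x
  have key : ∑ k ∈ Finset.range p, (b ((sg p T ^ k) x) - b ((sg p T ^ (k + 1)) x)) = 0 := by
    rw [Finset.sum_range_sub' (fun k => b ((sg p T ^ k) x)), sg_pow_card]
    simp
  unfold op
  by_cases hj : Odd j
  · rw [if_pos hj, if_neg (by rw [Nat.odd_add_one]; exact not_not.2 hj)]
    refine Eq.trans (Finset.sum_congr rfl fun k _ => ?_) key
    rw [pow_succ', Equiv.Perm.mul_apply]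
    rfl
  · rw [if_neg hj, if_pos (by rw [Nat.odd_add_one]; exact hj)]
    refine Eq.trans ?_ key
    rw [Finset.sum_sub_distrib]
    simp only [pow_succ, Equiv.Perm.mul_apply]
    rfl

theorem op_eq_zero_of_inv (j : ℕ) {b : (ZMod p → T) → ZMod p} (h : ∀ x, b (sg p T x) = b x) :
    op j b = 0 := by
  funext x
  have key : ∀ k : ℕ, b ((sg p T ^ k) x) = b x := by
    intro k
    induction k with
    | zero => simp
    | succ k ih => rw [pow_succ', Equiv.Perm.mul_apply, h, ih]
  unfold op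
  split_ifs
  · unfold nm
    simp only [key]
    simp
  · unfold rho
    rw [h]
    simp

namespace Gr

variable (Γ : Gr p T Λ)

/-- Number of edge coordinates. -/
noncomputable def deg (x : ZMod p → T) : ℕ := (Finset.univ.filter fun i => Γ.isE (x i)).card

/-- `b` vanishes outside the cells of dimension `j`. -/
def HasDeg (j : ℕ) (b : (ZMod p → T) → ZMod p) : Prop := ∀ x, Γ.deg x ≠ j → b x = 0

/-- `b` factors through a finite level. -/
def Sm (b : (ZMod p → T) → ZMod p) : Prop :=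
  ∃ a, ∀ x y : ZMod p → T, (∀ i, Γ.r a (x i) (y i)) → b x = b y

noncomputable def sgn (x : ZMod p → T) (i : ZMod p) : ZMod p :=
  ∏ k ∈ Finset.univ.filter (fun k => k ≠ i ∧ Γ.isE (x k)), chi (k - i)

/-- The partial differential in the coordinate `i`. -/
noncomputable def d1 (i : ZMod p) (b : (ZMod p → T) → ZMod p) : (ZMod p → T) → ZMod p :=
  fun x => if Γ.isE (x i) then Γ.sgn x i *
    (b (Function.update x i (Γ.t (x i))) - b (Function.update x i (Γ.s (x i)))) else 0

/-- The differential in the coordinates of `I`. -/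
noncomputable def dI (I : Finset (ZMod p)) (b : (ZMod p → T) → ZMod p) :
    (ZMod p → T) → ZMod p := fun x => ∑ i ∈ I, Γ.d1 i b x

/-- The total differential. -/
noncomputable def D (b : (ZMod p → T) → ZMod p) : (ZMod p → T) → ZMod p := Γ.dI Finset.univ b

theorem deg_le (x : ZMod p → T) : Γ.deg x ≤ p := by
  unfold deg
  refine (Finset.card_filter_le _ _).trans ?_
  rw [Finset.card_univ, ZMod.card]

theorem deg_eq_zero_iff (x : ZMod p → T) : Γ.deg x = 0 ↔ ∀ i, ¬Γ.isE (x i) := by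
  unfold deg
  rw [Finset.card_eq_zero, Finset.filter_eq_empty_iff]
  simp

theorem deg_eq_card_iff (x : ZMod p → T) : Γ.deg x = p ↔ ∀ i, Γ.isE (x i) := by
  have h : (Finset.univ.filter fun i => Γ.isE (x i)).card =
      (Finset.univ : Finset (ZMod p)).card ↔ ∀ i, Γ.isE (x i) := by
    rw [Finset.card_filter_eq_iff]
    simp
  rw [Finset.card_univ, ZMod.card] at h
  exact h

theorem deg_sg (x : ZMod p → T) : Γ.deg (sg p T x) = Γ.deg x := by
  unfold deg
  refine Finset.card_equiv (Equiv.addRight 1) fun i => ?_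
  simp only [Finset.mem_filter, Finset.mem_univ, true_and, Equiv.coe_addRight]
  rfl

theorem deg_update {x : ZMod p → T} {i : ZMod p} (hx : Γ.isE (x i)) {v : T} (hv : ¬Γ.isE v) :
    Γ.deg (Function.update x i v) + 1 = Γ.deg x := by
  unfold deg
  have h : (Finset.univ.filter fun k => Γ.isE (Function.update x i v k)) =
      (Finset.univ.filter fun k => Γ.isE (x k)).erase i := by
    ext k
    by_cases hk : k = i
    · subst hk
      simp [hv]
    · simp [hk]
  rw [h, Finset.card_erase_add_one (by simpa using hx)]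

theorem cube_sgn {i k : ZMod p} (hik : i ≠ k) {x : ZMod p → T} (hx : Γ.isE (x i)) {v : T}
    (hv : ¬Γ.isE v) : Γ.sgn (Function.update x i v) k = chi (i - k) * Γ.sgn x k := by
  unfold sgn
  have h : (Finset.univ.filter fun l => l ≠ k ∧ Γ.isE (Function.update x i v l)) =
      (Finset.univ.filter fun l => l ≠ k ∧ Γ.isE (x l)).erase i := by
    ext l
    by_cases hl : l = i
    · subst hl
      simp [hv]
    · simp [hl]
  rw [h, ← Finset.mul_prod_erase (Finset.univ.filter fun l => l ≠ k ∧ Γ.isE (x l))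
    (fun l => chi (l - k)) (a := i) (by simp [hik, hx]), ← mul_assoc, chi_mul_self, one_mul]

theorem cube_self (i : ZMod p) (b : (ZMod p → T) → ZMod p) : Γ.d1 i (Γ.d1 i b) = 0 := by
  funext x
  simp [d1, Γ.hs, Γ.ht]

theorem cube_d1_sum {ι : Type} (i : ZMod p) (S : Finset ι) (F : ι → (ZMod p → T) → ZMod p)
    (x : ZMod p → T) : Γ.d1 i (fun y => ∑ k ∈ S, F k y) x = ∑ k ∈ S, Γ.d1 i (F k) x := by
  unfold d1
  split_ifs
  · rw [← Finset.sum_sub_distrib, Finset.mul_sum]
  · simp

theorem d1_d1 (i k : ZMod p) (b : (ZMod p → T) → ZMod p) :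
    Γ.d1 i (Γ.d1 k b) = -Γ.d1 k (Γ.d1 i b) := by
  by_cases hik : i = k
  · subst hik
    rw [cube_self, neg_zero]
  funext x
  have hki : k ≠ i := Ne.symm hik
  have hc : chi (k - i) = -chi (i - k) := by
    have h1 := chi_mul_neg (sub_ne_zero.2 hik)
    have h2 := chi_mul_self (i - k)
    rw [neg_sub] at h1
    linear_combination (chi (i - k)) * h1 - chi (k - i) * h2
  rw [Pi.neg_apply]
  by_cases hi : Γ.isE (x i)
  · by_cases hk : Γ.isE (x k)
    · simp only [d1, Function.update_of_ne hik, Function.update_of_ne hki, if_pos hi, if_pos hk,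
        cube_sgn Γ hik hi (Γ.hs _), cube_sgn Γ hik hi (Γ.ht _), cube_sgn Γ hki hk (Γ.hs _),
        cube_sgn Γ hki hk (Γ.ht _), hc, Function.update_comm hki]
      ring
    · simp only [d1, Function.update_of_ne hki, if_pos hi, if_neg hk]
      simp
  · simp only [d1, Function.update_of_ne hik, if_neg hi]
    simp

theorem d1_d1_self (i : ZMod p) (b : (ZMod p → T) → ZMod p) : Γ.d1 i (Γ.d1 i b) = 0 := by
  exact cube_self Γ i b

theorem dI_add (I : Finset (ZMod p)) (b c : (ZMod p → T) → ZMod p) :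
    Γ.dI I (b + c) = Γ.dI I b + Γ.dI I c := by
  funext x
  simp only [dI, Pi.add_apply, ← Finset.sum_add_distrib]
  refine Finset.sum_congr rfl fun i _ => ?_
  simp only [d1, Pi.add_apply]
  split_ifs <;> ring

theorem dI_sub (I : Finset (ZMod p)) (b c : (ZMod p → T) → ZMod p) :
    Γ.dI I (b - c) = Γ.dI I b - Γ.dI I c := by
  funext x
  simp only [dI, Pi.sub_apply, ← Finset.sum_sub_distrib]
  refine Finset.sum_congr rfl fun i _ => ?_
  simp only [d1, Pi.sub_apply]
  split_ifs <;> ring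

theorem dI_smul (I : Finset (ZMod p)) (a : ZMod p) (b : (ZMod p → T) → ZMod p) :
    Γ.dI I (a • b) = a • Γ.dI I b := by
  funext x
  simp only [dI, Pi.smul_apply, smul_eq_mul, Finset.mul_sum]
  refine Finset.sum_congr rfl fun i _ => ?_
  simp only [d1, Pi.smul_apply, smul_eq_mul]
  split_ifs <;> ring

theorem dI_zero (I : Finset (ZMod p)) : Γ.dI I 0 = 0 := by
  funext x
  simp [dI, d1]

/-- Also for `p = 2`: split the double sum into `i = k`, and pairs (`Finset.sum_involution`). -/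
theorem dI_dI (I : Finset (ZMod p)) (b : (ZMod p → T) → ZMod p) : Γ.dI I (Γ.dI I b) = 0 := by
  funext x
  have h1 : Γ.dI I (Γ.dI I b) x = ∑ q ∈ I ×ˢ I, Γ.d1 q.1 (Γ.d1 q.2 b) x := by
    rw [Finset.sum_product]
    refine Finset.sum_congr rfl fun i _ => ?_
    exact cube_d1_sum Γ i I (fun k => Γ.d1 k b) x
  rw [h1, Pi.zero_apply]
  refine Finset.sum_involution (fun q _ => q.swap) ?_ ?_ ?_ ?_
  · intro q _
    rw [d1_d1 Γ q.1 q.2]
    simp
  · intro q _ hq h
    apply hq
    have : q.2 = q.1 := congrArg Prod.fst h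
    rw [this, d1_d1_self]
    rfl
  · intro q hq
    rw [Finset.mem_product] at hq ⊢
    exact ⟨hq.2, hq.1⟩
  · intro q _
    rfl

theorem D_eq_add (i : ZMod p) (b : (ZMod p → T) → ZMod p) :
    Γ.D b = Γ.d1 i b + Γ.dI (Finset.univ.erase i) b := by
  funext x
  simp only [D, dI, Pi.add_apply]
  exact (Finset.add_sum_erase _ (fun k => Γ.d1 k b x) (Finset.mem_univ i)).symm

theorem HasDeg.dI {Γ : Gr p T Λ} {j : ℕ} {b : (ZMod p → T) → ZMod p} (h : Γ.HasDeg j b)
    (I : Finset (ZMod p)) : Γ.HasDeg (j + 1) (Γ.dI I b) := by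
  intro x hx
  refine Finset.sum_eq_zero fun i _ => ?_
  unfold d1
  split_ifs with hi
  · have h1 := Γ.deg_update hi (Γ.ht (x i))
    have h2 := Γ.deg_update hi (Γ.hs (x i))
    rw [h _ (by omega), h _ (by omega)]
    simp
  · rfl

theorem HasDeg.op {Γ : Gr p T Λ} {j : ℕ} {b : (ZMod p → T) → ZMod p} (h : Γ.HasDeg j b)
    (m : ℕ) : Γ.HasDeg j (op m b) := by
  intro x hx
  have key : ∀ k : ℕ, Γ.deg ((sg p T ^ k) x) = Γ.deg x := by
    intro k
    induction k with
    | zero => simp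
    | succ k ih => rw [pow_succ', Equiv.Perm.mul_apply, deg_sg, ih]
  unfold MP_1c2b6e_al.op
  split_ifs
  · exact Finset.sum_eq_zero fun k _ => h _ (by rw [key]; exact hx)
  · unfold rho
    rw [h x hx, h _ (by rw [deg_sg]; exact hx), sub_zero]

theorem D_eq_zero_of_top {b : (ZMod p → T) → ZMod p} (h : Γ.HasDeg p b) : Γ.D b = 0 := by
  funext x
  have := Γ.deg_le x
  exact h.dI Finset.univ x (by omega)

theorem Sm.add {Γ : Gr p T Λ} {b c : (ZMod p → T) → ZMod p} (hb : Γ.Sm b) (hc : Γ.Sm c) :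
    Γ.Sm (b + c) := by
  obtain ⟨a, ha⟩ := hb
  obtain ⟨a', ha'⟩ := hc
  obtain ⟨e, h1, h2⟩ := Γ.dir a a'
  refine ⟨e, fun x y hxy => ?_⟩
  rw [Pi.add_apply, Pi.add_apply, ha x y fun i => h1 _ _ (hxy i), ha' x y fun i => h2 _ _ (hxy i)]

theorem Sm.sub {Γ : Gr p T Λ} {b c : (ZMod p → T) → ZMod p} (hb : Γ.Sm b) (hc : Γ.Sm c) :
    Γ.Sm (b - c) := by
  obtain ⟨a, ha⟩ := hb
  obtain ⟨a', ha'⟩ := hc
  obtain ⟨e, h1, h2⟩ := Γ.dir a a'
  refine ⟨e, fun x y hxy => ?_⟩
  rw [Pi.sub_apply, Pi.sub_apply, ha x y fun i => h1 _ _ (hxy i), ha' x y fun i => h2 _ _ (hxy i)]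

theorem Sm.dI {Γ : Gr p T Λ} {b : (ZMod p → T) → ZMod p} (hb : Γ.Sm b) (I : Finset (ZMod p)) :
    Γ.Sm (Γ.dI I b) := by
  obtain ⟨a, ha⟩ := hb
  refine ⟨a, fun x y hxy => Finset.sum_congr rfl fun i _ => ?_⟩
  have hE : ∀ k, Γ.isE (x k) ↔ Γ.isE (y k) := fun k => Γ.rE a _ _ (hxy k)
  have hu : ∀ u v, Γ.r a u v → b (Function.update x i u) = b (Function.update y i v) := by
    intro u v huv
    refine ha _ _ fun k => ?_
    by_cases hk : k = i
    · subst hk
      simpa using huv
    · simpa [hk] using hxy k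
  have hs : Γ.sgn x i = Γ.sgn y i := by
    unfold sgn
    simp only [hE]
  unfold d1
  rw [hs, hu _ _ (Γ.rt a _ _ (hxy i)), hu _ _ (Γ.rs a _ _ (hxy i))]
  simp only [hE]

theorem Sm.op {Γ : Gr p T Λ} {b : (ZMod p → T) → ZMod p} (hb : Γ.Sm b) (m : ℕ) :
    Γ.Sm (op m b) := by
  obtain ⟨a, ha⟩ := hb
  refine ⟨a, fun x y hxy => ?_⟩
  unfold MP_1c2b6e_al.op
  split_ifs
  · refine Finset.sum_congr rfl fun k _ => ha _ _ fun i => ?_
    rw [sg_pow_apply, sg_pow_apply]
    exact hxy _
  · unfold rho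
    rw [ha x y hxy, ha (sg p T x) (sg p T y) fun i => hxy (i + 1)]

theorem D_sg (b : (ZMod p → T) → ZMod p) (x : ZMod p → T) :
    Γ.D (fun y => b (sg p T y)) x = Γ.D b (sg p T x) := by
  simp only [D, dI]
  rw [← Equiv.sum_comp (Equiv.addRight (1 : ZMod p))]
  refine Finset.sum_congr rfl fun i _ => ?_
  have hs : Γ.sgn x (i + 1) = Γ.sgn (sg p T x) i := by
    unfold sgn
    symm
    refine Finset.prod_equiv (Equiv.addRight 1) (fun k => ?_) fun k _ => ?_
    · simp only [Finset.mem_filter, Finset.mem_univ, true_and, Equiv.coe_addRight, ne_eq,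
        add_left_inj]
      rfl
    · simp
  have hu : ∀ v, sg p T (Function.update x (i + 1) v) = Function.update (sg p T x) i v := by
    intro v
    funext k
    change Function.update x (i + 1) v (k + 1) = _
    by_cases hk : k = i
    · subst hk
      simp
    · rw [Function.update_of_ne hk, Function.update_of_ne (by simpa using hk)]
      rfl
  simp only [d1, Equiv.coe_addRight, hs, hu]
  rfl

theorem D_op (m : ℕ) (b : (ZMod p → T) → ZMod p) : Γ.D (op m b) = op m (Γ.D b) := by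
  have key : ∀ (k : ℕ) (x : ZMod p → T),
      Γ.D (fun y => b ((sg p T ^ k) y)) x = Γ.D b ((sg p T ^ k) x) := by
    intro k
    induction k with
    | zero => intro x; simp
    | succ k ih =>
      intro x
      simp only [pow_succ, Equiv.Perm.mul_apply]
      rw [Γ.D_sg (fun y => b ((sg p T ^ k) y)), ih]
  funext x
  unfold MP_1c2b6e_al.op
  split_ifs
  · unfold nm
    simp only [← key]
    simp only [D, dI]
    rw [Finset.sum_comm]
    exact Finset.sum_congr rfl fun i _ =>
      cube_d1_sum Γ i (Finset.range p) (fun k y => b ((sg p T ^ k) y)) x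
  · have h : rho b = b - fun y => b (sg p T y) := rfl
    rw [h, D, dI_sub, Pi.sub_apply]
    unfold rho
    rw [← D_sg]
    rfl

/-- Pull-back along coordinatewise maps of graphs. -/
theorem dI_comp {T' Λ' : Type} (Γ' : Gr p T' Λ') (m : ZMod p → T' → T)
    (hE : ∀ i y, Γ.isE (m i y) ↔ Γ'.isE y)
    (hs : ∀ i y, Γ'.isE y → m i (Γ'.s y) = Γ.s (m i y))
    (ht : ∀ i y, Γ'.isE y → m i (Γ'.t y) = Γ.t (m i y))
    (I : Finset (ZMod p)) (b : (ZMod p → T) → ZMod p) (x : ZMod p → T') :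
    Γ'.dI I (fun y => b (fun i => m i (y i))) x = Γ.dI I b (fun i => m i (x i)) := by
  refine Finset.sum_congr rfl fun i _ => ?_
  have hu : ∀ v, (fun k => m k (Function.update x i v k)) =
      Function.update (fun k => m k (x k)) i (m i v) := by
    intro v
    funext k
    by_cases hk : k = i
    · subst hk
      simp
    · simp [hk]
  have hsg : Γ'.sgn x i = Γ.sgn (fun k => m k (x k)) i := by
    unfold sgn
    simp only [hE]
  unfold d1
  by_cases hi : Γ'.isE (x i)
  · rw [if_pos hi, if_pos ((hE i _).2 hi), hsg]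
    simp only [hu, hs i _ hi, ht i _ hi]
  · rw [if_neg hi, if_neg fun h => hi ((hE i _).1 h)]

theorem deg_comp {T' Λ' : Type} (Γ' : Gr p T' Λ') (m : ZMod p → T' → T)
    (hE : ∀ i y, Γ.isE (m i y) ↔ Γ'.isE y) (x : ZMod p → T') :
    Γ.deg (fun i => m i (x i)) = Γ'.deg x := by
  unfold deg
  simp only [hE]

end Gr

end Pool.Agent.MP_1c2b6e_al

/-! Acyclicity of the cubical complex. -/

namespace Pool.Agent.MP_1c2b6e_al

open Classical

variable {p : ℕ} [Fact p.Prime] {T Λ : Type}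

namespace Gr

variable (Γ : Gr p T Λ)

omit [Fact p.Prime] in
theorem acyc_level {ι : Type} [Finite ι] (g : ι → Λ) :
    ∃ c, ∀ i x y, Γ.r c x y → Γ.r (g i) x y := by
  have := Fintype.ofFinite ι
  suffices ∀ s : Finset ι, ∃ c, ∀ i ∈ s, ∀ x y, Γ.r c x y → Γ.r (g i) x y by
    obtain ⟨c, hc⟩ := this Finset.univ
    exact ⟨c, fun i => hc i (Finset.mem_univ i)⟩
  intro s
  induction s using Finset.induction_on with
  | empty => exact ⟨Γ.ne.some, by simp⟩
  | insert j s _ ih =>
    obtain ⟨c, hc⟩ := ih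
    obtain ⟨d, h1, h2⟩ := Γ.dir (g j) c
    refine ⟨d, fun i hi x y h => ?_⟩
    rcases Finset.mem_insert.1 hi with rfl | hi
    exacts [h1 x y h, hc i hi x y (h2 x y h)]

theorem acyc_sgn_sq (x : ZMod p → T) (i : ZMod p) : Γ.sgn x i * Γ.sgn x i = 1 := by
  rw [sgn, ← Finset.prod_mul_distrib]
  exact Finset.prod_eq_one fun k _ => chi_mul_self _

theorem acyc_sgn_congr {x y : ZMod p → T} {i : ZMod p}
    (h : ∀ k, k ≠ i → (Γ.isE (x k) ↔ Γ.isE (y k))) : Γ.sgn x i = Γ.sgn y i :=
  Finset.prod_congr (Finset.filter_congr fun k _ => and_congr_right (h k)) fun _ _ => rfl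

omit [Fact p.Prime] in
theorem acyc_slice {b : (ZMod p → T) → ZMod p} (hb : Γ.Sm b) (x : ZMod p → T) (i : ZMod p) :
    ∃ a, ∀ y z, Γ.r a y z → b (Function.update x i y) = b (Function.update x i z) := by
  obtain ⟨a, ha⟩ := hb
  refine ⟨a, fun y z h => ha _ _ fun k => ?_⟩
  by_cases hk : k = i
  · simpa [hk] using h
  · simp only [Function.update_of_ne hk]
    exact (Γ.r a).refl _

theorem acyc_step {b : (ZMod p → T) → ZMod p} (hb : Γ.Sm b) (x : ZMod p → T) (i : ZMod p)
    (h : ∀ e, Γ.isE e → Γ.d1 i b (Function.update x i e) = 0) (hx : ¬Γ.isE (x i)) :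
    b x = b (Function.update x i Γ.o) := by
  have := Γ.const _ (Γ.acyc_slice hb x i) (fun e he => by
    have h1 := h e he
    simp only [d1, Function.update_self, he, if_true, Function.update_idem] at h1
    linear_combination Γ.sgn (Function.update x i e) i * h1 - (b (Function.update x i (Γ.t e)) -
      b (Function.update x i (Γ.s e))) * Γ.acyc_sgn_sq (Function.update x i e) i) _ hx
  rwa [Function.update_eq_self] at this

theorem acyc_dI_eq {I : Finset (ZMod p)} {i : ZMod p} (hi : i ∈ I) {c : (ZMod p → T) → ZMod p}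
    {x : ZMod p → T} (h : ∀ z, z i = x i → c z = 0) : Γ.dI I c x = Γ.d1 i c x := by
  refine Finset.sum_eq_single_of_mem i hi fun k _ hk => ?_
  simp only [d1]
  rw [h _ (Function.update_of_ne hk.symm _ _), h _ (Function.update_of_ne hk.symm _ _)]
  simp

theorem acyc_deg_congr {x y : ZMod p → T} (h : ∀ k, Γ.isE (x k) ↔ Γ.isE (y k)) :
    Γ.deg x = Γ.deg y :=
  congrArg Finset.card (Finset.filter_congr fun k _ => h k)

/-- One step of the contraction. For a smooth `f` on `T` let `S f` be the smooth primitive with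
`S f o = 0` (it is unique on vertices by `const`; put `S f = 0` if `f` vanishes on all edges).
Put `c x = sgn x i * S (fun y => b (update x i y)) (x i)` if `x i` is a vertex, else `0`.
Smoothness of `c`: if `b` has level `a`, only finitely many functions `y ↦ b (update x i y)`
occur (they factor through the finite `Quotient (r a)`), take a common level of their primitives.
Identity: at `x` with `x i` an edge it is `sgn * sgn = 1`; at `x` with `x i = v` a vertex both
sides are smooth functions of `v` vanishing at `o` with the same differential, by the cocycle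
condition at `update x i e` and `chi_mul_neg`; conclude with `const`. -/
theorem contract {I : Finset (ZMod p)} {i : ZMod p} (hi : i ∈ I) {b : (ZMod p → T) → ZMod p}
    (hb : Γ.Sm b) (hd : Γ.dI I b = 0) :
    ∃ c, Γ.Sm c ∧ (∀ x, (∀ y, Γ.isE y → b (Function.update x i y) = 0) → c x = 0) ∧
      (∀ x, Γ.isE (x i) → c x = 0) ∧
      ∀ x, b x - Γ.dI I c x = if Γ.isE (x i) then 0 else b (Function.update x i Γ.o) := by
  have hS : ∀ f : T → ZMod p, (∃ a, ∀ x y, Γ.r a x y → f x = f y) → ∃ h : T → ZMod p,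
      (∃ a, ∀ x y, Γ.r a x y → h x = h y) ∧ (∀ e, Γ.isE e → h (Γ.t e) - h (Γ.s e) = f e) ∧
        h Γ.o = 0 := fun f hf => by
    obtain ⟨h, ⟨a, h1⟩, h2⟩ := Γ.prim f hf
    exact ⟨fun v => h v - h Γ.o, ⟨a, fun x y hxy => congrArg (· - h Γ.o) (h1 x y hxy)⟩,
      fun e he => by rw [← h2 e he]; ring, sub_self _⟩
  choose! S h1 h2 h3 using hS
  have h4 := fun x => Γ.acyc_slice hb x i
  obtain ⟨c, hc⟩ : ∃ c : (ZMod p → T) → ZMod p, ∀ x, c x = if Γ.isE (x i) then 0 else
    Γ.sgn x i * S (fun y => b (Function.update x i y)) (x i) := ⟨_, fun _ => rfl⟩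
  have h5 : Γ.Sm c := by
    obtain ⟨a, ha⟩ := hb
    have := Γ.fin a
    choose g hg using fun u : ZMod p → Quotient (Γ.r a) => h1 _ (h4 fun k => (u k).out)
    obtain ⟨d, hd⟩ := Γ.acyc_level fun u : Option (ZMod p → Quotient (Γ.r a)) => u.elim a g
    have h5 : ∀ x y : ZMod p → T, (∀ k, Γ.r a (x k) (y k)) →
        (fun z => b (Function.update x i z)) = fun z => b (Function.update y i z) :=
      fun x y h => funext fun z => ha _ _ fun k => by
        by_cases hk : k = i
        · simp only [hk, Function.update_self]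
          exact (Γ.r a).refl _
        · simpa only [Function.update_of_ne hk] using h k
    refine ⟨d, fun x y h => ?_⟩
    have h6 : ∀ k, Γ.r a (x k) (y k) := fun k => hd none _ _ (h k)
    rw [hc, hc, Γ.rE a _ _ (h6 i), Γ.acyc_sgn_congr fun k _ => Γ.rE a _ _ (h6 k), ← h5 x y h6,
      h5 x (fun k => (Quotient.mk (Γ.r a) (x k)).out) fun k => (Γ.r a).symm (Quotient.mk_out _),
      hg (fun k => Quotient.mk (Γ.r a) (x k)) _ _ (hd (some _) _ _ (h i))]
  have h6 : ∀ x, Γ.isE (x i) → c x = 0 := fun x hx => by rw [hc, if_pos hx]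
  have h7 : ∀ x, Γ.isE (x i) → (b - Γ.dI I c) x = 0 := fun x hx => by
    have e : ∀ v, Γ.sgn (Function.update x i v) i = Γ.sgn x i := fun v =>
      Γ.acyc_sgn_congr fun k hk => by rw [Function.update_of_ne hk]
    have := h2 _ (h4 x) _ hx
    rw [Pi.sub_apply, Γ.acyc_dI_eq hi fun z hz => h6 z (hz ▸ hx)]
    simp only [d1, hx, if_true, hc, Function.update_self, Γ.hs, Γ.ht, if_false, e,
      Function.update_idem, Function.update_eq_self] at this ⊢
    linear_combination -(Γ.sgn x i * Γ.sgn x i) * this - b x * Γ.acyc_sgn_sq x i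
  refine ⟨c, h5, fun x hx => ?_, h6, fun x => ?_⟩
  · rw [hc]
    split_ifs with h
    · rfl
    · rw [Γ.const _ (h1 _ (h4 x)) (fun e he => sub_eq_zero.1 ((h2 _ (h4 x) e he).trans (hx e he)))
        _ h, h3 _ (h4 x), mul_zero]
  · split_ifs with h
    · exact h7 x h
    · have h8 := Γ.acyc_step (hb.sub (h5.dI I)) x i (fun e he => by
        rw [← Γ.acyc_dI_eq hi fun z hz => h7 z (by rwa [hz, Function.update_self]), dI_sub, hd,
          dI_dI, sub_zero, Pi.zero_apply]) h
      rw [Pi.sub_apply, Pi.sub_apply, Γ.acyc_dI_eq (x := Function.update x i Γ.o) hi fun z hz => by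
        rw [hc, hz, Function.update_self, h3 _ (h4 z)]; simp] at h8
      rw [h8]
      simp [d1, Γ.ho]

/-- Acyclicity in the coordinates of `I`, in positive degree. Hint: induction over `J ⊆ I` with
`contract`; the remainder `b_J` is a smooth cocycle vanishing on cells with an edge in a
coordinate of `J` and on cells without an edge in `I`. -/
theorem acyc (I : Finset (ZMod p)) {b : (ZMod p → T) → ZMod p} (hb : Γ.Sm b)
    (hd : Γ.dI I b = 0) (h0 : ∀ x, (∀ i ∈ I, ¬Γ.isE (x i)) → b x = 0) :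
    ∃ c, Γ.Sm c ∧ Γ.dI I c = b ∧
      ∀ x, (∀ y, (∀ i, i ∉ I → y i = x i) → Γ.deg y = Γ.deg x + 1 → b y = 0) → c x = 0 := by
  have key : ∀ J : Finset (ZMod p), J ⊆ I → ∃ c, Γ.Sm c ∧
      (∀ x, (∀ y, (∀ i, i ∉ I → y i = x i) → Γ.deg y = Γ.deg x + 1 → b y = 0) → c x = 0) ∧
      (∀ x, (∃ i ∈ J, Γ.isE (x i)) ∨ (∀ i ∈ I, ¬Γ.isE (x i)) ∨
        (∀ y, (∀ i, i ∉ I → y i = x i) → Γ.deg y = Γ.deg x → b y = 0) →
          (b - Γ.dI I c) x = 0) := by
    intro J
    induction J using Finset.induction_on with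
    | empty =>
      refine fun _ => ⟨0, ⟨Γ.ne.some, fun _ _ _ => rfl⟩, fun _ _ => rfl, fun x hx => ?_⟩
      rw [dI_zero, sub_zero]
      rcases hx with ⟨i, hi, -⟩ | hx | hx
      exacts [absurd hi (Finset.notMem_empty i), h0 x hx, hx x (fun _ _ => rfl) rfl]
    | insert i J _ ih =>
      intro hJ
      have hi := hJ (Finset.mem_insert_self i J)
      obtain ⟨c, h1, h2, h3⟩ := ih ((Finset.subset_insert i J).trans hJ)
      obtain ⟨c', h4, h5, h6, h7⟩ := Γ.contract hi (hb.sub (h1.dI I))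
        (by rw [dI_sub, hd, dI_dI, sub_zero])
      have h8 : ∀ (x : ZMod p → T) v k, k ∉ I → Function.update x i v k = x k := fun x v k hk =>
        Function.update_of_ne (fun h : k = i => hk (h ▸ hi)) _ _
      refine ⟨c + c', h1.add h4, fun x hx => ?_, fun x hx => ?_⟩
      · rw [Pi.add_apply, h2 x hx, zero_add]
        by_cases h : Γ.isE (x i)
        · exact h6 x h
        refine h5 x fun y hy => h3 _ (.inr (.inr fun z h9 h10 => hx z
          (fun k hk => (h9 k hk).trans (h8 x y k hk)) ?_))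
        have := Γ.deg_update (x := Function.update x i y) (i := i) (by simpa using hy) h
        rw [Function.update_idem, Function.update_eq_self] at this
        rw [h10, this]
      · rw [dI_add, ← sub_sub, Pi.sub_apply, h7]
        split_ifs with h
        · rfl
        have h9 : ∀ k, Γ.isE (Function.update x i Γ.o k) ↔ Γ.isE (x k) := fun k => by
          by_cases hk : k = i
          · simp [hk, h, Γ.ho]
          · rw [Function.update_of_ne hk]
        refine h3 _ (hx.imp ?_ (.imp (fun hx k hk => mt (h9 k).1 (hx k hk)) fun hx z h10 h11 =>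
          hx z (fun k hk => (h10 k hk).trans (h8 x _ k hk)) (h11.trans (Γ.acyc_deg_congr h9))))
        rintro ⟨k, hk, hk'⟩
        exact ⟨k, (Finset.mem_insert.1 hk).resolve_left fun e => h (e ▸ hk'), (h9 k).2 hk'⟩
  obtain ⟨c, h1, h2, h3⟩ := key I subset_rfl
  refine ⟨c, h1, (sub_eq_zero.1 (funext fun x => h3 x ?_)).symm, h2⟩
  by_cases h : ∃ i ∈ I, Γ.isE (x i)
  · exact .inl h
  · exact .inr (.inl fun i hi h' => h ⟨i, hi, h'⟩)

theorem acyc_deg {j : ℕ} {b : (ZMod p → T) → ZMod p} (hb : Γ.Sm b) (hj : Γ.HasDeg (j + 1) b)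
    (hd : Γ.D b = 0) : ∃ c, Γ.Sm c ∧ Γ.HasDeg j c ∧ Γ.D c = b := by
  obtain ⟨c, h1, h2, h3⟩ := Γ.acyc Finset.univ hb hd fun x hx => hj x (by
    rw [(Γ.deg_eq_zero_iff x).2 fun i => hx i (Finset.mem_univ i)]; omega)
  exact ⟨c, h1, fun x hx => h3 x fun y _ hy => hj y (by omega), h2⟩

/-- Degree zero: a smooth function whose differential vanishes on the one-cells is constant on
the vertices. Hint: change one coordinate at a time, using `const`. -/
theorem acyc_zero {b : (ZMod p → T) → ZMod p} (hb : Γ.Sm b)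
    (hd : ∀ x, Γ.deg x = 1 → Γ.D b x = 0) {x y : ZMod p → T} (hx : Γ.deg x = 0)
    (hy : Γ.deg y = 0) : b x = b y := by
  have key : ∀ x : ZMod p → T, (∀ i, ¬Γ.isE (x i)) → ∀ J : Finset (ZMod p),
      b x = b fun i => if i ∈ J then Γ.o else x i := by
    intro x hx J
    induction J using Finset.induction_on with
    | empty => simp
    | insert i J _ ih =>
      have h1 : ∀ k, ¬Γ.isE (if k ∈ J then Γ.o else x k) := fun k => by
        split_ifs
        exacts [Γ.ho, hx k]
      rw [ih, Γ.acyc_step hb _ i (fun e he => ?_) (h1 i)]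
      · congr 1
        funext k
        by_cases hk : k = i <;> simp [hk]
      · have h2 := Γ.deg_update (x := Function.update (fun k => if k ∈ J then Γ.o else x k) i e)
          (i := i) (by simpa using he) (h1 i)
        rw [Function.update_idem, (Γ.deg_eq_zero_iff _).2 fun k => by
          by_cases hk : k = i
          · simpa [hk] using h1 i
          · simpa [hk] using h1 k] at h2
        rw [← hd _ h2.symm]
        rw [D, dI, Finset.sum_eq_single_of_mem i (Finset.mem_univ i) fun k _ hk => ?_]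
        simp only [d1, Function.update_of_ne hk, h1 k, if_false]
  rw [key x ((Γ.deg_eq_zero_iff x).1 hx) Finset.univ, key y ((Γ.deg_eq_zero_iff y).1 hy)
    Finset.univ]
  simp

end Gr

end Pool.Agent.MP_1c2b6e_al

/-! Free actions of a group of prime order, and the zigzag on the standard cube. -/

namespace Pool.Agent.MP_1c2b6e_al

open Classical

variable {p : ℕ} [Fact p.Prime]

/-- The indicator function of a set of representatives of the orbits. -/
theorem free_ind {X : Type} (σ : Equiv.Perm X) (hσ : σ ^ p = 1) :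
    ∃ e : X → ZMod p, ∀ x, σ x ≠ x → ∑ k ∈ Finset.range p, e ((σ ^ k) x) = 1 := by
  have hp : 0 < p := (Fact.out : p.Prime).pos
  let S : Setoid X := Equiv.Perm.SameCycle.setoid σ
  refine ⟨fun x => if x = (Quotient.mk S x).out then 1 else 0, fun x hx => ?_⟩
  have h1 : ∀ k : ℕ, Quotient.mk S ((σ ^ k) x) = Quotient.mk S x := fun k =>
    Quotient.sound (Equiv.Perm.SameCycle.symm ⟨k, by rw [zpow_natCast]⟩)
  obtain ⟨i, hi⟩ : σ.SameCycle x (Quotient.mk S x).out :=
    Equiv.Perm.SameCycle.symm (Quotient.exact (Quotient.out_eq (Quotient.mk S x)))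
  have hp' : (0 : ℤ) < p := by exact_mod_cast hp
  have h2 := Int.emod_nonneg i hp'.ne'
  have h3 := Int.emod_lt_of_pos i hp'
  obtain ⟨m, hm⟩ := Int.eq_ofNat_of_zero_le h2
  rw [zpow_eq_zpow_emod' i hσ, hm, zpow_natCast] at hi
  have h4 : m < p := by omega
  have hper : Function.minimalPeriod σ x = p :=
    Function.minimalPeriod_eq_prime
      (by rw [Function.IsPeriodicPt, Function.IsFixedPt, Equiv.Perm.iterate_eq_pow, hσ]; rfl) hx
  simp only [h1]
  rw [Finset.sum_eq_single m]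
  · exact if_pos hi
  · intro k hk hkm
    refine if_neg fun e => hkm ?_
    refine Function.iterate_injOn_Iio_minimalPeriod (f := σ) (x := x) ?_ ?_ ?_
    · rw [hper]; exact Finset.mem_range.1 hk
    · rw [hper]; exact h4
    · simp only [Equiv.Perm.iterate_eq_pow]
      rw [e, hi]
  · exact fun h => absurd (Finset.mem_range.2 h4) h

/-- Hint: `c x = b x` if `x` is the chosen representative of its orbit, else `0`. A point that is
not fixed has `p` distinct translates. -/
theorem free_rho {X : Type} (σ : Equiv.Perm X) (hσ : σ ^ p = 1) (b : X → ZMod p)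
    (hb : ∀ x, σ x = x → b x = 0) (h : ∀ x, b (σ x) = b x) :
    ∃ c : X → ZMod p, (∀ x, b x = 0 → c x = 0) ∧
      ∀ x, ∑ k ∈ Finset.range p, c ((σ ^ k) x) = b x := by
  obtain ⟨e, he⟩ := free_ind σ hσ
  have h1 : ∀ (k : ℕ) x, b ((σ ^ k) x) = b x := by
    intro k x
    induction k with
    | zero => rfl
    | succ k ih => rw [pow_succ', Equiv.Perm.mul_apply, h, ih]
  refine ⟨fun x => b x * e x, fun x hx => mul_eq_zero_of_left hx _, fun x => ?_⟩
  simp only [h1]
  rw [← Finset.mul_sum]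
  by_cases hx : σ x = x
  · rw [hb x hx, zero_mul]
  · rw [he x hx, mul_one]

/-- Hint: `c ((σ^m) r) = -∑ k < m, b ((σ^k) r)` for the representative `r` and `m < p`. -/
theorem free_nm {X : Type} (σ : Equiv.Perm X) (hσ : σ ^ p = 1) (b : X → ZMod p)
    (hb : ∀ x, σ x = x → b x = 0) (h : ∀ x, ∑ k ∈ Finset.range p, b ((σ ^ k) x) = 0) :
    ∃ c : X → ZMod p, (∀ x, (∀ k : ℕ, b ((σ ^ k) x) = 0) → c x = 0) ∧
      ∀ x, c x - c (σ x) = b x := by
  obtain ⟨e, he⟩ := free_ind σ hσ
  refine ⟨fun x => ∑ m ∈ Finset.range p, e ((σ ^ m) x) * ∑ k ∈ Finset.range m, b ((σ ^ k) x),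
    fun x hx => by simp [hx], fun x => ?_⟩
  by_cases hx : σ x = x
  · rw [hx, sub_self, hb x hx]
  have h1 : ∀ k : ℕ, (σ ^ k) (σ x) = (σ ^ (k + 1)) x := fun k => by
    rw [pow_succ, Equiv.Perm.mul_apply]
  have h2 : ∀ m : ℕ, ∑ k ∈ Finset.range m, b ((σ ^ (k + 1)) x) =
      ∑ k ∈ Finset.range (m + 1), b ((σ ^ k) x) - b x := fun m => by
    rw [Finset.sum_range_succ', pow_zero, Equiv.Perm.one_apply, add_sub_cancel_right]
  have h3 := Finset.sum_range_succ' (fun m => e ((σ ^ m) x) *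
    (∑ k ∈ Finset.range m, b ((σ ^ k) x) - b x)) p
  rw [Finset.sum_range_succ, hσ, h x, pow_zero, Finset.sum_range_zero, add_left_inj] at h3
  simp only [h1, h2]
  rw [← h3, ← Finset.sum_sub_distrib]
  simp only [← mul_sub, sub_sub_cancel]
  rw [← Finset.sum_mul, he x hx, one_mul]

theorem sum_eq_zero_of_free {X : Type} [Fintype X] (σ : Equiv.Perm X) (hσ : σ ^ p = 1)
    (b : X → ZMod p) (hb : ∀ x, σ x = x → b x = 0)
    (h : ∀ x, ∑ k ∈ Finset.range p, b ((σ ^ k) x) = 0) : ∑ x, b x = 0 := by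
  obtain ⟨c, -, hc⟩ := free_nm σ hσ b hb h
  simp only [← hc]
  rw [Finset.sum_sub_distrib, Equiv.sum_comp σ c, sub_self]

end Pool.Agent.MP_1c2b6e_al

/-! The zigzag on the standard cube. -/

namespace Pool.Agent.MP_1c2b6e_al

open Classical

variable {p : ℕ} [Fact p.Prime]

/-- The interval: one edge `none` from `some false` to `some true`. -/
def stdGr (p : ℕ) : Gr p (Option Bool) Unit where
  isE x := x = none
  s _ := some false
  t _ := some true
  o := some false
  hs _ := by simp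
  ht _ := by simp
  ho := by simp
  r _ := ⊥
  ne := inferInstance
  fin _ := inferInstance
  dir _ _ := ⟨(), fun _ _ h => h, fun _ _ h => h⟩
  rE _ _ _ h := by obtain rfl : _ = _ := h; rfl
  rs _ _ _ _ := rfl
  rt _ _ _ _ := rfl
  prim f _ := ⟨fun x => if x = some true then f none else 0,
    ⟨(), fun _ _ h => by obtain rfl : _ = _ := h; rfl⟩, fun e he => by simp [he]⟩
  const h _ he v hv := by
    rcases v with _ | _ | _
    · exact absurd rfl hv
    · rfl
    · exact he none rfl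

/-- A zigzag on the standard cube. -/
def Zig (b : ℕ → (ZMod p → Option Bool) → ZMod p) : Prop :=
  (∀ j ≤ p, (stdGr p).HasDeg j (b j)) ∧
    (∀ j, j + 1 < p → op (j + 1) (b (j + 1)) = (stdGr p).D (b j)) ∧
    b p = (stdGr p).D (b (p - 1))

theorem std_op_sub (j : ℕ) (b c : (ZMod p → Option Bool) → ZMod p) :
    op j (b - c) = op j b - op j c := by
  funext x
  by_cases h : Odd j
  · simp [op, h, nm, Finset.sum_sub_distrib]
  · simp only [op, h, if_false, rho, Pi.sub_apply]
    ring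

theorem std_op_smul (j : ℕ) (a : ZMod p) (b : (ZMod p → Option Bool) → ZMod p) :
    op j (a • b) = a • op j b := by
  funext x
  by_cases h : Odd j
  · simp [op, h, nm, Finset.mul_sum]
  · simp [op, h, rho, mul_sub]

theorem std_op_const (j : ℕ) (b : (ZMod p → Option Bool) → ZMod p) (v : Option Bool) :
    op j b (fun _ => v) = 0 := by
  by_cases h : Odd j
  · have h1 : ∀ k : ℕ, (sg p (Option Bool) ^ k) (fun _ => v) = fun _ => v := fun k =>
      funext fun i => sg_pow_apply k _ i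
    simp [op, h, nm, h1]
  · simp only [op, h, if_false, rho]
    exact sub_self _

theorem std_fixed {x : ZMod p → Option Bool} (h : sg p (Option Bool) x = x) :
    ∃ v, x = fun _ => v := by
  refine ⟨x 0, funext fun i => ?_⟩
  have h1 := sg_pow_apply i.val x 0
  rw [Equiv.Perm.pow_apply_eq_self_of_apply_eq_self h, zero_add, ZMod.natCast_zmod_val] at h1
  exact h1.symm

theorem std_deg_some (v : Bool) : (stdGr p).deg (fun _ => some v) = 0 :=
  ((stdGr p).deg_eq_zero_iff _).2 fun _ => Option.some_ne_none v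

theorem std_deg_none : (stdGr p).deg (fun _ => none) = p :=
  ((stdGr p).deg_eq_card_iff _).2 fun _ => rfl

omit [Fact p.Prime] in
theorem std_sm (b : (ZMod p → Option Bool) → ZMod p) : (stdGr p).Sm b :=
  ⟨(), fun _ _ h => congrArg b (funext h)⟩

theorem std_deg_sub {j : ℕ} {b c : (ZMod p → Option Bool) → ZMod p} (hb : (stdGr p).HasDeg j b)
    (hc : (stdGr p).HasDeg j c) : (stdGr p).HasDeg j (b - c) := fun x hx => by
  rw [Pi.sub_apply, hb x hx, hc x hx, sub_zero]

theorem std_D_sub (b c : (ZMod p → Option Bool) → ZMod p) :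
    (stdGr p).D (b - c) = (stdGr p).D b - (stdGr p).D c := (stdGr p).dI_sub _ b c

theorem std_D_D (b : (ZMod p → Option Bool) → ZMod p) : (stdGr p).D ((stdGr p).D b) = 0 :=
  (stdGr p).dI_dI _ b

/-- In degrees `0 < j < p` the shift acts freely on the cells: `ker (op j) = im (op (j+1))`. -/
theorem std_free {j : ℕ} (h0 : 0 < j) (hj : j < p) {b : (ZMod p → Option Bool) → ZMod p}
    (hb : (stdGr p).HasDeg j b) (h : op j b = 0) :
    ∃ c, (stdGr p).HasDeg j c ∧ op (j + 1) c = b := by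
  have h1 : ∀ x, sg p (Option Bool) x = x → b x = 0 := fun x hx => by
    obtain ⟨v, rfl⟩ := std_fixed hx
    refine hb _ ?_
    rcases v with _ | v
    · rw [std_deg_none]
      exact hj.ne'
    · rw [std_deg_some]
      exact h0.ne
  by_cases h2 : Odd j
  · rw [op, if_pos h2] at h
    obtain ⟨c, h3, h4⟩ := free_nm _ sg_pow_card b h1 (congrFun h)
    refine ⟨c, fun x hx => h3 x fun k => hb _ ?_, ?_⟩
    · induction k with
      | zero => exact hx
      | succ k ih => rwa [pow_succ', Equiv.Perm.mul_apply, Gr.deg_sg]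
    · rw [op, if_neg (Nat.not_odd_iff_even.2 h2.add_one)]
      exact funext h4
  · rw [op, if_neg h2] at h
    obtain ⟨c, h3, h4⟩ := free_rho _ sg_pow_card b h1
      fun x => (sub_eq_zero.1 (congrFun h x)).symm
    refine ⟨c, fun x hx => h3 x (hb x hx), ?_⟩
    rw [op, if_pos (Nat.not_odd_iff_even.1 h2).add_one]
    exact funext h4

/-- Hint: descending induction: there is `c` of degree `j` with `D (b j - op (j+1) c) = 0`
(every function on the standard cube is smooth; use `acyc_deg`). At the end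
`b 0 - nm c` is constant on vertices and `nm c` vanishes at the two fixed vertices. -/
theorem zig_top_zero {b : ℕ → (ZMod p → Option Bool) → ZMod p} (hb : Zig b)
    (h : b p (fun _ => none) = 0) : b 0 (fun _ => some true) = b 0 (fun _ => some false) := by
  have hp := (Fact.out : p.Prime).pos
  have h1 : b p = 0 := funext fun x => by
    by_cases hx : (stdGr p).deg x = p
    · rw [show x = fun _ => none from funext (((stdGr p).deg_eq_card_iff x).1 hx)]
      exact h
    · exact hb.1 p le_rfl x hx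
  have h2 : ∀ k j, j + k + 1 = p →
      ∃ c, (stdGr p).HasDeg j c ∧ (stdGr p).D (b j - op (j + 1) c) = 0 := by
    intro k
    induction k with
    | zero =>
      intro j hj
      refine ⟨0, fun _ _ => rfl, ?_⟩
      rw [op_eq_zero_of_inv _ fun _ => rfl, sub_zero, show j = p - 1 by omega, ← hb.2.2, h1]
    | succ k ih =>
      intro j hj
      obtain ⟨c, h3, h4⟩ := ih (j + 1) (by omega)
      obtain ⟨e, -, h5, h6⟩ := (stdGr p).acyc_deg (std_sm _)
        (std_deg_sub (hb.1 _ (by omega)) (h3.op _)) h4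
      refine ⟨e, h5, ?_⟩
      rw [std_D_sub, Gr.D_op, h6, std_op_sub, op_op, hb.2.1 j (by omega), sub_zero, sub_self]
  obtain ⟨c, -, h3⟩ := h2 (p - 1) 0 (by omega)
  have h4 := (stdGr p).acyc_zero (std_sm _) (fun x _ => congrFun h3 x) (std_deg_some true)
    (std_deg_some false)
  simpa [std_op_const] using h4

/-- Hint: `b 0` is shift invariant on vertices (`rho (b 0)` is constant and vanishes at a fixed
vertex); `b 0 - const = nm c` by `free_rho`; ascending induction: there is `c` of degree `j` with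
`op (j+1) (b (j+1) - D c) = 0`; at the end `b p = op p (D c)` vanishes on the top cell. -/
theorem zig_bot_zero {b : ℕ → (ZMod p → Option Bool) → ZMod p} (hb : Zig b)
    (h : b 0 (fun _ => some true) = b 0 (fun _ => some false)) : b p (fun _ => none) = 0 := by
  have hp := (Fact.out : p.Prime).one_lt
  have h0 := hb.1 0 (Nat.zero_le p)
  have h1 : op 0 (b 0) = 0 := funext fun x => by
    by_cases hx : (stdGr p).deg x = 0
    · rw [(stdGr p).acyc_zero (std_sm (op 0 (b 0))) (fun x _ => by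
        rw [Gr.D_op, ← hb.2.1 0 hp, op_op]
        rfl) hx (std_deg_some true), std_op_const]
      rfl
    · exact h0.op 0 x hx
  set κ : (ZMod p → Option Bool) → ZMod p :=
    fun x => if (stdGr p).deg x = 0 then b 0 (fun _ => some false) else 0 with hκ
  have h2 : (stdGr p).D κ = 0 := funext fun x => Finset.sum_eq_zero fun i _ => by
    rw [Gr.d1]
    split_ifs with hx
    · have a1 := (stdGr p).deg_update hx ((stdGr p).ht (x i))
      have a2 := (stdGr p).deg_update hx ((stdGr p).hs (x i))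
      simp only [hκ, Nat.add_right_cancel (a1.trans a2.symm), sub_self, mul_zero]
    · rfl
  obtain ⟨c, h3, h4⟩ := free_rho _ sg_pow_card (b 0 - κ) (fun x hx => by
    obtain ⟨v, rfl⟩ := std_fixed hx
    rcases v with _ | _ | _
    · refine std_deg_sub h0 (fun x hx => if_neg hx) _ ?_
      rw [std_deg_none]
      omega
    · simp [hκ, std_deg_some]
    · simp [hκ, std_deg_some, h]) fun x => by
    have a1 : b 0 x - b 0 (sg p _ x) = 0 := congrFun h1 x
    simp only [Pi.sub_apply, hκ, Gr.deg_sg, sub_eq_zero.1 a1]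
  have h5 : ∀ j < p, ∃ e, (stdGr p).HasDeg j e ∧
      (stdGr p).D (b j) = op (j + 1) ((stdGr p).D e) := by
    intro j
    induction j with
    | zero =>
      refine fun _ => ⟨c, fun x hx => h3 x (std_deg_sub h0 (fun x hx => if_neg hx) x hx), ?_⟩
      rw [← Gr.D_op, show op (0 + 1) c = b 0 - κ from funext h4, std_D_sub, h2, sub_zero]
    | succ j ih =>
      intro hj
      obtain ⟨e, h6, h7⟩ := ih (by omega)
      obtain ⟨f, h8, h9⟩ := std_free j.succ_pos hj (std_deg_sub (hb.1 _ hj.le) (h6.dI _)) (by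
        rw [std_op_sub, hb.2.1 j hj, h7]
        exact sub_self _)
      refine ⟨f, h8, ?_⟩
      rw [← Gr.D_op, h9, std_D_sub]
      exact (sub_eq_self.2 (std_D_D e)).symm
  obtain ⟨e, -, h6⟩ := h5 (p - 1) (by omega)
  rw [hb.2.2, h6, std_op_const]

theorem std_zig_sub {b c : ℕ → (ZMod p → Option Bool) → ZMod p} (hb : Zig b) (hc : Zig c)
    (a : ZMod p) : Zig fun j => b j - a • c j := by
  have h : ∀ f, (stdGr p).D (a • f) = a • (stdGr p).D f := (stdGr p).dI_smul _ a
  refine ⟨fun j hj => std_deg_sub (hb.1 j hj) fun x hx => ?_, fun j hj => ?_, ?_⟩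
  · rw [Pi.smul_apply, hc.1 j hj x hx, smul_zero]
  · rw [std_op_sub, std_op_smul, std_D_sub, h, hb.2.1 j hj, hc.2.1 j hj]
  · simp only [std_D_sub, h, ← hb.2.2, ← hc.2.2]

/-- Hint: zigzags form a vector space on which two functionals have the same kernel. -/
theorem std_cube (p : ℕ) [Fact p.Prime] : ∃ v : ZMod p, v ≠ 0 ∧
    ∀ b : ℕ → (ZMod p → Option Bool) → ZMod p, Zig b →
      b 0 (fun _ => some true) - b 0 (fun _ => some false) = v * b p (fun _ => none) := by
  by_cases h : ∃ c : ℕ → (ZMod p → Option Bool) → ZMod p, Zig c ∧ c p (fun _ => none) ≠ 0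
  · obtain ⟨c, hc, h1⟩ := h
    refine ⟨(c 0 (fun _ => some true) - c 0 (fun _ => some false)) / c p (fun _ => none),
      div_ne_zero (fun h2 => h1 (zig_bot_zero hc (sub_eq_zero.1 h2))) h1, fun b hb => ?_⟩
    have h2 := zig_top_zero (std_zig_sub hb hc (b p (fun _ => none) / c p (fun _ => none)))
      (by simp [h1])
    simp only [Pi.sub_apply, Pi.smul_apply, smul_eq_mul] at h2
    rw [div_mul_comm]
    linear_combination h2
  · push Not at h
    exact ⟨1, one_ne_zero, fun b hb => by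
      rw [zig_top_zero hb (h b hb), h b hb, sub_self, mul_zero]⟩

end Pool.Agent.MP_1c2b6e_al

end

-- part MP_1c2b6e_al.Smith
section

/-! The profinite Cayley tree, the twisted action on its `p`-fold product, and the cohomology of
the invariant cochains. -/

namespace Pool.Agent.MP_1c2b6e_al

open Classical

variable {G : Type} [Group G] [TopologicalSpace G] [IsTopologicalGroup G] [CompactSpace G]
  [TotallyDisconnectedSpace G] {r : ℕ} {l : Fin (r + 1) → G} {p : ℕ} [Fact p.Prime]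

/-- End point of a cell of the Cayley graph. -/
def cayT (l : Fin (r + 1) → G) (x : G × Option (Fin r)) : G × Option (Fin r) :=
  (x.1 * (x.2.elim 1 fun i => l i.castSucc), none)

/-- Congruence of cells modulo `N`. -/
def cayR (N : OpenNormalSubgroup G) : Setoid (G × Option (Fin r)) :=
  Setoid.ker fun x => (pr N x.1, x.2)

theorem caya_top (hl : IsBasis l) {H : Subgroup G} (N : OpenNormalSubgroup G)
    (hN : ∀ g ∈ N, g ∈ H) (h : ∀ i : Fin r, l i.castSucc ∈ H) : H = ⊤ := by
  refine hl.eq_top_of_isOpen (Subgroup.isOpen_mono (H₁ := N.toSubgroup) hN N.isOpen') fun i => ?_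
  induction i using Fin.lastCases with
  | cast i => exact h i
  | last =>
    have h1 := hl.prod
    rw [List.ofFn_succ', List.prod_concat] at h1
    rw [eq_inv_of_mul_eq_one_right h1]
    refine inv_mem (list_prod_mem fun x hx => ?_)
    obtain ⟨i, rfl⟩ := List.mem_ofFn.1 hx
    exact h i

/-- The permutation `(x, z) ↦ (x * a, z + c x)`. -/
def caya_perm {Q : Type} [Group Q] (a : Q) (c : Q → ZMod p) : Equiv.Perm (Q × ZMod p) where
  toFun y := (y.1 * a, y.2 + c y.1)
  invFun y := (y.1 * a⁻¹, y.2 - c (y.1 * a⁻¹))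
  left_inv y := by simp
  right_inv y := by simp

omit [IsTopologicalGroup G] [CompactSpace G] [TotallyDisconnectedSpace G] in
theorem caya_iff (N : OpenNormalSubgroup G) (x y : G × Option (Fin r)) :
    cayR N x y ↔ pr N x.1 = pr N y.1 ∧ x.2 = y.2 :=
  Prod.mk.injEq _ _ _ _ ▸ Iff.rfl

/-- Hint: `Q = G ⧸ N`, `f` descends to `f' : Q × Option (Fin r) → ZMod p`. Let `l i.castSucc` act
on `Q × ZMod p` by the inverse of `(x, z) ↦ (x * l i, z + f' (x, some i))` (`lift_fin` into
`Equiv.Perm`, last generator forced by the relation, `List.ofFn_succ'`), call the homomorphism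
`Φ`. Every `Φ g` commutes with the translations in `z` and `(Φ g)⁻¹ (x, z)` has first coordinate
`x * g` (`eq_top_of_isOpen`). Put `h (g, _) = ((Φ g)⁻¹ (1, 0)).2`. -/
theorem cay_prim (hl : IsBasis l) (f : G × Option (Fin r) → ZMod p)
    (hf : ∃ N : OpenNormalSubgroup G, ∀ x y, cayR N x y → f x = f y) :
    ∃ h : G × Option (Fin r) → ZMod p, (∃ N : OpenNormalSubgroup G, ∀ x y, cayR N x y → h x = h y) ∧
      ∀ e, e.2 ≠ none → h (cayT l e) - h (e.1, none) = f e := by
  obtain ⟨N, hN⟩ := hf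
  obtain ⟨s, hs⟩ : ∃ s : G ⧸ N.toSubgroup → G, ∀ x, pr N (s x) = x :=
    (QuotientGroup.mk'_surjective N.toSubgroup).hasRightInverse
  obtain ⟨σ, hσ⟩ : ∃ σ : Fin r → Equiv.Perm ((G ⧸ N.toSubgroup) × ZMod p),
      ∀ i y, σ i y = (y.1 * pr N (l i.castSucc), y.2 + f (s y.1, some i)) :=
    ⟨fun i => caya_perm (pr N (l i.castSucc)) fun x => f (s x, some i), fun _ _ => rfl⟩
  obtain ⟨Φ, ho, hΦ⟩ := hl.lift_fin
    (Fin.snoc (α := fun _ => Equiv.Perm ((G ⧸ N.toSubgroup) × ZMod p)) (fun i => (σ i)⁻¹)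
      (List.ofFn fun i => (σ i)⁻¹).prod⁻¹) (by
      rw [List.ofFn_succ', List.prod_concat]
      simp only [Fin.snoc_castSucc, Fin.snoc_last, mul_inv_cancel])
  have h1 : ∀ i : Fin r, (Φ (l i.castSucc))⁻¹ = σ i := fun i => by
    rw [hΦ, Fin.snoc_castSucc, inv_inv]
  let H : Subgroup G :=
    { carrier := {g | ∀ y, ((Φ g)⁻¹ y).1 = y.1 * pr N g}
      one_mem' := fun y => by simp
      mul_mem' := fun {a b} ha hb y => by
        rw [map_mul, mul_inv_rev, Equiv.Perm.mul_apply, hb, ha, map_mul, mul_assoc]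
      inv_mem' := fun {a} ha y => by
        have := ha (Φ a y)
        rw [← Equiv.Perm.mul_apply, inv_mul_cancel, Equiv.Perm.one_apply] at this
        rw [map_inv, inv_inv, this, map_inv, mul_inv_cancel_right] }
  have hH : H = ⊤ := by
    refine caya_top hl (N ⊓ kerN Φ ho) (fun g hg y => ?_) fun i y => ?_
    · have a1 : pr N g = 1 := (pr_eq_one_iff N g).2 hg.1
      have a2 : Φ g = 1 := hg.2
      rw [a1, a2]
      simp
    · rw [h1, hσ]
  have h2 : ∀ g y, ((Φ g)⁻¹ y).1 = y.1 * pr N g := fun g => (hH ▸ Subgroup.mem_top g : g ∈ H)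
  refine ⟨fun x => ((Φ x.1)⁻¹ (1, 0)).2, ⟨kerN Φ ho, fun x y h => ?_⟩, ?_⟩
  · simp only [(pr_kerN Φ ho).1 ((caya_iff _ _ _).1 h).1]
  · rintro ⟨g, _ | i⟩ he
    · exact absurd rfl he
    · simp only [cayT, Option.elim_some]
      rw [map_mul, mul_inv_rev, Equiv.Perm.mul_apply, h1, hσ, h2, one_mul, add_sub_cancel_left]
      exact hN _ _ ((caya_iff _ _ _).2 ⟨hs _, rfl⟩)

/-- Hint: `{u | ∀ g, h (g * u, none) = h (g, none)}` is an open subgroup containing the first `r`
generators, hence the last one by the relation. -/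
theorem cay_const (hl : IsBasis l) (h : G × Option (Fin r) → ZMod p)
    (hh : ∃ N : OpenNormalSubgroup G, ∀ x y, cayR N x y → h x = h y)
    (he : ∀ e, e.2 ≠ none → h (cayT l e) = h (e.1, none)) (v : G × Option (Fin r))
    (hv : ¬v.2 ≠ none) : h v = h (1, none) := by
  obtain ⟨N, hN⟩ := hh
  let H : Subgroup G :=
    { carrier := {u | ∀ g, h (g * u, none) = h (g, none)}
      one_mem' := fun g => by rw [mul_one]
      mul_mem' := fun {a b} ha hb g => by rw [← mul_assoc, hb, ha]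
      inv_mem' := fun {a} ha g => by rw [← ha, inv_mul_cancel_right] }
  have hH : H = ⊤ := by
    refine caya_top hl N (fun u hu g => hN _ _ ((caya_iff _ _ _).2 ⟨?_, rfl⟩)) fun i g => ?_
    · rw [map_mul, (pr_eq_one_iff N u).2 hu, mul_one]
    · exact he (g, some i) (by simp)
  obtain ⟨g, o⟩ := v
  obtain rfl : o = none := not_not.1 hv
  have := (hH ▸ Subgroup.mem_top g : g ∈ H) 1
  rwa [one_mul] at this

theorem cayR_iff (N : OpenNormalSubgroup G) (x y : G × Option (Fin r)) :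
    cayR N x y ↔ pr N x.1 = pr N y.1 ∧ x.2 = y.2 := by
  exact caya_iff N x y

theorem cayR_fin (N : OpenNormalSubgroup G) : Finite (Quotient (cayR (r := r) N)) := by
  exact Finite.of_injective _ (Setoid.kerLift_injective _)

/-- The profinite Cayley tree. -/
def cay (p : ℕ) [Fact p.Prime] (hl : IsBasis l) :
    Gr p (G × Option (Fin r)) (OpenNormalSubgroup G) where
  isE x := x.2 ≠ none
  s x := (x.1, none)
  t := cayT l
  o := (1, none)
  hs _ := by simp
  ht _ := by simp [cayT]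
  ho := by simp
  r := cayR
  ne := inferInstance
  fin := cayR_fin
  dir a b := ⟨a ⊓ b, fun x y h => (cayR_iff _ _ _).2
      ⟨pr_mono inf_le_left ((cayR_iff _ _ _).1 h).1, ((cayR_iff _ _ _).1 h).2⟩,
    fun x y h => (cayR_iff _ _ _).2
      ⟨pr_mono inf_le_right ((cayR_iff _ _ _).1 h).1, ((cayR_iff _ _ _).1 h).2⟩⟩
  rE a x y h := by rw [((cayR_iff _ _ _).1 h).2]
  rs a x y h := (cayR_iff _ _ _).2 ⟨((cayR_iff _ _ _).1 h).1, rfl⟩
  rt a x y h := (cayR_iff _ _ _).2 ⟨by
    simp only [cayT, map_mul, ((cayR_iff _ _ _).1 h).1, ((cayR_iff _ _ _).1 h).2], rfl⟩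
  prim := cay_prim hl
  const := cay_const hl

/-- Coordinatewise left multiplication. -/
def lm (A : ZMod p → G) (x : ZMod p → G × Option (Fin r)) : ZMod p → G × Option (Fin r) :=
  fun i => (A i * (x i).1, (x i).2)

/-- The twisted diagonal action of `G`. -/
def act (θ : MulAut G) (u : G) (x : ZMod p → G × Option (Fin r)) : ZMod p → G × Option (Fin r) :=
  lm (fun i => (θ ^ i.val) u) x

/-- Invariance under `U`. -/
def Inv (θ : MulAut G) (U : Subgroup G) (b : (ZMod p → G × Option (Fin r)) → ZMod p) : Prop :=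
  ∀ u ∈ U, ∀ x, b (act θ u x) = b x

omit [TopologicalSpace G] [IsTopologicalGroup G] [CompactSpace G] [TotallyDisconnectedSpace G] in
theorem act_mul (θ : MulAut G) (u v : G) (x : ZMod p → G × Option (Fin r)) :
    act θ (u * v) x = act θ u (act θ v x) := by
  funext i
  simp only [act, lm, map_mul, mul_assoc]

omit [TopologicalSpace G] [IsTopologicalGroup G] [CompactSpace G] [TotallyDisconnectedSpace G] in
theorem act_one (θ : MulAut G) (x : ZMod p → G × Option (Fin r)) : act θ 1 x = x := by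
  funext i
  simp only [act, lm, map_one, one_mul]

omit [TopologicalSpace G] [IsTopologicalGroup G] [CompactSpace G] [TotallyDisconnectedSpace G] in
theorem pow_val_add_one {θ : MulAut G} (hp : θ ^ p = 1) (i : ZMod p) :
    θ ^ (i + 1).val = θ ^ i.val * θ := by
  rw [ZMod.val_add, ZMod.val_one, ← pow_eq_pow_mod _ hp, pow_succ]

omit [TopologicalSpace G] [IsTopologicalGroup G] [CompactSpace G] [TotallyDisconnectedSpace G] in
theorem sg_act {θ : MulAut G} (hp : θ ^ p = 1) (u : G) (x : ZMod p → G × Option (Fin r)) :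
    sg p _ (act θ u x) = act θ (θ u) (sg p _ x) := by
  funext i
  change act θ u x (i + 1) = ((θ ^ i.val) (θ u) * (x (i + 1)).1, (x (i + 1)).2)
  simp only [act, lm, pow_val_add_one hp, MulAut.mul_apply]

theorem deg_lm (hl : IsBasis l) (A : ZMod p → G) (x : ZMod p → G × Option (Fin r)) :
    (cay p hl).deg (lm A x) = (cay p hl).deg x := by
  exact (cay p hl).deg_comp (cay p hl) (fun i y => (A i * y.1, y.2)) (fun _ _ => Iff.rfl) x

theorem dI_lm (hl : IsBasis l) (A : ZMod p → G) (I : Finset (ZMod p))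
    (b : (ZMod p → G × Option (Fin r)) → ZMod p) (x : ZMod p → G × Option (Fin r)) :
    (cay p hl).dI I (fun y => b (lm A y)) x = (cay p hl).dI I b (lm A x) := by
  exact (cay p hl).dI_comp (cay p hl) (fun i y => (A i * y.1, y.2)) (fun _ _ => Iff.rfl)
    (fun _ _ _ => rfl) (fun i y _ => by simp only [cay, cayT, mul_assoc]) I b x

theorem Inv.dI (hl : IsBasis l) {θ : MulAut G} {U : Subgroup G}
    {b : (ZMod p → G × Option (Fin r)) → ZMod p} (hb : Inv θ U b) (I : Finset (ZMod p)) :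
    Inv θ U ((cay p hl).dI I b) := by
  intro u hu x
  rw [act, ← dI_lm]
  congr 1
  funext y
  exact hb u hu y

omit [TopologicalSpace G] [IsTopologicalGroup G] [CompactSpace G] [TotallyDisconnectedSpace G] in
theorem Inv.op {θ : MulAut G} (hp : θ ^ p = 1) {U : Subgroup G} (hU : ∀ u ∈ U, θ u ∈ U)
    {b : (ZMod p → G × Option (Fin r)) → ZMod p} (hb : Inv θ U b) (m : ℕ) :
    Inv θ U (op m b) := by
  intro u hu x
  have h1 : ∀ k : ℕ, ∃ v ∈ U, (sg p _ ^ k) (act θ u x) = act θ v ((sg p _ ^ k) x) := by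
    intro k
    induction k with
    | zero => exact ⟨u, hu, rfl⟩
    | succ k ih =>
      obtain ⟨v, hv, h⟩ := ih
      refine ⟨θ v, hU v hv, ?_⟩
      rw [pow_succ', Equiv.Perm.mul_apply, Equiv.Perm.mul_apply, h, sg_act hp]
  unfold MP_1c2b6e_al.op
  split_ifs
  · refine Finset.sum_congr rfl fun k _ => ?_
    obtain ⟨v, hv, h⟩ := h1 k
    rw [h, hb v hv]
  · simp only [rho]
    rw [sg_act hp, hb u hu, hb _ (hU u hu)]

end Pool.Agent.MP_1c2b6e_al

/-! Cohomology of the invariant cochains. -/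

namespace Pool.Agent.MP_1c2b6e_al

open Classical

variable {G : Type} [Group G] [TopologicalSpace G] [IsTopologicalGroup G] [CompactSpace G]
  [TotallyDisconnectedSpace G] {r : ℕ} {l : Fin (r + 1) → G} {p : ℕ} [Fact p.Prime]

omit [IsTopologicalGroup G] [CompactSpace G] [TotallyDisconnectedSpace G] in
/-- The `U`-component of `g` for a choice of right coset representatives. -/
theorem exists_retr (U : Subgroup G) : ∃ u : G → G, (∀ g, u g ∈ U) ∧
    (∀ v ∈ U, ∀ g, u (v * g) = v * u g) ∧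
    ∀ N : OpenNormalSubgroup G, N.toSubgroup ≤ U → ∀ a b, pr N a = pr N b →
      pr N (u a) = pr N (u b) := by
  let rep : G → G := fun g => (Quotient.mk (QuotientGroup.rightRel U) g).out
  have h1 : ∀ g, g * (rep g)⁻¹ ∈ U := fun g =>
    QuotientGroup.rightRel_apply.1 (Quotient.exact (Quotient.out_eq (Quotient.mk _ g)))
  have h2 : ∀ a b, b * a⁻¹ ∈ U → rep a = rep b := fun a b h =>
    congrArg Quotient.out (Quotient.sound (QuotientGroup.rightRel_apply.2 h))
  refine ⟨fun g => g * (rep g)⁻¹, h1, fun v hv g => ?_, fun N hN a b hab => ?_⟩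
  · have : rep g = rep (v * g) := h2 _ _ (by simpa using hv)
    simp only [← this, mul_assoc]
  · have h3 : a⁻¹ * b ∈ N.toSubgroup := (pr_eq_iff N a b).1 hab
    have h4 := N.isNormal'.conj_mem _ h3 a
    have : rep a = rep b := h2 _ _ (hN (by simpa [mul_assoc] using h4))
    simp only [map_mul, this, hab]

theorem cay_dI_congr (hl : IsBasis l) {c c' : (ZMod p → G × Option (Fin r)) → ZMod p}
    {x : ZMod p → G × Option (Fin r)} (h : ∀ y, y 0 = x 0 → c y = c' y) :
    (cay p hl).dI (Finset.univ.erase 0) c x = (cay p hl).dI (Finset.univ.erase 0) c' x := by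
  unfold Gr.dI
  refine Finset.sum_congr rfl fun i hi => ?_
  have hi0 : (0 : ZMod p) ≠ i := (Finset.ne_of_mem_erase hi).symm
  unfold Gr.d1
  rw [h _ (Function.update_of_ne hi0 _ _), h _ (Function.update_of_ne hi0 _ _)]

omit [TopologicalSpace G] [IsTopologicalGroup G] [CompactSpace G] [TotallyDisconnectedSpace G] in
theorem cay_act_zero (θ : MulAut G) (u : G) (x : ZMod p → G × Option (Fin r)) :
    act θ u x 0 = (u * (x 0).1, (x 0).2) := by
  simp [act, lm]

theorem cay_char (hl : IsBasis l) {θ : MulAut G} (hθ : Continuous θ) {U : Subgroup G}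
    (hU : IsOpen (U : Set G)) (N : OpenNormalSubgroup G) :
    ∃ M : OpenNormalSubgroup G, M ≤ N ∧ M.toSubgroup ≤ U ∧
      ∀ (k : ℕ) (a b : G), pr M a = pr M b → pr M ((θ ^ k) a) = pr M ((θ ^ k) b) := by
  obtain ⟨N1, h1⟩ := exists_le_of_isOpen U hU
  obtain ⟨M, h2, h3⟩ := hl.exists_char (N ⊓ N1)
  refine ⟨M, h2.trans inf_le_left, fun g hg => h1 ((h2.trans inf_le_right) hg),
    fun k a b hab => ?_⟩
  rw [pr_eq_iff, ← map_inv, ← map_mul]
  exact h3 (θ ^ k).toMonoidHom (continuous_pow_aut θ hθ k) _ ((pr_eq_iff M a b).1 hab)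

theorem cay_r_iff (hl : IsBasis l) (N : OpenNormalSubgroup G) (x y : G × Option (Fin r)) :
    (cay p hl).r N x y ↔ pr N x.1 = pr N y.1 ∧ x.2 = y.2 :=
  cayR_iff N x y

theorem cay_deg_le_one (hl : IsBasis l) {x : ZMod p → G × Option (Fin r)}
    (h : ∀ i, i ≠ 0 → (x i).2 = none) : (cay p hl).deg x ≤ 1 := by
  unfold Gr.deg
  refine Finset.card_le_one.2 fun a ha b hb => ?_
  have h1 : a = 0 := by
    by_contra h0
    exact (Finset.mem_filter.1 ha).2 (h a h0)
  have h2 : b = 0 := by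
    by_contra h0
    exact (Finset.mem_filter.1 hb).2 (h b h0)
  rw [h1, h2]

theorem cay_d1_vertex (hl : IsBasis l) (c : (ZMod p → G × Option (Fin r)) → ZMod p)
    {x : ZMod p → G × Option (Fin r)} (h : (x 0).2 = none) : (cay p hl).d1 0 c x = 0 := by
  unfold Gr.d1
  exact if_neg fun h1 => h1 h

theorem cay_d1_zero (hl : IsBasis l) {c : (ZMod p → G × Option (Fin r)) → ZMod p}
    (h : ∀ x, (x 0).2 = none → c x = 0) : (cay p hl).d1 0 c = 0 := by
  funext x
  unfold Gr.d1
  rw [h _ (by rw [Function.update_self]; rfl), h _ (by rw [Function.update_self]; rfl)]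
  simp

/-- Invariant acyclicity in the coordinates `≠ 0`. Hint: take `c₀` from `Gr.acyc` and put
`c x = c₀ (act θ (u (x 0).1)⁻¹ x)` with `u` from `exists_retr`; the coordinate `0` is not changed
by the faces. For smoothness use a characteristic `N ≤ U` (`exists_char`). -/
theorem acyc_inv (hl : IsBasis l) {θ : MulAut G} (hθ : Continuous θ) {U : Subgroup G}
    (hU : IsOpen (U : Set G)) {b : (ZMod p → G × Option (Fin r)) → ZMod p}
    (hb : (cay p hl).Sm b) (hi : Inv θ U b) (hd : (cay p hl).dI (Finset.univ.erase 0) b = 0)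
    (h0 : ∀ x, (∀ i, i ≠ 0 → (x i).2 = none) → b x = 0) :
    ∃ c, (cay p hl).Sm c ∧ Inv θ U c ∧ (cay p hl).dI (Finset.univ.erase 0) c = b ∧
      ∀ x, (∀ y, (y 0).2 = (x 0).2 → (cay p hl).deg y = (cay p hl).deg x + 1 → b y = 0) →
        c x = 0 := by
  obtain ⟨c0, ⟨N, hN⟩, hc2, hc3⟩ := (cay p hl).acyc (Finset.univ.erase 0) hb hd
    (fun x hx => h0 x fun i hi0 =>
      not_not.1 (hx i (Finset.mem_erase.2 ⟨hi0, Finset.mem_univ i⟩)))
  obtain ⟨u, hu1, hu2, hu3⟩ := exists_retr U
  refine ⟨fun x => c0 (act θ (u (x 0).1)⁻¹ x), ?_, ?_, ?_, ?_⟩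
  · obtain ⟨M, hM1, hM2, hM3⟩ := cay_char hl hθ hU N
    refine ⟨M, fun x y hxy => hN _ _ fun i => ?_⟩
    have e0 := hu3 M hM2 _ _ ((cay_r_iff hl M _ _).1 (hxy 0)).1
    have e1 : pr M (u (x 0).1)⁻¹ = pr M (u (y 0).1)⁻¹ := by rw [map_inv, map_inv, e0]
    have e2 := hM3 i.val _ _ e1
    have e3 := (cay_r_iff hl M _ _).1 (hxy i)
    refine (cay_r_iff hl N _ _).2 ⟨pr_mono hM1 ?_, e3.2⟩
    change pr M ((θ ^ i.val) (u (x 0).1)⁻¹ * (x i).1) = pr M ((θ ^ i.val) (u (y 0).1)⁻¹ * (y i).1)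
    rw [map_mul, map_mul, e2, e3.1]
  · intro v hv x
    change c0 (act θ (u (act θ v x 0).1)⁻¹ (act θ v x)) = c0 (act θ (u (x 0).1)⁻¹ x)
    rw [cay_act_zero, hu2 v hv, ← act_mul]
    simp
  · funext x
    rw [cay_dI_congr hl (c' := fun y => c0 (act θ (u (x 0).1)⁻¹ y)) (fun y hy => by rw [hy])]
    have := dI_lm hl (fun i : ZMod p => (θ ^ i.val) (u (x 0).1)⁻¹) (Finset.univ.erase 0) c0 x
    refine this.trans ?_
    rw [hc2]
    exact hi _ (inv_mem (hu1 _)) x
  · intro x hx
    refine hc3 _ fun y hy hdeg => hx y ?_ ?_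
    · rw [hy 0 (by simp), cay_act_zero]
    · rw [hdeg]
      exact congrArg (· + 1) (deg_lm hl _ x)

/-- The invariant cochains have no cohomology in degrees `≥ 2`. Hint: apply `acyc_inv` to the part
of `b` supported on cells whose coordinate `0` is a vertex, subtract `D c`, and apply it again to
the rest, which is supported on cells whose coordinate `0` is an edge (`D_eq_add`). -/
theorem inv_exact (hl : IsBasis l) {θ : MulAut G} (hθ : Continuous θ) {U : Subgroup G}
    (hU : IsOpen (U : Set G)) {j : ℕ} {b : (ZMod p → G × Option (Fin r)) → ZMod p}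
    (hb : (cay p hl).Sm b) (hi : Inv θ U b) (hj : (cay p hl).HasDeg (j + 2) b)
    (hd : (cay p hl).D b = 0) :
    ∃ c, (cay p hl).Sm c ∧ Inv θ U c ∧ (cay p hl).HasDeg (j + 1) c ∧ (cay p hl).D c = b := by
  let b1 : (ZMod p → G × Option (Fin r)) → ZMod p := fun x => if (x 0).2 = none then b x else 0
  have s1 : (cay p hl).Sm b1 := by
    obtain ⟨N, hN⟩ := hb
    refine ⟨N, fun x y hxy => ?_⟩
    simp only [b1, ((cay_r_iff hl N _ _).1 (hxy 0)).2, hN x y hxy]
  have i1 : Inv θ U b1 := fun v hv x => by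
    simp only [b1, cay_act_zero, hi v hv x]
  have g1 : (cay p hl).HasDeg (j + 2) b1 := fun x hx => by simp [b1, hj x hx]
  have d1 : (cay p hl).dI (Finset.univ.erase 0) b1 = 0 := by
    funext x
    by_cases hx : (x 0).2 = none
    · rw [cay_dI_congr hl (c' := b) (fun y hy => by simp [b1, hy, hx])]
      have := congrFun ((cay p hl).D_eq_add 0 b) x
      rw [hd, Pi.add_apply, cay_d1_vertex hl b hx, zero_add] at this
      exact this.symm
    · rw [cay_dI_congr hl (c' := 0) (fun y hy => by simp [b1, hy, hx]), Gr.dI_zero]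
  obtain ⟨c1, sc1, ic1, dc1, zc1⟩ := acyc_inv hl hθ hU s1 i1 d1
    (fun x hx => g1 x (by have := cay_deg_le_one (p := p) hl hx; omega))
  have gc1 : (cay p hl).HasDeg (j + 1) c1 := fun x hx => zc1 x fun y _ hy => g1 y (by omega)
  let b2 : (ZMod p → G × Option (Fin r)) → ZMod p := b - (cay p hl).D c1
  have s2 : (cay p hl).Sm b2 := hb.sub (sc1.dI _)
  have i2 : Inv θ U b2 := fun v hv x => by
    have := ic1.dI hl Finset.univ v hv x
    simp only [b2, Pi.sub_apply, hi v hv x, Gr.D, this]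
  have g2 : (cay p hl).HasDeg (j + 2) b2 := fun x hx => by
    have := gc1.dI Finset.univ x hx
    simp only [b2, Pi.sub_apply, hj x hx, Gr.D, this, sub_zero]
  have v2 : ∀ x, (x 0).2 = none → b2 x = 0 := fun x hx => by
    have := congrFun ((cay p hl).D_eq_add 0 c1) x
    rw [Pi.add_apply, cay_d1_vertex hl c1 hx, zero_add, dc1] at this
    simp [b2, this, b1, hx]
  have D2 : (cay p hl).D b2 = 0 := by
    have e : (cay p hl).D b2 = (cay p hl).D b - (cay p hl).D ((cay p hl).D c1) :=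
      (cay p hl).dI_sub _ _ _
    rw [e, hd]
    have : (cay p hl).D ((cay p hl).D c1) = 0 := (cay p hl).dI_dI _ _
    rw [this, sub_zero]
  have d2 : (cay p hl).dI (Finset.univ.erase 0) b2 = 0 := by
    have := (cay p hl).D_eq_add 0 b2
    rw [D2, cay_d1_zero hl v2, zero_add] at this
    exact this.symm
  obtain ⟨c2, sc2, ic2, dc2, zc2⟩ := acyc_inv hl hθ hU s2 i2 d2
    (fun x hx => g2 x (by have := cay_deg_le_one (p := p) hl hx; omega))
  have gc2 : (cay p hl).HasDeg (j + 1) c2 := fun x hx => zc2 x fun y _ hy => g2 y (by omega)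
  have vc2 : ∀ x, (x 0).2 = none → c2 x = 0 := fun x hx =>
    zc2 x fun y hy _ => v2 y (hy.trans hx)
  have Dc2 : (cay p hl).D c2 = b2 := by
    rw [(cay p hl).D_eq_add 0 c2, cay_d1_zero hl vc2, zero_add, dc2]
  refine ⟨c1 + c2, sc1.add sc2, fun v hv x => ?_, fun x hx => ?_, ?_⟩
  · simp only [Pi.add_apply, ic1 v hv x, ic2 v hv x]
  · simp only [Pi.add_apply, gc1 x hx, gc2 x hx, add_zero]
  · have e : (cay p hl).D (c1 + c2) = (cay p hl).D c1 + (cay p hl).D c2 :=
      (cay p hl).dI_add _ _ _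
    rw [e, Dc2]
    simp [b2]

/-- The character defined by an invariant one-cocycle. Hint: `acyc_deg`, `acyc_zero`; put
`f u = h (act θ u x₀) - h x₀`. -/
theorem inv_class (hl : IsBasis l) {θ : MulAut G} (hθ : Continuous θ) {U : Subgroup G}
    (hU : IsOpen (U : Set G)) {z : (ZMod p → G × Option (Fin r)) → ZMod p}
    (hz : (cay p hl).Sm z) (hi : Inv θ U z) (hj : (cay p hl).HasDeg 1 z)
    (hd : (cay p hl).D z = 0) :
    ∃ (h : (ZMod p → G × Option (Fin r)) → ZMod p) (f : G → ZMod p),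
      (cay p hl).Sm h ∧ (cay p hl).HasDeg 0 h ∧ (cay p hl).D h = z ∧ IsCh U f ∧
      ∀ u ∈ U, ∀ x, (cay p hl).deg x = 0 → h (act θ u x) = h x + f u := by
  obtain ⟨h, sh, gh, dh⟩ := (cay p hl).acyc_deg (j := 0) hz hj hd
  let x0 : ZMod p → G × Option (Fin r) := fun _ => (1, none)
  have hx0 : (cay p hl).deg x0 = 0 := ((cay p hl).deg_eq_zero_iff x0).2 fun _ h1 => h1 rfl
  have key : ∀ u ∈ U, ∀ x, (cay p hl).deg x = 0 →
      h (act θ u x) = h x + (h (act θ u x0) - h x0) := fun u hu x hx => by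
    have s1 : (cay p hl).Sm (fun y => h (act θ u y)) := by
      obtain ⟨N, hN⟩ := sh
      refine ⟨N, fun a b hab => hN _ _ fun i => ?_⟩
      have e3 := (cay_r_iff hl N _ _).1 (hab i)
      refine (cay_r_iff hl N _ _).2 ⟨?_, e3.2⟩
      change pr N ((θ ^ i.val) u * (a i).1) = pr N ((θ ^ i.val) u * (b i).1)
      rw [map_mul, map_mul, e3.1]
    have d1 : ∀ y, (cay p hl).D ((fun y => h (act θ u y)) - h) y = 0 := fun y => by
      have e : (cay p hl).D ((fun y => h (act θ u y)) - h) =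
          (cay p hl).D (fun y => h (act θ u y)) - (cay p hl).D h := (cay p hl).dI_sub _ _ _
      have e2 : (cay p hl).D (fun y => h (act θ u y)) y = (cay p hl).D h (act θ u y) :=
        dI_lm hl (fun i : ZMod p => (θ ^ i.val) u) Finset.univ h y
      rw [e, Pi.sub_apply, e2, dh, hi u hu y, sub_self]
    have := (cay p hl).acyc_zero (s1.sub sh) (fun y _ => d1 y) hx hx0
    simp only [Pi.sub_apply] at this
    rw [← this]
    ring
  refine ⟨h, fun u => h (act θ u x0) - h x0, sh, gh, dh, ⟨fun a ha b hb => ?_, ?_⟩, key⟩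
  · have e : (cay p hl).deg (act θ b x0) = 0 := (deg_lm hl _ x0).trans hx0
    simp only [act_mul, key a ha _ e]
    ring
  · obtain ⟨N, hN⟩ := sh
    obtain ⟨M, hM1, hM2, hM3⟩ := cay_char hl hθ hU N
    refine ⟨M, fun u hu => ⟨hM2 hu, sub_eq_zero.2 (hN _ _ fun i => ?_)⟩⟩
    refine (cay_r_iff hl N _ _).2 ⟨pr_mono hM1 ?_, rfl⟩
    have e1 : pr M u = pr M 1 := by rw [map_one]; exact (pr_eq_one_iff M u).2 hu
    have e2 := hM3 i.val _ _ e1
    change pr M ((θ ^ i.val) u * 1) = pr M 1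
    rw [mul_one, e2, map_one]

end Pool.Agent.MP_1c2b6e_al

/-! Smith theory in degree one: characters of fixed subgroups extend. -/

namespace Pool.Agent.MP_1c2b6e_al

open Classical

variable {G : Type} [Group G] [TopologicalSpace G] [IsTopologicalGroup G] [CompactSpace G]
  [TotallyDisconnectedSpace G] {r : ℕ} {l : Fin (r + 1) → G} {p : ℕ} [Fact p.Prime]

/-- Compactness: almost fixed points are close to fixed points. -/
theorem exists_almost_fixed {θ : MulAut G} (hθ : Continuous θ) {U : Subgroup G}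
    (hU : IsOpen (U : Set G)) (N : OpenNormalSubgroup G) :
    ∃ M : OpenNormalSubgroup G, ∀ u ∈ U, pr M (θ u) = pr M u →
      ∃ w ∈ U, θ w = w ∧ pr N w = pr N u := by
  by_contra hn
  push Not at hn
  choose u hu h1 h2 using hn
  obtain ⟨y, hy⟩ := exists_cluster (ι := Unit) fun M _ => u M
  have hyU : y () ∈ U := by
    refine mem_of_pr (S := (U : Set G)) (U.isClosed_of_isOpen hU) fun K => ?_
    obtain ⟨M, -, hM⟩ := hy K K
    exact ⟨u M, hu M, (hM ()).symm⟩
  have hfix : θ (y ()) = y () := by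
    refine eq_of_pr fun K => ?_
    obtain ⟨M, hMK, hM⟩ := hy (K ⊓ pre θ.toMonoidHom hθ K) K
    have a1 : pr K (u M) = pr K (y ()) := pr_mono inf_le_left (hM ())
    have a2 : pr K (θ (u M)) = pr K (θ (y ())) :=
      (pr_pre θ.toMonoidHom hθ K).1 (pr_mono inf_le_right (hM ()))
    rw [← a1, ← a2]
    exact pr_mono hMK (h1 M)
  obtain ⟨M, -, hM⟩ := hy N N
  exact h2 M _ hyU hfix (hM ()).symm

/-- Compactness: non-conjugacy is seen at a finite level. -/
theorem exists_not_conj {θ : MulAut G} (hθ : Continuous θ) {U : Subgroup G}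
    (hU : IsOpen (U : Set G)) {E : Set G} (hE : E.Finite)
    (h : ∀ e ∈ E, ∀ u ∈ U, e ≠ u * (θ u)⁻¹) :
    ∃ M : OpenNormalSubgroup G, ∀ e ∈ E, ∀ u ∈ U, pr M e ≠ pr M (u * (θ u)⁻¹) := by
  have hS : IsClosed ((fun u => u * (θ u)⁻¹) '' (U : Set G)) :=
    ((U.isClosed_of_isOpen hU).isCompact.image (continuous_id.mul hθ.inv)).isClosed
  have h1 : ∀ e : E, ∃ M : OpenNormalSubgroup G, ∀ u ∈ U, pr M e.1 ≠ pr M (u * (θ u)⁻¹) := by
    intro e
    by_contra hn
    push Not at hn
    obtain ⟨u, hu, h2⟩ := mem_of_pr (a := e.1) hS fun K => by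
      obtain ⟨u, hu, h2⟩ := hn K
      exact ⟨_, ⟨u, hu, rfl⟩, h2⟩
    exact h e.1 e.2 u hu h2.symm
  choose K hK using h1
  have := hE.to_subtype
  obtain ⟨M, hM⟩ := exists_le_finite K
  exact ⟨M, fun e he u hu h2 => hK ⟨e, he⟩ u hu (pr_mono (hM _) h2)⟩

/-- The coefficients of the diagonal fixed by `e * θ`. -/
def dg (θ : MulAut G) (e : G) : ZMod p → G := fun i => (Nn θ e i.val)⁻¹

omit [TopologicalSpace G] [IsTopologicalGroup G] [CompactSpace G] [TotallyDisconnectedSpace G] in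
theorem dg_zero (θ : MulAut G) (e : G) : dg θ e (0 : ZMod p) = 1 := by
  rw [dg, ZMod.val_zero, Nn, inv_one]

omit [TopologicalSpace G] [IsTopologicalGroup G] [CompactSpace G] [TotallyDisconnectedSpace G] in
theorem dg_one (θ : MulAut G) (e : G) : dg θ e (1 : ZMod p) = e⁻¹ := by
  rw [dg, ZMod.val_one]
  simp [Nn]

omit [TopologicalSpace G] [IsTopologicalGroup G] [CompactSpace G] [TotallyDisconnectedSpace G] in
theorem dg_one_left (θ : MulAut G) (i : ZMod p) : dg θ 1 i = 1 := by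
  rw [dg, inv_eq_one]
  induction i.val with
  | zero => rfl
  | succ m ih => rw [Nn, ih, map_one, mul_one]

omit [TopologicalSpace G] [IsTopologicalGroup G] [CompactSpace G] [TotallyDisconnectedSpace G] in
theorem smitha_nn_succ {θ : MulAut G} {e : G} (he : Nn θ e p = 1) (i : ZMod p) :
    Nn θ e (i + 1).val = Nn θ e i.val * (θ ^ i.val) e := by
  have h1 := ZMod.val_lt i
  rw [ZMod.val_add, ZMod.val_one]
  rcases Nat.lt_or_ge (i.val + 1) p with h | h
  · rw [Nat.mod_eq_of_lt h, Nn]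
  · have h2 : i.val + 1 = p := by omega
    have h3 : Nn θ e (i.val + 1) = 1 := by rw [h2, he]
    rw [h2, Nat.mod_self, ← Nn, h3, Nn]

omit [TopologicalSpace G] [IsTopologicalGroup G] [CompactSpace G] [TotallyDisconnectedSpace G] in
theorem sg_lm_dg {θ : MulAut G} {e : G} (he : Nn θ e p = 1)
    (x : ZMod p → G × Option (Fin r)) :
    sg p _ (lm (dg θ e) x) = act θ e⁻¹ (lm (dg θ e) (sg p _ x)) := by
  funext i
  change ((Nn θ e (i + 1).val)⁻¹ * (x (i + 1)).1, (x (i + 1)).2) =
    ((θ ^ i.val) e⁻¹ * ((Nn θ e i.val)⁻¹ * (x (i + 1)).1), (x (i + 1)).2)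
  rw [smitha_nn_succ he, mul_inv_rev, map_inv, mul_assoc]

omit [TopologicalSpace G] [IsTopologicalGroup G] [CompactSpace G] [TotallyDisconnectedSpace G] in
theorem smitha_nn_fix {θ : MulAut G} {e w : G} (hw : e * θ w * e⁻¹ = w) (m : ℕ) :
    Nn θ e m * (θ ^ m) w = w * Nn θ e m := by
  induction m with
  | zero => simp [Nn]
  | succ m ih =>
    have h1 : e * θ w = w * e := by rw [← mul_inv_eq_iff_eq_mul, hw]
    rw [Nn, pow_succ, MulAut.mul_apply, mul_assoc, ← map_mul, h1, map_mul, ← mul_assoc, ih,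
      mul_assoc]

omit [TopologicalSpace G] [IsTopologicalGroup G] [CompactSpace G] [TotallyDisconnectedSpace G] in
theorem act_lm_dg {θ : MulAut G} {e w : G} (hw : e * θ w * e⁻¹ = w)
    (x : ZMod p → G × Option (Fin r)) :
    act θ w (lm (dg θ e) x) = lm (dg θ e) (lm (fun _ => w) x) := by
  funext i
  change ((θ ^ i.val) w * ((Nn θ e i.val)⁻¹ * (x i).1), (x i).2) =
    ((Nn θ e i.val)⁻¹ * (w * (x i).1), (x i).2)
  have h1 : (θ ^ i.val) w = (Nn θ e i.val)⁻¹ * (w * Nn θ e i.val) := by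
    rw [← smitha_nn_fix hw, inv_mul_cancel_left]
  rw [h1]
  congr 1
  group

/-- `x` is congruent mod `M` to the translate by `u ∈ U` of the diagonal cell of the edge `y`. -/
def smithaP (θ : MulAut G) (U : Subgroup G) (M : OpenNormalSubgroup G)
    (x : ZMod p → G × Option (Fin r)) (u : G) (y : G × Option (Fin r)) : Prop :=
  u ∈ U ∧ y.2 ≠ none ∧ ∀ i, pr M (x i).1 = pr M ((θ ^ i.val) u * y.1) ∧ (x i).2 = y.2

omit [IsTopologicalGroup G] [CompactSpace G] [TotallyDisconnectedSpace G] in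
theorem smithaP_zero {θ : MulAut G} {U : Subgroup G} {M : OpenNormalSubgroup G}
    {x : ZMod p → G × Option (Fin r)} {u : G} {y : G × Option (Fin r)}
    (h : smithaP θ U M x u y) : pr M (x 0).1 = pr M u * pr M y.1 := by
  have := (h.2.2 0).1
  rwa [ZMod.val_zero, pow_zero, MulAut.one_apply, map_mul] at this

omit [IsTopologicalGroup G] [CompactSpace G] [TotallyDisconnectedSpace G] in
theorem smithaP_one {θ : MulAut G} {U : Subgroup G} {M : OpenNormalSubgroup G}
    {x : ZMod p → G × Option (Fin r)} {u : G} {y : G × Option (Fin r)}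
    (h : smithaP θ U M x u y) : pr M (x 1).1 = pr M (θ u) * pr M y.1 := by
  have := (h.2.2 1).1
  rwa [ZMod.val_one, pow_one, map_mul] at this

omit [IsTopologicalGroup G] [CompactSpace G] [TotallyDisconnectedSpace G] in
theorem smithaP_act {θ : MulAut G} {U : Subgroup G} {M : OpenNormalSubgroup G}
    {x : ZMod p → G × Option (Fin r)} {u v : G} {y : G × Option (Fin r)} (hv : v ∈ U)
    (h : smithaP θ U M x u y) : smithaP θ U M (act θ v x) (v * u) y := by
  refine ⟨mul_mem hv h.1, h.2.1, fun i => ⟨?_, (h.2.2 i).2⟩⟩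
  change pr M ((θ ^ i.val) v * (x i).1) = _
  rw [map_mul, (h.2.2 i).1, ← map_mul, map_mul (θ ^ i.val), mul_assoc]

omit [IsTopologicalGroup G] [CompactSpace G] [TotallyDisconnectedSpace G] in
theorem smithaP_sg {θ : MulAut G} (hp : θ ^ p = 1) {U : Subgroup G} (hst : ∀ u ∈ U, θ u ∈ U)
    {M : OpenNormalSubgroup G} {x : ZMod p → G × Option (Fin r)} {u : G}
    {y : G × Option (Fin r)} (h : smithaP θ U M x u y) :
    smithaP θ U M (sg p _ x) (θ u) y := by
  refine ⟨hst u h.1, h.2.1, fun i => ⟨?_, (h.2.2 (i + 1)).2⟩⟩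
  have := (h.2.2 (i + 1)).1
  rwa [pow_val_add_one hp, MulAut.mul_apply] at this

omit [IsTopologicalGroup G] [CompactSpace G] [TotallyDisconnectedSpace G] in
theorem smithaP_sg_pow {θ : MulAut G} (hp : θ ^ p = 1) {U : Subgroup G}
    (hst : ∀ u ∈ U, θ u ∈ U) {M : OpenNormalSubgroup G} {x : ZMod p → G × Option (Fin r)}
    {y : G × Option (Fin r)} (h : ∃ u, smithaP θ U M x u y) (k : ℕ) :
    ∃ u, smithaP θ U M ((sg p _ ^ k) x) u y := by
  induction k with
  | zero => exact h
  | succ k ih =>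
    obtain ⟨u, hu⟩ := ih
    rw [pow_succ', Equiv.Perm.mul_apply]
    exact ⟨_, smithaP_sg hp hst hu⟩

/-- The invariant top cochain with prescribed values on the diagonals. Hint: choose a
characteristic `M` below the levels given by `exists_almost_fixed` (for the level of `a`) and
`exists_not_conj`; put `b x = a y` if `x` is congruent mod `M` to `act θ u (fun _ => y)` with
`u ∈ U`, `y` an edge, else `0`. Compare the coordinates `0` and `1`. -/
theorem exists_top (hl : IsBasis l) {θ : MulAut G} (hθ : Continuous θ) (hp : θ ^ p = 1)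
    {U : Subgroup G} (hU : IsOpen (U : Set G)) (hst : ∀ u ∈ U, θ u ∈ U)
    (a : G × Option (Fin r) → ZMod p)
    (ha : ∃ N : OpenNormalSubgroup G, ∀ x y, cayR N x y → a x = a y)
    (hW : ∀ w ∈ U, θ w = w → ∀ y : G × Option (Fin r), y.2 ≠ none → a (w * y.1, y.2) = a y)
    {E : Set G} (hE : E.Finite) (hEU : ∀ e ∈ E, ∀ u ∈ U, e ≠ u * (θ u)⁻¹) :
    ∃ b : (ZMod p → G × Option (Fin r)) → ZMod p, (cay p hl).Sm b ∧ Inv θ U b ∧
      (cay p hl).HasDeg p b ∧ (∀ x, b (sg p _ x) = b x) ∧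
      (∀ y : G × Option (Fin r), y.2 ≠ none → b (fun _ => y) = a y) ∧
      ∀ e ∈ E, ∀ y : G × Option (Fin r), b (lm (dg θ e) fun _ => y) = 0 := by
  obtain ⟨N, hN⟩ := ha
  obtain ⟨M₁, h₁⟩ := exists_almost_fixed hθ hU N
  obtain ⟨M₂, h₂⟩ := exists_not_conj hθ hU hE hEU
  obtain ⟨M, hMN, hM₁, hM₂⟩ : ∃ M : OpenNormalSubgroup G, M ≤ N ∧ M ≤ M₁ ∧ M ≤ M₂ :=
    ⟨N ⊓ (M₁ ⊓ M₂), inf_le_left, inf_le_right.trans inf_le_left, inf_le_right.trans inf_le_right⟩
  have wd : ∀ (x : ZMod p → G × Option (Fin r)) u y u' y', smithaP θ U M x u y →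
      smithaP θ U M x u' y' → a y = a y' := by
    intro x u y u' y' h h'
    have a0 := (smithaP_zero h).symm.trans (smithaP_zero h')
    have a1 := (smithaP_one h).symm.trans (smithaP_one h')
    have a2 : pr M (u'⁻¹ * u) * pr M y.1 = pr M y'.1 := by
      rw [map_mul, map_inv, mul_assoc, a0, inv_mul_cancel_left]
    have a3 : pr M (θ (u'⁻¹ * u)) * pr M y.1 = pr M y'.1 := by
      rw [map_mul θ, map_inv θ, map_mul, map_inv, mul_assoc, a1, inv_mul_cancel_left]
    obtain ⟨w, hw, hw1, hw2⟩ := h₁ _ (mul_mem (inv_mem h'.1) h.1)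
      (pr_mono hM₁ (mul_right_cancel (a3.trans a2.symm)))
    rw [← hW w hw hw1 y h.2.1]
    refine hN _ _ ((cayR_iff _ _ _).2 ⟨?_, (h.2.2 0).2.symm.trans (h'.2.2 0).2⟩)
    rw [← map_mul] at a2
    rw [← pr_mono hMN a2, map_mul, map_mul (pr N) (u'⁻¹ * u), hw2]
  obtain ⟨b, k1, k0⟩ : ∃ b : (ZMod p → G × Option (Fin r)) → ZMod p,
      (∀ x u y, smithaP θ U M x u y → b x = a y) ∧
      ∀ x, (∀ u y, ¬smithaP θ U M x u y) → b x = 0 := by
    refine ⟨fun x => if h : ∃ q : G × G × Option (Fin r), smithaP θ U M x q.1 q.2 then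
      a h.choose.2 else 0, fun x u y h => ?_, fun x h => dif_neg fun ⟨q, hq⟩ => h _ _ hq⟩
    have h3 : ∃ q : G × G × Option (Fin r), smithaP θ U M x q.1 q.2 := ⟨(u, y), h⟩
    exact (dif_pos h3).trans (wd x _ _ _ _ h3.choose_spec h)
  have tr : ∀ x x' : ZMod p → G × Option (Fin r),
      (∀ u y, smithaP θ U M x u y → ∃ u', smithaP θ U M x' u' y) →
      (∀ u y, smithaP θ U M x' u y → ∃ u', smithaP θ U M x u' y) → b x' = b x := by
    intro x x' h h'
    by_cases hx : ∃ u y, smithaP θ U M x u y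
    · obtain ⟨u, y, hx⟩ := hx
      obtain ⟨u', hx'⟩ := h u y hx
      rw [k1 x u y hx, k1 x' u' y hx']
    · push Not at hx
      rw [k0 x hx, k0 x' fun u y hx' => (h' u y hx').elim fun u' => hx u' y]
  refine ⟨b, ⟨M, fun x x' h => ?_⟩, fun v hv x => ?_, fun x hx => ?_, fun x => ?_,
    fun y hy => ?_, fun e he y => ?_⟩
  · have h3 : ∀ i, pr M (x i).1 = pr M (x' i).1 ∧ (x i).2 = (x' i).2 := fun i =>
      (cayR_iff _ _ _).1 (h i)
    exact tr x' x (fun u y hx => ⟨u, hx.1, hx.2.1, fun i =>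
        ⟨(h3 i).1.trans (hx.2.2 i).1, (h3 i).2.trans (hx.2.2 i).2⟩⟩)
      fun u y hx => ⟨u, hx.1, hx.2.1, fun i =>
        ⟨(h3 i).1.symm.trans (hx.2.2 i).1, (h3 i).2.symm.trans (hx.2.2 i).2⟩⟩
  · refine tr x _ (fun u y hx => ⟨_, smithaP_act hv hx⟩) fun u y hx => ⟨v⁻¹ * u, ?_⟩
    have h3 := smithaP_act (inv_mem hv) hx
    rwa [← act_mul, inv_mul_cancel, act_one] at h3
  · refine k0 x fun u y h => hx (((cay p hl).deg_eq_card_iff x).2 fun i => ?_)
    change (x i).2 ≠ none
    rw [(h.2.2 i).2]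
    exact h.2.1
  · refine tr x _ (fun u y hx => ⟨_, smithaP_sg hp hst hx⟩) fun u y hx => ?_
    have h3 := smithaP_sg_pow hp hst ⟨u, hx⟩ (p - 1)
    rwa [← Equiv.Perm.mul_apply, ← pow_succ, Nat.sub_add_cancel (Fact.out : p.Prime).one_le,
      sg_pow_card, Equiv.Perm.one_apply] at h3
  · exact k1 _ 1 y ⟨one_mem _, hy, fun i => ⟨by rw [map_one, one_mul], rfl⟩⟩
  · refine k0 _ fun u y' h => h₂ e he u h.1 (pr_mono hM₂ ?_)
    have a0 : pr M (dg θ e (0 : ZMod p) * y.1) = _ := smithaP_zero h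
    have a1 : pr M (dg θ e (1 : ZMod p) * y.1) = _ := smithaP_one h
    rw [dg_zero, one_mul] at a0
    rw [dg_one, map_mul, map_inv, a0, ← mul_assoc] at a1
    rw [map_mul, map_inv, ← mul_right_cancel a1, mul_inv_rev, inv_inv, mul_inv_cancel_left]

end Pool.Agent.MP_1c2b6e_al

/-! The global zigzag and Smith theory in degree one. -/

namespace Pool.Agent.MP_1c2b6e_al

open Classical

variable {G : Type} [Group G] [TopologicalSpace G] [IsTopologicalGroup G] [CompactSpace G]
  [TotallyDisconnectedSpace G] {r : ℕ} {l : Fin (r + 1) → G} {p : ℕ} [Fact p.Prime]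

omit [TopologicalSpace G] [IsTopologicalGroup G] [CompactSpace G] [TotallyDisconnectedSpace G] in
theorem smith1_pow_mem {θ : MulAut G} {U : Subgroup G} (hst : ∀ u ∈ U, θ u ∈ U) {u : G}
    (hu : u ∈ U) (k : ℕ) : (θ ^ k) u ∈ U := by
  induction k with
  | zero => exact hu
  | succ k ih => rw [pow_succ', MulAut.mul_apply]; exact hst _ ih

omit [TopologicalSpace G] [IsTopologicalGroup G] [CompactSpace G] [TotallyDisconnectedSpace G] in
theorem smith1_sg_act {θ : MulAut G} (hp : θ ^ p = 1) (u : G) (k : ℕ)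
    (x : ZMod p → G × Option (Fin r)) :
    (sg p _ ^ k) (act θ u x) = act θ ((θ ^ k) u) ((sg p _ ^ k) x) := by
  induction k with
  | zero => rfl
  | succ k ih =>
    rw [pow_succ', Equiv.Perm.mul_apply, ih, sg_act hp, pow_succ']
    rfl

theorem smith1_deg_pow {T Λ : Type} (Γ : Gr p T Λ) (k : ℕ) (x : ZMod p → T) :
    Γ.deg ((sg p T ^ k) x) = Γ.deg x := by
  induction k with
  | zero => rfl
  | succ k ih => rw [pow_succ', Equiv.Perm.mul_apply, Γ.deg_sg, ih]

/-- The cocycle that is integrated in degree `j`. -/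
noncomputable def smith1_z {T : Type} (b : ℕ → (ZMod p → T) → ZMod p) (j : ℕ) :
    (ZMod p → T) → ZMod p := if j = p then b p else op j (b j)

/-- The zigzag from degree `p` down to degree `m`. -/
def smith1_P (hl : IsBasis l) (θ : MulAut G) (U : Subgroup G)
    (a : (ZMod p → G × Option (Fin r)) → ZMod p) (m : ℕ)
    (b : ℕ → (ZMod p → G × Option (Fin r)) → ZMod p) : Prop :=
  b p = a ∧ (∀ j, m ≤ j → j ≤ p →
    (cay p hl).HasDeg j (b j) ∧ Inv θ U (b j) ∧ (cay p hl).Sm (b j)) ∧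
    ∀ j, m ≤ j → j < p → smith1_z b (j + 1) = (cay p hl).D (b j)

theorem smith1_coc (hl : IsBasis l) {θ : MulAut G} (hp : θ ^ p = 1) {U : Subgroup G}
    (hst : ∀ u ∈ U, θ u ∈ U) {a : (ZMod p → G × Option (Fin r)) → ZMod p}
    (h4 : ∀ x, a (sg p _ x) = a x) {m : ℕ} (hm : m ≤ p)
    {b : ℕ → (ZMod p → G × Option (Fin r)) → ZMod p} (hb : smith1_P hl θ U a m b) :
    (cay p hl).Sm (smith1_z b m) ∧ Inv θ U (smith1_z b m) ∧ (cay p hl).HasDeg m (smith1_z b m) ∧
      (cay p hl).D (smith1_z b m) = 0 := by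
  obtain ⟨b1, b2, b3⟩ := hb
  obtain ⟨c1, c2, c3⟩ := b2 m le_rfl hm
  by_cases e : m = p
  · subst e
    rw [smith1_z, if_pos rfl]
    exact ⟨c3, c2, c1, (cay _ hl).D_eq_zero_of_top c1⟩
  · rw [smith1_z, if_neg e]
    refine ⟨c3.op m, c2.op hp hst m, c1.op m, ?_⟩
    rw [Gr.D_op, ← b3 m le_rfl (by omega), smith1_z]
    split_ifs
    · exact op_eq_zero_of_inv m (b1 ▸ h4)
    · exact op_op m _

theorem smith1_z_update {T : Type} (b : ℕ → (ZMod p → T) → ZMod p) {m j : ℕ} (h1 : m < j)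
    (h2 : m < p) (c : (ZMod p → T) → ZMod p) :
    smith1_z (Function.update b m c) j = smith1_z b j := by
  rw [smith1_z, smith1_z, Function.update_of_ne h1.ne', Function.update_of_ne h2.ne']

theorem smith1_down (hl : IsBasis l) {θ : MulAut G} (hθ : Continuous θ) (hp : θ ^ p = 1)
    {U : Subgroup G} (hU : IsOpen (U : Set G)) (hst : ∀ u ∈ U, θ u ∈ U)
    {a : (ZMod p → G × Option (Fin r)) → ZMod p} (h1 : (cay p hl).Sm a) (h2 : Inv θ U a)
    (h3 : (cay p hl).HasDeg p a) (h4 : ∀ x, a (sg p _ x) = a x) (k : ℕ) :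
    ∀ m, m + 1 + k = p → ∃ b, smith1_P hl θ U a (m + 1) b := by
  induction k with
  | zero =>
    intro m hm
    refine ⟨fun _ => a, rfl, fun j j1 j2 => ?_, fun j j1 j2 => by omega⟩
    obtain rfl : j = p := by omega
    exact ⟨h3, h2, h1⟩
  | succ k ih =>
    intro m hm
    obtain ⟨b, hb⟩ := ih (m + 1) (by omega)
    obtain ⟨z1, z2, z3, z4⟩ := smith1_coc hl hp hst h4 (by omega) hb
    obtain ⟨c, c1, c2, c3, c4⟩ := inv_exact hl hθ hU z1 z2 z3 z4
    obtain ⟨b1, b2, b3⟩ := hb
    refine ⟨Function.update b (m + 1) c, ?_, fun j j1 j2 => ?_, fun j j1 j2 => ?_⟩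
    · rw [Function.update_of_ne (by omega), b1]
    · rcases j1.eq_or_lt with rfl | j3
      · rw [Function.update_self]
        exact ⟨c3, c2, c1⟩
      · rw [Function.update_of_ne j3.ne']
        exact b2 j j3 j2
    · rw [smith1_z_update b (by omega) (by omega)]
      rcases j1.eq_or_lt with rfl | j3
      · rw [Function.update_self, c4]
      · rw [Function.update_of_ne j3.ne']
        exact b3 j j3 j2

/-- The global zigzag. Hint: descending recursion with `inv_exact`, last step `inv_class`. -/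
theorem exists_zig (hl : IsBasis l) {θ : MulAut G} (hθ : Continuous θ) (hp : θ ^ p = 1)
    {U : Subgroup G} (hU : IsOpen (U : Set G)) (hst : ∀ u ∈ U, θ u ∈ U)
    {a : (ZMod p → G × Option (Fin r)) → ZMod p} (h1 : (cay p hl).Sm a) (h2 : Inv θ U a)
    (h3 : (cay p hl).HasDeg p a) (h4 : ∀ x, a (sg p _ x) = a x) :
    ∃ (b : ℕ → (ZMod p → G × Option (Fin r)) → ZMod p) (f : G → ZMod p),
      b p = a ∧ (∀ j ≤ p, (cay p hl).HasDeg j (b j)) ∧ (∀ j, 1 ≤ j → j ≤ p → Inv θ U (b j)) ∧
      (∀ j, j + 1 < p → op (j + 1) (b (j + 1)) = (cay p hl).D (b j)) ∧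
      b p = (cay p hl).D (b (p - 1)) ∧ (cay p hl).Sm (b 0) ∧ IsCh U f ∧
      (∀ u ∈ U, ∀ x, (cay p hl).deg x = 0 → b 0 (act θ u x) = b 0 x + f u) ∧
      ∀ u ∈ U, ∑ k ∈ Finset.range p, f ((θ ^ k) u) = 0 := by
  have p2 := (Fact.out : p.Prime).two_le
  obtain ⟨b, hb⟩ := smith1_down hl hθ hp hU hst h1 h2 h3 h4 (p - 1) 0 (by omega)
  obtain ⟨z1, z2, z3, z4⟩ := smith1_coc hl hp hst h4 (by omega) hb
  obtain ⟨h, f, c1, c2, c3, c4, c5⟩ := inv_class hl hθ hU z1 z2 z3 z4
  obtain ⟨b1, b2, b3⟩ := hb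
  have key : ∀ j < p, smith1_z (Function.update b 0 h) (j + 1) =
      (cay p hl).D (Function.update b 0 h j) := by
    intro j hj
    rw [smith1_z_update b (by omega) (by omega)]
    rcases Nat.eq_zero_or_pos j with rfl | j1
    · rw [Function.update_self, c3]
    · rw [Function.update_of_ne j1.ne']
      exact b3 j j1 hj
  refine ⟨Function.update b 0 h, f, ?_, fun j hj => ?_, fun j j1 j2 => ?_, fun j hj => ?_, ?_, ?_,
    c4, ?_, fun u hu => ?_⟩
  · rw [Function.update_of_ne (by omega), b1]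
  · rcases Nat.eq_zero_or_pos j with rfl | j1
    · rwa [Function.update_self]
    · rw [Function.update_of_ne j1.ne']
      exact (b2 j j1 hj).1
  · rw [Function.update_of_ne (by omega)]
    exact (b2 j j1 j2).2.1
  · rw [← key j (by omega), smith1_z, if_neg hj.ne]
  · rw [← key (p - 1) (by omega), smith1_z, if_pos (by omega)]
  · rwa [Function.update_self]
  · rwa [Function.update_self]
  · have d1 : (cay p hl).D (op 1 h) = 0 := by
      rw [Gr.D_op, c3, smith1_z, if_neg (by omega)]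
      refine op_eq_zero_of_inv 1 fun x => ?_
      have := congrFun (op_op 0 (b 1)) x
      rw [op, if_neg (by decide)] at this
      exact (sub_eq_zero.1 this).symm
    have d2 : (cay p hl).deg (fun _ => ((1 : G), (none : Option (Fin r)))) = 0 :=
      ((cay p hl).deg_eq_zero_iff _).2 fun _ => (cay p hl).ho
    have d3 := (cay p hl).acyc_zero (c1.op 1) (fun x _ => congrFun d1 x)
      ((deg_lm hl (fun i => (θ ^ i.val) u) _).trans d2) d2
    rw [op, if_pos odd_one] at d3
    have d4 : ∀ k, h ((sg p _ ^ k) (act θ u fun _ => (1, none))) =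
        h ((sg p _ ^ k) fun _ => (1, none)) + f ((θ ^ k) u) := fun k => by
      rw [smith1_sg_act hp, c5 _ (smith1_pow_mem hst hu k) _ ((smith1_deg_pow _ k _).trans d2)]
    have d5 : nm h (act θ u fun _ => (1, none)) = nm h (fun _ => (1, none)) := d3
    simp only [nm, d4, Finset.sum_add_distrib] at d5
    exact add_eq_left.1 d5

/-- Pull-back of the global zigzag to the standard cube over an edge `y` of a diagonal
(`Gr.dI_comp`, `Gr.deg_comp`, `sg_lm_dg`). -/
theorem zig_pull (hl : IsBasis l) {θ : MulAut G} (hp : θ ^ p = 1) {U : Subgroup G}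
    (hst : ∀ u ∈ U, θ u ∈ U) {e : G} (heU : e ∈ U)
    (he : Nn θ e p = 1) {b : ℕ → (ZMod p → G × Option (Fin r)) → ZMod p}
    (h1 : ∀ j ≤ p, (cay p hl).HasDeg j (b j)) (h2 : ∀ j, 1 ≤ j → j ≤ p → Inv θ U (b j))
    (h3 : ∀ j, j + 1 < p → op (j + 1) (b (j + 1)) = (cay p hl).D (b j))
    (h4 : b p = (cay p hl).D (b (p - 1))) {y : G × Option (Fin r)} (hy : y.2 ≠ none) :
    Zig fun j ω => b j (lm (dg θ e) fun i =>
      (ω i).elim y fun c => if c then cayT l y else (y.1, none)) := by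
  let c : Option Bool → G × Option (Fin r) := fun o =>
    o.elim y fun c => if c then cayT l y else (y.1, none)
  let m : ZMod p → Option Bool → G × Option (Fin r) := fun i o => (dg θ e i * (c o).1, (c o).2)
  have hE : ∀ i o, (cay p hl).isE (m i o) ↔ (stdGr p).isE o := by
    rintro i (_ | _ | _)
    · exact iff_of_true hy rfl
    · exact iff_of_false (fun h => h rfl) (fun h => by cases h)
    · exact iff_of_false (fun h => h rfl) (fun h => by cases h)
  have hD : ∀ a : (ZMod p → G × Option (Fin r)) → ZMod p,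
      (stdGr p).D (fun ω => a fun i => m i (ω i)) = fun ω => (cay p hl).D a fun i => m i (ω i) := by
    intro a
    funext ω
    refine Gr.dI_comp (cay p hl) (stdGr p) m hE ?_ ?_ _ a ω
    · rintro i _ rfl
      rfl
    · rintro i _ rfl
      exact Prod.ext (mul_assoc _ _ _).symm rfl
  have hS : ∀ (k : ℕ) (ω : ZMod p → Option Bool), ∃ u ∈ U,
      (sg p _ ^ k) (fun i => m i (ω i)) = act θ u fun i => m i ((sg p _ ^ k) ω i) := by
    intro k ω
    induction k with
    | zero => exact ⟨1, U.one_mem, (act_one θ _).symm⟩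
    | succ k ih =>
      obtain ⟨u, hu, e1⟩ := ih
      refine ⟨θ u * e⁻¹, U.mul_mem (hst u hu) (U.inv_mem heU), ?_⟩
      rw [pow_succ', Equiv.Perm.mul_apply, e1, sg_act hp, act_mul, pow_succ', Equiv.Perm.mul_apply]
      exact congrArg (act θ (θ u)) (sg_lm_dg he fun i => c ((sg p _ ^ k) ω i))
  have hO : ∀ (j : ℕ) (a : (ZMod p → G × Option (Fin r)) → ZMod p), Inv θ U a →
      op j (fun ω => a fun i => m i (ω i)) = fun ω => op j a fun i => m i (ω i) := by
    intro j a ha
    have h : ∀ (k : ℕ) (ω : ZMod p → Option Bool),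
        a ((sg p _ ^ k) fun i => m i (ω i)) = a fun i => m i ((sg p _ ^ k) ω i) := fun k ω => by
      obtain ⟨u, hu, e1⟩ := hS k ω
      rw [e1, ha u hu]
    funext ω
    unfold op
    split_ifs
    · simp only [nm, h]
    · have := h 1 ω
      rw [pow_one, pow_one] at this
      simp only [rho, this]
  refine (show Zig fun j ω => b j fun i => m i (ω i) from ⟨fun j hj ω hω => ?_, fun j hj => ?_, ?_⟩)
  · exact h1 j hj _ (by rwa [Gr.deg_comp (cay p hl) (stdGr p) m hE])
  · rw [hO _ _ (h2 _ (by omega) hj.le), hD, h3 j hj]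
  · rw [hD, ← h4]

/-- **Smith theory, degree one.** Hint: `v` from `std_cube`; `a y = v⁻¹ * (η (end) - η (start))`;
the function `y ↦ b 0 (lm (dg θ e) fun _ => y)` is smooth with differential `v * a` (for `e = 1`)
or `0` (for `e ∈ E`); use `cay_const` and `act_lm_dg`. -/
theorem smith1 (hl : IsBasis l) {θ : MulAut G} (hθ : Continuous θ) (hp : θ ^ p = 1)
    {U : Subgroup G} (hU : IsOpen (U : Set G)) (hst : ∀ u ∈ U, θ u ∈ U) (η fW : G → ZMod p)
    (hη : ∃ N : OpenNormalSubgroup G, ∀ a b, pr N a = pr N b → η a = η b)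
    (hW : ∀ w ∈ U, θ w = w → ∀ g, η (w * g) = η g + fW w) {E : Set G} (hE : E.Finite)
    (hEU : ∀ e ∈ E, e ∈ U ∧ Nn θ e p = 1 ∧ ∀ u ∈ U, e ≠ u * (θ u)⁻¹) :
    ∃ f : G → ZMod p, IsCh U f ∧ (∀ u ∈ U, ∑ k ∈ Finset.range p, f ((θ ^ k) u) = 0) ∧
      (∀ w ∈ U, θ w = w → f w = fW w) ∧ ∀ e ∈ E, ∀ w ∈ U, e * θ w * e⁻¹ = w → f w = 0 := by
  obtain ⟨v, hv, hz⟩ := std_cube p
  obtain ⟨N, hN⟩ := hη
  obtain ⟨A, a1, a2, a3, a4, a5, a6⟩ := exists_top hl hθ hp hU hst
    (fun y => v⁻¹ * (η (cayT l y).1 - η y.1)) ⟨N, fun x y h => by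
      rw [hN _ _ ((cayR_iff _ _ _).1 h).1,
        hN (cayT l x).1 (cayT l y).1 ((cayR_iff _ _ _).1 ((cay p hl).rt N x y h)).1]⟩
    (fun w hw e y _ => by simp only [cayT, mul_assoc, hW w hw e, add_sub_add_right_eq_sub])
    hE (fun e he => (hEU e he).2.2)
  obtain ⟨b, f, b1, b2, b3, b4, b5, ⟨M, hM⟩, b7, b8, b9⟩ := exists_zig hl hθ hp hU hst a1 a2 a3 a4
  have key : ∀ e ∈ U, Nn θ e p = 1 → ∀ ξ : G → ZMod p, (∀ a b, pr N a = pr N b → ξ a = ξ b) →
      (∀ y : G × Option (Fin r), y.2 ≠ none →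
        v * A (lm (dg θ e) fun _ => y) = ξ (cayT l y).1 - ξ y.1) →
      ∀ w ∈ U, e * θ w * e⁻¹ = w → f w = ξ w - ξ 1 := by
    intro e he hn ξ x1 x2 w hw ew
    have k1 := cay_const hl (fun y => b 0 (lm (dg θ e) fun _ => y) - ξ y.1)
      ⟨M ⊓ N, fun x y h => by
        obtain ⟨h1, h2⟩ := (cayR_iff _ _ _).1 h
        rw [x1 _ _ (pr_mono inf_le_right h1), hM (lm (dg θ e) fun _ => x)
          (lm (dg θ e) fun _ => y) fun i =>
          (cayR_iff _ _ _).2 ⟨by simp only [lm, map_mul, pr_mono inf_le_left h1], h2⟩]⟩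
      (fun y hy => by
        have k2 : b 0 (lm (dg θ e) fun _ => cayT l y) - b 0 (lm (dg θ e) fun _ => (y.1, none)) =
            v * b p (lm (dg θ e) fun _ => y) := hz _ (zig_pull hl hp hst he hn b2 b3 b4 b5 hy)
        rw [b1, x2 y hy] at k2
        linear_combination k2) (w, none) (fun h => h rfl)
    have k3 := b8 w hw (lm (dg θ e) fun _ => (1, none))
      (((cay p hl).deg_eq_zero_iff _).2 fun _ h => h rfl)
    have k4 : lm (fun _ => w) (fun _ : ZMod p => ((1 : G), (none : Option (Fin r)))) =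
        fun _ => (w, none) := by
      funext i
      simp only [lm, mul_one]
    rw [act_lm_dg ew, k4] at k3
    linear_combination k1 - k3
  refine ⟨f, b7, b9, fun w hw e => ?_, fun e he w hw ew => ?_⟩
  · have k1 : ∀ m, Nn θ 1 m = 1 := fun m => by
      induction m with
      | zero => rfl
      | succ m ih => rw [Nn, ih, map_one, mul_one]
    have k2 := hW w hw e 1
    rw [mul_one] at k2
    rw [key 1 U.one_mem (k1 p) η hN (fun y hy => ?_) w hw (by simpa using e), k2,
      add_sub_cancel_left]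
    have k3 : (lm (dg θ 1) fun _ : ZMod p => y) = fun _ => y := by
      funext i
      simp only [lm, dg_one_left, one_mul]
    rw [k3, a5 y hy, mul_inv_cancel_left₀ hv]
  · simpa using key e (hEU e he).1 (hEU e he).2.1 (fun _ => 0) (fun _ _ _ => rfl)
      (fun y _ => by rw [a6 e he, mul_zero, sub_zero]) w hw ew

end Pool.Agent.MP_1c2b6e_al

/-! Smith theory in degree zero for `p = 2`: classes of involutions are separated by characters. -/

namespace Pool.Agent.MP_1c2b6e_al

open Classical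

variable {G : Type} [Group G] [TopologicalSpace G] [IsTopologicalGroup G] [CompactSpace G]
  [TotallyDisconnectedSpace G] {r : ℕ} {l : Fin (r + 1) → G}

section Two

variable {T Λ : Type}

theorem smith0_sg0 (x : ZMod 2 → T) : sg 2 T x 0 = x 1 := rfl

theorem smith0_sg1 (x : ZMod 2 → T) : sg 2 T x 1 = x 0 := rfl

theorem smith0_cases (i : ZMod 2) : i = 0 ∨ i = 1 := by revert i; decide

theorem smith0_ext {x y : ZMod 2 → T} (h0 : x 0 = y 0) (h1 : x 1 = y 1) : x = y := by
  funext i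
  rcases smith0_cases i with rfl | rfl <;> assumption

theorem smith0_sgsg (x : ZMod 2 → T) : sg 2 T (sg 2 T x) = x := smith0_ext rfl rfl

theorem smith0_nm (b : (ZMod 2 → T) → ZMod 2) (x : ZMod 2 → T) :
    nm b x = b x + b (sg 2 T x) := by
  simp [nm, Finset.sum_range_succ]

theorem smith0_op (b : (ZMod 2 → T) → ZMod 2) : op 1 b = nm b := by simp [op]

theorem smith0_add_self (a : ZMod 2) : a + a = 0 := by revert a; decide

theorem smith0_neg (a : ZMod 2) : -a = a := by revert a; decide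

theorem smith0_sgn (Γ : Gr 2 T Λ) (x : ZMod 2 → T) (i : ZMod 2) : Γ.sgn x i = 1 := by
  refine Finset.prod_eq_one fun k _ => ?_
  unfold chi
  split_ifs
  · exact smith0_neg 1
  · rfl

theorem smith0_D (Γ : Gr 2 T Λ) (b : (ZMod 2 → T) → ZMod 2) (x : ZMod 2 → T) :
    Γ.D b x = Γ.d1 0 b x + Γ.d1 1 b x := by
  have h : (Finset.univ : Finset (ZMod 2)) = {0, 1} := by decide
  unfold Gr.D Gr.dI
  rw [h, Finset.sum_pair (by decide)]

theorem smith0_dI (Γ : Gr 2 T Λ) (b : (ZMod 2 → T) → ZMod 2) : Γ.dI {0} b = Γ.d1 0 b := by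
  funext x
  simp [Gr.dI]

theorem smith0_upd (x : ZMod 2 → T) (v : T) :
    Function.update (sg 2 T x) 0 v = sg 2 T (Function.update x 1 v) := by
  refine smith0_ext ?_ ?_
  · rw [smith0_sg0, Function.update_self, Function.update_self]
  · rw [smith0_sg1, Function.update_of_ne (by decide), Function.update_of_ne (by decide),
      smith0_sg1]

theorem smith0_nm_d (Γ : Gr 2 T Λ) {b : (ZMod 2 → T) → ZMod 2} (hb : ∀ x, b (sg 2 T x) = b x) :
    nm (Γ.d1 0 b) = Γ.D b := by
  funext x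
  rw [smith0_nm, smith0_D]
  congr 1
  unfold Gr.d1
  rw [smith0_sgn, smith0_sgn, smith0_upd, smith0_upd, hb, hb, smith0_sg0]

theorem smith0_dd (Γ : Gr 2 T Λ) (b : (ZMod 2 → T) → ZMod 2) (x : ZMod 2 → T) :
    Γ.D (Γ.d1 0 b) x = if Γ.isE (x 0) ∧ Γ.isE (x 1) then
      b (Function.update (Function.update x 1 (Γ.t (x 1))) 0 (Γ.t (x 0))) -
      b (Function.update (Function.update x 1 (Γ.t (x 1))) 0 (Γ.s (x 0))) -
      (b (Function.update (Function.update x 1 (Γ.s (x 1))) 0 (Γ.t (x 0))) -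
      b (Function.update (Function.update x 1 (Γ.s (x 1))) 0 (Γ.s (x 0)))) else 0 := by
  rw [smith0_D, Γ.d1_d1_self, Pi.zero_apply, zero_add]
  have e : ∀ v, Function.update x 1 v 0 = x 0 := fun v => Function.update_of_ne (by decide) _ _
  unfold Gr.d1
  simp only [smith0_sgn, one_mul, e]
  by_cases h0 : Γ.isE (x 0) <;> by_cases h1 : Γ.isE (x 1) <;> simp [h0, h1]

theorem smith0_nm_sub (b c : (ZMod 2 → T) → ZMod 2) : nm (b - c) = nm b - nm c := by
  funext x
  simp only [smith0_nm, Pi.sub_apply]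
  ring

theorem smith0_nm_nm (b : (ZMod 2 → T) → ZMod 2) : nm (nm b) = 0 := by
  funext x
  rw [smith0_nm, smith0_nm, smith0_nm, smith0_sgsg, add_comm (b (sg 2 T x)), smith0_add_self]
  rfl

end Two

/-- The indicator function of the trivial class modulo `M`. -/
noncomputable def smith0B (θ : MulAut G) (U : Subgroup G) (M : OpenNormalSubgroup G) (g : G) :
    ZMod 2 := if ∃ u ∈ U, pr M g = pr M (u * (θ u)⁻¹) then 1 else 0

section Ind

omit [IsTopologicalGroup G] [CompactSpace G] [TotallyDisconnectedSpace G]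

variable {θ : MulAut G} {U : Subgroup G} {M : OpenNormalSubgroup G}

theorem smith0B_pr {g g' : G} (h : pr M g = pr M g') : smith0B θ U M g = smith0B θ U M g' := by
  unfold smith0B
  rw [h]

theorem smith0B_conj {v : G} (hv : v ∈ U) (g : G) :
    smith0B θ U M (v * g * (θ v)⁻¹) = smith0B θ U M g := by
  unfold smith0B
  refine if_congr ⟨?_, ?_⟩ rfl rfl
  · rintro ⟨u, hu, h⟩
    refine ⟨v⁻¹ * u, U.mul_mem (U.inv_mem hv) hu, ?_⟩
    have e : g = v⁻¹ * (v * g * (θ v)⁻¹) * θ v := by group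
    have e' : v⁻¹ * u * (θ (v⁻¹ * u))⁻¹ = v⁻¹ * (u * (θ u)⁻¹) * θ v := by
      rw [map_mul, map_inv]; group
    rw [e', e, map_mul, map_mul, h, ← map_mul, ← map_mul]
  · rintro ⟨u, hu, h⟩
    refine ⟨v * u, U.mul_mem hv hu, ?_⟩
    have e' : v * u * (θ (v * u))⁻¹ = v * (u * (θ u)⁻¹) * (θ v)⁻¹ := by
      rw [map_mul]; group
    rw [e', map_mul, map_mul, h, ← map_mul, ← map_mul]

theorem smith0B_inv (hp : ∀ g, θ (θ g) = g) (hst : ∀ u ∈ U, θ u ∈ U) (g : G) :
    smith0B θ U M g⁻¹ = smith0B θ U M g := by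
  have key : ∀ g : G, (∃ u ∈ U, pr M g = pr M (u * (θ u)⁻¹)) →
      ∃ u ∈ U, pr M g⁻¹ = pr M (u * (θ u)⁻¹) := by
    rintro g ⟨u, hu, h⟩
    refine ⟨θ u, hst u hu, ?_⟩
    rw [map_inv, h, ← map_inv, hp, mul_inv_rev, inv_inv]
  unfold smith0B
  refine if_congr ⟨fun h => ?_, key g⟩ rfl rfl
  simpa using key _ h

omit [TopologicalSpace G] in
theorem smith0_act0 (u : G) (x : ZMod 2 → G × Option (Fin r)) :
    act θ u x 0 = (u * (x 0).1, (x 0).2) := by
  simp [act, lm]

omit [TopologicalSpace G] in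
theorem smith0_act1 (u : G) (x : ZMod 2 → G × Option (Fin r)) :
    act θ u x 1 = (θ u * (x 1).1, (x 1).2) := by
  simp [act, lm, ZMod.val_one]

/-- The cochain of degree zero. -/
noncomputable def smith0b (θ : MulAut G) (U : Subgroup G) (M : OpenNormalSubgroup G)
    (x : ZMod 2 → G × Option (Fin r)) : ZMod 2 :=
  if (x 0).2 = none ∧ (x 1).2 = none then smith0B θ U M ((x 0).1 * ((x 1).1)⁻¹) else 0

theorem smith0b_inv : Inv θ U (smith0b (r := r) θ U M) := by
  intro u hu x
  unfold smith0b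
  rw [smith0_act0, smith0_act1]
  refine if_congr Iff.rfl ?_ rfl
  rw [← smith0B_conj hu ((x 0).1 * ((x 1).1)⁻¹)]
  congr 1
  simp only [mul_inv_rev, mul_assoc]

theorem smith0b_sg (hp : ∀ g, θ (θ g) = g) (hst : ∀ u ∈ U, θ u ∈ U)
    (x : ZMod 2 → G × Option (Fin r)) : smith0b θ U M (sg 2 _ x) = smith0b θ U M x := by
  unfold smith0b
  rw [smith0_sg0, smith0_sg1]
  refine if_congr and_comm ?_ rfl
  rw [← smith0B_inv hp hst, mul_inv_rev, inv_inv]

theorem smith0b_upd (x : ZMod 2 → G × Option (Fin r)) (g0 g1 : G) :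
    smith0b θ U M (Function.update (Function.update x 1 (g1, none)) 0 (g0, none)) =
      smith0B θ U M (g0 * g1⁻¹) := by
  unfold smith0b
  rw [Function.update_self, Function.update_of_ne (by decide), Function.update_self]
  simp

end Ind

/-- Congruence of cells modulo `N` and the action of `U`. -/
def smith0R (θ : MulAut G) (U : Subgroup G) (N : OpenNormalSubgroup G) :
    Setoid (ZMod 2 → G × Option (Fin r)) where
  r x y := ∃ u ∈ U, ∀ i, cayR N (y i) (act θ u x i)
  iseqv := by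
    have key : ∀ (u : G) (x y : ZMod 2 → G × Option (Fin r)), (∀ i, cayR N (x i) (y i)) →
        ∀ i, cayR N (act θ u x i) (act θ u y i) := by
      intro u x y h i
      obtain ⟨h1, h2⟩ := (cayR_iff _ _ _).1 (h i)
      refine (cayR_iff _ _ _).2 ⟨?_, h2⟩
      simp only [act, lm, map_mul, h1]
    refine ⟨fun x => ⟨1, U.one_mem, fun i => by rw [act_one]⟩, ?_, ?_⟩
    · rintro x y ⟨u, hu, h⟩
      refine ⟨u⁻¹, U.inv_mem hu, fun i => ?_⟩
      have h2 := key u⁻¹ _ _ h i
      rw [← act_mul, inv_mul_cancel, act_one] at h2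
      exact (cayR N).symm h2
    · rintro x y z ⟨u, hu, h⟩ ⟨v, hv, h'⟩
      refine ⟨v * u, U.mul_mem hv hu, fun i => ?_⟩
      rw [act_mul]
      exact (cayR N).trans (h' i) (key v _ _ h i)

/-- A shift invariant cochain vanishing on the fixed classes is a norm. -/
theorem smith0_half (hl : IsBasis l) {θ : MulAut G} (hp : θ ^ 2 = 1) {U : Subgroup G}
    (hst : ∀ u ∈ U, θ u ∈ U) (M : OpenNormalSubgroup G)
    {m : (ZMod 2 → G × Option (Fin r)) → ZMod 2} (hm : (cay 2 hl).Sm m) (hi : Inv θ U m)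
    (hs : ∀ x, m (sg 2 _ x) = m x)
    (h0 : ∀ u ∈ U, ∀ x, (∀ i, cayR M (sg 2 _ x i) (act θ u x i)) → m x = 0) :
    ∃ z, (cay 2 hl).Sm z ∧ Inv θ U z ∧ (∀ x, m x = 0 → z x = 0) ∧ nm z = m := by
  obtain ⟨a, ha⟩ := hm
  obtain ⟨N, hN1, hN2⟩ := (cay 2 hl).dir a M
  obtain ⟨ord, -⟩ := exists_wellFoundedLT (Quotient (smith0R (r := r) θ U N))
  let q : (ZMod 2 → G × Option (Fin r)) → Quotient (smith0R (r := r) θ U N) := Quotient.mk _
  have hq : ∀ x y, (∃ u ∈ U, ∀ i, cayR N (y i) (act θ u x i)) →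
      q x = q y ∧ q (sg 2 _ x) = q (sg 2 _ y) ∧ m x = m y := by
    rintro x y ⟨u, hu, h⟩
    refine ⟨Quotient.sound ⟨u, hu, h⟩, Quotient.sound ⟨θ u, hst u hu, fun i => ?_⟩, ?_⟩
    · rw [← sg_act hp]
      exact h (i + 1)
    · rw [← hi u hu x]
      exact (ha _ _ fun i => hN1 _ _ (h i)).symm
  refine ⟨fun x => if q x < q (sg 2 _ x) then m x else 0, ⟨N, fun x y h => ?_⟩, fun u hu x => ?_,
    fun x hx => by simp [hx], ?_⟩
  · obtain ⟨h1, h2, h3⟩ := hq y x ⟨1, U.one_mem, fun i => by rw [act_one]; exact h i⟩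
    simp only [h1, h2, h3]
  · obtain ⟨h1, h2, h3⟩ := hq x (act θ u x) ⟨u, hu, fun i => (cayR N).refl _⟩
    simp only [h1, h2, h3]
  · funext x
    rw [smith0_nm, smith0_sgsg, hs]
    rcases lt_trichotomy (q x) (q (sg 2 _ x)) with h | h | h
    · simp [h, h.le]
    · obtain ⟨u, hu, h'⟩ := Quotient.exact h
      rw [h0 u hu x fun i => hN2 _ _ (h' i)]
      simp
    · simp [h, h.le]

/-- **Smith theory, degree zero, `p = 2`.** Plan (cells `x : ZMod 2 → G × Option (Fin r)`, all
signs are `1`). Take a characteristic `M ≤ U` below the level of `exists_not_conj`.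
* `b x = 1` if `x 0`, `x 1` are vertices and `(x 0).1 * ((x 1).1)⁻¹ ≡ u * (θ u)⁻¹ mod M` for some
  `u ∈ U`, else `0`: level `M`, `U`-invariant, shift invariant, degree `0`.
* `z₁ x = D b x` if `x 0` is an edge, else `0`; then `nm z₁ = D b`.
* `m = D z₁` has level `M`, is invariant under `U` and the shift, and `m x = 0` whenever
  `sg x ≡ act θ u x mod M` for some `u ∈ U` (the four terms cancel in pairs).
* On the quotient `Y` of the cells by (congruence mod `M` and the action of `U`) the shift induces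
  an involution; with a linear order on `Y` (`WellOrderingRel` or `Fintype.equivFin`) put
  `z₂ x = m x` if `[x] < [sg x]`, else `0`; then `nm z₂ = m`. (Or use `free_rho` on `Y`.)
* `z₂ = D z'` (`inv_exact`), `z = z₁ - nm z'` is a cocycle with `nm z = D b`; `h, f` from
  `inv_class`; `nm h - b` is a constant `κ` on vertices (`acyc_zero`); at `fun _ => (1, none)` this
  gives `κ = 1`; at `x = lm (dg θ e) fun _ => (1, none)` one has `sg x = act θ e⁻¹ x`, so
  `f e = b x + κ`. -/
theorem smith0 (hl : IsBasis l) {θ : MulAut G} (hθ : Continuous θ) (hp : θ ^ 2 = 1)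
    {U : Subgroup G} (hU : IsOpen (U : Set G)) (hst : ∀ u ∈ U, θ u ∈ U) {E : Set G}
    (hE : E.Finite) (hEU : ∀ e ∈ E, e ∈ U ∧ e * θ e = 1 ∧ ∀ u ∈ U, e ≠ u * (θ u)⁻¹) :
    ∃ f : G → ZMod 2, IsCh U f ∧ (∀ u ∈ U, f (u * (θ u)⁻¹) = 0) ∧ ∀ e ∈ E, f e = 1 := by
  obtain ⟨M, hM⟩ := exists_not_conj hθ hU hE fun e he => (hEU e he).2.2
  have hp' : ∀ g, θ (θ g) = g := fun g => by
    have h := congrArg (fun φ : MulAut G => φ g) hp
    simpa [pow_two] using h
  set Γ := cay 2 hl with hΓ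
  set b : (ZMod 2 → G × Option (Fin r)) → ZMod 2 := smith0b θ U M with hb
  have b1 : Γ.Sm b := by
    refine ⟨M, fun x y h => ?_⟩
    obtain ⟨h1, h2⟩ := (cayR_iff _ _ _).1 (h 0)
    obtain ⟨h3, h4⟩ := (cayR_iff _ _ _).1 (h 1)
    simp only [hb, smith0b, h2, h4]
    refine if_congr Iff.rfl (smith0B_pr ?_) rfl
    simp only [map_mul, map_inv, h1, h3]
  have b2 : Inv θ U b := smith0b_inv
  have b3 : ∀ x, b (sg 2 _ x) = b x := smith0b_sg hp' hst
  have b4 : Γ.HasDeg 0 b := by
    intro x hx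
    refine if_neg fun h => hx ((Γ.deg_eq_zero_iff x).2 fun i => ?_)
    rcases smith0_cases i with rfl | rfl
    · exact not_not.2 h.1
    · exact not_not.2 h.2
  have z1 : Γ.Sm (Γ.d1 0 b) := smith0_dI Γ b ▸ b1.dI {0}
  have z2 : Inv θ U (Γ.d1 0 b) := smith0_dI Γ b ▸ Inv.dI hl b2 {0}
  have z3 : Γ.HasDeg 1 (Γ.d1 0 b) := smith0_dI Γ b ▸ b4.dI {0}
  have z4 : nm (Γ.d1 0 b) = Γ.D b := smith0_nm_d Γ b3
  have Dnm : ∀ c, Γ.D (nm c) = nm (Γ.D c) := fun c => by
    rw [← smith0_op, ← smith0_op, Γ.D_op]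
  have m1 : ∀ x, Γ.D (Γ.d1 0 b) (sg 2 _ x) = Γ.D (Γ.d1 0 b) x := by
    intro x
    have h : nm (Γ.D (Γ.d1 0 b)) x = 0 := by
      rw [← Dnm, z4]
      exact congrFun (Γ.dI_dI Finset.univ b) x
    rw [smith0_nm] at h
    rw [eq_neg_of_add_eq_zero_right h, smith0_neg]
  have m2 : ∀ u ∈ U, ∀ x, (∀ i, cayR M (sg 2 _ x i) (act θ u x i)) → Γ.D (Γ.d1 0 b) x = 0 := by
    intro u hu x h
    obtain ⟨h1, h2⟩ := (cayR_iff _ _ _).1 (h 0)
    obtain ⟨h3, -⟩ := (cayR_iff _ _ _).1 (h 1)
    rw [smith0_sg0, smith0_act0] at h1 h2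
    rw [smith0_sg1, smith0_act1] at h3
    rw [smith0_dd]
    split_ifs
    swap
    · rfl
    change b (Function.update (Function.update x 1 (cayT l (x 1))) 0 (cayT l (x 0))) -
      b (Function.update (Function.update x 1 (cayT l (x 1))) 0 ((x 0).1, none)) -
      (b (Function.update (Function.update x 1 ((x 1).1, none)) 0 (cayT l (x 0))) -
      b (Function.update (Function.update x 1 ((x 1).1, none)) 0 ((x 0).1, none))) = 0
    unfold cayT
    simp only [hb, smith0b_upd]
    dsimp only at h1 h2 h3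
    rw [h2]
    generalize ((x 0).2.elim 1 fun i => l i.castSucc) = w
    have e1 : (x 0).1 * w * ((x 1).1 * w)⁻¹ = (x 0).1 * ((x 1).1)⁻¹ := by group
    have e2 : smith0B θ U M ((x 0).1 * ((x 1).1 * w)⁻¹) =
        smith0B θ U M ((x 0).1 * w * ((x 1).1)⁻¹) := by
      rw [← smith0B_inv hp' hst, ← smith0B_conj hu ((x 0).1 * w * ((x 1).1)⁻¹)]
      refine smith0B_pr ?_
      have e3 : u * ((x 0).1 * w * ((x 1).1)⁻¹) * (θ u)⁻¹ =
          u * (x 0).1 * w * (θ u * (x 1).1)⁻¹ := by group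
      rw [e3, mul_inv_rev, inv_inv, map_mul, map_mul, map_inv, h1, h3, ← map_inv, ← map_mul,
        ← map_mul]
    rw [e1, e2]
    generalize smith0B θ U M ((x 0).1 * ((x 1).1)⁻¹) = s
    generalize smith0B θ U M ((x 0).1 * w * ((x 1).1)⁻¹) = t
    revert s t
    decide
  obtain ⟨y, y1, y2, y3, y4⟩ := smith0_half hl hp hst M (z1.dI Finset.univ)
    (Inv.dI hl z2 Finset.univ) m1 m2
  have y5 : Γ.HasDeg 2 y := fun x hx => y3 x (z3.dI Finset.univ x hx)
  obtain ⟨c, c1, c2, c3, c4⟩ := inv_exact hl hθ hU (j := 0) y1 y2 y5 (Γ.D_eq_zero_of_top y5)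
  have w1 : Γ.Sm (Γ.d1 0 b - nm c) := z1.sub (smith0_op c ▸ c1.op 1)
  have w2 : Inv θ U (Γ.d1 0 b - nm c) := fun u hu x => by
    have h := Inv.op hp hst c2 1 u hu x
    rw [smith0_op] at h
    rw [Pi.sub_apply, Pi.sub_apply, z2 u hu x, h]
  have w3 : Γ.HasDeg 1 (Γ.d1 0 b - nm c) := fun x hx => by
    have h := c3.op 1 x hx
    rw [smith0_op] at h
    rw [Pi.sub_apply, z3 x hx, h, sub_zero]
  have w4 : Γ.D (Γ.d1 0 b - nm c) = 0 := by
    have h : Γ.D (Γ.d1 0 b - nm c) = Γ.D (Γ.d1 0 b) - Γ.D (nm c) := Γ.dI_sub _ _ _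
    rw [h, Dnm, c4, y4]
    exact sub_self _
  obtain ⟨h, f, h1, -, h3, h4, h5⟩ := inv_class hl hθ hU w1 w2 w3 w4
  have k1 : Γ.D (nm h - b) = 0 := by
    have h' : Γ.D (nm h - b) = Γ.D (nm h) - Γ.D b := Γ.dI_sub _ _ _
    rw [h', Dnm, h3, smith0_nm_sub, smith0_nm_nm, z4, sub_zero, sub_self]
  have k2 : Γ.Sm (nm h - b) := (smith0_op h ▸ h1.op 1 : Γ.Sm (nm h)).sub b1
  have vert : ∀ g : ZMod 2 → G, Γ.deg (fun i => (g i, none)) = 0 := fun g =>
    (Γ.deg_eq_zero_iff _).2 fun i => not_not.2 rfl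
  have val : ∀ e ∈ U, e * θ e = 1 →
      (nm h - b) (fun i => (if i = 0 then 1 else e⁻¹, none)) = f e - smith0B θ U M e := by
    intro e he he'
    have s : sg 2 _ (fun i : ZMod 2 => ((if i = 0 then 1 else e⁻¹, none) : G × Option (Fin r))) =
        act θ e⁻¹ (fun i => (if i = 0 then 1 else e⁻¹, none)) := by
      refine smith0_ext ?_ ?_
      · rw [smith0_sg0, smith0_act0]
        simp
      · rw [smith0_sg1, smith0_act1]
        simp only [if_true, one_ne_zero, if_false, map_inv]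
        rw [← mul_inv_rev, he', inv_one]
    rw [Pi.sub_apply, smith0_nm, s, h5 _ (U.inv_mem he) _ (vert _), ← add_assoc, smith0_add_self,
      zero_add, h4.inv he, smith0_neg]
    simp [hb, smith0b]
  have B1 : ∀ u ∈ U, smith0B θ U M (u * (θ u)⁻¹) = 1 := fun u hu => if_pos ⟨u, hu, rfl⟩
  have key : ∀ e ∈ U, e * θ e = 1 → f e = smith0B θ U M e + 1 := by
    intro e he he'
    have h6 := Γ.acyc_zero k2 (fun x _ => congrFun k1 x) (vert fun i => if i = 0 then 1 else e⁻¹)
      (vert fun i => if i = 0 then 1 else (1 : G)⁻¹)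
    have h7 := B1 1 U.one_mem
    rw [map_one, inv_one, mul_one] at h7
    rw [val e he he', val 1 U.one_mem (by simp), h4.one, h7, zero_sub, smith0_neg] at h6
    rw [← h6]
    ring
  refine ⟨f, h4, fun u hu => ?_, fun e he => ?_⟩
  · rw [key _ (U.mul_mem hu (U.inv_mem (hst u hu))) (by rw [map_mul, map_inv, hp']; group), B1 u hu]
    rfl
  · rw [key e (hEU e he).1 (hEU e he).2.1, smith0B, if_neg, zero_add]
    rintro ⟨u, hu, h⟩
    exact hM e he u hu h

end Pool.Agent.MP_1c2b6e_al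

end
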